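import Mathlib

/-!
# Ballistic deposition on `ℤ^d`: definitions

* `Site d`, `Height d` : the lattice and the integer valued height functions;
* `newHeight h x` : the height of `x` after an update at `x`;
* `IsPoissonClocks P upd` : `upd ω x`, `x : Site d`, are independent rate-one Poisson processes;
* `IsEvolution u f h` : `h t x` (`t ≥ 0`) is the ballistic deposition evolution started from `f`
  with update times `u`;
* `seen h` : the height function seen from the origin;
* `IsStationary μ` : `μ` is stationary for the height function seen from the origin.
-/

open MeasureTheory ProbabilityTheory Filter Topology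

namespace Pool.MP4bb68c

/-- The lattice `ℤ^d`. -/
abbrev Site (d : ℕ) : Type := Fin d → ℤ

/-- Integer valued functions on `ℤ^d`, with the product topology and the product `σ`-algebra. -/
abbrev Height (d : ℕ) : Type := Site d → ℤ

/-- The neighbour `x + e_i` (for `(i, true)`) or `x - e_i` (for `(i, false)`) of `x`. -/
def nb {d : ℕ} (x : Site d) (a : Fin d × Bool) : Site d :=
  x + Pi.single a.1 (if a.2 then 1 else -1)

/-- The candidates for the height of `x` after an update: `h x + 1` (for `none`) and the heights of
the neighbours of `x` (for `some a`). -/
def cand {d : ℕ} (h : Height d) (x : Site d) : Option (Fin d × Bool) → ℤ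
  | none => h x + 1
  | some a => h (nb x a)

/-- The height of `x` after an update at `x`: `max {max_i h (x ± e_i), h x + 1}`. -/
def newHeight {d : ℕ} (h : Height d) (x : Site d) : ℤ :=
  Finset.univ.sup' ⟨none, Finset.mem_univ _⟩ (cand h x)

/-- The number of update times of `x` in the interval `(a, b]`. -/
noncomputable def count {d : ℕ} (u : Site d → Set ℝ) (x : Site d) (a b : ℝ) : ℕ :=
  (u x ∩ Set.Ioc a b).ncard

/-- `upd ω x` (`x : Site d`) are independent rate-one Poisson processes of update times on
`(0, ∞)`: they are locally finite sets of positive reals, the number of points of `upd · x` in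
`(a, b]` is Poisson with parameter `b - a`, and for `0 ≤ t 0 ≤ t 1 ≤ ...` the numbers of points of
the `upd · x` in the intervals `(t k, t (k + 1)]` are independent, for all `x` and `k` together. -/
structure IsPoissonClocks {d : ℕ} {Ω : Type*} [MeasurableSpace Ω] (P : Measure Ω)
    (upd : Ω → Site d → Set ℝ) : Prop where
  pos : ∀ ω x, upd ω x ⊆ Set.Ioi 0
  finite : ∀ ω x T, (upd ω x ∩ Set.Iic T).Finite
  meas : ∀ x a b, Measurable fun ω => count (upd ω) x a b
  law : ∀ x a b, 0 ≤ a → a ≤ b →
    P.map (fun ω => count (upd ω) x a b) = poissonMeasure (b - a).toNNReal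
  indep : ∀ t : ℕ → ℝ, 0 ≤ t 0 → Monotone t →
    iIndepFun (fun (p : ℕ × Site d) ω => count (upd ω) p.2 (t p.1) (t (p.1 + 1))) P

/-- `h t x` (`t ≥ 0`) evolves from `f` by ballistic deposition with update times `u`: it starts
from `f`, the height of `x` does not change on time intervals without update of `x`, and if `x`
updates at time `t`, then the height of `x` becomes `newHeight` of the heights just before `t`. -/
structure IsEvolution {d : ℕ} (u : Site d → Set ℝ) (f : Height d) (h : ℝ → Height d) :
    Prop where
  init : h 0 = f
  const : ∀ x s t, 0 ≤ s → s ≤ t → u x ∩ Set.Ioc s t = ∅ → h t x = h s x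
  jump : ∀ x, ∀ t ∈ u x, ∀ᶠ s in 𝓝[<] t, h t x = newHeight (h s) x

/-- The height function seen from the origin. -/
def seen {d : ℕ} (h : Height d) : Height d := fun x => h x - h 0

/-- `μ` is stationary for ballistic deposition seen from the origin: if the initial height function
has law `μ` and is independent of the clocks, then at every time `t > 0` the height function seen
from the origin has law `μ`. (For every choice of the probability space, of the independent
rate-one Poisson clocks `upd` on it and of an evolution `H f ω` which is defined for almost every
`ω` for each initial function `f`.) -/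
def IsStationary {d : ℕ} (μ : Measure (Height d)) : Prop :=
  ∀ (Ω : Type) [MeasurableSpace Ω] (P : Measure Ω) [IsProbabilityMeasure P]
    (upd : Ω → Site d → Set ℝ), IsPoissonClocks P upd →
    ∀ H : Height d → Ω → ℝ → Height d, (∀ f, ∀ᵐ ω ∂P, IsEvolution (upd ω) f (H f ω)) →
    ∀ t : ℝ, 0 < t → ∀ A : Set (Height d), MeasurableSet A →
      ∫⁻ f, P {ω | seen (H f ω t) ∈ A} ∂μ = μ A

end Pool.MP4bb68c
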