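import Mathlib
import Pool.Agent.Work.MP_4bb68c_pr.Defs

/-!
# The synchronous approximation of ballistic deposition: basic objects

* `slotStep ξ h` : all sites `x` with `ξ x = true` are updated simultaneously;
* `slotLaw ℓ` : the law of the indicator of at least one update in a slot of length `ℓ`;
* `siteLaw ℓ` : independent such indicators at all sites;
* `stepK ℓ` : the corresponding Markov kernel on height functions;
* `lawK l` : the composition of these kernels over the list `l` of slot lengths; the head of the
  list is the most recent slot.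
-/

open MeasureTheory ProbabilityTheory Filter Topology
open scoped NNReal ENNReal

namespace Pool.MP4bb68c

variable {d : ℕ}

/-- All sites `x` with `ξ x = true` are updated simultaneously. -/
def slotStep (ξ : Site d → Bool) (h : Height d) : Height d :=
  fun x => if ξ x = true then newHeight h x else h x

/-- The law of the indicator of at least one point in a slot of length `ℓ`. -/
noncomputable def slotLaw (ℓ : ℝ≥0) : Measure Bool :=
  (poissonMeasure ℓ).map (fun n => decide (0 < n))

instance (ℓ : ℝ≥0) : IsProbabilityMeasure (slotLaw ℓ) :=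
  Measure.isProbabilityMeasure_map Measurable.of_discrete.aemeasurable

/-- Independent indicators at all sites. -/
noncomputable def siteLaw (d : ℕ) (ℓ : ℝ≥0) : Measure (Site d → Bool) :=
  Measure.infinitePi (fun _ : Site d => slotLaw ℓ)

instance (ℓ : ℝ≥0) : IsProbabilityMeasure (siteLaw d ℓ) := by
  unfold siteLaw; infer_instance

theorem measurable_newHeight (x : Site d) : Measurable (fun h : Height d => newHeight h x) := by
  unfold newHeight
  have := Finset.measurable_sup' (s := (Finset.univ : Finset (Option (Fin d × Bool))))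
    ⟨none, Finset.mem_univ _⟩ (f := fun a (h : Height d) => cand h x a) (by
      intro a _
      cases a with
      | none => exact (measurable_pi_apply x).add_const 1
      | some a => exact measurable_pi_apply _)
  convert this using 1
  ext h
  rw [Finset.sup'_apply]

theorem measurable_slotStep_uncurry :
    Measurable (fun p : Height d × (Site d → Bool) => slotStep p.2 p.1) := by
  rw [measurable_pi_iff]
  intro x
  unfold slotStep
  refine Measurable.ite ?_ ((measurable_newHeight x).comp measurable_fst)
    ((measurable_pi_apply x).comp measurable_fst)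
  exact measurableSet_eq_fun ((measurable_pi_apply x).comp measurable_snd) measurable_const

/-- One slot of length `ℓ`, as a Markov kernel. -/
noncomputable def stepK (d : ℕ) (ℓ : ℝ≥0) : Kernel (Height d) (Height d) :=
  (Kernel.id ×ₖ Kernel.const (Height d) (siteLaw d ℓ)).map
    (fun p : Height d × (Site d → Bool) => slotStep p.2 p.1)

instance (ℓ : ℝ≥0) : IsMarkovKernel (stepK d ℓ) :=
  Kernel.IsMarkovKernel.map _ measurable_slotStep_uncurry

/-- Composition over a list of slots; the head of the list is the most recent slot. -/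
noncomputable def lawK (d : ℕ) : List ℝ≥0 → Kernel (Height d) (Height d)
  | [] => Kernel.id
  | ℓ :: l => stepK d ℓ ∘ₖ lawK d l

instance instMarkovLawK (l : List ℝ≥0) : IsMarkovKernel (lawK d l) := by
  induction l with
  | nil => unfold lawK; infer_instance
  | cons ℓ l ih => unfold lawK; infer_instance

theorem stepK_apply (ℓ : ℝ≥0) (h : Height d) :
    stepK d ℓ h = (siteLaw d ℓ).map (fun ξ => slotStep ξ h) := by
  unfold stepK
  rw [Kernel.map_apply _ measurable_slotStep_uncurry, Kernel.prod_apply, Kernel.id_apply,
    Kernel.const_apply, Measure.dirac_prod, Measure.map_map measurable_slotStep_uncurry (by fun_prop)]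
  rfl


/-! ### Order properties -/

theorem newHeight_le_iff {h : Height d} {x : Site d} {c : ℤ} :
    newHeight h x ≤ c ↔ h x + 1 ≤ c ∧ ∀ a, h (nb x a) ≤ c := by
  unfold newHeight
  rw [Finset.sup'_le_iff]
  constructor
  · intro H
    exact ⟨H none (Finset.mem_univ _), fun a => H (some a) (Finset.mem_univ _)⟩
  · rintro ⟨H1, H2⟩ b _
    cases b with
    | none => exact H1
    | some a => exact H2 a

theorem succ_le_newHeight (h : Height d) (x : Site d) : h x + 1 ≤ newHeight h x :=
  (newHeight_le_iff.1 le_rfl).1

theorem nb_le_newHeight (h : Height d) (x : Site d) (a : Fin d × Bool) :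
    h (nb x a) ≤ newHeight h x :=
  (newHeight_le_iff.1 le_rfl).2 a

theorem newHeight_mono {h h' : Height d} (H : h ≤ h') (x : Site d) :
    newHeight h x ≤ newHeight h' x :=
  newHeight_le_iff.2 ⟨(add_le_add_left (H x) 1).trans (succ_le_newHeight h' x),
    fun a => (H _).trans (nb_le_newHeight h' x a)⟩

theorem le_slotStep (ξ : Site d → Bool) (h : Height d) : h ≤ slotStep ξ h := by
  intro x
  unfold slotStep
  split_ifs
  · exact (by linarith [succ_le_newHeight h x])
  · exact le_rfl

/-- All sites are updated. -/
def topStep (h : Height d) : Height d := fun x => newHeight h x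

theorem slotStep_le_topStep (ξ : Site d → Bool) (h : Height d) : slotStep ξ h ≤ topStep h := by
  intro x
  unfold slotStep topStep
  split_ifs
  · exact le_rfl
  · linarith [succ_le_newHeight h x]

theorem topStep_mono {h h' : Height d} (H : h ≤ h') : topStep h ≤ topStep h' :=
  fun x => newHeight_mono H x

theorem slotStep_mono_right (ξ : Site d → Bool) {h h' : Height d} (H : h ≤ h') :
    slotStep ξ h ≤ slotStep ξ h' := by
  intro x
  unfold slotStep
  split_ifs
  · exact newHeight_mono H x
  · exact H x

theorem slotStep_mono_left {ξ ξ' : Site d → Bool} (H : ∀ x, ξ x = true → ξ' x = true)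
    (h : Height d) : slotStep ξ h ≤ slotStep ξ' h := by
  intro x
  unfold slotStep
  by_cases h1 : ξ x = true
  · rw [if_pos h1, if_pos (H x h1)]
  · rw [if_neg h1]
    exact le_slotStep ξ' h x

/-- Two successive slots dominate the merged slot. -/
theorem slotStep_or_le (ξ ξ' : Site d → Bool) (h : Height d) :
    slotStep (fun x => ξ x || ξ' x) h ≤ slotStep ξ (slotStep ξ' h) := by
  intro x
  by_cases h1 : ξ x = true
  · have : slotStep (fun x => ξ x || ξ' x) h x = newHeight h x := by simp [slotStep, h1]
    rw [this]
    have h2 : slotStep ξ (slotStep ξ' h) x = newHeight (slotStep ξ' h) x := by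
      rw [slotStep, if_pos h1]
    rw [h2]
    exact newHeight_mono (le_slotStep ξ' h) x
  · have h3 : slotStep ξ (slotStep ξ' h) x = slotStep ξ' h x := by rw [slotStep, if_neg h1]
    rw [h3]
    have h4 : ξ x = false := by simpa using h1
    simp [slotStep, h4]

/-! ### Measurability and continuity -/

theorem measurable_slotStep (ξ : Site d → Bool) : Measurable (slotStep ξ) :=
  measurable_slotStep_uncurry.comp (f := fun h : Height d => (h, ξ)) (by fun_prop)

theorem measurable_slotStep_left (h : Height d) :
    Measurable (fun ξ : Site d → Bool => slotStep ξ h) :=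
  measurable_slotStep_uncurry.comp (f := fun ξ : Site d → Bool => (h, ξ)) (by fun_prop)

theorem continuous_newHeight (x : Site d) : Continuous (fun h : Height d => newHeight h x) := by
  unfold newHeight
  have := Continuous.finset_sup' (s := (Finset.univ : Finset (Option (Fin d × Bool))))
    ⟨none, Finset.mem_univ _⟩ (f := fun a (h : Height d) => cand h x a) (by
      intro a _
      cases a with
      | none => exact (continuous_apply x).add continuous_const
      | some a => exact continuous_apply _)
  convert this using 1
  ext h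
  rw [Finset.sup'_apply]

theorem continuous_slotStep (ξ : Site d → Bool) : Continuous (slotStep ξ) := by
  rw [continuous_pi_iff]
  intro x
  unfold slotStep
  by_cases h : ξ x = true
  · simp only [h, if_true]
    exact continuous_newHeight x
  · simp only [h]
    exact continuous_apply x

/-! ### The slot law -/

theorem slotLaw_false (ℓ : ℝ≥0) : slotLaw ℓ {false} = ENNReal.ofReal (Real.exp (-ℓ)) := by
  unfold slotLaw
  rw [Measure.map_apply Measurable.of_discrete (measurableSet_singleton _)]
  have : (fun n : ℕ => decide (0 < n)) ⁻¹' {false} = {0} := by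
    ext n
    simp [Nat.pos_iff_ne_zero]
  rw [this, poissonMeasure_singleton]
  simp

theorem slotLaw_real_false (ℓ : ℝ≥0) : (slotLaw ℓ).real {false} = Real.exp (-ℓ) := by
  rw [measureReal_def, slotLaw_false, ENNReal.toReal_ofReal (Real.exp_pos _).le]

theorem slotLaw_real_true (ℓ : ℝ≥0) : (slotLaw ℓ).real {true} = 1 - Real.exp (-ℓ) := by
  have h : ({true} : Set Bool) = {false}ᶜ := by
    ext b; cases b <;> simp
  rw [h, measureReal_compl (measurableSet_singleton _), slotLaw_real_false, probReal_univ]

theorem slotLaw_true (ℓ : ℝ≥0) : slotLaw ℓ {true} = ENNReal.ofReal (1 - Real.exp (-ℓ)) := by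
  rw [← slotLaw_real_true, measureReal_def, ENNReal.ofReal_toReal (measure_ne_top _ _)]

theorem siteLaw_map_eval (ℓ : ℝ≥0) (x : Site d) :
    (siteLaw d ℓ).map (fun ξ => ξ x) = slotLaw ℓ :=
  Measure.infinitePi_map_eval _ x

theorem siteLaw_real_true (ℓ : ℝ≥0) (x : Site d) :
    (siteLaw d ℓ).real {ξ | ξ x = true} = 1 - Real.exp (-ℓ) := by
  rw [← slotLaw_real_true, ← siteLaw_map_eval ℓ x, map_measureReal_apply (by fun_prop)
    (measurableSet_singleton _)]
  rfl

theorem siteLaw_real_false (ℓ : ℝ≥0) (x : Site d) :
    (siteLaw d ℓ).real {ξ | ξ x = false} = Real.exp (-ℓ) := by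
  rw [← slotLaw_real_false, ← siteLaw_map_eval ℓ x, map_measureReal_apply (by fun_prop)
    (measurableSet_singleton _)]
  rfl

/-! ### Almost sure bounds and integrability -/

theorem ae_stepK {ℓ : ℝ≥0} {h : Height d} {p : Height d → Prop} (hm : MeasurableSet {g | p g})
    (hp : ∀ ξ, p (slotStep ξ h)) : ∀ᵐ g ∂(stepK d ℓ h), p g := by
  rw [stepK_apply, ae_map_iff (measurable_slotStep_left h).aemeasurable hm]
  exact Filter.Eventually.of_forall hp

theorem lawK_nil (f : Height d) : lawK d [] f = Measure.dirac f := by
  rw [lawK, Kernel.id_apply]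

theorem lawK_cons (ℓ : ℝ≥0) (l : List ℝ≥0) (f : Height d) :
    lawK d (ℓ :: l) f = (lawK d l f).bind (stepK d ℓ) := by
  rw [lawK, Kernel.comp_apply]

theorem lawK_append (l l' : List ℝ≥0) : lawK d (l ++ l') = lawK d l ∘ₖ lawK d l' := by
  induction l with
  | nil => rw [List.nil_append, lawK, Kernel.id_comp]
  | cons ℓ l ih => rw [List.cons_append, lawK, ih, lawK, Kernel.comp_assoc]

/-- A deterministic upper bound for the height function after `n` slots. -/
def topIter (n : ℕ) (f : Height d) : Height d := topStep^[n] f

theorem topIter_succ (n : ℕ) (f : Height d) : topIter (n + 1) f = topStep (topIter n f) := by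
  unfold topIter
  rw [Function.iterate_succ_apply']

theorem ae_lawK_mem_Icc (l : List ℝ≥0) (f : Height d) :
    ∀ᵐ h ∂(lawK d l f), f ≤ h ∧ h ≤ topIter l.length f := by
  have hm : ∀ a b : Height d, MeasurableSet {g : Height d | a ≤ g ∧ g ≤ b} := fun a b =>
    measurableSet_Icc (a := a) (b := b)
  induction l with
  | nil =>
    rw [lawK_nil, ae_dirac_iff (hm _ _)]
    exact ⟨le_rfl, le_rfl⟩
  | cons ℓ l ih =>
    rw [lawK_cons, Measure.ae_comp_iff (hm _ _)]
    filter_upwards [ih] with h hh
    apply ae_stepK (hm _ _)
    intro ξ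
    refine ⟨hh.1.trans (le_slotStep ξ h), ?_⟩
    rw [List.length_cons, topIter_succ]
    exact (slotStep_le_topStep ξ h).trans (topStep_mono hh.2)

theorem ae_le_lawK (l : List ℝ≥0) (f : Height d) : ∀ᵐ h ∂(lawK d l f), f ≤ h := by
  filter_upwards [ae_lawK_mem_Icc l f] with h hh using hh.1

/-- A measurable function which is bounded on order intervals is integrable. -/
theorem integrable_lawK_of_bdd {Φ : Height d → ℝ} (hm : Measurable Φ) (l : List ℝ≥0)
    (f : Height d) {C : ℝ} (hC : ∀ h, f ≤ h → h ≤ topIter l.length f → |Φ h| ≤ C) :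
    Integrable Φ (lawK d l f) := by
  refine Integrable.of_bound hm.aestronglyMeasurable C ?_
  filter_upwards [ae_lawK_mem_Icc l f] with h hh
  rw [Real.norm_eq_abs]
  exact hC h hh.1 hh.2

theorem integrable_lawK_of_mono {Φ : Height d → ℝ} (hm : Measurable Φ) (hmono : Monotone Φ)
    (l : List ℝ≥0) (f : Height d) : Integrable Φ (lawK d l f) := by
  refine integrable_lawK_of_bdd hm l f (C := max |Φ f| |Φ (topIter l.length f)|) ?_
  intro h h1 h2
  have e1 := hmono h1
  have e2 := hmono h2
  rw [abs_le]
  have a1 := neg_abs_le (Φ f)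
  have a2 := le_abs_self (Φ (topIter l.length f))
  have a3 := le_max_left |Φ f| |Φ (topIter l.length f)|
  have a4 := le_max_right |Φ f| |Φ (topIter l.length f)|
  constructor <;> linarith

theorem integrable_siteLaw_of_mono {Φ : Height d → ℝ} (hm : Measurable Φ) (hmono : Monotone Φ)
    (ℓ : ℝ≥0) (f : Height d) : Integrable (fun ξ => Φ (slotStep ξ f)) (siteLaw d ℓ) := by
  refine Integrable.of_bound (hm.comp (measurable_slotStep_left f)).aestronglyMeasurable
    (max |Φ f| |Φ (topStep f)|) ?_
  refine Filter.Eventually.of_forall fun ξ => ?_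
  have e1 := hmono (le_slotStep ξ f)
  have e2 := hmono (slotStep_le_topStep ξ f)
  rw [Real.norm_eq_abs, abs_le]
  have a1 := neg_abs_le (Φ f)
  have a2 := le_abs_self (Φ (topStep f))
  have a3 := le_max_left |Φ f| |Φ (topStep f)|
  have a4 := le_max_right |Φ f| |Φ (topStep f)|
  constructor <;> linarith

theorem measurable_height_real (x : Site d) : Measurable (fun h : Height d => (h x : ℝ)) :=
  (Measurable.of_discrete (f := fun n : ℤ => (n : ℝ))).comp (measurable_pi_apply x)

theorem monotone_height_real (x : Site d) : Monotone (fun h : Height d => (h x : ℝ)) :=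
  fun _ _ H => Int.cast_le.2 (H x)

theorem integrable_height (l : List ℝ≥0) (f : Height d) (x : Site d) :
    Integrable (fun h => (h x : ℝ)) (lawK d l f) :=
  integrable_lawK_of_mono (measurable_height_real x) (monotone_height_real x) l f

theorem integral_stepK {Φ : Height d → ℝ} (hm : Measurable Φ) (ℓ : ℝ≥0) (h : Height d) :
    ∫ g, Φ g ∂(stepK d ℓ h) = ∫ ξ, Φ (slotStep ξ h) ∂(siteLaw d ℓ) := by
  rw [stepK_apply, integral_map (measurable_slotStep_left h).aemeasurable
    hm.aestronglyMeasurable]

theorem integral_lawK_cons {Φ : Height d → ℝ} (hm : Measurable Φ) (ℓ : ℝ≥0) (l : List ℝ≥0)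
    (f : Height d) (hi : Integrable Φ (lawK d (ℓ :: l) f)) :
    ∫ g, Φ g ∂(lawK d (ℓ :: l) f) =
      ∫ h, (∫ ξ, Φ (slotStep ξ h) ∂(siteLaw d ℓ)) ∂(lawK d l f) := by
  rw [lawK] at hi ⊢
  rw [Kernel.integral_comp hi]
  simp_rw [integral_stepK hm]

theorem integral_lawK_append {Φ : Height d → ℝ} (l l' : List ℝ≥0)
    (f : Height d) (hi : Integrable Φ (lawK d (l ++ l') f)) :
    ∫ g, Φ g ∂(lawK d (l ++ l') f) =
      ∫ h, (∫ g, Φ g ∂(lawK d l h)) ∂(lawK d l' f) := by
  rw [lawK_append] at hi ⊢
  rw [Kernel.integral_comp hi]

theorem measurable_integral_siteLaw {Φ : Height d → ℝ} (hm : Measurable Φ) (ℓ : ℝ≥0) :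
    Measurable (fun h => ∫ ξ, Φ (slotStep ξ h) ∂(siteLaw d ℓ)) := by
  have : StronglyMeasurable (fun p : Height d × (Site d → Bool) => Φ (slotStep p.2 p.1)) :=
    (hm.comp measurable_slotStep_uncurry).stronglyMeasurable
  exact this.integral_prod_right.measurable

theorem measurable_integral_lawK {Φ : Height d → ℝ} (hm : Measurable Φ) (l : List ℝ≥0) :
    Measurable (fun h => ∫ g, Φ g ∂(lawK d l h)) :=
  (StronglyMeasurable.integral_kernel (κ := lawK d l) hm.stronglyMeasurable).measurable

theorem monotone_integral_siteLaw {Φ : Height d → ℝ} (hm : Measurable Φ) (hmono : Monotone Φ)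
    (ℓ : ℝ≥0) : Monotone (fun h => ∫ ξ, Φ (slotStep ξ h) ∂(siteLaw d ℓ)) := by
  intro h h' H
  exact integral_mono (integrable_siteLaw_of_mono hm hmono ℓ h)
    (integrable_siteLaw_of_mono hm hmono ℓ h') (fun ξ => hmono (slotStep_mono_right ξ H))

/-! ### Merging two slots -/

theorem slotLaw_prod_map_or (a b : ℝ≥0) :
    ((slotLaw a).prod (slotLaw b)).map (fun p => p.1 || p.2) = slotLaw (a + b) := by
  have hm : Measurable (fun p : Bool × Bool => p.1 || p.2) := Measurable.of_discrete
  have : IsProbabilityMeasure (((slotLaw a).prod (slotLaw b)).map (fun p => p.1 || p.2)) :=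
    Measure.isProbabilityMeasure_map hm.aemeasurable
  have key : (((slotLaw a).prod (slotLaw b)).map (fun p => p.1 || p.2)).real {false}
      = (slotLaw (a + b)).real {false} := by
    rw [map_measureReal_apply hm (measurableSet_singleton _)]
    have : (fun p : Bool × Bool => p.1 || p.2) ⁻¹' {false} = {false} ×ˢ {false} := by
      ext ⟨x, y⟩
      simp
    rw [this, measureReal_prod_prod, slotLaw_real_false, slotLaw_real_false, slotLaw_real_false,
      ← Real.exp_add]
    congr 1
    push_cast
    ring
  apply Measure.ext_of_singleton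
  intro x
  have conv : ∀ (μ ν : Measure Bool) [IsProbabilityMeasure μ] [IsProbabilityMeasure ν],
      μ.real {false} = ν.real {false} → ∀ x, μ {x} = ν {x} := by
    intro μ ν _ _ h x
    rw [← ENNReal.toReal_eq_toReal_iff' (measure_ne_top _ _) (measure_ne_top _ _)]
    cases x with
    | false => exact h
    | true =>
      have e : ({true} : Set Bool) = {false}ᶜ := by
        ext b; cases b <;> simp
      have := probReal_compl_eq_one_sub (μ := μ) (measurableSet_singleton false)
      have h2 := probReal_compl_eq_one_sub (μ := ν) (measurableSet_singleton false)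
      rw [e]
      change μ.real {false}ᶜ = ν.real {false}ᶜ
      rw [this, h2, h]
  exact conv _ _ key x

theorem siteLaw_prod_map_or (a b : ℝ≥0) :
    ((siteLaw d a).prod (siteLaw d b)).map (fun p x => p.1 x || p.2 x) = siteLaw d (a + b) := by
  let ℓ : Bool → ℝ≥0 := fun i => if i then b else a
  let M := Measure.infinitePi (fun p : Bool × Site d => slotLaw (ℓ p.1))
  have h1 : M.map (MeasurableEquiv.curry Bool (Site d) Bool) =
      Measure.infinitePi (fun i => siteLaw d (ℓ i)) :=
    Measure.infinitePi_map_curry (fun (i : Bool) (_ : Site d) => slotLaw (ℓ i))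
  have h2 : (siteLaw d a).prod (siteLaw d b) =
      M.map (fun ω => ((fun x => ω (false, x)), (fun x => ω (true, x)))) := by
    have := Measure.infinitePi_map_eval_prod (P := fun i => siteLaw d (ℓ i)) (i := false)
      (j := true) (by simp)
    rw [← h1, Measure.map_map (by fun_prop) (by fun_prop)] at this
    exact this.symm
  have h3 : M.map (fun ω (p : Site d × Bool) => ω (p.2, p.1)) =
      Measure.infinitePi (fun p : Site d × Bool => slotLaw (ℓ p.2)) :=
    Measure.map_infinitePi_infinitePi_of_inj
      (P := fun p : Bool × Site d => slotLaw (ℓ p.1)) (f := Prod.swap) Prod.swap_injective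
  have h4 : M.map (fun ω x i => ω (i, x)) =
      Measure.infinitePi (fun _ : Site d => Measure.infinitePi (fun i => slotLaw (ℓ i))) := by
    have := Measure.infinitePi_map_curry (fun (_ : Site d) (i : Bool) => slotLaw (ℓ i))
    rw [← h3, Measure.map_map (by fun_prop) (by fun_prop)] at this
    exact this
  have h5 : (Measure.infinitePi (fun i => slotLaw (ℓ i))).map (fun v : Bool → Bool =>
      v false || v true) = slotLaw (a + b) := by
    have e : (slotLaw a).prod (slotLaw b) =
        (Measure.infinitePi (fun i => slotLaw (ℓ i))).map (fun ω => (ω false, ω true)) :=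
      (Measure.infinitePi_map_eval_prod (P := fun i => slotLaw (ℓ i))
        (i := false) (j := true) (by simp)).symm
    rw [← slotLaw_prod_map_or, e, Measure.map_map Measurable.of_discrete (by fun_prop)]
    rfl
  rw [h2, Measure.map_map (by fun_prop) (by fun_prop)]
  have h6 := Measure.infinitePi_map_pi
    (fun _ : Site d => Measure.infinitePi (fun i => slotLaw (ℓ i)))
    (f := fun (_ : Site d) (v : Bool → Bool) => v false || v true)
    (fun _ => Measurable.of_discrete)
  rw [← h4, Measure.map_map (by fun_prop) (by fun_prop)] at h6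
  simp only [h5] at h6
  exact h6

theorem integral_siteLaw_add {Φ : Height d → ℝ} (hm : Measurable Φ) (hmono : Monotone Φ)
    (a b : ℝ≥0) (f : Height d) :
    ∫ ξ, Φ (slotStep ξ f) ∂(siteLaw d (a + b)) ≤
      ∫ ξ', (∫ ξ, Φ (slotStep ξ (slotStep ξ' f)) ∂(siteLaw d a)) ∂(siteLaw d b) := by
  have hor : Measurable (fun (p : (Site d → Bool) × (Site d → Bool)) (x : Site d) =>
      p.1 x || p.2 x) := by
    rw [measurable_pi_iff]
    intro x
    exact (Measurable.of_discrete (f := fun q : Bool × Bool => q.1 || q.2)).comp
      (f := fun p : (Site d → Bool) × (Site d → Bool) => (p.1 x, p.2 x)) (by fun_prop)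
  have hΦ : Measurable (fun ξ : Site d → Bool => Φ (slotStep ξ f)) :=
    hm.comp (measurable_slotStep_left f)
  rw [← siteLaw_prod_map_or, integral_map hor.aemeasurable hΦ.aestronglyMeasurable]
  have hm2 : Measurable (fun p : (Site d → Bool) × (Site d → Bool) =>
      Φ (slotStep p.1 (slotStep p.2 f))) := by
    have : Measurable (fun p : (Site d → Bool) × (Site d → Bool) =>
        ((slotStep p.2 f, p.1) : Height d × (Site d → Bool))) :=
      ((measurable_slotStep_left f).comp measurable_snd).prodMk measurable_fst
    exact hm.comp (measurable_slotStep_uncurry.comp this)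
  have bd : ∀ h, f ≤ h → h ≤ topStep (topStep f) →
      ‖Φ h‖ ≤ max |Φ f| |Φ (topStep (topStep f))| := by
    intro h h1 h2
    have e1 := hmono h1
    have e2 := hmono h2
    rw [Real.norm_eq_abs, abs_le]
    have a1 := neg_abs_le (Φ f)
    have a2 := le_abs_self (Φ (topStep (topStep f)))
    have a3 := le_max_left |Φ f| |Φ (topStep (topStep f))|
    have a4 := le_max_right |Φ f| |Φ (topStep (topStep f))|
    constructor <;> linarith
  have hi2 : Integrable (fun p : (Site d → Bool) × (Site d → Bool) =>
      Φ (slotStep p.1 (slotStep p.2 f))) ((siteLaw d a).prod (siteLaw d b)) := by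
    refine Integrable.of_bound hm2.aestronglyMeasurable _ (Filter.Eventually.of_forall fun p =>
      bd _ ((le_slotStep _ _).trans (le_slotStep _ _)) ((slotStep_le_topStep _ _).trans
        (topStep_mono (slotStep_le_topStep _ _))))
  have hi1 : Integrable (fun p : (Site d → Bool) × (Site d → Bool) =>
      Φ (slotStep (fun x => p.1 x || p.2 x) f)) ((siteLaw d a).prod (siteLaw d b)) := by
    refine Integrable.of_bound ((hm.comp ((measurable_slotStep_left f).comp hor))
      |>.aestronglyMeasurable) _ (Filter.Eventually.of_forall fun p =>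
      bd _ (le_slotStep _ _) ((slotStep_le_topStep _ _).trans
        ((le_slotStep (fun _ => true) _).trans (slotStep_le_topStep _ _))))
  calc ∫ p, Φ (slotStep (fun x => p.1 x || p.2 x) f) ∂((siteLaw d a).prod (siteLaw d b))
      ≤ ∫ p, Φ (slotStep p.1 (slotStep p.2 f)) ∂((siteLaw d a).prod (siteLaw d b)) :=
        integral_mono hi1 hi2 (fun p => hmono (slotStep_or_le p.1 p.2 f))
    _ = _ := integral_prod_symm _ hi2

/-- Many short slots dominate one long slot. -/
theorem integral_lawK_replicate_ge {Φ : Height d → ℝ} (hm : Measurable Φ) (hmono : Monotone Φ)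
    (δ : ℝ≥0) (n : ℕ) (f : Height d) :
    ∫ ξ, Φ (slotStep ξ f) ∂(siteLaw d (n * δ)) ≤ ∫ h, Φ h ∂(lawK d (List.replicate n δ) f) := by
  induction n generalizing Φ with
  | zero =>
    rw [List.replicate_zero, lawK_nil, integral_dirac]
    have h0 : ∀ᵐ ξ ∂(siteLaw d 0), slotStep ξ f = f := by
      have : ∀ x, ∀ᵐ ξ ∂(siteLaw d 0), ξ x = false := by
        intro x
        have := siteLaw_real_true (0 : ℝ≥0) x
        rw [NNReal.coe_zero, neg_zero, Real.exp_zero, sub_self, measureReal_eq_zero_iff] at this
        rw [ae_iff]
        convert this using 2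
        ext ξ
        simp
      filter_upwards [ae_all_iff.2 this] with ξ hξ
      ext x
      simp [slotStep, hξ x]
    have : ∫ ξ, Φ (slotStep ξ f) ∂(siteLaw d ((0 : ℕ) * δ)) = ∫ _ξ, Φ f ∂(siteLaw d 0) := by
      rw [Nat.cast_zero, zero_mul]
      apply integral_congr_ae
      filter_upwards [h0] with ξ hξ
      rw [hξ]
    rw [this]
    simp
  | succ n ih =>
    rw [List.replicate_succ, integral_lawK_cons hm _ _ _ (integrable_lawK_of_mono hm hmono _ _)]
    refine le_trans ?_ (ih (measurable_integral_siteLaw hm δ) (monotone_integral_siteLaw hm hmono δ))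
    have := integral_siteLaw_add hm hmono δ (n * δ) f
    have e : ((n + 1 : ℕ) : ℝ≥0) * δ = δ + n * δ := by
      push_cast
      ring
    rw [e]
    exact this

/-! ### Feller property -/

theorem continuous_integral_siteLaw {Φ : Height d → ℝ} (hc : Continuous Φ) {C : ℝ}
    (hb : ∀ h, |Φ h| ≤ C) (ℓ : ℝ≥0) :
    Continuous (fun h => ∫ ξ, Φ (slotStep ξ h) ∂(siteLaw d ℓ)) := by
  refine continuous_of_dominated (bound := fun _ => C) ?_ ?_ (integrable_const C) ?_
  · intro h
    exact (hc.measurable.comp (measurable_slotStep_left h)).aestronglyMeasurable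
  · intro h
    exact Filter.Eventually.of_forall fun ξ => by rw [Real.norm_eq_abs]; exact hb _
  · exact Filter.Eventually.of_forall fun ξ => hc.comp (continuous_slotStep ξ)

theorem continuous_integral_lawK {Φ : Height d → ℝ} (hc : Continuous Φ) {C : ℝ}
    (hb : ∀ h, |Φ h| ≤ C) (l : List ℝ≥0) :
    Continuous (fun f => ∫ h, Φ h ∂(lawK d l f)) := by
  induction l generalizing Φ with
  | nil =>
    simp_rw [lawK_nil, integral_dirac]
    exact hc
  | cons ℓ l ih =>
    have : (fun f => ∫ h, Φ h ∂(lawK d (ℓ :: l) f)) =
        fun f => ∫ h, (∫ ξ, Φ (slotStep ξ h) ∂(siteLaw d ℓ)) ∂(lawK d l f) := by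
      ext f
      refine integral_lawK_cons hc.measurable ℓ l f ?_
      exact Integrable.of_bound hc.measurable.aestronglyMeasurable C
        (Filter.Eventually.of_forall fun h => by rw [Real.norm_eq_abs]; exact hb _)
    rw [this]
    refine ih (continuous_integral_siteLaw hc hb ℓ) (fun h => ?_)
    have hh : ∀ᵐ ξ ∂(siteLaw d ℓ), ‖Φ (slotStep ξ h)‖ ≤ C :=
      Filter.Eventually.of_forall fun ξ => by rw [Real.norm_eq_abs]; exact hb _
    have := norm_integral_le_of_norm_le_const hh
    rw [probReal_univ, mul_one, Real.norm_eq_abs] at this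
    exact this

/-! ### Covariance -/

/-- If `T` intertwines the slot maps up to a measure preserving change `U` of the slot variables,
then it intertwines the laws. -/
theorem lawK_map_of_intertwine {T : Height d → Height d} (hT : Measurable T)
    {U : (Site d → Bool) → (Site d → Bool)} (hU : Measurable U)
    (hlaw : ∀ ℓ, (siteLaw d ℓ).map U = siteLaw d ℓ)
    (hTU : ∀ ξ h, T (slotStep ξ h) = slotStep (U ξ) (T h)) (l : List ℝ≥0) (f : Height d) :
    (lawK d l f).map T = lawK d l (T f) := by
  induction l with
  | nil => rw [lawK_nil, lawK_nil, Measure.map_dirac' hT]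
  | cons ℓ l ih =>
    have hstep : ∀ h, (stepK d ℓ h).map T = stepK d ℓ (T h) := by
      intro h
      rw [stepK_apply, stepK_apply, Measure.map_map hT (measurable_slotStep_left h)]
      have : (fun ξ => slotStep ξ (T h)) ∘ U = T ∘ (fun ξ => slotStep ξ h) := by
        ext1 ξ
        exact (hTU ξ h).symm
      rw [← this, ← Measure.map_map (measurable_slotStep_left (T h)) hU, hlaw]
    rw [lawK_cons, lawK_cons, ← ih]
    ext s hs
    rw [Measure.map_apply hT hs, Measure.bind_apply (hT hs) (Kernel.aemeasurable _),
      Measure.bind_apply hs (Kernel.aemeasurable _),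
      lintegral_map ((stepK d ℓ).measurable_coe hs) hT]
    refine lintegral_congr fun h => ?_
    rw [← hstep h, Measure.map_apply hT hs]

/-- The vertical shift. -/
theorem newHeight_add_const (h : Height d) (c : ℤ) (x : Site d) :
    newHeight (fun y => h y + c) x = newHeight h x + c := by
  apply le_antisymm
  · rw [newHeight_le_iff]
    constructor
    · linarith [succ_le_newHeight h x]
    · intro a
      linarith [nb_le_newHeight h x a]
  · have : newHeight h x ≤ newHeight (fun y => h y + c) x - c := by
      rw [newHeight_le_iff]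
      constructor
      · linarith [succ_le_newHeight (fun y => h y + c) x]
      · intro a
        linarith [nb_le_newHeight (fun y => h y + c) x a]
    linarith

theorem slotStep_add_const (ξ : Site d → Bool) (h : Height d) (c : ℤ) :
    slotStep ξ (fun y => h y + c) = fun y => slotStep ξ h y + c := by
  ext x
  unfold slotStep
  split_ifs
  · exact newHeight_add_const h c x
  · rfl

theorem lawK_map_add_const (l : List ℝ≥0) (f : Height d) (c : ℤ) :
    (lawK d l f).map (fun h y => h y + c) = lawK d l (fun y => f y + c) := by
  refine lawK_map_of_intertwine (T := fun h y => h y + c) ?_ (U := id) measurable_id ?_ ?_ l f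
  · rw [measurable_pi_iff]
    intro y
    exact (Measurable.of_discrete (f := fun n : ℤ => n + c)).comp
      (measurable_pi_apply (X := fun _ : Site d => ℤ) y)
  · intro ℓ
    exact Measure.map_id
  · intro ξ h
    exact (slotStep_add_const ξ h c).symm

/-- `τ` is compatible with the update rule. -/
def IsSym (τ : Site d ≃ Site d) : Prop :=
  ∀ (h : Height d) (x : Site d), newHeight (fun y => h (τ y)) x = newHeight h (τ x)

theorem siteLaw_map_equiv (τ : Site d ≃ Site d) (ℓ : ℝ≥0) :
    (siteLaw d ℓ).map (fun ξ y => ξ (τ y)) = siteLaw d ℓ :=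
  Measure.map_infinitePi_infinitePi_of_inj (P := fun _ : Site d => slotLaw ℓ) τ.injective

theorem lawK_map_sym {τ : Site d ≃ Site d} (hτ : IsSym τ) (l : List ℝ≥0) (f : Height d) :
    (lawK d l f).map (fun h y => h (τ y)) = lawK d l (fun y => f (τ y)) := by
  refine lawK_map_of_intertwine (T := fun h y => h (τ y)) (by fun_prop)
    (U := fun ξ y => ξ (τ y)) (by fun_prop) (siteLaw_map_equiv τ) ?_ l f
  intro ξ h
  ext x
  unfold slotStep
  split_ifs
  · exact (hτ h x).symm
  · rfl

theorem isSym_translate (v : Site d) : IsSym (Equiv.addRight v) := by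
  intro h x
  have e : ∀ a, nb x a + v = nb (x + v) a := by
    intro a
    unfold nb
    abel
  apply le_antisymm
  · rw [newHeight_le_iff]
    refine ⟨succ_le_newHeight h _, fun a => ?_⟩
    have := nb_le_newHeight h (x + v) a
    rw [← e] at this
    exact this
  · rw [newHeight_le_iff]
    refine ⟨succ_le_newHeight (fun y => h (Equiv.addRight v y)) x, fun a => ?_⟩
    have := nb_le_newHeight (fun y => h (Equiv.addRight v y)) x a
    simp only [Equiv.coe_addRight, e] at this ⊢
    exact this

theorem isSym_reflect (v : Site d) : IsSym (Equiv.subLeft v) := by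
  intro h x
  have e : ∀ (i : Fin d) (b : Bool), v - nb x (i, b) = nb (v - x) (i, !b) := by
    intro i b
    unfold nb
    cases b
    · simp only [Bool.not_false, if_true, Bool.false_eq_true, if_false, Pi.single_neg]
      abel
    · simp only [Bool.not_true, if_true, Bool.false_eq_true, if_false, Pi.single_neg]
      abel
  apply le_antisymm
  · rw [newHeight_le_iff]
    refine ⟨succ_le_newHeight h _, fun a => ?_⟩
    obtain ⟨i, b⟩ := a
    have := nb_le_newHeight h (v - x) (i, !b)
    rw [← e] at this
    exact this
  · rw [newHeight_le_iff]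
    refine ⟨succ_le_newHeight (fun y => h (Equiv.subLeft v y)) x, fun a => ?_⟩
    obtain ⟨i, b⟩ := a
    have := nb_le_newHeight (fun y => h (Equiv.subLeft v y)) x (i, !b)
    simp only [Equiv.subLeft_apply, e, Bool.not_not] at this ⊢
    exact this

/-! ### One coordinate -/

theorem integral_siteLaw_ite (ℓ : ℝ≥0) (x : Site d) (a b : ℝ) :
    ∫ ξ, (if ξ x = true then a else b) ∂(siteLaw d ℓ) =
      (1 - Real.exp (-ℓ)) * a + Real.exp (-ℓ) * b := by
  have h1 : ∀ ξ : Site d → Bool, (if ξ x = true then a else b) =
      ({ξ : Site d → Bool | ξ x = true}.indicator (fun _ => a)) ξ +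
        ({ξ : Site d → Bool | ξ x = false}.indicator (fun _ => b)) ξ := by
    intro ξ
    by_cases h : ξ x = true
    · simp [Set.indicator, h]
    · have h' : ξ x = false := by simpa using h
      simp [Set.indicator, h']
  have m1 : MeasurableSet {ξ : Site d → Bool | ξ x = true} :=
    measurableSet_eq_fun (measurable_pi_apply x) measurable_const
  have m2 : MeasurableSet {ξ : Site d → Bool | ξ x = false} :=
    measurableSet_eq_fun (measurable_pi_apply x) measurable_const
  simp_rw [h1]
  rw [integral_add ((integrable_const a).indicator m1) ((integrable_const b).indicator m2),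
    integral_indicator_const _ m1, integral_indicator_const _ m2, siteLaw_real_true,
    siteLaw_real_false]
  simp

end Pool.MP4bb68c
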