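import Mathlib
import Pool.Agent.Work.MP_4bb68c_pr.Defs
import Pool.Agent.Work.MP_4bb68c_pr.Run

/-!
# Arrays of slots and backward chains

Arrays `ξ : ℕ → Site d → Bool`; the index `0` is the most recent slot.
-/

open MeasureTheory ProbabilityTheory Filter Topology
open scoped NNReal ENNReal

namespace Pool.MP4bb68c

variable {d : ℕ}

/-- The synchronous evolution over `k` slots; the index `0` is the most recent slot. -/
def run : ℕ → (ℕ → Site d → Bool) → Height d → Height d
  | 0, _, f => f
  | k + 1, ξ, f => slotStep (ξ 0) (run k (fun j => ξ (j + 1)) f)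

/-- There is a backward chain of `N` updates from `x` within the `k` most recent slots. -/
def Ch : ℕ → ℕ → (ℕ → Site d → Bool) → Site d → Prop
  | 0, _, _, _ => True
  | _ + 1, 0, _, _ => False
  | N + 1, k + 1, ξ, x => Ch (N + 1) k (fun j => ξ (j + 1)) x ∨
      (ξ 0 x = true ∧ (Ch N k (fun j => ξ (j + 1)) x ∨
        ∃ a, Ch N k (fun j => ξ (j + 1)) (nb x a)))

theorem run_congr {k : ℕ} {ξ ξ' : ℕ → Site d → Bool} (h : ∀ j < k, ξ j = ξ' j) (f : Height d) :
    run k ξ f = run k ξ' f := by
  induction k generalizing ξ ξ' with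
  | zero => rfl
  | succ k ih =>
    rw [run, run, h 0 (Nat.succ_pos k), ih (fun j hj => h (j + 1) (by omega))]

theorem Ch_congr {N k : ℕ} {ξ ξ' : ℕ → Site d → Bool} (h : ∀ j < k, ξ j = ξ' j) (x : Site d) :
    Ch N k ξ x ↔ Ch N k ξ' x := by
  induction k generalizing N ξ ξ' x with
  | zero =>
    cases N with
    | zero => simp [Ch]
    | succ N => simp [Ch]
  | succ k ih =>
    cases N with
    | zero => simp [Ch]
    | succ N =>
      have h' : ∀ j < k, (fun j => ξ (j + 1)) j = (fun j => ξ' (j + 1)) j :=
        fun j hj => h (j + 1) (by omega)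
      rw [Ch, Ch, h 0 (Nat.succ_pos k), ih h', ih h']
      simp_rw [ih h']

theorem measurable_run_uncurry (k : ℕ) (f : Height d) :
    Measurable (fun ξ : ℕ → Site d → Bool => run k ξ f) := by
  induction k with
  | zero => exact measurable_const
  | succ k ih =>
    have h1 : Measurable (fun ξ : ℕ → Site d → Bool => (fun j => ξ (j + 1))) := by fun_prop
    have h2 : Measurable (fun ξ : ℕ → Site d → Bool => ξ 0) := by fun_prop
    exact measurable_slotStep_uncurry.comp ((ih.comp h1).prodMk h2)

theorem measurableSet_Ch (N k : ℕ) (x : Site d) :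
    MeasurableSet {ξ : ℕ → Site d → Bool | Ch N k ξ x} := by
  induction k generalizing N x with
  | zero =>
    cases N with
    | zero => simp [Ch]
    | succ N => simp [Ch]
  | succ k ih =>
    cases N with
    | zero => simp [Ch]
    | succ N =>
      have h1 : Measurable (fun ξ : ℕ → Site d → Bool => (fun j => ξ (j + 1))) := by fun_prop
      have h2 : ∀ M y, MeasurableSet {ξ : ℕ → Site d → Bool | Ch M k (fun j => ξ (j + 1)) y} :=
        fun M y => h1 (ih M y)
      have h3 : MeasurableSet {ξ : ℕ → Site d → Bool | ξ 0 x = true} :=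
        measurableSet_eq_fun (by fun_prop) measurable_const
      have h4 : MeasurableSet {ξ : ℕ → Site d → Bool |
          ∃ a, Ch N k (fun j => ξ (j + 1)) (nb x a)} := by
        rw [Set.ofPred_exists]
        exact MeasurableSet.iUnion fun a => h2 N _
      exact (h2 (N + 1) x).union (h3.inter ((h2 N x).union h4))

/-- Independent slots of the same length. -/
noncomputable def arrLaw (d : ℕ) (δ : ℝ≥0) : Measure (ℕ → Site d → Bool) :=
  Measure.infinitePi (fun _ : ℕ => siteLaw d δ)

instance (δ : ℝ≥0) : IsProbabilityMeasure (arrLaw d δ) := by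
  unfold arrLaw; infer_instance

/-- Put a slot in front of an array. -/
def consArr (p : (Site d → Bool) × (ℕ → Site d → Bool)) : ℕ → Site d → Bool
  | 0 => p.1
  | j + 1 => p.2 j

theorem measurable_consArr : Measurable (consArr (d := d)) := by
  rw [measurable_pi_iff]
  intro j
  cases j with
  | zero => exact measurable_fst
  | succ j => exact (measurable_pi_apply j).comp measurable_snd

theorem map_consArr (δ : ℝ≥0) :
    ((siteLaw d δ).prod (arrLaw d δ)).map consArr = arrLaw d δ := by
  refine Measure.eq_infinitePi _ ?_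
  intro s t ht
  rw [Measure.map_apply measurable_consArr (MeasurableSet.pi s.countable_toSet fun i _ => ht i)]
  have hset : consArr ⁻¹' (Set.pi (s : Set ℕ) t) =
      (if 0 ∈ s then t 0 else Set.univ) ×ˢ
        (Set.pi (((s.erase 0).image Nat.pred : Finset ℕ) : Set ℕ) (fun j => t (j + 1))) := by
    ext ⟨ξ, ζ⟩
    simp only [Set.mem_preimage, Set.mem_pi, Finset.mem_coe, Set.mem_prod, Finset.mem_image,
      Finset.mem_erase]
    constructor
    · intro h
      constructor
      · split_ifs with h0
        · exact h 0 h0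
        · trivial
      · rintro j ⟨i, ⟨hi0, his⟩, rfl⟩
        obtain ⟨i, rfl⟩ := Nat.exists_eq_succ_of_ne_zero hi0
        exact h _ his
    · rintro ⟨h1, h2⟩ i hi
      cases i with
      | zero =>
        rw [if_pos hi] at h1
        exact h1
      | succ i => exact h2 i ⟨i + 1, ⟨Nat.succ_ne_zero i, hi⟩, rfl⟩
  rw [hset, Measure.prod_prod, arrLaw, Measure.infinitePi_pi _ (fun i _ => ht (i + 1))]
  have hprod : ∏ i ∈ (s.erase 0).image Nat.pred, (siteLaw d δ) (t (i + 1)) =
      ∏ i ∈ s.erase 0, (siteLaw d δ) (t i) := by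
    rw [Finset.prod_image]
    · apply Finset.prod_congr rfl
      intro i hi
      have : i ≠ 0 := (Finset.mem_erase.1 hi).1
      rw [Nat.pred_eq_sub_one, Nat.sub_add_cancel (Nat.pos_of_ne_zero this)]
    · intro i hi j hj hij
      have h1 : i ≠ 0 := (Finset.mem_erase.1 (Finset.mem_coe.1 hi)).1
      have h2 : j ≠ 0 := (Finset.mem_erase.1 (Finset.mem_coe.1 hj)).1
      rw [Nat.pred_eq_sub_one, Nat.pred_eq_sub_one] at hij
      omega
  rw [hprod]
  split_ifs with h0
  · exact Finset.mul_prod_erase s (fun i => (siteLaw d δ) (t i)) h0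
  · rw [Finset.erase_eq_of_notMem h0, measure_univ, one_mul]

theorem run_consArr (k : ℕ) (p : (Site d → Bool) × (ℕ → Site d → Bool)) (f : Height d) :
    run (k + 1) (consArr p) f = slotStep p.1 (run k p.2 f) := rfl

theorem arrLaw_map_run (δ : ℝ≥0) (k : ℕ) (f : Height d) :
    (arrLaw d δ).map (fun ξ => run k ξ f) = lawK d (List.replicate k δ) f := by
  induction k with
  | zero =>
    rw [List.replicate_zero, lawK_nil]
    have : (fun ξ : ℕ → Site d → Bool => run 0 ξ f) = fun _ => f := rfl
    rw [this, Measure.map_const, measure_univ, one_smul]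
  | succ k ih =>
    rw [List.replicate_succ, lawK_cons, ← ih, ← map_consArr,
      Measure.map_map (measurable_run_uncurry _ _) measurable_consArr]
    ext s hs
    have hm : Measurable (fun p : (Site d → Bool) × (ℕ → Site d → Bool) =>
        slotStep p.1 (run k p.2 f)) :=
      measurable_slotStep_uncurry.comp
        (((measurable_run_uncurry k f).comp measurable_snd).prodMk measurable_fst)
    rw [Measure.map_apply ((measurable_run_uncurry _ _).comp measurable_consArr) hs,
      Measure.bind_apply hs (Kernel.aemeasurable _),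
      lintegral_map ((stepK d δ).measurable_coe hs) (measurable_run_uncurry k f)]
    have e1 : ((fun ξ => run (k + 1) ξ f) ∘ consArr) ⁻¹' s =
        (fun p : (Site d → Bool) × (ℕ → Site d → Bool) => slotStep p.1 (run k p.2 f)) ⁻¹' s := rfl
    rw [e1, Measure.prod_apply_symm (hm hs)]
    have e2 : (Measure.map consArr ((siteLaw d δ).prod (arrLaw d δ))) = arrLaw d δ := map_consArr δ
    rw [e2]
    refine lintegral_congr fun ζ => ?_
    rw [stepK_apply, Measure.map_apply (measurable_slotStep_left _) hs]
    rfl

/-- The probability of a backward chain of `N` updates within `k` slots. -/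
theorem arrLaw_Ch_le (δ : ℝ≥0) (N k : ℕ) (x : Site d) :
    (arrLaw d δ).real {ξ | Ch N k ξ x} ≤ (k.choose N : ℝ) * ((2 * d + 1) * (δ : ℝ)) ^ N := by
  induction k generalizing N x with
  | zero =>
    cases N with
    | zero => simp [Ch]
    | succ N => simp [Ch]
  | succ k ih =>
    cases N with
    | zero => simp [Ch]
    | succ N =>
      set ρ : ℝ := (2 * d + 1) * (δ : ℝ) with hρ
      have hρ0 : 0 ≤ ρ := by positivity
      have hset : consArr ⁻¹' {ξ : ℕ → Site d → Bool | Ch (N + 1) (k + 1) ξ x} ⊆
          (Set.univ ×ˢ {ζ | Ch (N + 1) k ζ x}) ∪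
          (({ξ | ξ x = true} ×ˢ {ζ | Ch N k ζ x}) ∪
            ⋃ a ∈ (Finset.univ : Finset (Fin d × Bool)),
              ({ξ | ξ x = true} ×ˢ {ζ | Ch N k ζ (nb x a)})) := by
        rintro ⟨ξ, ζ⟩ h
        rcases h with h | ⟨h1, h2 | ⟨a, h2⟩⟩
        · exact Or.inl ⟨trivial, h⟩
        · exact Or.inr (Or.inl ⟨h1, h2⟩)
        · refine Or.inr (Or.inr ?_)
          simp only [Set.mem_iUnion]
          exact ⟨a, Finset.mem_univ a, h1, h2⟩
      have hp : (siteLaw d δ).real {ξ | ξ x = true} ≤ δ := by
        rw [siteLaw_real_true]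
        have := Real.add_one_le_exp (-(δ : ℝ))
        linarith
      have hmain : (arrLaw d δ).real {ξ | Ch (N + 1) (k + 1) ξ x} ≤
          (arrLaw d δ).real {ξ | Ch (N + 1) k ξ x} + (δ * (arrLaw d δ).real {ξ | Ch N k ξ x} +
            ∑ a : Fin d × Bool, δ * (arrLaw d δ).real {ξ | Ch N k ξ (nb x a)}) := by
        calc (arrLaw d δ).real {ξ | Ch (N + 1) (k + 1) ξ x}
            = ((siteLaw d δ).prod (arrLaw d δ)).real
              (consArr ⁻¹' {ξ | Ch (N + 1) (k + 1) ξ x}) := by
              rw [← map_measureReal_apply measurable_consArr (measurableSet_Ch _ _ _), map_consArr]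
          _ ≤ _ := measureReal_mono hset
          _ ≤ _ := measureReal_union_le _ _
          _ ≤ _ := add_le_add_right (measureReal_union_le _ _) _
          _ ≤ _ := by
              refine add_le_add ?_ (add_le_add ?_ ?_)
              · rw [measureReal_prod_prod, probReal_univ, one_mul]
              · rw [measureReal_prod_prod]
                exact mul_le_mul_of_nonneg_right hp measureReal_nonneg
              · refine (measureReal_biUnion_finset_le _ _).trans ?_
                refine Finset.sum_le_sum fun a _ => ?_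
                rw [measureReal_prod_prod]
                exact mul_le_mul_of_nonneg_right hp measureReal_nonneg
      refine hmain.trans ?_
      have h1 := ih (N + 1) x
      have h2 : ∀ y, (δ : ℝ) * (arrLaw d δ).real {ξ | Ch N k ξ y} ≤
          δ * ((k.choose N : ℝ) * ρ ^ N) := fun y =>
        mul_le_mul_of_nonneg_left (ih N y) δ.2
      have h3 : ∑ a : Fin d × Bool, (δ : ℝ) * (arrLaw d δ).real {ξ | Ch N k ξ (nb x a)} ≤
          2 * d * (δ * ((k.choose N : ℝ) * ρ ^ N)) := by
        refine (Finset.sum_le_sum fun a _ => h2 _).trans (le_of_eq ?_)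
        rw [Finset.sum_const, Finset.card_univ, nsmul_eq_mul, Fintype.card_prod, Fintype.card_fin,
          Fintype.card_bool]
        push_cast
        ring
      have h4 : ((k + 1).choose (N + 1) : ℝ) = k.choose N + k.choose (N + 1) := by
        rw [Nat.choose_succ_succ]
        push_cast
        ring
      rw [h4]
      have h5 : (((k.choose N : ℝ) + k.choose (N + 1)) * ρ ^ (N + 1)) =
          (k.choose (N + 1) : ℝ) * ρ ^ (N + 1) + (δ * ((k.choose N : ℝ) * ρ ^ N) +
            2 * d * (δ * ((k.choose N : ℝ) * ρ ^ N))) := by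
        rw [pow_succ]
        rw [hρ]
        ring
      rw [h5]
      have h6 := h2 x
      linarith

/-- The slot length `1 / (q * 2 ^ n)`. -/
noncomputable def dl (q n : ℕ) : ℝ≥0 := 1 / ((q : ℝ≥0) * 2 ^ n)

theorem dl_pos {q : ℕ} (hq : 0 < q) (n : ℕ) : 0 < (dl q n : ℝ) := by
  unfold dl
  have : (0 : ℝ) < q := Nat.cast_pos.2 hq
  push_cast
  positivity

theorem dl_le {q : ℕ} (hq : 0 < q) (n : ℕ) : (dl q n : ℝ) ≤ (1 / 2) ^ n := by
  unfold dl
  have h1 : (1 : ℝ) ≤ q := by exact_mod_cast hq
  push_cast
  rw [one_div, one_div, inv_pow]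
  apply inv_anti₀ (by positivity)
  nlinarith [pow_pos (zero_lt_two' ℝ) n]

end Pool.MP4bb68c
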