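import Mathlib
import Pool.Agent.Work.MP_4bb68c_pr.Defs

/-!
# Existence of independent rate-one Poisson clocks
-/

set_option autoImplicit false

open MeasureTheory ProbabilityTheory Filter Topology
open scoped NNReal ENNReal

namespace Pool.MP4bb68c

namespace Clk

/-- The uniform law on `(0,1]`. -/
noncomputable def unif : Measure ℝ := volume.restrict (Set.Ioc 0 1)

instance : IsProbabilityMeasure unif := ⟨by simp [unif]⟩

/-- The data of one slice: the number of points and their positions. -/
abbrev Slc : Type := ℕ × (ℕ → ℝ)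

noncomputable def slc : Measure Slc :=
  (poissonMeasure 1).prod (Measure.infinitePi fun _ : ℕ => unif)

instance : IsProbabilityMeasure slc := by unfold slc; infer_instance

abbrev Om (d : ℕ) : Type := Site d × ℕ → Slc

noncomputable def PP (d : ℕ) : Measure (Om d) := Measure.infinitePi fun _ => slc

instance (d : ℕ) : IsProbabilityMeasure (PP d) := by unfold PP; infer_instance

/-- product over the points of a slice -/
noncomputable def gp (g : ℝ → ℂ) (s : Slc) : ℂ := ∏ i ∈ Finset.range s.1, g (s.2 i)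

lemma measurable_gp {g : ℝ → ℂ} (hg : Measurable g) : Measurable (gp g) := by
  apply measurable_from_prod_countable_right
  intro n
  show Measurable fun U : ℕ → ℝ => ∏ i ∈ Finset.range n, g (U i)
  exact Finset.measurable_prod _ fun i _ => hg.comp (measurable_pi_apply i)

lemma norm_gp_le {g : ℝ → ℂ} (h : ∀ u, ‖g u‖ ≤ 1) (s : Slc) : ‖gp g s‖ ≤ 1 := by
  unfold gp
  rw [norm_prod]
  exact Finset.prod_le_one (fun _ _ => norm_nonneg _) fun _ _ => h _

lemma integral_gp {g : ℝ → ℂ} (hg : Measurable g) (h : ∀ u, ‖g u‖ ≤ 1) :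
    ∫ s, gp g s ∂slc = Complex.exp ((∫ u, g u ∂unif) - 1) := by
  have hint : Integrable (gp g) slc :=
    Integrable.mono' (integrable_const (1:ℝ)) (measurable_gp hg).aestronglyMeasurable
      (ae_of_all _ (norm_gp_le h))
  unfold slc at hint ⊢
  rw [integral_prod _ hint]
  have hin : ∀ n : ℕ, ∫ U : ℕ → ℝ, gp g (n, U) ∂(Measure.infinitePi fun _ : ℕ => unif) =
      (∫ u, g u ∂unif) ^ n := by
    intro n
    have h1 := integral_restrict_infinitePi (μ := fun _ : ℕ => unif) (s := Finset.range n)
      (f := fun y : (i : Finset.range n) → ℝ => ∏ i, g (y i)) (by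
        refine Measurable.aestronglyMeasurable ?_
        exact Finset.measurable_prod _ fun i _ => hg.comp (measurable_pi_apply i))
    rw [integral_fintype_prod_eq_pow] at h1
    simp only [Fintype.card_coe, Finset.card_range] at h1
    rw [← h1]
    refine integral_congr_ae (ae_of_all _ fun U => ?_)
    show ∏ i ∈ Finset.range n, g (U i) = ∏ i : Finset.range n, g (U i)
    rw [Finset.prod_coe_sort (Finset.range n) (fun i => g (U i))]
  simp_rw [hin]
  rw [integral_poissonMeasure]
  set z := ∫ u, g u ∂unif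
  have h2 : ∀ n : ℕ, (Real.exp (-((1:ℝ≥0):ℝ)) * ((1:ℝ≥0):ℝ) ^ n / (n.factorial : ℝ)) • z ^ n =
      Complex.exp (-1) * (z ^ n / n.factorial) := by
    intro n
    rw [Complex.real_smul]
    push_cast
    rw [one_pow]
    ring
  simp_rw [h2]
  rw [tsum_mul_left, (NormedSpace.expSeries_div_hasSum_exp z).tsum_eq, ← Complex.exp_eq_exp_ℂ,
    ← Complex.exp_add]
  congr 1
  ring

lemma integral_prod_slices {d : ℕ} (S : Finset (Site d × ℕ)) (G : Site d × ℕ → Slc → ℂ)
    (hG : ∀ p, Measurable (G p)) :
    ∫ ω, ∏ p ∈ S, G p (ω p) ∂(PP d) = ∏ p ∈ S, ∫ s, G p s ∂slc := by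
  have h1 := integral_restrict_infinitePi (μ := fun _ : Site d × ℕ => slc) (s := S)
      (f := fun y : (i : S) → Slc => ∏ i : S, G i (y i)) (by
        refine Measurable.aestronglyMeasurable ?_
        exact Finset.measurable_prod _ fun i _ => (hG _).comp (measurable_pi_apply i))
  rw [integral_fintype_prod_eq_prod (f := fun (i : S) (s : Slc) => G i s)] at h1
  rw [← Finset.prod_coe_sort S (fun p => ∫ s, G p s ∂slc), ← h1]
  unfold PP
  refine integral_congr_ae (ae_of_all _ fun ω => ?_)
  show ∏ p ∈ S, G p (ω p) = ∏ i : S, G i (ω i)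
  rw [Finset.prod_coe_sort S (fun p => G p (ω p))]

open Classical in
/-- number of points of the slice `(k, k+1]` in `(a, b]` -/
noncomputable def sc (k : ℕ) (a b : ℝ) (s : Slc) : ℕ :=
  ∑ i ∈ Finset.range s.1, if (k : ℝ) + s.2 i ∈ Set.Ioc a b then 1 else 0

/-- number of points of the first `K` slices in `(a, b]` -/
noncomputable def cnt {d : ℕ} (K : ℕ) (ω : Om d) (x : Site d) (a b : ℝ) : ℕ :=
  ∑ k ∈ Finset.range K, sc k a b (ω (x, k))

lemma measurable_sc (k : ℕ) (a b : ℝ) : Measurable (sc k a b) := by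
  classical
  apply measurable_from_prod_countable_right
  intro n
  show Measurable fun U : ℕ → ℝ => ∑ i ∈ Finset.range n,
    if (k : ℝ) + U i ∈ Set.Ioc a b then 1 else 0
  refine Finset.measurable_sum _ fun i _ => ?_
  refine Measurable.ite ?_ measurable_const measurable_const
  exact measurableSet_Ioc.preimage (measurable_const.add (measurable_pi_apply i))

lemma measurable_cnt {d : ℕ} (K : ℕ) (x : Site d) (a b : ℝ) :
    Measurable fun ω : Om d => cnt K ω x a b := by
  unfold cnt
  exact Finset.measurable_sum _ fun k _ => (measurable_sc k a b).comp (measurable_pi_apply _)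

/-- good slices: positions in `(0,1]` and distinct -/
def Good (s : Slc) : Prop := (∀ i, s.2 i ∈ Set.Ioc (0:ℝ) 1) ∧ ∀ i j, i ≠ j → s.2 i ≠ s.2 j

lemma measurableSet_good : MeasurableSet {s : Slc | Good s} := by
  have h1 : {s : Slc | Good s} = (⋂ i, {s : Slc | s.2 i ∈ Set.Ioc (0:ℝ) 1}) ∩
      ⋂ i, ⋂ j, {s : Slc | i ≠ j → s.2 i ≠ s.2 j} := by
    ext s
    simp [Good]
  rw [h1]
  refine MeasurableSet.inter (MeasurableSet.iInter fun i => ?_)
    (MeasurableSet.iInter fun i => MeasurableSet.iInter fun j => ?_)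
  · exact measurableSet_Ioc.preimage ((measurable_pi_apply i).comp measurable_snd)
  · by_cases h : i = j
    · simp [h]
    · have : {s : Slc | i ≠ j → s.2 i ≠ s.2 j} = {s : Slc | s.2 i = s.2 j}ᶜ := by
        ext s
        simp [h]
      rw [this]
      exact (measurableSet_eq_fun ((measurable_pi_apply i).comp measurable_snd)
        ((measurable_pi_apply j).comp measurable_snd)).compl

lemma ae_good : ∀ᵐ s ∂slc, Good s := by
  have h1 : ∀ᵐ U : ℕ → ℝ ∂(Measure.infinitePi fun _ : ℕ => unif),
      (∀ i, U i ∈ Set.Ioc (0:ℝ) 1) ∧ ∀ i j, i ≠ j → U i ≠ U j := by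
    rw [eventually_and]
    constructor
    · rw [ae_all_iff]
      intro i
      have h2 : ∀ᵐ u ∂unif, u ∈ Set.Ioc (0:ℝ) 1 := ae_restrict_mem measurableSet_Ioc
      exact (measurePreserving_eval_infinitePi (fun _ : ℕ => unif) i).quasiMeasurePreserving.ae h2
    · rw [ae_all_iff]
      intro i
      rw [ae_all_iff]
      intro j
      by_cases hij : i = j
      · exact ae_of_all _ fun U h => absurd hij h
      · have h3 : ∀ᵐ z : ℝ × ℝ ∂(unif.prod unif), z.1 ≠ z.2 := by
          rw [ae_iff]
          have hms : MeasurableSet {z : ℝ × ℝ | ¬ z.1 ≠ z.2} := by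
            simp only [not_not]
            exact measurableSet_eq_fun measurable_fst measurable_snd
          rw [Measure.measure_prod_null hms]
          refine ae_of_all _ fun x => ?_
          have : Prod.mk x ⁻¹' {z : ℝ × ℝ | ¬ z.1 ≠ z.2} = {x} := by
            ext y
            simp [eq_comm]
          show unif (Prod.mk x ⁻¹' {z : ℝ × ℝ | ¬ z.1 ≠ z.2}) = 0
          rw [this]
          unfold unif
          exact le_antisymm ((Measure.restrict_apply_le _ _).trans (by simp)) (zero_le)
        have h4 : MeasurePreserving (fun U : ℕ → ℝ => (U i, U j))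
            (Measure.infinitePi fun _ : ℕ => unif) (unif.prod unif) :=
          ⟨by fun_prop, Measure.infinitePi_map_eval_prod hij⟩
        filter_upwards [h4.quasiMeasurePreserving.ae h3] with U hU _ using hU
  have h5 : ∀ᵐ s ∂((poissonMeasure 1).prod (Measure.infinitePi fun _ : ℕ => unif)),
      (∀ i, s.2 i ∈ Set.Ioc (0:ℝ) 1) ∧ ∀ i j, i ≠ j → s.2 i ≠ s.2 j :=
    Measure.quasiMeasurePreserving_snd.ae h1
  exact h5

lemma ae_all_good (d : ℕ) : ∀ᵐ ω ∂(PP d), ∀ (x : Site d) (k : ℕ), Good (ω (x, k)) := by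
  rw [ae_all_iff]
  intro x
  rw [ae_all_iff]
  intro k
  exact (measurePreserving_eval_infinitePi (fun _ : Site d × ℕ => slc) (x, k)).quasiMeasurePreserving.ae
    ae_good

open Classical in
/-- the update times -/
noncomputable def up {d : ℕ} (ω : Om d) (x : Site d) : Set ℝ :=
  if ∀ k, Good (ω (x, k)) then
    {v | ∃ k i : ℕ, i < (ω (x, k)).1 ∧ v = (k : ℝ) + (ω (x, k)).2 i} else ∅

lemma up_eq {d : ℕ} {ω : Om d} {x : Site d} (h : ∀ k, Good (ω (x, k))) {a b : ℝ} {K : ℕ}
    (hK : b ≤ K) : ∃ T : Finset ((_ : ℕ) × ℕ), T.card = cnt K ω x a b ∧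
      up ω x ∩ Set.Ioc a b = (fun p : (_ : ℕ) × ℕ => (p.1 : ℝ) + (ω (x, p.1)).2 p.2) '' T ∧
      Set.InjOn (fun p : (_ : ℕ) × ℕ => (p.1 : ℝ) + (ω (x, p.1)).2 p.2) T := by
  classical
  refine ⟨(Finset.range K).sigma fun k => (Finset.range (ω (x, k)).1).filter fun i =>
    (k : ℝ) + (ω (x, k)).2 i ∈ Set.Ioc a b, ?_, ?_, ?_⟩
  · rw [Finset.card_sigma]
    unfold cnt sc
    refine Finset.sum_congr rfl fun k _ => ?_
    rw [Finset.card_filter]
  · ext v
    unfold up
    rw [if_pos h]
    constructor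
    · rintro ⟨⟨k, i, hi, rfl⟩, hv⟩
      refine ⟨⟨k, i⟩, ?_, rfl⟩
      simp only [Finset.coe_sigma, Set.mem_sigma_iff, Finset.coe_range, Set.mem_Iio,
        Finset.coe_filter, Set.mem_setOf_eq, Finset.mem_range]
      refine ⟨?_, hi, hv⟩
      have h1 := ((h k).1 i).1
      have h2 : (k : ℝ) < K := by linarith [hv.2]
      exact_mod_cast h2
    · rintro ⟨⟨k, i⟩, hT, rfl⟩
      simp only [Finset.coe_sigma, Set.mem_sigma_iff, Finset.coe_range, Set.mem_Iio,
        Finset.coe_filter, Set.mem_setOf_eq, Finset.mem_range] at hT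
      exact ⟨⟨k, i, hT.2.1, rfl⟩, hT.2.2⟩
  · rintro ⟨k, i⟩ _ ⟨k', i'⟩ _ heq
    simp only at heq
    have h1 := (h k).1 i
    have h2 := (h k').1 i'
    have hkk : k = k' := by
      have h3 : (k : ℝ) < k' + 1 := by linarith [h1.1, h2.2]
      have h4 : (k' : ℝ) < k + 1 := by linarith [h2.1, h1.2]
      have h3' : k < k' + 1 := by exact_mod_cast h3
      have h4' : k' < k + 1 := by exact_mod_cast h4
      omega
    subst hkk
    have h5 : (ω (x, k)).2 i = (ω (x, k)).2 i' := by linarith
    have h6 : i = i' := by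
      by_contra hne
      exact (h k).2 i i' hne h5
    rw [h6]

lemma count_eq {d : ℕ} {ω : Om d} {x : Site d} (h : ∀ k, Good (ω (x, k))) {a b : ℝ} {K : ℕ}
    (hK : b ≤ K) : count (up ω) x a b = cnt K ω x a b := by
  obtain ⟨T, hT, h1, h2⟩ := up_eq (a := a) h hK
  unfold count
  rw [h1, h2.ncard_image, Set.ncard_coe_finset, hT]

lemma count_eq_zero {d : ℕ} {ω : Om d} {x : Site d} (h : ¬ ∀ k, Good (ω (x, k))) (a b : ℝ) :
    count (up ω) x a b = 0 := by
  unfold count up
  rw [if_neg h, Set.empty_inter, Set.ncard_empty]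

/-! ### characteristic functions -/

open Classical in
/-- the weight of a point at `v` for the site `y` -/
noncomputable def ww {d : ℕ} {ι : Type*} [Fintype ι] (x : ι → Site d) (a b t : ι → ℝ)
    (y : Site d) (v : ℝ) : ℂ :=
  ∏ j, if x j = y ∧ v ∈ Set.Ioc (a j) (b j) then Complex.exp (t j * Complex.I) else 1

lemma measurable_ww {d : ℕ} {ι : Type*} [Fintype ι] (x : ι → Site d) (a b t : ι → ℝ)
    (y : Site d) : Measurable (ww x a b t y) := by
  classical
  unfold ww
  refine Finset.measurable_prod _ fun j _ => Measurable.ite ?_ measurable_const measurable_const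
  by_cases h : x j = y
  · have : {v : ℝ | x j = y ∧ v ∈ Set.Ioc (a j) (b j)} = Set.Ioc (a j) (b j) := by
      ext v
      simp [h]
    rw [this]
    exact measurableSet_Ioc
  · simp [h]

lemma norm_ww {d : ℕ} {ι : Type*} [Fintype ι] (x : ι → Site d) (a b t : ι → ℝ)
    (y : Site d) (v : ℝ) : ‖ww x a b t y v‖ = 1 := by
  unfold ww
  rw [norm_prod]
  refine Finset.prod_eq_one fun j _ => ?_
  split_ifs
  · exact Complex.norm_exp_ofReal_mul_I _
  · exact norm_one

open Classical in
lemma ww_sub_one {d : ℕ} {ι : Type*} [Fintype ι] {x : ι → Site d} {a b t : ι → ℝ}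
    (hdisj : ∀ i j, i ≠ j → x i = x j → Disjoint (Set.Ioc (a i) (b i)) (Set.Ioc (a j) (b j)))
    (y : Site d) (v : ℝ) : ww x a b t y v - 1 =
      ∑ j, (if x j = y then (Set.Ioc (a j) (b j)).indicator
        (fun _ => Complex.exp (t j * Complex.I) - 1) v else 0) := by
  by_cases h : ∃ j, x j = y ∧ v ∈ Set.Ioc (a j) (b j)
  · obtain ⟨j, hj1, hj2⟩ := h
    have huniq : ∀ i, i ≠ j → ¬ (x i = y ∧ v ∈ Set.Ioc (a i) (b i)) := by
      rintro i hij ⟨h1, h2⟩
      exact Set.disjoint_left.1 (hdisj i j hij (h1.trans hj1.symm)) h2 hj2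
    unfold ww
    rw [Finset.prod_eq_single j, Finset.sum_eq_single j, if_pos ⟨hj1, hj2⟩, if_pos hj1,
      Set.indicator_of_mem hj2]
    · intro i _ hi
      by_cases h1 : x i = y
      · rw [if_pos h1, Set.indicator_of_notMem]
        exact fun h2 => huniq i hi ⟨h1, h2⟩
      · rw [if_neg h1]
    · intro h
      exact absurd (Finset.mem_univ j) h
    · intro i _ hi
      rw [if_neg (huniq i hi)]
    · intro h
      exact absurd (Finset.mem_univ j) h
  · push Not at h
    unfold ww
    rw [Finset.prod_eq_one, sub_self, eq_comm]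
    · refine Finset.sum_eq_zero fun j _ => ?_
      by_cases h1 : x j = y
      · rw [if_pos h1, Set.indicator_of_notMem (h j h1)]
      · rw [if_neg h1]
    · intro j _
      rw [if_neg]
      rintro ⟨h1, h2⟩
      exact h j h1 h2

lemma pointwise {d : ℕ} {ι : Type*} [Fintype ι] (x : ι → Site d) (a b t : ι → ℝ) (K : ℕ)
    (X : Finset (Site d)) (hX : ∀ j, x j ∈ X) (ω : Om d) :
    Complex.exp ((∑ j, t j * (cnt K ω (x j) (a j) (b j) : ℝ) : ℝ) * Complex.I) =
      ∏ p ∈ X ×ˢ Finset.range K, gp (fun u => ww x a b t p.1 ((p.2 : ℝ) + u)) (ω p) := by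
  classical
  rw [Finset.prod_product]
  unfold gp ww
  have h1 : ∀ y ∈ X, (∏ k ∈ Finset.range K, ∏ i ∈ Finset.range (ω (y, k)).1,
      ∏ j, (if x j = y ∧ (k : ℝ) + (ω (y, k)).2 i ∈ Set.Ioc (a j) (b j) then
        Complex.exp (t j * Complex.I) else 1)) =
      ∏ j, (if x j = y then Complex.exp (t j * Complex.I) ^ (cnt K ω y (a j) (b j)) else 1) := by
    intro y _
    have h2 : ∀ k ∈ Finset.range K, (∏ i ∈ Finset.range (ω (y, k)).1,
      ∏ j, (if x j = y ∧ (k : ℝ) + (ω (y, k)).2 i ∈ Set.Ioc (a j) (b j) then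
        Complex.exp (t j * Complex.I) else 1)) =
        ∏ j, (if x j = y then Complex.exp (t j * Complex.I) ^ (sc k (a j) (b j) (ω (y, k))) else 1) := by
      intro k _
      rw [Finset.prod_comm]
      refine Finset.prod_congr rfl fun j _ => ?_
      by_cases hj : x j = y
      · rw [if_pos hj]
        unfold sc
        rw [← Finset.prod_pow_eq_pow_sum]
        refine Finset.prod_congr rfl fun i _ => ?_
        by_cases hi : (k : ℝ) + (ω (y, k)).2 i ∈ Set.Ioc (a j) (b j)
        · rw [if_pos ⟨hj, hi⟩, if_pos hi, pow_one]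
        · rw [if_neg (fun h => hi h.2), if_neg hi, pow_zero]
      · rw [if_neg hj]
        exact Finset.prod_eq_one fun i _ => if_neg fun h => hj h.1
    rw [Finset.prod_congr rfl h2, Finset.prod_comm]
    refine Finset.prod_congr rfl fun j _ => ?_
    by_cases hj : x j = y
    · simp only [if_pos hj]
      unfold cnt
      rw [Finset.prod_pow_eq_pow_sum]
    · simp only [if_neg hj, Finset.prod_const_one]
  rw [Finset.prod_congr rfl h1, Finset.prod_comm, Complex.ofReal_sum, Finset.sum_mul,
    Complex.exp_sum]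
  refine Finset.prod_congr rfl fun j _ => ?_
  rw [Finset.prod_ite_eq X (x j) (fun y => Complex.exp (t j * Complex.I) ^ (cnt K ω y (a j) (b j))),
    if_pos (hX j), ← Complex.exp_nat_mul]
  congr 1
  push_cast
  ring

lemma charfun_cnt {d : ℕ} {ι : Type*} [Fintype ι] {x : ι → Site d} {a b t : ι → ℝ} {K : ℕ}
    (ha : ∀ j, 0 ≤ a j) (hab : ∀ j, a j ≤ b j) (hb : ∀ j, b j ≤ K)
    (hdisj : ∀ i j, i ≠ j → x i = x j → Disjoint (Set.Ioc (a i) (b i)) (Set.Ioc (a j) (b j))) :
    ∫ ω, Complex.exp ((∑ j, t j * (cnt K ω (x j) (a j) (b j) : ℝ) : ℝ) * Complex.I) ∂(PP d) =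
      ∏ j, Complex.exp (((b j - a j : ℝ) : ℂ) * (Complex.exp (t j * Complex.I) - 1)) := by
  classical
  set X : Finset (Site d) := Finset.univ.image x with hXdef
  have hX : ∀ j, x j ∈ X := fun j => Finset.mem_image_of_mem x (Finset.mem_univ j)
  have hint : ∀ (y : Site d) (c e : ℝ), IntervalIntegrable (fun v => ww x a b t y v - 1) volume c e := by
    intro y c e
    refine IntervalIntegrable.sub ?_ intervalIntegrable_const
    rw [intervalIntegrable_iff]
    refine Integrable.mono' (intervalIntegrable_iff.1 (intervalIntegrable_const (c := (1:ℝ))))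
      (measurable_ww x a b t y).aestronglyMeasurable ?_
    exact ae_of_all _ fun v => (norm_ww x a b t y v).le
  have h1 : ∀ ω : Om d, Complex.exp ((∑ j, t j * (cnt K ω (x j) (a j) (b j) : ℝ) : ℝ) * Complex.I) =
      ∏ p ∈ X ×ˢ Finset.range K, gp (fun u => ww x a b t p.1 ((p.2 : ℝ) + u)) (ω p) :=
    fun ω => pointwise x a b t K X hX ω
  simp_rw [h1]
  rw [integral_prod_slices (X ×ˢ Finset.range K)
    (fun p => gp (fun u => ww x a b t p.1 ((p.2 : ℝ) + u)))
    (fun p => measurable_gp ((measurable_ww x a b t p.1).comp (measurable_const.add measurable_id)))]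
  have h2 : ∀ p ∈ X ×ˢ Finset.range K, ∫ s, gp (fun u => ww x a b t p.1 ((p.2 : ℝ) + u)) s ∂slc =
      Complex.exp (∫ v in (p.2 : ℝ)..((p.2 + 1 : ℕ) : ℝ), (ww x a b t p.1 v - 1)) := by
    intro p _
    have hmw : Measurable (fun u => ww x a b t p.1 ((p.2 : ℝ) + u)) :=
      (measurable_ww x a b t p.1).comp (measurable_const.add measurable_id)
    rw [integral_gp hmw (fun u => (norm_ww x a b t p.1 _).le)]
    congr 1
    have h3 : ∫ u, ww x a b t p.1 ((p.2 : ℝ) + u) ∂unif =
        ∫ u in (0:ℝ)..1, ww x a b t p.1 ((p.2 : ℝ) + u) := by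
      rw [intervalIntegral.integral_of_le zero_le_one]
      rfl
    rw [h3, intervalIntegral.integral_comp_add_left (fun v => ww x a b t p.1 v) (p.2 : ℝ), add_zero,
      intervalIntegral.integral_sub]
    · push_cast
      rw [intervalIntegral.integral_const]
      simp
    · have := (hint p.1 (p.2 : ℝ) ((p.2 + 1 : ℕ) : ℝ)).add
        (intervalIntegrable_const (c := (1:ℂ)))
      simpa using this
    · exact intervalIntegrable_const
  rw [Finset.prod_congr rfl h2, ← Complex.exp_sum, ← Complex.exp_sum]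
  congr 1
  rw [Finset.sum_product]
  have h4 : ∀ y ∈ X, (∑ k ∈ Finset.range K, ∫ v in (k : ℝ)..((k + 1 : ℕ) : ℝ), (ww x a b t y v - 1)) =
      ∑ j, (if x j = y then ((b j - a j : ℝ) : ℂ) * (Complex.exp (t j * Complex.I) - 1) else 0) := by
    intro y _
    rw [intervalIntegral.sum_integral_adjacent_intervals (a := fun k : ℕ => (k : ℝ))
      (fun k _ => hint y _ _)]
    simp_rw [ww_sub_one hdisj]
    rw [intervalIntegral.integral_finsetSum]
    · refine Finset.sum_congr rfl fun j _ => ?_
      by_cases hj : x j = y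
      · simp only [if_pos hj]
        rw [Nat.cast_zero, intervalIntegral.integral_of_le (Nat.cast_nonneg K),
          setIntegral_indicator measurableSet_Ioc]
        have h5 : Set.Ioc (0:ℝ) K ∩ Set.Ioc (a j) (b j) = Set.Ioc (a j) (b j) := by
          refine Set.inter_eq_right.2 ?_
          exact Set.Ioc_subset_Ioc (ha j) (hb j)
        rw [h5, setIntegral_const, measureReal_def, Real.volume_Ioc,
          ENNReal.toReal_ofReal (sub_nonneg.2 (hab j)), Complex.real_smul]
      · simp only [if_neg hj]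
        simp
    · intro j _
      by_cases hj : x j = y
      · simp only [if_pos hj]
        rw [intervalIntegrable_iff]
        exact (intervalIntegrable_iff.1 intervalIntegrable_const).indicator measurableSet_Ioc
      · simp only [if_neg hj]
        exact intervalIntegrable_const
  rw [Finset.sum_congr rfl h4, Finset.sum_comm]
  refine Finset.sum_congr rfl fun j _ => ?_
  rw [Finset.sum_ite_eq, if_pos (hX j)]

/-! ### the clocks -/

lemma measurable_count {d : ℕ} (x : Site d) (a b : ℝ) :
    Measurable fun ω : Om d => count (up ω) x a b := by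
  classical
  have h1 : (fun ω : Om d => count (up ω) x a b) =
      fun ω => if ∀ k, Good (ω (x, k)) then cnt ⌈b⌉₊ ω x a b else 0 := by
    funext ω
    by_cases h : ∀ k, Good (ω (x, k))
    · rw [if_pos h, count_eq h (Nat.le_ceil b)]
    · rw [if_neg h, count_eq_zero h]
  rw [h1]
  refine Measurable.ite ?_ (measurable_cnt _ _ _ _) measurable_const
  have h2 : {ω : Om d | ∀ k, Good (ω (x, k))} = ⋂ k, (fun ω : Om d => ω (x, k)) ⁻¹' {s | Good s} := by
    ext ω
    simp
  rw [h2]
  exact MeasurableSet.iInter fun k => measurableSet_good.preimage (measurable_pi_apply _)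

lemma charfun_count {d : ℕ} {ι : Type*} [Fintype ι] {x : ι → Site d} {a b : ι → ℝ} (t : ι → ℝ)
    (ha : ∀ j, 0 ≤ a j) (hab : ∀ j, a j ≤ b j)
    (hdisj : ∀ i j, i ≠ j → x i = x j → Disjoint (Set.Ioc (a i) (b i)) (Set.Ioc (a j) (b j))) :
    ∫ ω, Complex.exp ((∑ j, t j * (count (up ω) (x j) (a j) (b j) : ℝ) : ℝ) * Complex.I) ∂(PP d) =
      ∏ j, Complex.exp (((b j - a j : ℝ) : ℂ) * (Complex.exp (t j * Complex.I) - 1)) := by
  classical
  obtain ⟨K, hK⟩ : ∃ K : ℕ, ∀ j, b j ≤ K := by
    refine ⟨∑ j, ⌈b j⌉₊, fun j => (Nat.le_ceil _).trans ?_⟩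
    exact_mod_cast Finset.single_le_sum (f := fun j => ⌈b j⌉₊) (fun i _ => Nat.zero_le _)
      (Finset.mem_univ j)
  rw [← charfun_cnt ha hab hK hdisj]
  refine integral_congr_ae ?_
  filter_upwards [ae_all_good d] with ω hω
  have : ∀ j, count (up ω) (x j) (a j) (b j) = cnt K ω (x j) (a j) (b j) :=
    fun j => count_eq (hω (x j)) (hK j)
  simp only [this]

lemma law_real {d : ℕ} (x : Site d) {a b : ℝ} (ha : 0 ≤ a) (hab : a ≤ b) (s : ℝ) :
    charFun ((PP d).map fun ω => (count (up ω) x a b : ℝ)) s =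
      Complex.exp (((b - a : ℝ) : ℂ) * (Complex.exp (s * Complex.I) - 1)) := by
  have h := charfun_count (d := d) (ι := Unit) (x := fun _ => x) (a := fun _ => a) (b := fun _ => b)
    (fun _ => s) (fun _ => ha) (fun _ => hab) (by intro i j h; exact absurd (Subsingleton.elim i j) h)
  simp only [Finset.univ_unique, Finset.sum_singleton, Finset.prod_singleton] at h
  rw [← h, charFun_apply_real, integral_map]
  · refine integral_congr_ae (ae_of_all _ fun ω => ?_)
    simp only
    congr 1
    push_cast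
    ring
  · exact ((measurable_from_nat).comp (measurable_count x a b)).aemeasurable
  · exact (by fun_prop : Continuous fun y : ℝ => Complex.exp (s * y * Complex.I)).aestronglyMeasurable

end Clk

theorem exists_clocks (d : ℕ) : ∃ (Ω : Type) (_ : MeasurableSpace Ω) (P : Measure Ω)
    (upd : Ω → Site d → Set ℝ), IsProbabilityMeasure P ∧ IsPoissonClocks P upd := by
  classical
  refine ⟨Clk.Om d, inferInstance, Clk.PP d, Clk.up, inferInstance, ?_, ?_, ?_, ?_, ?_⟩
  · intro ω x v hv
    unfold Clk.up at hv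
    split_ifs at hv with h
    · obtain ⟨k, i, _, rfl⟩ := hv
      have h1 := ((h k).1 i).1
      have h2 : (0:ℝ) ≤ k := Nat.cast_nonneg k
      exact Set.mem_Ioi.2 (by linarith)
    · exact absurd hv (Set.notMem_empty v)
  · intro ω x T
    by_cases h : ∀ k, Clk.Good (ω (x, k))
    · obtain ⟨F, _, h1, _⟩ := Clk.up_eq (a := 0) h (Nat.le_ceil T)
      have h2 : Clk.up ω x ∩ Set.Iic T = Clk.up ω x ∩ Set.Ioc 0 T := by
        ext v
        constructor
        · rintro ⟨hv, hT⟩
          refine ⟨hv, ?_, hT⟩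
          unfold Clk.up at hv
          rw [if_pos h] at hv
          obtain ⟨k, i, _, rfl⟩ := hv
          have h1 := ((h k).1 i).1
          have h2 : (0:ℝ) ≤ k := Nat.cast_nonneg k
          linarith
        · rintro ⟨hv, hT⟩
          exact ⟨hv, hT.2⟩
      rw [h2, h1]
      exact (Finset.finite_toSet F).image _
    · unfold Clk.up
      rw [if_neg h, Set.empty_inter]
      exact Set.finite_empty
  · exact fun x a b => Clk.measurable_count x a b
  · intro x a b ha hab
    have h1 : ((Clk.PP d).map fun ω => (count (Clk.up ω) x a b : ℝ)) =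
        (poissonMeasure (b - a).toNNReal).map (Nat.cast : ℕ → ℝ) := by
      apply Measure.ext_of_charFun
      funext s
      rw [Clk.law_real x ha hab, charFun_map_cast_poissonMeasure, Real.coe_toNNReal']
      rw [max_eq_left (sub_nonneg.2 hab)]
    have h2 : ∀ μ : Measure ℕ, (μ.map (Nat.cast : ℕ → ℝ)).map (fun y : ℝ => ⌊y⌋₊) = μ := by
      intro μ
      rw [Measure.map_map Nat.measurable_floor measurable_from_nat]
      have : (fun y : ℝ => ⌊y⌋₊) ∘ (Nat.cast : ℕ → ℝ) = id := by
        funext n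
        simp
      rw [this, Measure.map_id]
    have h3 : (Clk.PP d).map (fun ω => (count (Clk.up ω) x a b : ℝ)) =
        ((Clk.PP d).map (fun ω => count (Clk.up ω) x a b)).map (Nat.cast : ℕ → ℝ) := by
      rw [Measure.map_map measurable_from_nat (Clk.measurable_count x a b)]
      rfl
    rw [← h2 ((Clk.PP d).map (fun ω => count (Clk.up ω) x a b)), ← h3, h1, h2]
  · intro t ht0 htm
    rw [iIndepFun_iff_finset]
    intro s
    have hm : ∀ i : s, Measurable fun ω => (count (Clk.up ω) i.1.2 (t i.1.1) (t (i.1.1 + 1)) : ℝ) :=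
      fun i => measurable_from_nat.comp (Clk.measurable_count _ _ _)
    have hreal : iIndepFun (fun (i : s) ω =>
        (count (Clk.up ω) i.1.2 (t i.1.1) (t (i.1.1 + 1)) : ℝ)) (Clk.PP d) := by
      rw [iIndepFun_iff_charFun_pi (fun i => (hm i).aemeasurable)]
      intro u
      have h1 := Clk.charfun_count (d := d) (ι := s) (x := fun i => i.1.2)
        (a := fun i => t i.1.1) (b := fun i => t (i.1.1 + 1)) (fun i => u i)
        (fun i => ht0.trans (htm (Nat.zero_le _))) (fun i => htm (Nat.le_succ _)) (by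
          intro i j hij hx
          have hne : i.1.1 ≠ j.1.1 := by
            intro h
            apply hij
            exact Subtype.ext (Prod.ext h hx)
          exact htm.pairwise_disjoint_on_Ioc_succ hne)
      have h2 : ∀ i : s, charFun ((Clk.PP d).map fun ω =>
          (count (Clk.up ω) i.1.2 (t i.1.1) (t (i.1.1 + 1)) : ℝ)) (u i) =
          Complex.exp (((t (i.1.1 + 1) - t i.1.1 : ℝ) : ℂ) * (Complex.exp ((u i : ℝ) * Complex.I) - 1)) :=
        fun i => Clk.law_real _ (ht0.trans (htm (Nat.zero_le _))) (htm (Nat.le_succ _)) _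
      rw [Finset.prod_congr rfl (fun i _ => h2 i), ← h1, charFun_apply, integral_map]
      · refine integral_congr_ae (ae_of_all _ fun ω => ?_)
        simp only
        congr 3
      · refine Measurable.aemeasurable ?_
        exact (WithLp.measurable_toLp 2 _).comp (measurable_pi_lambda _ fun i => hm i)
      · exact (by fun_prop : Continuous fun y : PiLp 2 (fun _ : s => ℝ) =>
          Complex.exp ((inner ℝ y u : ℝ) * Complex.I)).aestronglyMeasurable
    have h3 := hreal.comp (fun _ y => ⌊y⌋₊) (fun _ => Nat.measurable_floor)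
    convert! h3 using 2 with i
    funext ω
    simp [Finset.restrict]

end Pool.MP4bb68c
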