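import Mathlib
import Pool.Agent.Work.MP_4bb68c_pr.Defs
import Pool.Agent.Work.MP_4bb68c_pr.Run

open MeasureTheory ProbabilityTheory Filter Topology
open scoped NNReal ENNReal

namespace Pool.MP4bb68c

variable {d : ℕ}

/-- A site and its neighbours. -/
def ev_nbs (x : Site d) : Finset (Site d) := insert x (Finset.univ.image (nb x))

theorem ev_self_mem (x : Site d) : x ∈ ev_nbs x := Finset.mem_insert_self _ _

theorem ev_nb_mem (x : Site d) (a : Fin d × Bool) : nb x a ∈ ev_nbs x :=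
  Finset.mem_insert_of_mem (Finset.mem_image_of_mem _ (Finset.mem_univ a))

theorem ev_card_nbs (x : Site d) : (ev_nbs x).card ≤ 2 * d + 1 := by
  unfold ev_nbs
  refine (Finset.card_insert_le _ _).trans ?_
  have h1 : (Finset.univ.image (nb x)).card ≤ 2 * d := by
    refine Finset.card_image_le.trans ?_
    rw [Finset.card_univ, Fintype.card_prod, Fintype.card_fin, Fintype.card_bool]
    omega
  omega

theorem ev_newHeight_congr {h h' : Height d} {x : Site d} (hh : ∀ z ∈ ev_nbs x, h z = h' z) :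
    newHeight h x = newHeight h' x := by
  apply le_antisymm
  · rw [newHeight_le_iff]
    refine ⟨?_, fun a => ?_⟩
    · rw [hh x (ev_self_mem x)]
      exact succ_le_newHeight h' x
    · rw [hh _ (ev_nb_mem x a)]
      exact nb_le_newHeight h' x a
  · rw [newHeight_le_iff]
    refine ⟨?_, fun a => ?_⟩
    · rw [← hh x (ev_self_mem x)]
      exact succ_le_newHeight h x
    · rw [← hh _ (ev_nb_mem x a)]
      exact nb_le_newHeight h x a

/-- The dependence relation between pairs (site, time). -/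
def ev_r (u : Site d → Set ℝ) (q p : Site d × ℝ) : Prop :=
  q.2 ∈ u p.1 ∧ q.2 < p.2 ∧ q.1 ∈ ev_nbs p.1

open Classical in
/-- The recursion step. -/
noncomputable def ev_F (u : Site d → Set ℝ) (f : Height d) (p : Site d × ℝ)
    (rec : ∀ q, ev_r u q p → ℤ) : ℤ :=
  if h : ∃ τ, IsGreatest (u p.1 ∩ Set.Iio p.2) τ then
    newHeight (fun z => if hz : ev_r u (z, h.choose) p then rec (z, h.choose) hz else 0) p.1
  else f p.1

theorem ev_exists_G {u : Site d → Set ℝ} (hwf : WellFounded (ev_r u)) (f : Height d) :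
    ∃ G : Site d × ℝ → ℤ,
      (∀ x t τ, IsGreatest (u x ∩ Set.Iio t) τ → G (x, t) = newHeight (fun z => G (z, τ)) x) ∧
      (∀ x t, u x ∩ Set.Iio t = ∅ → G (x, t) = f x) := by
  refine ⟨hwf.fix (ev_F u f), ?_, ?_⟩
  · intro x t τ hτ
    rw [hwf.fix_eq]
    have hex : ∃ τ, IsGreatest (u (x, t).1 ∩ Set.Iio (x, t).2) τ := ⟨τ, hτ⟩
    have he : hex.choose = τ := hex.choose_spec.unique hτ
    unfold ev_F
    rw [dif_pos hex]
    apply ev_newHeight_congr
    intro z hz
    have hr : ev_r u (z, hex.choose) (x, t) := by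
      rw [he]
      exact ⟨hτ.1.1, hτ.1.2, hz⟩
    rw [dif_pos hr]
    show hwf.fix (ev_F u f) (z, hex.choose) = _
    rw [he]
    rfl
  · intro x t hx
    rw [hwf.fix_eq]
    unfold ev_F
    rw [dif_neg]
    rintro ⟨τ, hτ⟩
    have := hτ.1
    simp only [hx] at this
    exact this

theorem ev_fin {s : Set ℝ} {t : ℝ} (hs : (s ∩ Set.Iic t).Finite) : (s ∩ Set.Iio t).Finite :=
  hs.subset (Set.inter_subset_inter_right _ Set.Iio_subset_Iic_self)

theorem ev_exists_greatest {s : Set ℝ} (hs : s.Finite) (hne : s.Nonempty) :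
    ∃ τ, IsGreatest s τ := by
  obtain ⟨a, ha, hmax⟩ := Set.exists_max_image s id hs hne
  exact ⟨a, ha, hmax⟩

/-- A finite set below `t` stays below some `s < t`. -/
theorem ev_eventually {s : Set ℝ} {t : ℝ} (hs : (s ∩ Set.Iic t).Finite) :
    ∀ᶠ r in 𝓝[<] t, s ∩ Set.Ioo r t = ∅ ∧ s ∩ Set.Iic r = s ∩ Set.Iio t := by
  have hfin : (s ∩ Set.Iio t).Finite := ev_fin hs
  have h1 : ∀ᶠ r in 𝓝[<] t, ∀ y ∈ s ∩ Set.Iio t, y < r := by
    rw [Set.Finite.eventually_all hfin]
    intro y hy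
    exact Ioo_mem_nhdsLT hy.2 |> fun h => Filter.mem_of_superset h fun r hr => hr.1
  filter_upwards [h1, self_mem_nhdsWithin] with r hr hrt
  have hrt' : r < t := hrt
  constructor
  · rw [Set.eq_empty_iff_forall_notMem]
    rintro y ⟨hy1, hy2, hy3⟩
    exact absurd (hr y ⟨hy1, hy3⟩) (not_lt.2 hy2.le)
  · ext y
    constructor
    · rintro ⟨h1, h2⟩
      exact ⟨h1, lt_of_le_of_lt (Set.mem_Iic.1 h2) hrt'⟩
    · rintro ⟨h1, h2⟩
      exact ⟨h1, (hr y ⟨h1, h2⟩).le⟩

/-- Deterministic existence and uniqueness. -/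
theorem ev_det {u : Site d → Set ℝ} (hpos : ∀ x, u x ⊆ Set.Ioi 0)
    (hfin : ∀ x T, (u x ∩ Set.Iic T).Finite) (hwf : WellFounded (ev_r u)) (f : Height d) :
    ∃ h : ℝ → Height d, IsEvolution u f h ∧
      ∀ h' : ℝ → Height d, IsEvolution u f h' → ∀ t, 0 ≤ t → h' t = h t := by
  classical
  obtain ⟨G, hG1, hG2⟩ := ev_exists_G hwf f
  let h : ℝ → Height d := fun t x =>
    if hx : ∃ τ, IsGreatest (u x ∩ Set.Iic t) τ then newHeight (fun z => G (z, hx.choose)) x
    else f x
  have hh1 : ∀ x t τ, IsGreatest (u x ∩ Set.Iic t) τ → h t x = newHeight (fun z => G (z, τ)) x := by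
    intro x t τ hτ
    have hex : ∃ τ, IsGreatest (u x ∩ Set.Iic t) τ := ⟨τ, hτ⟩
    have he : hex.choose = τ := hex.choose_spec.unique hτ
    simp only [h]
    rw [dif_pos hex, he]
  have hh2 : ∀ x t, u x ∩ Set.Iic t = ∅ → h t x = f x := by
    intro x t hx
    simp only [h]
    rw [dif_neg]
    rintro ⟨τ, hτ⟩
    have := hτ.1
    simp only [hx] at this
    exact this
  have hhG : ∀ x t, ∀ᶠ s in 𝓝[<] t, h s x = G (x, t) := by
    intro x t
    filter_upwards [ev_eventually (hfin x t)] with s hs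
    rcases (u x ∩ Set.Iio t).eq_empty_or_nonempty with he | hne
    · rw [hG2 x t he, hh2 x s (by rw [hs.2, he])]
    · obtain ⟨τ, hτ⟩ := ev_exists_greatest (ev_fin (hfin x t)) hne
      rw [hG1 x t τ hτ, hh1 x s τ (by rw [hs.2]; exact hτ)]
  have hev : IsEvolution u f h := by
    refine ⟨?_, ?_, ?_⟩
    · funext x
      apply hh2
      rw [Set.eq_empty_iff_forall_notMem]
      rintro y ⟨hy1, hy2⟩
      exact absurd (Set.mem_Ioi.1 (hpos x hy1)) (not_lt.2 (Set.mem_Iic.1 hy2))
    · intro x s t hs hst hemp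
      have he : u x ∩ Set.Iic t = u x ∩ Set.Iic s := by
        ext y
        constructor
        · rintro ⟨h1, h2⟩
          refine ⟨h1, ?_⟩
          by_contra h3
          have : y ∈ u x ∩ Set.Ioc s t := ⟨h1, not_le.1 h3, h2⟩
          rw [hemp] at this
          exact this
        · rintro ⟨h1, h2⟩
          exact ⟨h1, le_trans (Set.mem_Iic.1 h2) hst⟩
      rcases (u x ∩ Set.Iic t).eq_empty_or_nonempty with h0 | hne
      · rw [hh2 x t h0, hh2 x s (by rw [← he, h0])]
      · obtain ⟨τ, hτ⟩ := ev_exists_greatest (hfin x t) hne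
        rw [hh1 x t τ hτ, hh1 x s τ (by rw [← he]; exact hτ)]
    · intro x t ht
      have h1 : h t x = newHeight (fun z => G (z, t)) x :=
        hh1 x t t ⟨⟨ht, Set.mem_Iic.2 le_rfl⟩, fun y hy => Set.mem_Iic.1 hy.2⟩
      have h2 : ∀ᶠ s in 𝓝[<] t, ∀ z ∈ ev_nbs x, h s z = G (z, t) := by
        rw [Finset.eventually_all]
        intro z _
        exact hhG z t
      filter_upwards [h2] with s hs
      rw [h1]
      exact ev_newHeight_congr fun z hz => (hs z hz).symm
  refine ⟨h, hev, fun h' hev' t ht => ?_⟩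
  -- the left limits of `h'`
  have key : ∀ p : Site d × ℝ, 0 < p.2 → ∀ᶠ s in 𝓝[<] p.2, h' s p.1 = G p := by
    intro p
    induction p using hwf.induction with
    | _ p ih =>
      obtain ⟨x, t⟩ := p
      intro ht0
      simp only at ht0 ⊢
      have hpos' : ∀ᶠ s in 𝓝[<] t, 0 < s :=
        Filter.mem_of_superset (Ioo_mem_nhdsLT ht0) fun r hr => hr.1
      rcases (u x ∩ Set.Iio t).eq_empty_or_nonempty with he | hne
      · filter_upwards [ev_eventually (hfin x t), hpos'] with s hs hs0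
        rw [hG2 x t he, hev'.const x 0 s le_rfl hs0.le ?_, hev'.init]
        rw [Set.eq_empty_iff_forall_notMem]
        rintro y ⟨hy1, hy2, hy3⟩
        have : y ∈ u x ∩ Set.Iic s := ⟨hy1, hy3⟩
        rw [hs.2, he] at this
        exact this
      · obtain ⟨τ, hτ⟩ := ev_exists_greatest (ev_fin (hfin x t)) hne
        have hτ0 : 0 < τ := hpos x hτ.1.1
        have hτt : τ < t := hτ.1.2
        have h1 : h' τ x = newHeight (fun z => G (z, τ)) x := by
          have h2 : ∀ᶠ s in 𝓝[<] τ, ∀ z ∈ ev_nbs x, h' s z = G (z, τ) := by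
            rw [Finset.eventually_all]
            intro z hz
            exact ih (z, τ) ⟨hτ.1.1, hτt, hz⟩ hτ0
          obtain ⟨s, hs1, hs2⟩ := (h2.and (hev'.jump x τ hτ.1.1)).exists
          rw [hs2]
          exact ev_newHeight_congr hs1
        have hgt : ∀ᶠ s in 𝓝[<] t, τ < s :=
          Filter.mem_of_superset (Ioo_mem_nhdsLT hτt) fun r hr => hr.1
        filter_upwards [ev_eventually (hfin x t), hgt, self_mem_nhdsWithin] with s hs hs0 hst
        have hst' : s < t := hst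
        rw [hG1 x t τ hτ, ← h1]
        apply hev'.const x τ s hτ0.le hs0.le
        rw [Set.eq_empty_iff_forall_notMem]
        rintro y ⟨hy1, hy2, hy3⟩
        exact absurd (hτ.2 ⟨hy1, lt_of_le_of_lt hy3 hst'⟩) (not_le.2 hy2)
  funext x
  rcases (u x ∩ Set.Iic t).eq_empty_or_nonempty with he | hne
  · rw [hh2 x t he, hev'.const x 0 t le_rfl ht ?_, hev'.init]
    rw [Set.eq_empty_iff_forall_notMem]
    rintro y ⟨hy1, hy2, hy3⟩
    have : y ∈ u x ∩ Set.Iic t := ⟨hy1, hy3⟩
    rw [he] at this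
    exact this
  · obtain ⟨τ, hτ⟩ := ev_exists_greatest (hfin x t) hne
    have hτ0 : 0 < τ := hpos x hτ.1.1
    rw [hh1 x t τ hτ, hev'.const x τ t hτ0.le hτ.1.2 ?_]
    · have h2 : ∀ᶠ s in 𝓝[<] τ, ∀ z ∈ ev_nbs x, h' s z = G (z, τ) := by
        rw [Finset.eventually_all]
        intro z _
        exact key (z, τ) hτ0
      obtain ⟨s, hs1, hs2⟩ := (h2.and (hev'.jump x τ hτ.1.1)).exists
      rw [hs2]
      exact ev_newHeight_congr hs1
    · rw [Set.eq_empty_iff_forall_notMem]
      rintro y ⟨hy1, hy2, hy3⟩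
      exact absurd (hτ.2 ⟨hy1, hy3⟩) (not_le.2 hy2)

end Pool.MP4bb68c
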