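import Mathlib
import Pool.Agent.Work.MP_4bb68c_pr.Defs
import Pool.Agent.Work.MP_4bb68c_pr.EvolDet

open MeasureTheory ProbabilityTheory Filter Topology
open scoped NNReal ENNReal

namespace Pool.MP4bb68c

variable {d : ℕ}

/-- Chains of length `n` with all times above `a`. -/
def evW (u : Site d → Set ℝ) (a : ℝ) : ℕ → Site d → ℝ → Prop
  | 0, _, _ => True
  | n + 1, x, t => ∃ τ ∈ u x, a < τ ∧ τ < t ∧ ∃ z ∈ ev_nbs x, evW u a n z τ

theorem evW_mono {u : Site d → Set ℝ} {a : ℝ} {n : ℕ} {x : Site d} {t t' : ℝ} (htt : t ≤ t')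
    (h : evW u a n x t) : evW u a n x t' := by
  cases n with
  | zero => trivial
  | succ n =>
    obtain ⟨τ, h1, h2, h3, h4⟩ := h
    exact ⟨τ, h1, h2, h3.trans_le htt, h4⟩

theorem ev_wf {u : Site d → Set ℝ} (hpos : ∀ x, u x ⊆ Set.Ioi 0) {δ : ℝ} (hδ : 0 < δ)
    (h : ∀ (k : ℕ) (x : Site d), ∃ n, ¬ evW u (k * δ) n x ((k + 1) * δ)) :
    WellFounded (ev_r u) := by
  have key : ∀ k : ℕ, ∀ x t, t ≤ k * δ → Acc (ev_r u) (x, t) := by
    intro k
    induction k with
    | zero =>
      intro x t ht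
      refine Acc.intro _ fun q hq => ?_
      obtain ⟨h1, h2, _⟩ := hq
      have h3 : 0 < q.2 := hpos _ h1
      simp only at h2
      rw [Nat.cast_zero, zero_mul] at ht
      linarith
    | succ k ih =>
      have h1 : ∀ n x t, t ≤ (k + 1) * δ → ¬ evW u (k * δ) n x t → Acc (ev_r u) (x, t) := by
        intro n
        induction n with
        | zero =>
          intro x t _ hn
          exact absurd trivial hn
        | succ n ihn =>
          intro x t ht hn
          refine Acc.intro _ fun q hq => ?_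
          obtain ⟨z, τ⟩ := q
          obtain ⟨hq1, hq2, hq3⟩ := hq
          simp only at hq1 hq2 hq3
          rcases le_or_gt τ (k * δ) with hk | hk
          · exact ih z τ hk
          · apply ihn z τ (hq2.le.trans ht)
            intro hcon
            exact hn ⟨τ, hq1, hk, hq2, z, hq3, hcon⟩
      intro x t ht
      push_cast at ht
      obtain ⟨n, hn⟩ := h k x
      exact h1 n x t ht fun hcon => hn (evW_mono ht hcon)
  refine ⟨fun p => ?_⟩
  obtain ⟨x, t⟩ := p
  obtain ⟨k, hk⟩ := exists_nat_ge (t / δ)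
  exact key k x t ((div_le_iff₀ hδ).1 hk)

/-- The paths of length `n` from `x`. -/
def ev_paths : ℕ → Site d → Finset (List (Site d))
  | 0, _ => {[]}
  | n + 1, x => (ev_nbs x).biUnion fun z => (ev_paths n z).image (List.cons x)

theorem ev_card_paths (n : ℕ) : ∀ x : Site d, (ev_paths n x).card ≤ (2 * d + 1) ^ n := by
  induction n with
  | zero => intro x; simp [ev_paths]
  | succ n ih =>
    intro x
    unfold ev_paths
    refine Finset.card_biUnion_le.trans ?_
    calc ∑ z ∈ ev_nbs x, ((ev_paths n z).image (List.cons x)).card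
        ≤ ∑ _z ∈ ev_nbs x, (2 * d + 1) ^ n :=
          Finset.sum_le_sum fun z _ => Finset.card_image_le.trans (ih z)
      _ = (ev_nbs x).card * (2 * d + 1) ^ n := by rw [Finset.sum_const, smul_eq_mul]
      _ ≤ (2 * d + 1) * (2 * d + 1) ^ n := Nat.mul_le_mul_right _ (ev_card_nbs x)
      _ = _ := by ring

theorem ev_length_paths (n : ℕ) : ∀ x : Site d, ∀ l ∈ ev_paths n x, l.length = n := by
  induction n with
  | zero =>
    intro x l hl
    simp only [ev_paths, Finset.mem_singleton] at hl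
    rw [hl]
    rfl
  | succ n ih =>
    intro x l hl
    simp only [ev_paths, Finset.mem_biUnion, Finset.mem_image] at hl
    obtain ⟨z, _, l', hl', rfl⟩ := hl
    rw [List.length_cons, ih z l' hl']

/-- A chain along a list of sites. -/
def evP (u : Site d → Set ℝ) (a : ℝ) : List (Site d) → ℝ → Prop
  | [], _ => True
  | x :: l, t => ∃ τ ∈ u x, a < τ ∧ τ < t ∧ evP u a l τ

theorem evW_path {u : Site d → Set ℝ} {a : ℝ} (n : ℕ) : ∀ (x : Site d) (t : ℝ), evW u a n x t →
    ∃ l ∈ ev_paths n x, evP u a l t := by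
  induction n with
  | zero =>
    intro x t _
    exact ⟨[], by simp [ev_paths], trivial⟩
  | succ n ih =>
    intro x t h
    obtain ⟨τ, h1, h2, h3, z, hz, h4⟩ := h
    obtain ⟨l, hl, hP⟩ := ih z τ h4
    refine ⟨x :: l, ?_, τ, h1, h2, h3, hP⟩
    simp only [ev_paths, Finset.mem_biUnion, Finset.mem_image]
    exact ⟨z, hz, l, hl, rfl⟩

theorem evP_count {u : Site d → Set ℝ} (hfin : ∀ x T, (u x ∩ Set.Iic T).Finite) {a : ℝ}
    (l : List (Site d)) : ∀ t, evP u a l t → ∀ x, l.count x ≤ (u x ∩ Set.Ioo a t).ncard := by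
  have hfin' : ∀ x t, (u x ∩ Set.Ioo a t).Finite := fun x t =>
    (hfin x t).subset (Set.inter_subset_inter_right _ fun y hy => Set.mem_Iic.2 hy.2.le)
  induction l with
  | nil =>
    intro t _ x
    simp
  | cons y l ih =>
    intro t h x
    obtain ⟨τ, h1, h2, h3, h4⟩ := h
    have ih' := ih τ h4 x
    by_cases hxy : y = x
    · subst hxy
      rw [List.count_cons_self]
      have hsub : insert τ (u y ∩ Set.Ioo a τ) ⊆ u y ∩ Set.Ioo a t := by
        intro s hs
        rcases hs with rfl | hs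
        · exact ⟨h1, h2, h3⟩
        · exact ⟨hs.1, hs.2.1, hs.2.2.trans h3⟩
      have hnot : τ ∉ u y ∩ Set.Ioo a τ := fun hs => lt_irrefl _ hs.2.2
      have := Set.ncard_le_ncard hsub (hfin' y t)
      rw [Set.ncard_insert_of_notMem hnot (hfin' y τ)] at this
      omega
    · rw [List.count_cons_of_ne hxy]
      refine ih'.trans (Set.ncard_le_ncard ?_ (hfin' x t))
      exact Set.inter_subset_inter_right _ (Set.Ioo_subset_Ioo_right h3.le)

theorem ev_poisson (r : ℝ≥0) (m : ℕ) : poissonMeasure r {n | m ≤ n} ≤ (r : ℝ≥0∞) ^ m := by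
  induction m with
  | zero =>
    rw [pow_zero]
    exact prob_le_one
  | succ m ih =>
    have h1 : ∀ (s : Set ℕ), poissonMeasure r s =
        ∑' n, s.indicator (fun n => ENNReal.ofReal (Real.exp (-r) * r ^ n / (n.factorial))) n := by
      intro s
      rw [← Measure.tsum_indicator_apply_singleton _ s (MeasurableSet.of_discrete)]
      refine tsum_congr fun n => ?_
      simp only [Set.indicator]
      split_ifs
      · rw [poissonMeasure_singleton]
      · rfl
    rw [h1, pow_succ, mul_comm]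
    rw [tsum_eq_zero_add' ENNReal.summable]
    rw [Set.indicator_of_notMem (by simp), zero_add]
    refine le_trans ?_ (mul_le_mul_right ih (r : ℝ≥0∞))
    rw [h1, ← ENNReal.tsum_mul_left]
    refine ENNReal.tsum_le_tsum fun n => ?_
    by_cases hn : m ≤ n
    · rw [Set.indicator_of_mem (by simpa using hn), Set.indicator_of_mem (by simpa using hn)]
      rw [← ENNReal.ofReal_coe_nnreal, ← ENNReal.ofReal_mul (NNReal.coe_nonneg r)]
      apply ENNReal.ofReal_le_ofReal
      have e : Real.exp (-r) * (r : ℝ) ^ (n + 1) / ((n + 1).factorial : ℝ) =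
          (r * (Real.exp (-r) * r ^ n / (n.factorial : ℝ))) / (n + 1) := by
        rw [Nat.factorial_succ]
        push_cast
        have : (n.factorial : ℝ) ≠ 0 := by positivity
        field_simp
        ring
      rw [e]
      apply div_le_self (by positivity)
      have : (0 : ℝ) ≤ n := Nat.cast_nonneg n
      linarith
    · rw [Set.indicator_of_notMem (by simpa using hn)]
      exact zero_le

section

variable {Ω : Type*} [MeasurableSpace Ω] {P : Measure Ω} [IsProbabilityMeasure P]
  {upd : Ω → Site d → Set ℝ}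

omit [IsProbabilityMeasure P] in
theorem ev_prob_path (hclk : IsPoissonClocks P upd) {a b : ℝ} (ha : 0 ≤ a) (hab : a ≤ b)
    (l : List (Site d)) :
    P {ω | evP (upd ω) a l b} ≤ ENNReal.ofReal (b - a) ^ l.length := by
  let t : ℕ → ℝ := fun k => if k = 0 then a else b
  have ht0 : t 0 = a := rfl
  have ht1 : t (0 + 1) = b := rfl
  have hmono : Monotone t := by
    apply monotone_nat_of_le_succ
    intro n
    by_cases hn : n = 0
    · simp [t, hn, hab]
    · simp [t, hn]
  have hind := hclk.indep t (by rw [ht0]; exact ha) hmono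
  have hind2 := hind.precomp (g := fun x : Site d => (0, x)) (fun x y h => by simpa using h)
  rw [iIndepFun_iff_measure_inter_preimage_eq_mul] at hind2
  have h3 := hind2 l.toFinset (sets := fun x => {n | l.count x ≤ n})
    (fun i _ => MeasurableSet.of_discrete)
  have hsub : {ω | evP (upd ω) a l b} ⊆ ⋂ x ∈ l.toFinset,
      (fun ω => count (upd ω) x (t 0) (t (0 + 1))) ⁻¹' {n | l.count x ≤ n} := by
    intro ω hω
    simp only [Set.mem_iInter]
    intro x _
    rw [ht0, ht1]
    refine (evP_count (hclk.finite ω) l b hω x).trans ?_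
    refine Set.ncard_le_ncard (Set.inter_subset_inter_right _ Set.Ioo_subset_Ioc_self) ?_
    exact (hclk.finite ω x b).subset (Set.inter_subset_inter_right _ fun y hy => hy.2)
  refine (measure_mono hsub).trans ?_
  rw [h3]
  have h4 : ∀ x ∈ l.toFinset, P ((fun ω => count (upd ω) x (t 0) (t (0 + 1))) ⁻¹'
      {n | l.count x ≤ n}) ≤ ENNReal.ofReal (b - a) ^ l.count x := by
    intro x _
    rw [ht0, ht1, ← Measure.map_apply (hclk.meas x a b) MeasurableSet.of_discrete,
      hclk.law x a b ha hab]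
    exact ev_poisson _ _
  refine (Finset.prod_le_prod' h4).trans ?_
  rw [Finset.prod_pow_eq_pow_sum, List.sum_toFinset_count_eq_length]

omit [IsProbabilityMeasure P] in
theorem ev_prob_W (hclk : IsPoissonClocks P upd) {a b : ℝ} (ha : 0 ≤ a) (hab : a ≤ b)
    (x : Site d) (n : ℕ) :
    P {ω | evW (upd ω) a n x b} ≤ (((2 * d + 1 : ℕ) : ℝ≥0∞) * ENNReal.ofReal (b - a)) ^ n := by
  have hsub : {ω | evW (upd ω) a n x b} ⊆ ⋃ l ∈ ev_paths n x, {ω | evP (upd ω) a l b} := by
    intro ω hω
    obtain ⟨l, hl, hP⟩ := evW_path n x b hω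
    simp only [Set.mem_iUnion]
    exact ⟨l, hl, hP⟩
  calc P {ω | evW (upd ω) a n x b} ≤ P (⋃ l ∈ ev_paths n x, {ω | evP (upd ω) a l b}) :=
        measure_mono hsub
    _ ≤ ∑ l ∈ ev_paths n x, P {ω | evP (upd ω) a l b} := measure_biUnion_finset_le _ _
    _ ≤ ∑ _l ∈ ev_paths n x, ENNReal.ofReal (b - a) ^ n := by
        refine Finset.sum_le_sum fun l hl => ?_
        have := ev_prob_path hclk ha hab l
        rwa [ev_length_paths n x l hl] at this
    _ = (ev_paths n x).card * ENNReal.ofReal (b - a) ^ n := by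
        rw [Finset.sum_const, nsmul_eq_mul]
    _ ≤ ((2 * d + 1 : ℕ) : ℝ≥0∞) ^ n * ENNReal.ofReal (b - a) ^ n := by
        gcongr
        exact_mod_cast ev_card_paths n x
    _ = _ := by rw [mul_pow]

omit [IsProbabilityMeasure P] in
theorem ev_ae_wf (hclk : IsPoissonClocks P upd) : ∀ᵐ ω ∂P, WellFounded (ev_r (upd ω)) := by
  set δ : ℝ := 1 / (2 * (2 * d + 1 : ℕ)) with hδ
  have hδ0 : 0 < δ := by positivity
  have h1 : ∀ (k : ℕ) (x : Site d), ∀ᵐ ω ∂P,
      ∃ n, ¬ evW (upd ω) (k * δ) n x ((k + 1) * δ) := by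
    intro k x
    rw [ae_iff]
    have h2 : ∀ n : ℕ, P {ω | ¬ ∃ n, ¬ evW (upd ω) (k * δ) n x ((k + 1) * δ)} ≤
        ENNReal.ofReal (1 / 2) ^ n := by
      intro n
      refine le_trans (measure_mono (t := {ω | evW (upd ω) (k * δ) n x ((k + 1) * δ)}) ?_) ?_
      · intro ω hω
        have hω' : ¬ ∃ n, ¬ evW (upd ω) (k * δ) n x ((k + 1) * δ) := hω
        push Not at hω'
        exact hω' n
      · refine (ev_prob_W hclk (by positivity) (by nlinarith) x n).trans (le_of_eq ?_)
        congr 1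
        rw [← ENNReal.ofReal_natCast, ← ENNReal.ofReal_mul (Nat.cast_nonneg _)]
        congr 1
        rw [hδ]
        have : ((2 * d + 1 : ℕ) : ℝ) ≠ 0 := by positivity
        field_simp
        ring
    have h3 : Tendsto (fun n : ℕ => ENNReal.ofReal (1 / 2) ^ n) atTop (𝓝 0) := by
      apply ENNReal.tendsto_pow_atTop_nhds_zero_of_lt_one
      rw [ENNReal.ofReal_lt_one]
      norm_num
    exact le_antisymm (ge_of_tendsto' h3 h2) zero_le
  have h4 : ∀ᵐ ω ∂P, ∀ (k : ℕ) (x : Site d), ∃ n, ¬ evW (upd ω) (k * δ) n x ((k + 1) * δ) := by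
    rw [ae_all_iff]
    intro k
    rw [ae_all_iff]
    exact h1 k
  filter_upwards [h4] with ω hω
  exact ev_wf (hclk.pos ω) hδ0 hω

theorem ae_existsUnique_evolution {Ω : Type*} [MeasurableSpace Ω] {P : Measure Ω}
    [IsProbabilityMeasure P] {upd : Ω → Site d → Set ℝ} (hclk : IsPoissonClocks P upd) :
    ∀ᵐ ω ∂P, ∀ f : Height d, ∃ h : ℝ → Height d, IsEvolution (upd ω) f h ∧
      ∀ h' : ℝ → Height d, IsEvolution (upd ω) f h' → ∀ t, 0 ≤ t → h' t = h t := by
  filter_upwards [ev_ae_wf hclk] with ω hω f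
  exact ev_det (hclk.pos ω) (hclk.finite ω) hω f

end

end Pool.MP4bb68c
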