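import Mathlib
import Pool.Agent.Work.MP_4bb68c_pr.Defs
import Pool.Agent.Work.MP_4bb68c_pr.Run
import Pool.Agent.Work.MP_4bb68c_pr.Chain

/-!
# Time averages of the synchronous chain seen from the origin
-/

open MeasureTheory ProbabilityTheory Filter Topology
open scoped NNReal ENNReal

namespace Pool.MP4bb68c

variable {d : ℕ}

/-! ### Functions of finitely many coordinates -/

/-- A function of finitely many heights is continuous. -/
theorem continuous_of_local {α : Type*} [TopologicalSpace α] (B : Finset (Site d))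
    {Φ : Height d → α} (h : ∀ g g' : Height d, (∀ x ∈ B, g x = g' x) → Φ g = Φ g') :
    Continuous Φ := by
  classical
  let Φ' : (B → ℤ) → α := fun v => Φ (fun x => if hx : x ∈ B then v ⟨x, hx⟩ else 0)
  have h1 : Φ = Φ' ∘ (fun (g : Height d) (x : B) => g x) := by
    ext1 g
    apply h
    intro x hx
    simp [hx]
  rw [h1]
  exact (continuous_of_discreteTopology (f := Φ')).comp (by fun_prop)

theorem continuous_seen : Continuous (seen : Height d → Height d) := by
  unfold seen
  fun_prop

theorem measurable_seen : Measurable (seen : Height d → Height d) :=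
  continuous_seen.measurable

theorem seen_seen (h : Height d) : seen (seen h) = seen h := by
  ext x
  simp [seen]

theorem seen_add_const (h : Height d) (c : ℤ) : seen (fun y => h y + c) = seen h := by
  ext x
  simp [seen]

theorem lawK_seen_map_seen (l : List ℝ≥0) (g : Height d) :
    (lawK d l (seen g)).map seen = (lawK d l g).map seen := by
  have h1 : seen g = fun y => g y + (-g 0) := by
    ext y
    simp [seen, sub_eq_add_neg]
  have hm : Measurable (fun (h : Height d) (y : Site d) => h y + (-g 0)) := by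
    rw [measurable_pi_iff]
    intro y
    exact (Measurable.of_discrete (f := fun n : ℤ => n + (-g 0))).comp
      (measurable_pi_apply (X := fun _ : Site d => ℤ) y)
  rw [h1, ← lawK_map_add_const, Measure.map_map measurable_seen hm]
  congr 1
  ext h x
  simp [seen]

/-! ### Time averages -/

/-- The law after `i` slots of length `dl q n`. -/
noncomputable abbrev LL (d q n i : ℕ) (f : Height d) : Measure (Height d) :=
  lawK d (List.replicate i (dl q n)) f

/-- The number of terms of the time average. -/
def NN (n : ℕ) : ℕ := 4 ^ n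

theorem NN_pos (n : ℕ) : 0 < NN n := by unfold NN; positivity

/-- The time average of the laws seen from the origin. -/
noncomputable def avg (d q n : ℕ) (f : Height d) : Measure (Height d) :=
  ((NN n : ℝ≥0∞)⁻¹) • ∑ i ∈ Finset.range (NN n), (LL d q n i f).map seen

instance instProbAvg (q n : ℕ) (f : Height d) : IsProbabilityMeasure (avg d q n f) := by
  constructor
  have h1 : ∀ i, ((LL d q n i f).map seen) Set.univ = 1 := by
    intro i
    have : IsProbabilityMeasure ((LL d q n i f).map seen) :=
      Measure.isProbabilityMeasure_map measurable_seen.aemeasurable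
    exact measure_univ
  unfold avg
  rw [Measure.smul_apply, Measure.finsetSum_apply]
  simp only [h1, Finset.sum_const, Finset.card_range, nsmul_eq_mul, mul_one, smul_eq_mul]
  exact ENNReal.inv_mul_cancel (by exact_mod_cast (NN_pos n).ne') (ENNReal.natCast_ne_top _)

theorem integral_avg {q n : ℕ} {f : Height d} {Φ : Height d → ℝ} (hm : Measurable Φ)
    (hi : ∀ i, Integrable (fun h => Φ (seen h)) (LL d q n i f)) :
    ∫ g, Φ g ∂(avg d q n f) =
      (NN n : ℝ)⁻¹ * ∑ i ∈ Finset.range (NN n), ∫ h, Φ (seen h) ∂(LL d q n i f) := by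
  unfold avg
  rw [integral_smul_measure, integral_finsetSum_measure]
  · rw [smul_eq_mul, ENNReal.toReal_inv, ENNReal.toReal_natCast]
    congr 1
    refine Finset.sum_congr rfl fun i _ => ?_
    rw [integral_map measurable_seen.aemeasurable hm.aestronglyMeasurable]
  · intro i _
    rw [integrable_map_measure hm.aestronglyMeasurable measurable_seen.aemeasurable]
    exact hi i

/-- Telescoping of averages. -/
theorem sum_range_shift_sub (a : ℕ → ℝ) (N k : ℕ) :
    ∑ i ∈ Finset.range N, (a (i + k) - a i) = ∑ j ∈ Finset.range k, (a (N + j) - a j) := by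
  have h1 : ∑ i ∈ Finset.range (N + k), a i =
      ∑ i ∈ Finset.range N, a i + ∑ j ∈ Finset.range k, a (N + j) :=
    Finset.sum_range_add a N k
  have h2 : ∑ i ∈ Finset.range (k + N), a i =
      ∑ i ∈ Finset.range k, a i + ∑ j ∈ Finset.range N, a (k + j) :=
    Finset.sum_range_add a k N
  rw [Finset.sum_sub_distrib, Finset.sum_sub_distrib]
  have h3 : ∑ i ∈ Finset.range N, a (i + k) = ∑ j ∈ Finset.range N, a (k + j) :=
    Finset.sum_congr rfl fun i _ => by rw [add_comm]
  rw [add_comm k N] at h2
  rw [h3]
  linarith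

/-- If `0 ≤ a i ≤ V * (i * δ)` then the average of `a (i + k) - a i` is at most
`k * δ * V * (1 + k / N)`. -/
theorem avg_increment_le {a : ℕ → ℝ} {V δ : ℝ} (hV : 0 ≤ V) (hδ : 0 ≤ δ) (h0 : ∀ i, 0 ≤ a i)
    (h1 : ∀ i, a i ≤ V * (i * δ)) {N : ℕ} (hN : 0 < N) (k : ℕ) :
    (N : ℝ)⁻¹ * ∑ i ∈ Finset.range N, (a (i + k) - a i) ≤
      (k * δ) * V * (1 + k / N) := by
  rw [sum_range_shift_sub]
  have h2 : ∑ j ∈ Finset.range k, (a (N + j) - a j) ≤
      ∑ _j ∈ Finset.range k, V * ((N + k) * δ) := by
    refine Finset.sum_le_sum fun j hj => ?_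
    have h3 := h1 (N + j)
    have h4 := h0 j
    have h5 : (j : ℝ) ≤ k := by exact_mod_cast (Finset.mem_range.1 hj).le
    have h6 : V * (((N + j : ℕ) : ℝ) * δ) ≤ V * ((N + k) * δ) := by
      push_cast
      apply mul_le_mul_of_nonneg_left _ hV
      apply mul_le_mul_of_nonneg_right _ hδ
      linarith
    linarith
  rw [Finset.sum_const, Finset.card_range, nsmul_eq_mul] at h2
  have hN' : (0 : ℝ) < N := by exact_mod_cast hN
  calc (N : ℝ)⁻¹ * ∑ j ∈ Finset.range k, (a (N + j) - a j)
      ≤ (N : ℝ)⁻¹ * (k * (V * ((N + k) * δ))) :=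
        mul_le_mul_of_nonneg_left h2 (by positivity)
    _ = _ := by field_simp

/-! ### The growth of the mean -/

theorem integral_add_slots (q n i k : ℕ) (f : Height d) (x : Site d) :
    ∫ h, (h x : ℝ) ∂(LL d q n (i + k) f) =
      ∫ g, (∫ h, (h x : ℝ) ∂(LL d q n k g)) ∂(LL d q n i f) := by
  have h1 : List.replicate (i + k) (dl q n) =
      List.replicate k (dl q n) ++ List.replicate i (dl q n) := by
    rw [← List.replicate_add, add_comm]
  unfold LL
  rw [h1]
  exact integral_lawK_append _ _ _ (integrable_height _ _ _)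

theorem integrable_integral_height (q n i k : ℕ) (f : Height d) (x : Site d) :
    Integrable (fun g => ∫ h, (h x : ℝ) ∂(LL d q n k g)) (LL d q n i f) := by
  have h1 : List.replicate (i + k) (dl q n) =
      List.replicate k (dl q n) ++ List.replicate i (dl q n) := by
    rw [← List.replicate_add, add_comm]
  have h2 : Integrable (fun h : Height d => (h x : ℝ)) (LL d q n (i + k) f) :=
    integrable_height _ _ _
  unfold LL at h2 ⊢
  rw [h1, lawK_append] at h2
  exact h2.integral_comp

/-- The mean height after `i` slots. -/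
noncomputable def mh (q n : ℕ) (f : Height d) (i : ℕ) (x : Site d) : ℝ :=
  ∫ h, (h x : ℝ) ∂(LL d q n i f)

theorem mh_sub_eq (q n i k : ℕ) (f : Height d) (x : Site d) :
    mh q n f (i + k) x - mh q n f i x =
      ∫ g, (∫ h, (h x : ℝ) ∂(LL d q n k g) - g x) ∂(LL d q n i f) := by
  unfold mh
  rw [integral_add_slots, integral_sub (integrable_integral_height q n i k f x)
    (integrable_height _ _ _)]

theorem le_integral_height (l : List ℝ≥0) (f : Height d) (x : Site d) :
    (f x : ℝ) ≤ ∫ h, (h x : ℝ) ∂(lawK d l f) := by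
  have h1 : ∫ _h : Height d, (f x : ℝ) ∂(lawK d l f) ≤ ∫ h, (h x : ℝ) ∂(lawK d l f) := by
    refine integral_mono_ae (integrable_const _) (integrable_height _ _ _) ?_
    filter_upwards [ae_le_lawK l f] with h hh
    exact_mod_cast hh x
  simpa using h1

theorem le_mh (q n : ℕ) (f : Height d) (i : ℕ) (x : Site d) : (f x : ℝ) ≤ mh q n f i x :=
  le_integral_height _ _ _

/-- One unit of time. -/
theorem unit_growth {q : ℕ} (hq : 0 < q) (n : ℕ) (g : Height d) (x : Site d)
    (a : Fin d × Bool) :
    (1 - Real.exp (-1)) * max ((g (nb x a) : ℝ) - g x) 0 ≤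
      ∫ h, (h x : ℝ) ∂(LL d q n (q * 2 ^ n) g) - g x := by
  have h1 := integral_lawK_replicate_ge (measurable_height_real x) (monotone_height_real x)
    (dl q n) (q * 2 ^ n) g
  have h2 : ((q * 2 ^ n : ℕ) : ℝ≥0) * dl q n = 1 := by
    unfold dl
    have : (q : ℝ≥0) ≠ 0 := by exact_mod_cast hq.ne'
    push_cast
    field_simp
  rw [h2] at h1
  have h3 : ∀ ξ : Site d → Bool, ((slotStep ξ g x : ℤ) : ℝ) =
      if ξ x = true then (newHeight g x : ℝ) else (g x : ℝ) := by
    intro ξ
    unfold slotStep
    split_ifs <;> rfl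
  simp_rw [h3] at h1
  rw [integral_siteLaw_ite] at h1
  have h4 : (g (nb x a) : ℝ) ≤ newHeight g x := by exact_mod_cast nb_le_newHeight g x a
  have h5 : (g x : ℝ) + 1 ≤ newHeight g x := by exact_mod_cast succ_le_newHeight g x
  have h6 : max ((g (nb x a) : ℝ) - g x) 0 ≤ newHeight g x - g x := by
    apply max_le <;> linarith
  have h7 : (0 : ℝ) ≤ 1 - Real.exp (-1) := by
    have : Real.exp (-1) ≤ 1 := Real.exp_le_one_iff.2 (by norm_num)
    linarith
  have h8 := mul_le_mul_of_nonneg_left h6 h7
  rw [NNReal.coe_one] at h1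
  linarith

end Pool.MP4bb68c
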