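import Mathlib
import Pool.Agent.Work.MP_4bb68c_pr.Defs
import Pool.Agent.Work.MP_4bb68c_pr.Run
import Pool.Agent.Work.MP_4bb68c_pr.Chain

/-!
# Approximation of the evolution by the synchronous chain
-/

open MeasureTheory ProbabilityTheory Filter Topology
open scoped NNReal ENNReal

namespace Pool.MP4bb68c

variable {d : ℕ}

/-! ### Deterministic part -/

theorem newHeight_congr {h h' : Height d} {x : Site d} (h0 : h x = h' x)
    (h1 : ∀ a, h (nb x a) = h' (nb x a)) : newHeight h x = newHeight h' x := by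
  unfold newHeight
  congr 1
  ext b
  cases b with
  | none => simp only [cand, h0]
  | some a => simp only [cand, h1]

/-- The sites `x` and its neighbours. -/
def star (x : Site d) : Option (Fin d × Bool) → Site d
  | none => x
  | some a => nb x a

/-- At most one update in `(a, b]` among `x` and its neighbours. -/
def FewUpd (u : Site d → Set ℝ) (a b : ℝ) (x : Site d) : Prop :=
  ∑ i : Option (Fin d × Bool), count u (star x i) a b ≤ 1

theorem inter_eq_empty_of_count {u : Site d → Set ℝ} {x : Site d} {a b : ℝ}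
    (hfin : ∀ x T, (u x ∩ Set.Iic T).Finite) (h : count u x a b = 0) :
    u x ∩ Set.Ioc a b = ∅ := by
  unfold count at h
  rwa [Set.ncard_eq_zero ((hfin x b).subset (fun s hs => ⟨hs.1, hs.2.2⟩))] at h

theorem step_good {u : Site d → Set ℝ} {f : Height d} {h : ℝ → Height d}
    (hfin : ∀ x T, (u x ∩ Set.Iic T).Finite) (hev : IsEvolution u f h) {a b : ℝ} (ha : 0 ≤ a)
    (hab : a ≤ b) {x : Site d} (hg : FewUpd u a b x) :
    h b x = if 0 < count u x a b then newHeight (h a) x else h a x := by
  split_ifs with hc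
  · unfold FewUpd at hg
    rw [Fintype.sum_option] at hg
    have hc1 : count u x a b = 1 := by
      have h1 : star x none = x := rfl
      rw [h1] at hg
      omega
    have hnb : ∀ i : Fin d × Bool, count u (nb x i) a b = 0 := by
      intro i
      have h1 : count u (star x none) a b = 1 := hc1
      have h2 : ∑ j : Fin d × Bool, count u (star x (some j)) a b = 0 := by omega
      have h3 := (Finset.sum_eq_zero_iff.1 h2) i (Finset.mem_univ i)
      exact h3
    obtain ⟨τ, hτ⟩ := Set.ncard_eq_one.1 hc1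
    have hτm : τ ∈ u x ∩ Set.Ioc a b := by rw [hτ]; rfl
    have huniq : ∀ s, s ∈ u x → s ∈ Set.Ioc a b → s = τ := by
      intro s h1 h2
      have : s ∈ u x ∩ Set.Ioc a b := ⟨h1, h2⟩
      rw [hτ] at this
      exact this
    have hjump := hev.jump x τ hτm.1
    have hlt : ∀ᶠ s in 𝓝[<] τ, s ∈ Set.Ioo a τ := Ioo_mem_nhdsLT hτm.2.1
    obtain ⟨s, hs1, hs2⟩ := (hjump.and hlt).exists
    have e1 : h s x = h a x := by
      apply hev.const x a s ha hs2.1.le
      ext r
      simp only [Set.mem_inter_iff, Set.mem_Ioc, Set.mem_empty_iff_false, iff_false]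
      rintro ⟨h1, h2, h3⟩
      have := huniq r h1 ⟨h2, h3.trans (hs2.2.le.trans hτm.2.2)⟩
      rw [this] at h3
      exact absurd h3 (not_le.2 hs2.2)
    have e2 : ∀ i, h s (nb x i) = h a (nb x i) := by
      intro i
      apply hev.const _ a s ha hs2.1.le
      have := inter_eq_empty_of_count hfin (hnb i)
      apply Set.eq_empty_of_subset_empty
      rw [← this]
      exact fun r hr => ⟨hr.1, hr.2.1, hr.2.2.trans (hs2.2.le.trans hτm.2.2)⟩
    have e3 : h b x = h τ x := by
      apply hev.const x τ b (ha.trans hτm.2.1.le) hτm.2.2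
      ext r
      simp only [Set.mem_inter_iff, Set.mem_Ioc, Set.mem_empty_iff_false, iff_false]
      rintro ⟨h1, h2, h3⟩
      have := huniq r h1 ⟨hτm.2.1.trans h2, h3⟩
      rw [this] at h2
      exact lt_irrefl _ h2
    rw [e3, hs1]
    exact newHeight_congr e1 e2
  · have : count u x a b = 0 := by omega
    exact hev.const x a b ha hab (inter_eq_empty_of_count hfin this)

/-- The sites which can be reached from `x` by at most `N` steps. -/
def reach : ℕ → Site d → Finset (Site d)
  | 0, x => {x}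
  | N + 1, x => reach N x ∪ Finset.univ.biUnion fun a => reach N (nb x a)

theorem mem_reach (N : ℕ) (x : Site d) : x ∈ reach N x := by
  induction N with
  | zero => simp [reach]
  | succ N ih => exact Finset.mem_union_left _ ih

theorem reach_subset_succ (N : ℕ) (x : Site d) : reach N x ⊆ reach (N + 1) x :=
  Finset.subset_union_left

theorem reach_nb_subset (N : ℕ) (x : Site d) (a : Fin d × Bool) :
    reach N (nb x a) ⊆ reach (N + 1) x := by
  intro y hy
  exact Finset.mem_union_right _ (Finset.mem_biUnion.2 ⟨a, Finset.mem_univ a, hy⟩)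

/-- The slot variables read off from the update times; the index `0` is the most recent slot among
the first `k` slots of length `δ`. -/
noncomputable def slots (u : Site d → Set ℝ) (δ : ℝ) (k : ℕ) : ℕ → Site d → Bool :=
  fun j x => decide (0 < count u x (((k - (j + 1) : ℕ) : ℝ) * δ)
    ((((k - (j + 1) : ℕ) : ℝ) + 1) * δ))

theorem slots_succ (u : Site d → Set ℝ) (δ : ℝ) (k : ℕ) :
    (fun j => slots u δ (k + 1) (j + 1)) = slots u δ k := by
  ext j x
  unfold slots
  rw [Nat.add_sub_add_right]

theorem run_slots_eq {u : Site d → Set ℝ} {f : Height d} {h : ℝ → Height d}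
    (hfin : ∀ x T, (u x ∩ Set.Iic T).Finite) (hev : IsEvolution u f h) {δ : ℝ} (hδ : 0 ≤ δ)
    (k N : ℕ) (x : Site d) (hch : ¬ Ch N k (slots u δ k) x)
    (hgood : ∀ i < k, ∀ y ∈ reach N x, FewUpd u ((i : ℝ) * δ) (((i : ℝ) + 1) * δ) y) :
    run k (slots u δ k) f x = h ((k : ℝ) * δ) x := by
  induction k generalizing N x with
  | zero => simp [run, hev.init]
  | succ k ih =>
    cases N with
    | zero => exact absurd trivial hch
    | succ N =>
      rw [Ch, not_or] at hch
      simp only [slots_succ] at hch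
      obtain ⟨hc1, hc2⟩ := hch
      have hg0 := hgood k (Nat.lt_succ_self k) x (mem_reach _ _)
      have hstep := step_good hfin hev (a := (k : ℝ) * δ) (b := ((k : ℝ) + 1) * δ)
        (by positivity) (by nlinarith) hg0
      rw [run, slots_succ]
      have e0 : (((k + 1 : ℕ) : ℝ)) * δ = ((k : ℝ) + 1) * δ := by push_cast; ring
      rw [e0, hstep]
      have hs0 : slots u δ (k + 1) 0 x = decide (0 < count u x ((k : ℝ) * δ)
          (((k : ℝ) + 1) * δ)) := by
        unfold slots
        simp
      unfold slotStep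
      rw [hs0]
      by_cases hc : 0 < count u x ((k : ℝ) * δ) (((k : ℝ) + 1) * δ)
      · have hd : decide (0 < count u x ((k : ℝ) * δ) (((k : ℝ) + 1) * δ)) = true :=
          decide_eq_true hc
        rw [if_pos hd, if_pos hc]
        rw [hs0] at hc2
        have hc3 : ¬ Ch N k (slots u δ k) x ∧ ∀ a, ¬ Ch N k (slots u δ k) (nb x a) := by
          constructor
          · intro h1
            exact hc2 ⟨hd, Or.inl h1⟩
          · intro a h1
            exact hc2 ⟨hd, Or.inr ⟨a, h1⟩⟩
        refine newHeight_congr ?_ (fun a => ?_)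
        · exact ih N x hc3.1 (fun i hi y hy =>
            hgood i (hi.trans (Nat.lt_succ_self k)) y (reach_subset_succ N x hy))
        · exact ih N (nb x a) (hc3.2 a) (fun i hi y hy =>
            hgood i (hi.trans (Nat.lt_succ_self k)) y (reach_nb_subset N x a hy))
      · have hd : ¬ decide (0 < count u x ((k : ℝ) * δ) (((k : ℝ) + 1) * δ)) = true := by
          simpa using hc
        rw [if_neg hd, if_neg hc]
        exact ih (N + 1) x hc1 (fun i hi y hy =>
            hgood i (hi.trans (Nat.lt_succ_self k)) y hy)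

/-! ### Probabilities of few updates -/

section Prob

variable {Ω : Type*} [MeasurableSpace Ω] {P : Measure Ω} [IsProbabilityMeasure P]
  {upd : Ω → Site d → Set ℝ}

set_option linter.unusedSectionVars false

theorem prob_pos_eq (hclk : IsPoissonClocks P upd) (x : Site d) {a b : ℝ} (ha : 0 ≤ a)
    (hab : a ≤ b) : P.real {ω | 0 < count (upd ω) x a b} = 1 - Real.exp (-(b - a)) := by
  have h1 : {ω | 0 < count (upd ω) x a b} =
      (fun ω => count (upd ω) x a b) ⁻¹' ({0}ᶜ : Set ℕ) := by
    ext ω
    simp [Nat.pos_iff_ne_zero]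
  rw [h1, ← map_measureReal_apply (hclk.meas x a b) (by measurability), hclk.law x a b ha hab,
    probReal_compl_eq_one_sub (measurableSet_singleton _), poissonMeasure_real_singleton]
  simp [Real.coe_toNNReal _ (sub_nonneg.2 hab)]

theorem prob_pos_le (hclk : IsPoissonClocks P upd) (x : Site d) {a b : ℝ} (ha : 0 ≤ a)
    (hab : a ≤ b) : P.real {ω | 0 < count (upd ω) x a b} ≤ b - a := by
  rw [prob_pos_eq hclk x ha hab]
  have := Real.add_one_le_exp (-(b - a))
  linarith

theorem prob_ge_two_le (hclk : IsPoissonClocks P upd) (x : Site d) {a b : ℝ} (ha : 0 ≤ a)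
    (hab : a ≤ b) : P.real {ω | 2 ≤ count (upd ω) x a b} ≤ (b - a) ^ 2 := by
  have h1 : {ω | 2 ≤ count (upd ω) x a b} =
      (fun ω => count (upd ω) x a b) ⁻¹' (({0} ∪ {1})ᶜ : Set ℕ) := by
    ext ω
    simp only [Set.mem_ofPred_eq, Set.mem_preimage, Set.mem_compl_iff, Set.mem_union,
      Set.mem_singleton_iff]
    omega
  have h0 : 0 ≤ b - a := sub_nonneg.2 hab
  rw [h1, ← map_measureReal_apply (hclk.meas x a b) (by measurability), hclk.law x a b ha hab,
    probReal_compl_eq_one_sub (by measurability),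
    measureReal_union (by simp) (measurableSet_singleton _),
    poissonMeasure_real_singleton, poissonMeasure_real_singleton]
  simp only [Real.coe_toNNReal _ h0, pow_zero, mul_one, Nat.factorial_zero, Nat.cast_one, div_one,
    pow_one, Nat.factorial_one]
  have h2 := Real.add_one_le_exp (-(b - a))
  nlinarith

theorem prob_two_sites_le (hclk : IsPoissonClocks P upd) {x y : Site d} (hxy : x ≠ y) {a b : ℝ}
    (ha : 0 ≤ a) (hab : a ≤ b) :
    P.real {ω | 0 < count (upd ω) x a b ∧ 0 < count (upd ω) y a b} ≤ (b - a) ^ 2 := by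
  have hmono : Monotone (fun n : ℕ => if n = 0 then a else b) := by
    intro m n hmn
    simp only
    split_ifs with h1 h2 h2
    · exact le_rfl
    · exact hab
    · omega
    · exact le_rfl
  have hind := (hclk.indep (fun n : ℕ => if n = 0 then a else b) (by simpa using ha)
    hmono).indepFun (i := ((0, x) : ℕ × Site d)) (j := ((0, y) : ℕ × Site d))
    (by simpa using hxy)
  simp only [if_true, zero_add, one_ne_zero, if_false] at hind
  have h1 := hind.measure_inter_preimage_eq_mul (Set.Ioi 0) (Set.Ioi 0) (by measurability)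
    (by measurability)
  have h2 : {ω | 0 < count (upd ω) x a b ∧ 0 < count (upd ω) y a b} =
      (fun ω => count (upd ω) x a b) ⁻¹' Set.Ioi 0 ∩
        (fun ω => count (upd ω) y a b) ⁻¹' Set.Ioi 0 := rfl
  rw [h2, measureReal_def, h1, ENNReal.toReal_mul]
  have h3 := prob_pos_le hclk x ha hab
  have h4 := prob_pos_le hclk y ha hab
  have h5 : 0 ≤ P.real {ω | 0 < count (upd ω) x a b} := measureReal_nonneg
  have h6 : 0 ≤ P.real {ω | 0 < count (upd ω) y a b} := measureReal_nonneg
  calc (P ((fun ω => count (upd ω) x a b) ⁻¹' Set.Ioi 0)).toReal *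
        (P ((fun ω => count (upd ω) y a b) ⁻¹' Set.Ioi 0)).toReal
      = P.real {ω | 0 < count (upd ω) x a b} * P.real {ω | 0 < count (upd ω) y a b} := rfl
    _ ≤ (b - a) * (b - a) := mul_le_mul h3 h4 h6 (sub_nonneg.2 hab)
    _ = _ := by ring

theorem nb_ne (x : Site d) (a : Fin d × Bool) : nb x a ≠ x := by
  intro h
  have h1 := congrFun h a.1
  unfold nb at h1
  simp only [Pi.add_apply, Pi.single_eq_same] at h1
  split_ifs at h1 <;> omega

theorem nb_inj_aux (x : Site d) : Function.Injective (nb x) := by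
  rintro ⟨i, b⟩ ⟨j, c⟩ h
  unfold nb at h
  have h0 := add_left_cancel h
  have h1 := congrFun h0 i
  simp only [Pi.single_eq_same] at h1
  by_cases hij : i = j
  · subst hij
    simp only [Pi.single_eq_same] at h1
    cases b <;> cases c <;> simp_all
  · exfalso
    rw [Pi.single_eq_of_ne hij] at h1
    (split_ifs at h1 <;> omega)

theorem star_injective (x : Site d) : Function.Injective (star x) := by
  intro i j h
  cases i with
  | none =>
    cases j with
    | none => rfl
    | some b => exact absurd h.symm (nb_ne x b)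
  | some a =>
    cases j with
    | none => exact absurd h (nb_ne x a)
    | some b => exact congrArg some (nb_inj_aux x h)

theorem prob_not_good_le (hclk : IsPoissonClocks P upd) (x : Site d) {a b : ℝ} (ha : 0 ≤ a)
    (hab : a ≤ b) :
    P.real {ω | ¬ FewUpd (upd ω) a b x} ≤ (2 * d + 1) ^ 2 * (b - a) ^ 2 := by
  classical
  let E : Option (Fin d × Bool) × Option (Fin d × Bool) → Set Ω := fun p =>
    if p.1 = p.2 then {ω | 2 ≤ count (upd ω) (star x p.1) a b}
    else {ω | 0 < count (upd ω) (star x p.1) a b ∧ 0 < count (upd ω) (star x p.2) a b}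
  have hE : ∀ p, P.real (E p) ≤ (b - a) ^ 2 := by
    intro p
    simp only [E]
    split_ifs with h
    · exact prob_ge_two_le hclk _ ha hab
    · exact prob_two_sites_le hclk (fun h' => h (star_injective x h')) ha hab
  have hsub : {ω | ¬ FewUpd (upd ω) a b x} ⊆ ⋃ p ∈ (Finset.univ :
      Finset (Option (Fin d × Bool) × Option (Fin d × Bool))), E p := by
    intro ω hω
    by_contra hcon
    simp only [Set.mem_iUnion, not_exists, Finset.mem_univ] at hcon
    apply hω
    have h1 : ∀ i, count (upd ω) (star x i) a b ≤ 1 := by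
      intro i
      have := hcon (i, i) trivial
      simp only [E, if_true, Set.mem_ofPred_eq, not_le] at this
      omega
    have h2 : ∀ i j, i ≠ j → ¬ (0 < count (upd ω) (star x i) a b ∧
        0 < count (upd ω) (star x j) a b) := by
      intro i j hij
      have := hcon (i, j) trivial
      simpa only [E, if_neg hij, Set.mem_ofPred_eq] using this
    unfold FewUpd
    by_cases hex : ∃ i, 0 < count (upd ω) (star x i) a b
    · obtain ⟨i, hi⟩ := hex
      rw [Finset.sum_eq_single i]
      · exact h1 i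
      · intro j _ hji
        by_contra hj
        exact h2 j i hji ⟨Nat.pos_of_ne_zero hj, hi⟩
      · intro hi'
        exact absurd (Finset.mem_univ i) hi'
    · push Not at hex
      rw [Finset.sum_eq_zero (fun i _ => Nat.le_zero.1 (hex i))]
      exact zero_le_one
  calc P.real {ω | ¬ FewUpd (upd ω) a b x}
      ≤ P.real (⋃ p ∈ (Finset.univ :
        Finset (Option (Fin d × Bool) × Option (Fin d × Bool))), E p) :=
        measureReal_mono hsub (measure_ne_top _ _)
    _ ≤ ∑ p : Option (Fin d × Bool) × Option (Fin d × Bool), P.real (E p) :=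
        measureReal_biUnion_finset_le _ _
    _ ≤ ∑ _p : Option (Fin d × Bool) × Option (Fin d × Bool), (b - a) ^ 2 :=
        Finset.sum_le_sum fun p _ => hE p
    _ = _ := by
        rw [Finset.sum_const, Finset.card_univ, nsmul_eq_mul, Fintype.card_prod,
          Fintype.card_option, Fintype.card_prod, Fintype.card_fin, Fintype.card_bool]
        push_cast
        ring

/-! ### The law of the slot variables -/

/-- Slot variables with all slots used once. -/
noncomputable def slots' (u : Site d → Set ℝ) (δ : ℝ) (k : ℕ) : ℕ → Site d → Bool :=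
  fun j x => decide (0 < count u x (((if j < k then k - (j + 1) else j : ℕ) : ℝ) * δ)
    ((((if j < k then k - (j + 1) else j : ℕ) + 1 : ℕ) : ℝ) * δ))

theorem slots'_eq (u : Site d → Set ℝ) (δ : ℝ) (k : ℕ) :
    ∀ j < k, slots u δ k j = slots' u δ k j := by
  intro j hj
  ext x
  unfold slots slots'
  simp only [if_pos hj]
  push_cast
  rfl

theorem map_slots' (hclk : IsPoissonClocks P upd) (δ : ℝ≥0) (k : ℕ) :
    P.map (fun ω => slots' (upd ω) δ k) = arrLaw d δ := by
  let r : ℕ → ℕ := fun j => if j < k then k - (j + 1) else j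
  have hr : Function.Injective r := by
    intro i j hij
    simp only [r] at hij
    split_ifs at hij <;> omega
  have hmono : Monotone (fun n : ℕ => (n : ℝ) * (δ : ℝ)) := fun m n hmn =>
    mul_le_mul_of_nonneg_right (Nat.cast_le.2 hmn) δ.2
  have hind := hclk.indep (fun n : ℕ => (n : ℝ) * (δ : ℝ)) (by simp) hmono
  have hm : ∀ (i : ℕ) (x : Site d), Measurable (fun ω => decide (0 < count (upd ω) x ((i : ℝ) * (δ : ℝ))
      (((i + 1 : ℕ) : ℝ) * (δ : ℝ)))) := fun i x =>
    (Measurable.of_discrete (f := fun n : ℕ => decide (0 < n))).comp (hclk.meas x _ _)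
  have hind2 := hind.comp (fun _ (n : ℕ) => decide (0 < n)) (fun _ => Measurable.of_discrete)
  have hinj : Function.Injective (fun p : ℕ × Site d => ((r p.1, p.2) : ℕ × Site d)) := by
    rintro ⟨i, x⟩ ⟨j, y⟩ h
    simp only [Prod.mk.injEq] at h
    rw [hr h.1, h.2]
  have hind3 := iIndepFun.precomp hinj hind2
  have hcoord : ∀ (i : ℕ) (x : Site d), P.map (fun ω => decide (0 < count (upd ω) x ((i : ℝ) * (δ : ℝ))
      (((i + 1 : ℕ) : ℝ) * (δ : ℝ)))) = slotLaw δ := by
    intro i x
    have h1 : (fun ω => decide (0 < count (upd ω) x ((i : ℝ) * (δ : ℝ))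
        (((i + 1 : ℕ) : ℝ) * (δ : ℝ)))) = (fun n : ℕ => decide (0 < n)) ∘
          (fun ω => count (upd ω) x ((i : ℝ) * (δ : ℝ)) (((i + 1 : ℕ) : ℝ) * (δ : ℝ))) := rfl
    rw [h1, ← Measure.map_map Measurable.of_discrete (hclk.meas x _ _), hclk.law]
    · unfold slotLaw
      congr 2
      push_cast
      have : ((i : ℝ) + 1) * (δ : ℝ) - i * δ = δ := by ring
      rw [this, Real.toNNReal_coe]
    · positivity
    · exact mul_le_mul_of_nonneg_right (Nat.cast_le.2 (Nat.le_succ i)) δ.2
  have hms : Measurable (fun ω (p : ℕ × Site d) => slots' (upd ω) δ k p.1 p.2) := by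
    rw [measurable_pi_iff]
    intro p
    exact hm (r p.1) p.2
  have hlaw : HasLaw (fun ω (p : ℕ × Site d) => slots' (upd ω) δ k p.1 p.2)
      (Measure.infinitePi (fun _ : ℕ × Site d => slotLaw δ)) P := by
    refine iIndepFun.hasLaw_infinitePi
      (X := fun (p : ℕ × Site d) ω => slots' (upd ω) δ k p.1 p.2) (fun p => ?_) hind3
      hms.aemeasurable
    exact ⟨(hm (r p.1) p.2).aemeasurable, hcoord (r p.1) p.2⟩
  have hlaw2 := hlaw.map_eq
  have hcurry := Measure.infinitePi_map_curry (fun (_ : ℕ) (_ : Site d) => slotLaw δ)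
  rw [← hlaw2, Measure.map_map (by fun_prop) hms] at hcurry
  exact hcurry

theorem measurable_slots' (hclk : IsPoissonClocks P upd) (δ : ℝ≥0) (k : ℕ) :
    Measurable (fun ω => slots' (upd ω) δ k) := by
  rw [measurable_pi_iff]
  intro j
  rw [measurable_pi_iff]
  intro x
  exact (Measurable.of_discrete (f := fun n : ℕ => decide (0 < n))).comp (hclk.meas x _ _)

/-! ### The approximation theorem -/

/-- The bad event for the site `x`. -/
def BadSet (upd : Ω → Site d → Set ℝ) (δ t : ℝ) (k N : ℕ) (x : Site d) : Set Ω :=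
  {ω | Ch N k (slots' (upd ω) δ k) x} ∪
    ((⋃ i ∈ Finset.range k, ⋃ y ∈ reach N x,
      {ω | ¬ FewUpd (upd ω) ((i : ℝ) * δ) (((i : ℝ) + 1) * δ) y}) ∪
      {ω | 0 < count (upd ω) x ((k : ℝ) * δ) t})

theorem eq_of_notMem_badSet (hclk : IsPoissonClocks P upd) {δ t : ℝ} (hδ : 0 ≤ δ) {k N : ℕ}
    (hkt : (k : ℝ) * δ ≤ t) {x : Site d} {ω : Ω} {f : Height d} {h : ℝ → Height d}
    (hev : IsEvolution (upd ω) f h) (hω : ω ∉ BadSet upd δ t k N x) :
    h t x = run k (slots' (upd ω) δ k) f x := by
  unfold BadSet at hω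
  simp only [Set.mem_union, not_or, Set.mem_iUnion, not_exists, Set.mem_ofPred_eq, not_not,
    Finset.mem_range] at hω
  obtain ⟨h1, h2, h3⟩ := hω
  rw [← run_congr (slots'_eq (upd ω) δ k) f]
  rw [← Ch_congr (slots'_eq (upd ω) δ k)] at h1
  rw [run_slots_eq (hclk.finite ω) hev hδ k N x h1 (fun i hi y hy => h2 i hi y hy)]
  apply hev.const x _ _ (by positivity) hkt
  apply inter_eq_empty_of_count (hclk.finite ω)
  omega

theorem prob_badSet_le (hclk : IsPoissonClocks P upd) (δ : ℝ≥0) {t : ℝ} {k N : ℕ}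
    (hkt : (k : ℝ) * δ ≤ t) (x : Site d) :
    P.real (BadSet upd δ t k N x) ≤ (k.choose N : ℝ) * ((2 * d + 1) * (δ : ℝ)) ^ N +
      ((k : ℝ) * ((reach N x).card * ((2 * d + 1) ^ 2 * (δ : ℝ) ^ 2)) + (t - k * δ)) := by
  unfold BadSet
  refine (measureReal_union_le _ _).trans (add_le_add ?_ ((measureReal_union_le _ _).trans
    (add_le_add ?_ ?_)))
  · have h1 : {ω | Ch N k (slots' (upd ω) δ k) x} =
        (fun ω => slots' (upd ω) δ k) ⁻¹' {ξ | Ch N k ξ x} := rfl
    rw [h1, ← map_measureReal_apply (measurable_slots' hclk δ k) (measurableSet_Ch N k x),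
      map_slots' hclk]
    exact arrLaw_Ch_le δ N k x
  · refine (measureReal_biUnion_finset_le _ _).trans ?_
    calc ∑ i ∈ Finset.range k, P.real (⋃ y ∈ reach N x,
          {ω | ¬ FewUpd (upd ω) ((i : ℝ) * δ) (((i : ℝ) + 1) * δ) y})
        ≤ ∑ _i ∈ Finset.range k, (reach N x).card * ((2 * d + 1) ^ 2 * (δ : ℝ) ^ 2) := by
          refine Finset.sum_le_sum fun i _ => (measureReal_biUnion_finset_le _ _).trans ?_
          calc ∑ y ∈ reach N x, P.real {ω | ¬ FewUpd (upd ω) ((i : ℝ) * δ) (((i : ℝ) + 1) * δ) y}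
              ≤ ∑ _y ∈ reach N x, ((2 * d + 1) ^ 2 * (δ : ℝ) ^ 2) := by
                refine Finset.sum_le_sum fun y _ => ?_
                have := prob_not_good_le hclk y (a := (i : ℝ) * δ) (b := ((i : ℝ) + 1) * δ)
                  (by positivity) (mul_le_mul_of_nonneg_right (by linarith) δ.2)
                refine this.trans (le_of_eq ?_)
                ring
            _ = _ := by rw [Finset.sum_const, nsmul_eq_mul]
      _ = _ := by rw [Finset.sum_const, nsmul_eq_mul, Finset.card_range]
  · exact prob_pos_le hclk x (by positivity) hkt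

theorem choose_mul_pow_le (k N : ℕ) {a t : ℝ} (ha : 0 ≤ a) (hkt : (k : ℝ) * a ≤ t) :
    (k.choose N : ℝ) * a ^ N ≤ t ^ N / N.factorial := by
  have h1 : (k.choose N : ℝ) ≤ (k : ℝ) ^ N / N.factorial := Nat.choose_le_pow_div N k
  have h2 : 0 ≤ a ^ N := by positivity
  calc (k.choose N : ℝ) * a ^ N ≤ (k : ℝ) ^ N / N.factorial * a ^ N :=
        mul_le_mul_of_nonneg_right h1 h2
    _ = ((k : ℝ) * a) ^ N / N.factorial := by rw [mul_pow]; ring
    _ ≤ t ^ N / N.factorial := by
        apply div_le_div_of_nonneg_right _ (by positivity)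
        exact pow_le_pow_left₀ (by positivity) hkt N

theorem approx (hclk : IsPoissonClocks P upd) {q : ℕ} (hq : 0 < q)
    {t : ℝ} (ht : 0 < t) (B : Finset (Site d)) {ε : ℝ} (hε : 0 < ε) :
    ∃ n₀ : ℕ, ∀ n ≥ n₀, ∀ (f : Height d) (H : Ω → ℝ → Height d),
      (∀ᵐ ω ∂P, IsEvolution (upd ω) f (H ω)) →
      ∃ X : Ω → Height d, Measurable X ∧
        P.map X = lawK d (List.replicate ⌊t / (dl q n : ℝ)⌋₊ (dl q n)) f ∧
        P {ω | ∃ x ∈ B, H ω t x ≠ X ω x} ≤ ENNReal.ofReal ε := by
  set C : ℝ := (2 * d + 1) * t with hC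
  have hC0 : 0 ≤ C := by positivity
  obtain ⟨N, hN⟩ : ∃ N : ℕ, B.card * (C ^ N / N.factorial) ≤ ε / 2 := by
    have h1 := (FloorSemiring.tendsto_pow_div_factorial_atTop C).const_mul (B.card : ℝ)
    rw [mul_zero] at h1
    obtain ⟨N, hN⟩ := ((tendsto_order.1 h1).2 (ε / 2) (by positivity)).exists
    exact ⟨N, hN.le⟩
  obtain ⟨R, hR⟩ : ∃ R : ℝ, R = ∑ x ∈ B, (t * ((reach N x).card * (2 * d + 1) ^ 2) + 1) :=
    ⟨_, rfl⟩
  have hcard : ∀ x : Site d, (0 : ℝ) ≤ ((reach N x).card : ℝ) * (2 * d + 1) ^ 2 := fun x =>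
    mul_nonneg (Nat.cast_nonneg _) (by positivity)
  have hR0 : 0 ≤ R := by
    rw [hR]
    exact Finset.sum_nonneg fun x _ => add_nonneg (mul_nonneg ht.le (hcard x)) zero_le_one
  have hR1 : 0 < R + 1 := by linarith
  obtain ⟨n₀, hn₀⟩ := exists_pow_lt_of_lt_one (show 0 < ε / 2 / (R + 1) by positivity)
    (show (1 / 2 : ℝ) < 1 by norm_num)
  refine ⟨n₀, fun n hn f H hH => ?_⟩
  set δ := dl q n with hδ
  have hδ0 : 0 < (δ : ℝ) := dl_pos hq n
  have hδ1 : (δ : ℝ) * R ≤ ε / 2 := by
    have h1 : (δ : ℝ) ≤ (1 / 2) ^ n₀ :=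
      (dl_le hq n).trans (pow_le_pow_of_le_one (by norm_num) (by norm_num) hn)
    have h2 : (δ : ℝ) ≤ ε / 2 / (R + 1) := h1.trans hn₀.le
    calc (δ : ℝ) * R ≤ ε / 2 / (R + 1) * R := mul_le_mul_of_nonneg_right h2 hR0
      _ ≤ ε / 2 / (R + 1) * (R + 1) :=
        mul_le_mul_of_nonneg_left (by linarith) (by positivity)
      _ = ε / 2 := by field_simp
  set k := ⌊t / (δ : ℝ)⌋₊ with hk
  have hkt : (k : ℝ) * δ ≤ t := by
    have := Nat.floor_le (show 0 ≤ t / (δ : ℝ) by positivity)
    rwa [le_div_iff₀ hδ0] at this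
  have hkt2 : t - k * δ ≤ δ := by
    have := Nat.lt_floor_add_one (t / (δ : ℝ))
    rw [div_lt_iff₀ hδ0] at this
    rw [← hk] at this
    nlinarith
  refine ⟨fun ω => run k (slots' (upd ω) δ k) f,
    (measurable_run_uncurry k f).comp (measurable_slots' hclk δ k), ?_, ?_⟩
  · rw [← arrLaw_map_run, ← map_slots' hclk δ k,
      Measure.map_map (measurable_run_uncurry k f) (measurable_slots' hclk δ k)]
    rfl
  · have hsub : {ω | ∃ x ∈ B, H ω t x ≠ run k (slots' (upd ω) δ k) f x} ⊆
        {ω | ¬ IsEvolution (upd ω) f (H ω)} ∪ ⋃ x ∈ B, BadSet upd δ t k N x := by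
      rintro ω ⟨x, hx, hne⟩
      by_cases hev : IsEvolution (upd ω) f (H ω)
      · right
        simp only [Set.mem_iUnion]
        refine ⟨x, hx, ?_⟩
        by_contra hcon
        exact hne (eq_of_notMem_badSet hclk δ.2 hkt hev hcon)
      · exact Or.inl hev
    have hreal : P.real (⋃ x ∈ B, BadSet upd δ t k N x) ≤ ε := by
      refine (measureReal_biUnion_finset_le _ _).trans ?_
      have hone : ∀ x ∈ B, P.real (BadSet upd δ t k N x) ≤ C ^ N / N.factorial +
          δ * (t * ((reach N x).card * (2 * d + 1) ^ 2) + 1) := by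
        intro x _
        refine (prob_badSet_le hclk δ hkt x).trans (add_le_add ?_ ?_)
        · apply choose_mul_pow_le k N (by positivity)
          rw [hC]
          nlinarith [mul_le_mul_of_nonneg_left hkt (show (0 : ℝ) ≤ 2 * d + 1 by positivity)]
        · have h1 : (k : ℝ) * ((reach N x).card * ((2 * d + 1) ^ 2 * (δ : ℝ) ^ 2)) =
              (k * δ) * ((reach N x).card * (2 * d + 1) ^ 2 * δ) := by ring
          rw [h1]
          have h2 : (k * (δ : ℝ)) * ((reach N x).card * (2 * d + 1) ^ 2 * δ) ≤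
              t * ((reach N x).card * (2 * d + 1) ^ 2 * δ) :=
            mul_le_mul_of_nonneg_right hkt (mul_nonneg (hcard x) δ.2)
          linarith
      calc ∑ x ∈ B, P.real (BadSet upd δ t k N x)
          ≤ ∑ x ∈ B, (C ^ N / N.factorial +
            δ * (t * ((reach N x).card * (2 * d + 1) ^ 2) + 1)) := Finset.sum_le_sum hone
        _ = B.card * (C ^ N / N.factorial) + δ * R := by
            rw [Finset.sum_add_distrib, Finset.sum_const, nsmul_eq_mul, hR, Finset.mul_sum]
        _ ≤ ε / 2 + ε / 2 := add_le_add hN hδ1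
        _ = ε := by ring
    calc P {ω | ∃ x ∈ B, H ω t x ≠ run k (slots' (upd ω) δ k) f x}
        ≤ P ({ω | ¬ IsEvolution (upd ω) f (H ω)} ∪ ⋃ x ∈ B, BadSet upd δ t k N x) :=
          measure_mono hsub
      _ ≤ P {ω | ¬ IsEvolution (upd ω) f (H ω)} + P (⋃ x ∈ B, BadSet upd δ t k N x) :=
          measure_union_le _ _
      _ = P (⋃ x ∈ B, BadSet upd δ t k N x) := by
          rw [ae_iff.1 hH, zero_add]
      _ = ENNReal.ofReal (P.real (⋃ x ∈ B, BadSet upd δ t k N x)) := by
          rw [measureReal_def, ENNReal.ofReal_toReal (measure_ne_top _ _)]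
      _ ≤ ENNReal.ofReal ε := ENNReal.ofReal_le_ofReal hreal

end Prob

end Pool.MP4bb68c
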