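import Mathlib
import Pool.Agent.Work.MP_4bb68c_pr.Defs
import Pool.Agent.Work.MP_4bb68c_pr.Run
import Pool.Agent.Work.MP_4bb68c_pr.Chain
import Pool.Agent.Work.MP_4bb68c_pr.Approx
import Pool.Agent.Work.MP_4bb68c_pr.Avg

/-!
# Limits of the time averages are stationary
-/

open MeasureTheory ProbabilityTheory Filter Topology
open scoped NNReal ENNReal

namespace Pool.MP4bb68c

variable {d : ℕ}

/-! ### Basic cylinders -/

/-- A basic cylinder. -/
def cyl (B : Finset (Site d)) (c : Site d → ℤ) : Set (Height d) := {h | ∀ x ∈ B, h x = c x}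

theorem measurableSet_cyl (B : Finset (Site d)) (c : Site d → ℤ) : MeasurableSet (cyl B c) := by
  have : cyl B c = ⋂ x ∈ B, (fun h : Height d => h x) ⁻¹' {c x} := by
    ext h
    simp [cyl]
  rw [this]
  exact Finset.measurableSet_biInter B fun x _ => measurable_pi_apply x (measurableSet_singleton _)

/-- The family of basic cylinders. -/
def cyls (d : ℕ) : Set (Set (Height d)) := {s | ∃ B c, s = cyl B c}

theorem isPiSystem_cyls : IsPiSystem (cyls d) := by
  classical
  rintro _ ⟨B, c, rfl⟩ _ ⟨B', c', rfl⟩ ⟨h, h1, h2⟩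
  refine ⟨B ∪ B', h, ?_⟩
  ext g
  constructor
  · rintro ⟨g1, g2⟩ x hx
    rcases Finset.mem_union.1 hx with hx | hx
    · rw [g1 x hx, h1 x hx]
    · rw [g2 x hx, h2 x hx]
  · intro hg
    exact ⟨fun x hx => by rw [hg x (Finset.mem_union_left _ hx), h1 x hx],
      fun x hx => by rw [hg x (Finset.mem_union_right _ hx), h2 x hx]⟩

theorem generateFrom_cyls : (MeasurableSpace.pi : MeasurableSpace (Height d)) =
    MeasurableSpace.generateFrom (cyls d) := by
  apply le_antisymm
  · refine iSup_le fun x => ?_
    have h1 : @Measurable _ _ (MeasurableSpace.generateFrom (cyls d)) _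
        (fun h : Height d => h x) := by
      refine @measurable_to_countable' ℤ _ _ _ (MeasurableSpace.generateFrom (cyls d)) _ ?_
      intro m
      apply MeasurableSpace.measurableSet_generateFrom
      refine ⟨{x}, fun _ => m, ?_⟩
      ext h
      simp [cyl]
    exact h1.comap_le
  · refine MeasurableSpace.generateFrom_le ?_
    rintro _ ⟨B, c, rfl⟩
    exact measurableSet_cyl B c

open Classical in
/-- The indicator of a basic cylinder. -/
noncomputable def ind (B : Finset (Site d)) (c : Site d → ℤ) (h : Height d) : ℝ :=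
  if h ∈ cyl B c then 1 else 0

theorem ind_abs_le (B : Finset (Site d)) (c : Site d → ℤ) (h : Height d) : |ind B c h| ≤ 1 := by
  unfold ind
  split_ifs <;> simp

theorem ind_nonneg (B : Finset (Site d)) (c : Site d → ℤ) (h : Height d) : 0 ≤ ind B c h := by
  unfold ind
  split_ifs <;> simp

theorem ind_le_one (B : Finset (Site d)) (c : Site d → ℤ) (h : Height d) : ind B c h ≤ 1 := by
  unfold ind
  split_ifs <;> simp

theorem continuous_ind (B : Finset (Site d)) (c : Site d → ℤ) : Continuous (ind B c) := by
  refine continuous_of_local B ?_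
  intro g g' h
  have h1 : g ∈ cyl B c ↔ g' ∈ cyl B c := by
    constructor
    · intro hg x hx
      rw [← h x hx]
      exact hg x hx
    · intro hg x hx
      rw [h x hx]
      exact hg x hx
  unfold ind
  by_cases hg : g ∈ cyl B c
  · rw [if_pos hg, if_pos (h1.1 hg)]
  · rw [if_neg hg, if_neg (fun h2 => hg (h1.2 h2))]

theorem integral_ind (μ : Measure (Height d)) (B : Finset (Site d)) (c : Site d → ℤ) :
    ∫ h, ind B c h ∂μ = μ.real (cyl B c) := by
  have : ind B c = (cyl B c).indicator 1 := by
    ext h
    unfold ind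
    simp [Set.indicator]
  rw [this, integral_indicator_one (measurableSet_cyl B c)]

/-! ### The limit is stationary -/

theorem integrable_of_bdd_cont {μ : Measure (Height d)} [IsFiniteMeasure μ] {Φ : Height d → ℝ}
    (hc : Continuous Φ) {C : ℝ} (hb : ∀ h, |Φ h| ≤ C) : Integrable Φ μ :=
  Integrable.of_bound hc.measurable.aestronglyMeasurable C
    (Filter.Eventually.of_forall fun h => by rw [Real.norm_eq_abs]; exact hb h)

theorem aemeasurable_height {Ω : Type*} [MeasurableSpace Ω] {P : Measure Ω}
    [IsProbabilityMeasure P] {upd : Ω → Site d → Set ℝ} (hclk : IsPoissonClocks P upd)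
    {f : Height d} {H : Ω → ℝ → Height d} (hH : ∀ᵐ ω ∂P, IsEvolution (upd ω) f (H ω))
    {t : ℝ} (ht : 0 < t) : AEMeasurable (fun ω => H ω t) P := by
  rw [aemeasurable_pi_iff]
  intro x
  have h1 : ∀ j : ℕ, ∃ Y : Ω → ℤ, Measurable Y ∧ P {ω | H ω t x ≠ Y ω} ≤
      ENNReal.ofReal ((1 / 2) ^ j) := by
    intro j
    obtain ⟨n₀, hn₀⟩ := approx hclk (q := 1) one_pos ht {x}
      (show (0 : ℝ) < (1 / 2) ^ j by positivity)
    obtain ⟨X, hX, -, hP⟩ := hn₀ n₀ le_rfl f H hH
    refine ⟨fun ω => X ω x, (measurable_pi_apply x).comp hX, ?_⟩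
    refine (measure_mono ?_).trans hP
    intro ω hω
    exact ⟨x, Finset.mem_singleton_self x, hω⟩
  choose Y hY hP using h1
  refine aemeasurable_of_tendsto_metrizable_ae (u := atTop) (f := Y)
    (fun n => (hY n).aemeasurable) ?_
  have hsum : ∑' j, P {ω | H ω t x ≠ Y j ω} ≠ ∞ := by
    refine ne_top_of_le_ne_top ?_ (ENNReal.tsum_le_tsum hP)
    rw [← ENNReal.ofReal_tsum_of_nonneg (fun n => by positivity)
      (summable_geometric_of_lt_one (by norm_num) (by norm_num))]
    exact ENNReal.ofReal_ne_top
  filter_upwards [ae_eventually_notMem hsum] with ω hω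
  refine tendsto_const_nhds.congr' ?_
  filter_upwards [hω] with n hn
  by_contra hcon
  exact hn hcon

/-- The increments of an averaged bounded sequence. -/
theorem abs_avg_shift_le {b : ℕ → ℝ} (h0 : ∀ i, 0 ≤ b i) (h1 : ∀ i, b i ≤ 1) {N : ℕ}
    (hN : 0 < N) (k : ℕ) :
    |(N : ℝ)⁻¹ * ∑ i ∈ Finset.range N, b (i + k) - (N : ℝ)⁻¹ * ∑ i ∈ Finset.range N, b i| ≤
      k / N := by
  have hN' : (0 : ℝ) < N := by exact_mod_cast hN
  rw [← mul_sub, ← Finset.sum_sub_distrib, sum_range_shift_sub, abs_mul,
    abs_of_pos (inv_pos.2 hN')]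
  have h2 : |∑ j ∈ Finset.range k, (b (N + j) - b j)| ≤ k := by
    refine (Finset.abs_sum_le_sum_abs _ _).trans ?_
    calc ∑ j ∈ Finset.range k, |b (N + j) - b j| ≤ ∑ _j ∈ Finset.range k, (1 : ℝ) := by
          refine Finset.sum_le_sum fun j _ => ?_
          rw [abs_le]
          constructor <;> linarith [h0 (N + j), h1 (N + j), h0 j, h1 j]
      _ = k := by simp
  calc (N : ℝ)⁻¹ * |∑ j ∈ Finset.range k, (b (N + j) - b j)| ≤ (N : ℝ)⁻¹ * k :=
        mul_le_mul_of_nonneg_left h2 (by positivity)
    _ = k / N := by field_simp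

theorem isStationary_of_tendsto {q : ℕ} (hq : 0 < q) {f : Height d} {μ : Measure (Height d)}
    [IsProbabilityMeasure μ]
    (hlim : ∀ Φ : Height d → ℝ, Continuous Φ → ∀ C : ℝ, (∀ g, |Φ g| ≤ C) →
        Tendsto (fun n => ∫ g, Φ g ∂(avg d q n f)) (hyperfilter ℕ) (𝓝 (∫ g, Φ g ∂μ))) :
    IsStationary μ := by
  classical
  intro Ω _ P _ upd hclk H hH t ht A hA
  have haem : ∀ g, AEMeasurable (fun ω => seen (H g ω t)) P := fun g =>
    measurable_seen.comp_aemeasurable (aemeasurable_height hclk (hH g) ht)
  set K : Height d → Measure (Height d) := fun g => P.map (fun ω => seen (H g ω t)) with hK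
  have hKprob : ∀ g, IsProbabilityMeasure (K g) := fun g =>
    Measure.isProbabilityMeasure_map (haem g)
  set kn : ℕ → ℕ := fun n => ⌊t / (dl q n : ℝ)⌋₊ with hkn
  -- the approximation, uniform in the initial function
  have happ : ∀ (B : Finset (Site d)) (c : Site d → ℤ) (ε : ℝ), 0 < ε → ∃ n₀, ∀ n ≥ n₀, ∀ g,
      |(K g).real (cyl B c) - ∫ h, ind B c (seen h) ∂(LL d q n (kn n) g)| ≤ ε := by
    intro B c ε hε
    obtain ⟨n₀, hn₀⟩ := approx hclk hq ht (insert 0 B) hε
    refine ⟨n₀, fun n hn g => ?_⟩
    obtain ⟨Y, hY, hmap, hP⟩ := hn₀ n hn g (H g) (hH g)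
    have e1 : (K g).real (cyl B c) = P.real {ω | seen (H g ω t) ∈ cyl B c} := by
      rw [hK, measureReal_def, measureReal_def,
        Measure.map_apply_of_aemeasurable (haem g) (measurableSet_cyl B c)]
      rfl
    have e2 : ∫ h, ind B c (seen h) ∂(LL d q n (kn n) g) =
        P.real {ω | seen (Y ω) ∈ cyl B c} := by
      have hmc : Measurable (fun h : Height d => ind B c (seen h)) :=
        ((continuous_ind B c).comp continuous_seen).measurable
      unfold LL
      rw [hkn, ← hmap, integral_map hY.aemeasurable hmc.aestronglyMeasurable]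
      have h1 : (fun ω => ind B c (seen (Y ω))) =
          {ω | seen (Y ω) ∈ cyl B c}.indicator 1 := by
        ext ω
        unfold ind
        simp [Set.indicator]
      rw [h1]
      have hms : MeasurableSet {ω | seen (Y ω) ∈ cyl B c} :=
        (measurable_seen.comp hY) (measurableSet_cyl B c)
      exact integral_indicator_one hms
    rw [e1, e2]
    set Bad : Set Ω := {ω | ∃ x ∈ insert 0 B, H g ω t x ≠ Y ω x} with hBad
    have hBadr : P.real Bad ≤ ε := by
      rw [measureReal_def]
      exact ENNReal.toReal_le_of_le_ofReal hε.le hP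
    have hgood : ∀ ω, ω ∉ Bad → ∀ x ∈ insert 0 B, H g ω t x = Y ω x := by
      intro ω hω x hx
      by_contra hne
      exact hω ⟨x, hx, hne⟩
    have hiff : ∀ ω, ω ∉ Bad → (seen (H g ω t) ∈ cyl B c ↔ seen (Y ω) ∈ cyl B c) := by
      intro ω hω
      have h0 := hgood ω hω 0 (Finset.mem_insert_self _ _)
      constructor
      · intro h x hx
        have := h x hx
        unfold seen at this ⊢
        rw [← hgood ω hω x (Finset.mem_insert_of_mem hx), ← h0]
        exact this
      · intro h x hx
        have := h x hx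
        unfold seen at this ⊢
        rw [hgood ω hω x (Finset.mem_insert_of_mem hx), h0]
        exact this
    have s1 : P.real {ω | seen (H g ω t) ∈ cyl B c} ≤
        P.real {ω | seen (Y ω) ∈ cyl B c} + P.real Bad := by
      refine (measureReal_mono ?_ (measure_ne_top _ _)).trans (measureReal_union_le _ _)
      intro ω hω
      by_cases hb : ω ∈ Bad
      · exact Or.inr hb
      · exact Or.inl ((hiff ω hb).1 hω)
    have s2 : P.real {ω | seen (Y ω) ∈ cyl B c} ≤
        P.real {ω | seen (H g ω t) ∈ cyl B c} + P.real Bad := by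
      refine (measureReal_mono ?_ (measure_ne_top _ _)).trans (measureReal_union_le _ _)
      intro ω hω
      by_cases hb : ω ∈ Bad
      · exact Or.inr hb
      · exact Or.inl ((hiff ω hb).2 hω)
    rw [abs_le]
    constructor <;> linarith
  -- continuity of the kernel on cylinders
  have hcont_n : ∀ (B : Finset (Site d)) (c : Site d → ℤ) (n : ℕ),
      Continuous (fun g => ∫ h, ind B c (seen h) ∂(LL d q n (kn n) g)) := by
    intro B c n
    exact continuous_integral_lawK ((continuous_ind B c).comp continuous_seen)
      (C := 1) (fun h => ind_abs_le B c (seen h)) _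
  have hcont : ∀ (B : Finset (Site d)) (c : Site d → ℤ),
      Continuous (fun g => (K g).real (cyl B c)) := by
    intro B c
    refine continuous_of_uniform_approx_of_continuous fun u hu => ?_
    obtain ⟨ε, hε, hεu⟩ := Metric.mem_uniformity_dist.1 hu
    obtain ⟨n₀, hn₀⟩ := happ B c (ε / 2) (by positivity)
    refine ⟨_, hcont_n B c n₀, fun g => hεu ?_⟩
    rw [Real.dist_eq]
    exact (hn₀ n₀ le_rfl g).trans_lt (by linarith)
  have hmeasK : Measurable K := by
    refine Measurable.measure_of_isPiSystem_of_isProbabilityMeasure (S := cyls d)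
      generateFrom_cyls isPiSystem_cyls ?_
    rintro _ ⟨B, c, rfl⟩
    have : (fun g => K g (cyl B c)) = fun g => ENNReal.ofReal ((K g).real (cyl B c)) := by
      ext g
      rw [measureReal_def, ENNReal.ofReal_toReal (measure_ne_top _ _)]
    rw [this]
    exact (hcont B c).measurable.ennreal_ofReal
  -- invariance on cylinders
  have hinv : ∀ (B : Finset (Site d)) (c : Site d → ℤ),
      ∫ g, (K g).real (cyl B c) ∂μ = μ.real (cyl B c) := by
    intro B c
    have hb1 : ∀ g, |(K g).real (cyl B c)| ≤ 1 := by
      intro g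
      rw [abs_of_nonneg measureReal_nonneg]
      exact measureReal_le_one
    have l1 := hlim (fun g => (K g).real (cyl B c)) (hcont B c) 1 hb1
    have l2 := hlim (ind B c) (continuous_ind B c) 1 (ind_abs_le B c)
    rw [integral_ind] at l2
    refine tendsto_nhds_unique l1 ?_
    have l3 : Tendsto (fun n => ∫ g, (K g).real (cyl B c) ∂(avg d q n f) -
        ∫ g, ind B c g ∂(avg d q n f)) atTop (𝓝 0) := by
      rw [Metric.tendsto_atTop]
      intro ε hε
      obtain ⟨n₁, hn₁⟩ := happ B c (ε / 2) (by positivity)
      obtain ⟨n₂, hn₂⟩ := exists_pow_lt_of_lt_one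
        (show 0 < ε / 2 / (t * q + 1) by positivity) (show (1 / 2 : ℝ) < 1 by norm_num)
      refine ⟨max n₁ n₂, fun n hn => ?_⟩
      have hn1 := (le_max_left n₁ n₂).trans hn
      have hn2 := (le_max_right n₁ n₂).trans hn
      rw [Real.dist_eq, sub_zero]
      set b : ℕ → ℝ := fun i => ∫ h, ind B c (seen h) ∂(LL d q n i f) with hbdef
      have hmi : Measurable (ind B c) := (continuous_ind B c).measurable
      have e1 : ∫ g, ind B c g ∂(avg d q n f) =
          (NN n : ℝ)⁻¹ * ∑ i ∈ Finset.range (NN n), b i :=
        integral_avg hmi (fun i => integrable_of_bdd_cont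
          ((continuous_ind B c).comp continuous_seen) (C := 1) (fun h => ind_abs_le B c _))
      set un : Height d → ℝ := fun g => ∫ h, ind B c (seen h) ∂(LL d q n (kn n) g) with hun
      have hun1 : ∀ g, |un g| ≤ 1 := by
        intro g
        have : ∀ᵐ h ∂(LL d q n (kn n) g), ‖ind B c (seen h)‖ ≤ 1 :=
          Filter.Eventually.of_forall fun h => by
            rw [Real.norm_eq_abs]
            exact ind_abs_le B c _
        have h2 := norm_integral_le_of_norm_le_const this
        rw [probReal_univ, mul_one, Real.norm_eq_abs] at h2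
        exact h2
      have e2 : ∫ g, un g ∂(avg d q n f) =
          (NN n : ℝ)⁻¹ * ∑ i ∈ Finset.range (NN n), b (i + kn n) := by
        rw [integral_avg (hcont_n B c n).measurable (fun i => integrable_of_bdd_cont
          ((hcont_n B c n).comp continuous_seen) (C := 1) (fun h => hun1 _))]
        congr 1
        refine Finset.sum_congr rfl fun i _ => ?_
        have h1 : ∀ g, un (seen g) = un g := by
          intro g
          have h2 := lawK_seen_map_seen (List.replicate (kn n) (dl q n)) g
          have h3 : ∫ h, ind B c h ∂((LL d q n (kn n) (seen g)).map seen) =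
              ∫ h, ind B c h ∂((LL d q n (kn n) g).map seen) := by
            unfold LL
            rw [h2]
          rw [integral_map measurable_seen.aemeasurable hmi.aestronglyMeasurable,
            integral_map measurable_seen.aemeasurable hmi.aestronglyMeasurable] at h3
          exact h3
        have h5 : ∫ g, un (seen g) ∂(LL d q n i f) = ∫ g, un g ∂(LL d q n i f) := by
          simp_rw [h1]
        refine h5.trans ?_
        have h4 : List.replicate (i + kn n) (dl q n) =
            List.replicate (kn n) (dl q n) ++ List.replicate i (dl q n) := by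
          rw [← List.replicate_add, add_comm]
        change ∫ g, (∫ h, ind B c (seen h) ∂(LL d q n (kn n) g)) ∂(LL d q n i f) =
          ∫ h, ind B c (seen h) ∂(LL d q n (i + kn n) f)
        unfold LL
        rw [h4]
        exact (integral_lawK_append _ _ _ (integrable_of_bdd_cont
          ((continuous_ind B c).comp continuous_seen) (C := 1)
          (fun h => ind_abs_le B c _))).symm
      have e3 : |∫ g, (K g).real (cyl B c) ∂(avg d q n f) - ∫ g, un g ∂(avg d q n f)| ≤ ε / 2 := by
        rw [← integral_sub (integrable_of_bdd_cont (hcont B c) hb1)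
          (integrable_of_bdd_cont (hcont_n B c n) hun1)]
        have : ∀ᵐ g ∂(avg d q n f), ‖(K g).real (cyl B c) - un g‖ ≤ ε / 2 :=
          Filter.Eventually.of_forall fun g => by
            rw [Real.norm_eq_abs]
            exact hn₁ n hn1 g
        have h2 := norm_integral_le_of_norm_le_const this
        rw [probReal_univ, mul_one, Real.norm_eq_abs] at h2
        exact h2
      have hb0 : ∀ i, 0 ≤ b i := fun i => integral_nonneg fun h => ind_nonneg B c _
      have hb1' : ∀ i, b i ≤ 1 := by
        intro i
        have h1 : ∫ h, ind B c (seen h) ∂(LL d q n i f) ≤ ∫ _h, (1 : ℝ) ∂(LL d q n i f) :=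
          integral_mono (integrable_of_bdd_cont ((continuous_ind B c).comp continuous_seen)
            (C := 1) (fun h => ind_abs_le B c _)) (integrable_const _)
            (fun h => ind_le_one B c _)
        simpa using h1
      have e4 : |∫ g, un g ∂(avg d q n f) - ∫ g, ind B c g ∂(avg d q n f)| ≤ kn n / NN n := by
        rw [e1, e2]
        exact abs_avg_shift_le hb0 hb1' (NN_pos n) (kn n)
      have e5 : (kn n : ℝ) / NN n < ε / 2 := by
        have hδ0 := dl_pos hq n
        have h1 : (kn n : ℝ) ≤ t * q * 2 ^ n := by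
          have h2 := Nat.floor_le (show 0 ≤ t / (dl q n : ℝ) by positivity)
          refine h2.trans (le_of_eq ?_)
          unfold dl
          push_cast
          field_simp
        have h3 : (NN n : ℝ) = 2 ^ n * 2 ^ n := by
          unfold NN
          push_cast
          rw [← mul_pow]
          norm_num
        rw [h3]
        have h4 : (0 : ℝ) < 2 ^ n := by positivity
        calc (kn n : ℝ) / (2 ^ n * 2 ^ n) ≤ (t * q * 2 ^ n) / (2 ^ n * 2 ^ n) :=
              div_le_div_of_nonneg_right h1 (by positivity)
          _ = t * q * (1 / 2) ^ n := by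
              rw [one_div, inv_pow]
              field_simp
          _ ≤ t * q * (1 / 2) ^ n₂ :=
              mul_le_mul_of_nonneg_left
                (pow_le_pow_of_le_one (by norm_num) (by norm_num) hn2) (by positivity)
          _ ≤ (t * q + 1) * (1 / 2) ^ n₂ :=
              mul_le_mul_of_nonneg_right (by linarith) (by positivity)
          _ < (t * q + 1) * (ε / 2 / (t * q + 1)) :=
              mul_lt_mul_of_pos_left hn₂ (by positivity)
          _ = ε / 2 := by field_simp
      calc |∫ g, (K g).real (cyl B c) ∂(avg d q n f) - ∫ g, ind B c g ∂(avg d q n f)|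
          ≤ |∫ g, (K g).real (cyl B c) ∂(avg d q n f) - ∫ g, un g ∂(avg d q n f)| +
            |∫ g, un g ∂(avg d q n f) - ∫ g, ind B c g ∂(avg d q n f)| := abs_sub_le _ _ _
        _ < ε := by linarith
    have l4 := (l3.mono_left Nat.hyperfilter_le_atTop).add l2
    rw [zero_add] at l4
    refine l4.congr fun n => ?_
    ring
  -- conclusion
  have hbind : μ.bind K = μ := by
    have hp : IsProbabilityMeasure (μ.bind K) := by
      constructor
      rw [Measure.bind_apply MeasurableSet.univ hmeasK.aemeasurable]
      simp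
    refine ext_of_generate_finite (cyls d) generateFrom_cyls isPiSystem_cyls ?_ (by simp)
    rintro _ ⟨B, c, rfl⟩
    rw [Measure.bind_apply (measurableSet_cyl B c) hmeasK.aemeasurable]
    have h1 : ∀ g, K g (cyl B c) = ENNReal.ofReal ((K g).real (cyl B c)) := by
      intro g
      rw [measureReal_def, ENNReal.ofReal_toReal (measure_ne_top _ _)]
    simp_rw [h1]
    have hb1 : ∀ g, |(K g).real (cyl B c)| ≤ 1 := by
      intro g
      rw [abs_of_nonneg measureReal_nonneg]
      exact measureReal_le_one
    rw [← ofReal_integral_eq_lintegral_ofReal (integrable_of_bdd_cont (hcont B c) hb1)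
      (Filter.Eventually.of_forall fun g => measureReal_nonneg), hinv B c, measureReal_def,
      ENNReal.ofReal_toReal (measure_ne_top _ _)]
  have h1 : ∀ g, P {ω | seen (H g ω t) ∈ A} = K g A := by
    intro g
    rw [hK, Measure.map_apply_of_aemeasurable (haem g) hA]
    rfl
  simp_rw [h1]
  rw [← Measure.bind_apply hA hmeasK.aemeasurable, hbind]

end Pool.MP4bb68c
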