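import Mathlib
import Pool.Agent.Work.MP_4bb68c_pr.Defs
import Pool.Agent.Work.MP_4bb68c_pr.Run
import Pool.Agent.Work.MP_4bb68c_pr.Chain
import Pool.Agent.Work.MP_4bb68c_pr.Avg

/-!
# Tightness of the time averages
-/

open MeasureTheory ProbabilityTheory Filter Topology
open scoped NNReal ENNReal

namespace Pool.MP4bb68c

variable {d : ℕ}

/-- Additive initial conditions. -/
def IsAdd (f : Height d) : Prop := ∀ x y, f (x + y) = f x + f y

theorem IsAdd.zero {f : Height d} (hf : IsAdd f) : f 0 = 0 := by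
  have := hf 0 0
  rw [add_zero] at this
  linarith

theorem isAdd_flat : IsAdd (fun _ : Site d => (0 : ℤ)) := fun _ _ => by simp

theorem isAdd_tilt (i₀ : Fin d) : IsAdd (fun x : Site d => x i₀) := fun _ _ => by simp

theorem mh_translate {f : Height d} (hf : IsAdd f) (q n i : ℕ) (x : Site d) :
    mh q n f i x = f x + mh q n f i 0 := by
  have h1 := lawK_map_sym (isSym_translate x) (List.replicate i (dl q n)) f
  have h2 : (fun y => f (Equiv.addRight x y)) = fun y => f y + f x := by
    ext y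
    exact hf y x
  rw [h2, ← lawK_map_add_const] at h1
  have hm1 : Measurable (fun (h : Height d) (y : Site d) => h (Equiv.addRight x y)) := by
    fun_prop
  have hm2 : Measurable (fun (h : Height d) (y : Site d) => h y + f x) := by
    rw [measurable_pi_iff]
    intro y
    exact (Measurable.of_discrete (f := fun n : ℤ => n + f x)).comp
      (measurable_pi_apply (X := fun _ : Site d => ℤ) y)
  have h3 : ∫ h, (h 0 : ℝ) ∂((LL d q n i f).map (fun h y => h (Equiv.addRight x y))) =
      ∫ h, (h 0 : ℝ) ∂((LL d q n i f).map (fun h y => h y + f x)) := by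
    unfold LL
    rw [h1]
  rw [integral_map hm1.aemeasurable (measurable_height_real 0).aestronglyMeasurable,
    integral_map hm2.aemeasurable (measurable_height_real 0).aestronglyMeasurable] at h3
  unfold mh
  have h4 : ∀ h : Height d, h (Equiv.addRight x 0) = h x := by
    intro h
    simp
  simp_rw [h4] at h3
  rw [h3]
  push_cast
  rw [integral_add (integrable_height _ _ _) (integrable_const _), integral_const]
  simp [add_comm]

/-- Real valued functions which are Lipschitz combinations of finitely many heights are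
integrable. -/
theorem integrable_of_abs_le {Φ : Height d → ℝ} (hm : Measurable Φ) (B : Finset (Site d))
    {C : ℝ} (hb : ∀ h, |Φ h| ≤ C + ∑ x ∈ B, |(h x : ℝ)|) (l : List ℝ≥0)
    (f : Height d) : Integrable Φ (lawK d l f) := by
  refine integrable_lawK_of_bdd hm l f
    (C := C + ∑ x ∈ B, max |(f x : ℝ)| |(topIter l.length f x : ℝ)|) ?_
  intro h h1 h2
  refine (hb h).trans ?_
  gcongr with x hx
  have e1 : (f x : ℝ) ≤ h x := by exact_mod_cast h1 x
  have e2 : (h x : ℝ) ≤ topIter l.length f x := by exact_mod_cast h2 x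
  exact abs_le_max_abs_abs e1 e2

theorem integrable_max_grad (l : List ℝ≥0) (f : Height d) (x y : Site d) :
    Integrable (fun h : Height d => max ((h y : ℝ) - h x) 0) (lawK d l f) := by
  have := ((integrable_height l f y).sub (integrable_height l f x)).pos_part
  exact this

theorem integrable_abs_grad (l : List ℝ≥0) (f : Height d) (x y : Site d) :
    Integrable (fun h : Height d => |(h y : ℝ) - h x|) (lawK d l f) :=
  ((integrable_height l f y).sub (integrable_height l f x)).abs

/-- The average of the positive part of the gradient is bounded. -/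
theorem avg_pos_grad_le {f : Height d} (hf : IsAdd f) {q : ℕ} (hq : 0 < q) {V : ℝ} (hV0 : 0 ≤ V)
    (hV : ∀ n i, mh q n f i 0 ≤ V * (i * (dl q n : ℝ))) (x : Site d) (a : Fin d × Bool) (n : ℕ) :
    (NN n : ℝ)⁻¹ * ∑ i ∈ Finset.range (NN n),
      ∫ h, max ((h (nb x a) : ℝ) - h x) 0 ∂(LL d q n i f) ≤
      V * (1 + q) / (1 - Real.exp (-1)) := by
  have he : (0 : ℝ) < 1 - Real.exp (-1) := by
    have : Real.exp (-1) < 1 := by
      rw [Real.exp_lt_one_iff]
      norm_num
    linarith
  have hN : (0 : ℝ) < NN n := by exact_mod_cast NN_pos n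
  have hk : ((q * 2 ^ n : ℕ) : ℝ) * (dl q n : ℝ) = 1 := by
    unfold dl
    have : (q : ℝ) ≠ 0 := by exact_mod_cast hq.ne'
    push_cast
    field_simp
  have h1 : ∀ i, (1 - Real.exp (-1)) *
      ∫ h, max ((h (nb x a) : ℝ) - h x) 0 ∂(LL d q n i f) ≤
      mh q n f (i + q * 2 ^ n) 0 - mh q n f i 0 := by
    intro i
    have h2 : mh q n f (i + q * 2 ^ n) 0 - mh q n f i 0 =
        mh q n f (i + q * 2 ^ n) x - mh q n f i x := by
      rw [mh_translate hf q n (i + q * 2 ^ n) x, mh_translate hf q n i x]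
      ring
    rw [h2, mh_sub_eq, ← integral_const_mul]
    refine integral_mono ((integrable_max_grad _ _ _ _).const_mul _)
      ((integrable_integral_height _ _ _ _ _ _).sub (integrable_height _ _ _)) ?_
    intro g
    exact unit_growth hq n g x a
  have h3 := avg_increment_le (a := fun i => mh q n f i 0) hV0 (NNReal.coe_nonneg (dl q n))
    (fun i => by
      have := le_mh q n f i 0
      rwa [hf.zero, Int.cast_zero] at this) (hV n) (NN_pos n) (q * 2 ^ n)
  rw [hk, one_mul] at h3
  have h4 : (((q * 2 ^ n : ℕ) : ℝ)) / NN n ≤ q := by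
    rw [div_le_iff₀ hN]
    unfold NN
    push_cast
    have h5 : (2 : ℝ) ^ n ≤ 4 ^ n := pow_le_pow_left₀ (by norm_num) (by norm_num) n
    exact mul_le_mul_of_nonneg_left h5 (Nat.cast_nonneg q)
  rw [le_div_iff₀ he]
  calc ((NN n : ℝ)⁻¹ * ∑ i ∈ Finset.range (NN n),
        ∫ h, max ((h (nb x a) : ℝ) - h x) 0 ∂(LL d q n i f)) * (1 - Real.exp (-1))
      = (NN n : ℝ)⁻¹ * ∑ i ∈ Finset.range (NN n), ((1 - Real.exp (-1)) *
        ∫ h, max ((h (nb x a) : ℝ) - h x) 0 ∂(LL d q n i f)) := by
        rw [mul_assoc, Finset.sum_mul]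
        congr 1
        exact Finset.sum_congr rfl fun i _ => mul_comm _ _
    _ ≤ (NN n : ℝ)⁻¹ * ∑ i ∈ Finset.range (NN n),
        (mh q n f (i + q * 2 ^ n) 0 - mh q n f i 0) :=
        mul_le_mul_of_nonneg_left (Finset.sum_le_sum fun i _ => h1 i) (by positivity)
    _ ≤ V * (1 + ((q * 2 ^ n : ℕ) : ℝ) / NN n) := h3
    _ ≤ V * (1 + q) := mul_le_mul_of_nonneg_left (by linarith) hV0

/-- Induction along nearest neighbour steps. -/
theorem site_induction {p : Site d → Prop} (h0 : p 0) (hs : ∀ z a, p z → p (nb z a)) :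
    ∀ z, p z := by
  have h1 : ∀ (i : Fin d) (b : Bool) (m : ℕ) (z : Site d), p z →
      p (z + Pi.single i ((m : ℤ) * (if b then 1 else -1))) := by
    intro i b m
    induction m with
    | zero =>
      intro z hz
      simpa using hz
    | succ m ih =>
      intro z hz
      have h2 := hs _ (i, b) (ih z hz)
      unfold nb at h2
      rw [add_assoc, ← Pi.single_add] at h2
      have e : (((m + 1 : ℕ) : ℤ)) * (if b then 1 else -1) =
          (m : ℤ) * (if b then 1 else -1) + (if b = true then 1 else -1) := by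
        push_cast
        ring
      rw [e]
      exact h2
  have h2 : ∀ (i : Fin d) (c : ℤ) (z : Site d), p z → p (z + Pi.single i c) := by
    intro i c z hz
    rcases le_total 0 c with hc | hc
    · have := h1 i true c.toNat z hz
      rw [if_pos rfl, mul_one, Int.toNat_of_nonneg hc] at this
      exact this
    · have := h1 i false (-c).toNat z hz
      rw [Int.toNat_of_nonneg (by omega)] at this
      simpa using this
  intro z
  have h3 : ∀ s : Finset (Fin d), p (∑ i ∈ s, Pi.single i (z i)) := by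
    intro s
    classical
    induction s using Finset.induction_on with
    | empty => simpa using h0
    | insert i s hi ih =>
      rw [Finset.sum_insert hi, add_comm]
      exact h2 i _ _ ih
  have h4 := h3 Finset.univ
  rwa [Finset.univ_sum_single] at h4

theorem nb_nb_not (x : Site d) (i : Fin d) (b : Bool) : nb (nb x (i, b)) (i, !b) = x := by
  unfold nb
  rw [add_assoc, ← Pi.single_add]
  cases b <;> simp

/-- The averages of the gradients are bounded. -/
theorem avg_abs_le {f : Height d} (hf : IsAdd f) {q : ℕ} (hq : 0 < q) {V : ℝ} (hV0 : 0 ≤ V)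
    (hV : ∀ n i, mh q n f i 0 ≤ V * (i * (dl q n : ℝ))) (z : Site d) :
    ∃ C : ℝ, 0 ≤ C ∧ ∀ n, (NN n : ℝ)⁻¹ * ∑ i ∈ Finset.range (NN n),
      ∫ h, |(h z : ℝ) - h 0| ∂(LL d q n i f) ≤ C := by
  set C₁ : ℝ := V * (1 + q) / (1 - Real.exp (-1)) with hC₁
  have he : (0 : ℝ) < 1 - Real.exp (-1) := by
    have : Real.exp (-1) < 1 := by
      rw [Real.exp_lt_one_iff]
      norm_num
    linarith
  have hC₁0 : 0 ≤ C₁ := by positivity
  induction z using site_induction with
  | h0 => exact ⟨0, le_rfl, fun n => by simp⟩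
  | hs z a ih =>
    obtain ⟨C, hC, hb⟩ := ih
    refine ⟨C₁ + C₁ + C, by positivity, fun n => ?_⟩
    have hN : (0 : ℝ) < NN n := by exact_mod_cast NN_pos n
    obtain ⟨i₁, b₁⟩ := a
    have e1 := avg_pos_grad_le hf hq hV0 hV z (i₁, b₁) n
    have e2 := avg_pos_grad_le hf hq hV0 hV (nb z (i₁, b₁)) (i₁, !b₁) n
    rw [nb_nb_not] at e2
    rw [← hC₁] at e1 e2
    have e3 := hb n
    have h1 : ∀ i, ∫ h, |(h (nb z (i₁, b₁)) : ℝ) - h 0| ∂(LL d q n i f) ≤
        ∫ h, max ((h (nb z (i₁, b₁)) : ℝ) - h z) 0 ∂(LL d q n i f) +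
        ∫ h, max ((h z : ℝ) - h (nb z (i₁, b₁))) 0 ∂(LL d q n i f) +
        ∫ h, |(h z : ℝ) - h 0| ∂(LL d q n i f) := by
      intro i
      have i1 := integrable_max_grad (List.replicate i (dl q n)) f z (nb z (i₁, b₁))
      have i2 := integrable_max_grad (List.replicate i (dl q n)) f (nb z (i₁, b₁)) z
      have i3 := integrable_abs_grad (List.replicate i (dl q n)) f 0 z
      have key := integral_mono (integrable_abs_grad (List.replicate i (dl q n)) f 0
        (nb z (i₁, b₁))) ((i1.add i2).add i3) ?_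
      · rwa [integral_add' (i1.add i2) i3, integral_add' i1 i2] at key
      intro h
      have a1 : (h (nb z (i₁, b₁)) : ℝ) - h 0 =
          ((h (nb z (i₁, b₁)) : ℝ) - h z) + ((h z : ℝ) - h 0) := by ring
      change |(h (nb z (i₁, b₁)) : ℝ) - h 0| ≤ max ((h (nb z (i₁, b₁)) : ℝ) - h z) 0 +
        max ((h z : ℝ) - h (nb z (i₁, b₁))) 0 + |(h z : ℝ) - h 0|
      rw [a1]
      refine (abs_add_le _ _).trans ?_
      apply add_le_add_left
      rcases le_total 0 ((h (nb z (i₁, b₁)) : ℝ) - h z) with h2 | h2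
      · rw [abs_of_nonneg h2]
        have := le_max_left ((h (nb z (i₁, b₁)) : ℝ) - h z) 0
        have := le_max_right ((h z : ℝ) - h (nb z (i₁, b₁))) 0
        linarith
      · rw [abs_of_nonpos h2]
        have := le_max_right ((h (nb z (i₁, b₁)) : ℝ) - h z) 0
        have := le_max_left ((h z : ℝ) - h (nb z (i₁, b₁))) 0
        linarith
    calc (NN n : ℝ)⁻¹ * ∑ i ∈ Finset.range (NN n),
          ∫ h, |(h (nb z (i₁, b₁)) : ℝ) - h 0| ∂(LL d q n i f)
        ≤ (NN n : ℝ)⁻¹ * ∑ i ∈ Finset.range (NN n),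
        (∫ h, max ((h (nb z (i₁, b₁)) : ℝ) - h z) 0 ∂(LL d q n i f) +
        ∫ h, max ((h z : ℝ) - h (nb z (i₁, b₁))) 0 ∂(LL d q n i f) +
        ∫ h, |(h z : ℝ) - h 0| ∂(LL d q n i f)) :=
          mul_le_mul_of_nonneg_left (Finset.sum_le_sum fun i _ => h1 i) (by positivity)
      _ ≤ _ := by
          rw [Finset.sum_add_distrib, Finset.sum_add_distrib, mul_add, mul_add]
          linarith

theorem measurable_abs_height (z : Site d) : Measurable (fun g : Height d => |(g z : ℝ)|) :=
  (measurable_height_real z).abs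

theorem integral_abs_avg_le {f : Height d} (hf : IsAdd f) {q : ℕ} (hq : 0 < q) {V : ℝ}
    (hV0 : 0 ≤ V) (hV : ∀ n i, mh q n f i 0 ≤ V * (i * (dl q n : ℝ))) (z : Site d) :
    ∃ C : ℝ, 0 ≤ C ∧ ∀ n, ∫⁻ g, ENNReal.ofReal |(g z : ℝ)| ∂(avg d q n f) ≤ ENNReal.ofReal C := by
  obtain ⟨C, hC, hb⟩ := avg_abs_le hf hq hV0 hV z
  refine ⟨C, hC, fun n => ?_⟩
  have h1 : ∀ h : Height d, |((seen h z : ℤ) : ℝ)| = |(h z : ℝ) - h 0| := by
    intro h
    simp [seen]
  have hint : ∀ i, Integrable (fun h : Height d => |((seen h z : ℤ) : ℝ)|) (LL d q n i f) := by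
    intro i
    simp_rw [h1]
    exact integrable_abs_grad _ f 0 z
  have hi : Integrable (fun g : Height d => |(g z : ℝ)|) (avg d q n f) := by
    unfold avg
    refine Integrable.smul_measure ?_ (ENNReal.inv_ne_top.2 (by exact_mod_cast (NN_pos n).ne'))
    rw [integrable_finsetSum_measure]
    intro i _
    rw [integrable_map_measure (measurable_abs_height z).aestronglyMeasurable
      measurable_seen.aemeasurable]
    exact hint i
  rw [← ofReal_integral_eq_lintegral_ofReal hi (Filter.Eventually.of_forall fun g => abs_nonneg _)]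
  apply ENNReal.ofReal_le_ofReal
  rw [integral_avg (measurable_abs_height z) hint]
  simp_rw [h1]
  exact hb n

/-- The time averages are tight. -/
theorem isTight_avg {f : Height d} (hf : IsAdd f) {q : ℕ} (hq : 0 < q) {V : ℝ}
    (hV0 : 0 ≤ V) (hV : ∀ n i, mh q n f i 0 ≤ V * (i * (dl q n : ℝ))) :
    IsTightMeasureSet (Set.range (fun n => avg d q n f)) := by
  rw [isTightMeasureSet_iff_exists_isCompact_measure_compl_le]
  intro ε hε
  choose C hC hb using fun z => integral_abs_avg_le (d := d) hf hq hV0 hV z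
  obtain ⟨ε', hε'0, hε'⟩ := ENNReal.exists_pos_sum_of_countable' hε.ne' (Site d)
  have hR : ∀ z, ∃ R : ℕ, ENNReal.ofReal (C z) ≤ ε' z * (R + 1) := by
    intro z
    by_cases htop : ε' z = ∞
    · refine ⟨0, ?_⟩
      rw [htop]
      simp
    · obtain ⟨R, hR⟩ := ENNReal.exists_nat_mul_gt (hε'0 z).ne'
        (ENNReal.ofReal_ne_top (r := C z))
      refine ⟨R, hR.le.trans ?_⟩
      rw [mul_comm]
      gcongr
      exact le_self_add
  choose R hR using hR
  refine ⟨Set.pi Set.univ (fun z => Set.Icc (-(R z : ℤ)) (R z)),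
    isCompact_univ_pi fun z => (Set.finite_Icc _ _).isCompact, ?_⟩
  rintro μ ⟨n, rfl⟩
  have hsub : (Set.pi Set.univ (fun z => Set.Icc (-(R z : ℤ)) (R z)))ᶜ ⊆
      ⋃ z : Site d, {g : Height d | ((R z : ℝ≥0∞) + 1) ≤ ENNReal.ofReal |(g z : ℝ)|} := by
    intro g hg
    rw [Set.mem_compl_iff, Set.mem_univ_pi, not_forall] at hg
    obtain ⟨z, hz⟩ := hg
    rw [Set.mem_iUnion]
    refine ⟨z, ?_⟩
    rw [Set.mem_Icc, ← abs_le, not_le] at hz
    have h1 : ((R z : ℝ) + 1) ≤ |(g z : ℝ)| := by
      have : (R z : ℤ) + 1 ≤ |g z| := hz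
      exact_mod_cast this
    change (R z : ℝ≥0∞) + 1 ≤ ENNReal.ofReal |(g z : ℝ)|
    calc (R z : ℝ≥0∞) + 1 = ENNReal.ofReal ((R z : ℝ) + 1) := by
          rw [ENNReal.ofReal_add (by positivity) zero_le_one]
          simp
      _ ≤ _ := ENNReal.ofReal_le_ofReal h1
  calc (avg d q n f) (Set.pi Set.univ (fun z => Set.Icc (-(R z : ℤ)) (R z)))ᶜ
      ≤ (avg d q n f) (⋃ z : Site d,
        {g : Height d | ((R z : ℝ≥0∞) + 1) ≤ ENNReal.ofReal |(g z : ℝ)|}) := measure_mono hsub
    _ ≤ ∑' z : Site d, (avg d q n f)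
        {g : Height d | ((R z : ℝ≥0∞) + 1) ≤ ENNReal.ofReal |(g z : ℝ)|} := measure_iUnion_le _
    _ ≤ ∑' z : Site d, ε' z := by
        refine ENNReal.tsum_le_tsum fun z => ?_
        have h1 := mul_meas_ge_le_lintegral₀ (μ := avg d q n f)
          (f := fun g : Height d => ENNReal.ofReal |(g z : ℝ)|)
          ((measurable_abs_height z).ennreal_ofReal.aemeasurable) ((R z : ℝ≥0∞) + 1)
        have h2 := h1.trans ((hb z n).trans (hR z))
        have h3 : ((R z : ℝ≥0∞) + 1) ≠ 0 := by simp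
        have h4 : ((R z : ℝ≥0∞) + 1) ≠ ∞ := by simp
        rw [mul_comm (ε' z)] at h2
        exact (ENNReal.mul_le_mul_iff_right h3 h4).1 h2
    _ ≤ ε := hε'.le

/-- Existence of a limit along the hyperfilter. -/
theorem exists_limit {f : Height d} (hf : IsAdd f) {q : ℕ} (hq : 0 < q) {V : ℝ}
    (hV0 : 0 ≤ V) (hV : ∀ n i, mh q n f i 0 ≤ V * (i * (dl q n : ℝ))) :
    ∃ μ : Measure (Height d), IsProbabilityMeasure μ ∧
      ∀ Φ : Height d → ℝ, Continuous Φ → ∀ C : ℝ, (∀ g, |Φ g| ≤ C) →
        Tendsto (fun n => ∫ g, Φ g ∂(avg d q n f)) (hyperfilter ℕ) (𝓝 (∫ g, Φ g ∂μ)) := by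
  let ν : ℕ → ProbabilityMeasure (Height d) := fun n => ⟨avg d q n f, inferInstance⟩
  have ht : IsTightMeasureSet {((μ : ProbabilityMeasure (Height d)) : Measure (Height d)) |
      μ ∈ Set.range ν} := by
    refine (isTight_avg hf hq hV0 hV).subset ?_
    rintro μ ⟨ν', ⟨n, rfl⟩, rfl⟩
    exact ⟨n, rfl⟩
  have hc := isCompact_closure_of_isTightMeasureSet ht
  have hU : (((hyperfilter ℕ).map ν : Ultrafilter _) : Filter (ProbabilityMeasure (Height d))) ≤
      𝓟 (closure (Set.range ν)) := by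
    rw [le_principal_iff]
    exact mem_map.2 (Filter.Eventually.of_forall fun n => subset_closure ⟨n, rfl⟩)
  obtain ⟨μ, -, hμ⟩ := hc.ultrafilter_le_nhds _ hU
  refine ⟨μ, inferInstance, fun Φ hΦ C hb => ?_⟩
  have h1 : Tendsto ν (hyperfilter ℕ) (𝓝 μ) := hμ
  rw [ProbabilityMeasure.tendsto_iff_forall_integral_tendsto] at h1
  exact h1 (BoundedContinuousFunction.ofNormedAddCommGroup Φ hΦ C
    (fun g => by rw [Real.norm_eq_abs]; exact hb g))

end Pool.MP4bb68c
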