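import Mathlib
import Pool.Agent.Work.MP_4bb68c_pr.Defs
import Pool.Agent.Work.MP_4bb68c_pr.Run
import Pool.Agent.Work.MP_4bb68c_pr.Chain
import Pool.Agent.Work.MP_4bb68c_pr.Avg
import Pool.Agent.Work.MP_4bb68c_pr.Tight
import Pool.Agent.Work.MP_4bb68c_pr.Stat

/-!
# Integrability of the limits and the comparison functional
-/

open MeasureTheory ProbabilityTheory Filter Topology
open scoped NNReal ENNReal

namespace Pool.MP4bb68c

variable {d : ℕ}

/-- Truncation at level `R`. -/
noncomputable def trunc (R : ℕ) (x : ℝ) : ℝ := max (-(R : ℝ)) (min x R)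

theorem trunc_abs_le (R : ℕ) (x : ℝ) : |trunc R x| ≤ R := by
  unfold trunc
  have hR : (0 : ℝ) ≤ R := Nat.cast_nonneg R
  rw [abs_le]
  exact ⟨le_max_left _ _, max_le (by linarith) (min_le_right _ _)⟩

theorem trunc_abs_le_abs (R : ℕ) (x : ℝ) : |trunc R x| ≤ |x| := by
  unfold trunc
  have hR : (0 : ℝ) ≤ R := Nat.cast_nonneg R
  rw [abs_le]
  constructor
  · rcases le_total x R with h | h
    · rw [min_eq_left h]
      exact (neg_abs_le x).trans (le_max_right _ _)
    · rw [min_eq_right h]
      exact (by linarith [abs_nonneg x] : -|x| ≤ (R : ℝ)).trans (le_max_right _ _)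
  · apply max_le
    · linarith [abs_nonneg x]
    · exact (min_le_left _ _).trans (le_abs_self x)

theorem trunc_neg (R : ℕ) (x : ℝ) : trunc R (-x) = -trunc R x := by
  unfold trunc
  have hR : (0 : ℝ) ≤ R := Nat.cast_nonneg R
  rcases le_total x R with h | h <;> rcases le_total (-(R : ℝ)) x with h' | h'
  · rw [min_eq_left h, max_eq_right h', min_eq_left (by linarith), max_eq_right (by linarith)]
  · rw [min_eq_left h, max_eq_left h', min_eq_right (by linarith), max_eq_right (by linarith)]
    ring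
  · rw [min_eq_right h, min_eq_left (by linarith : -x ≤ (R : ℝ)),
      max_eq_left (by linarith : -x ≤ -(R : ℝ)), max_eq_right (by linarith : -(R : ℝ) ≤ R)]
  · rw [min_eq_right h, min_eq_left (by linarith : -x ≤ (R : ℝ)),
      max_eq_left (by linarith : -x ≤ -(R : ℝ)), max_eq_right (by linarith : -(R : ℝ) ≤ R)]

theorem tendsto_trunc (x : ℝ) : Tendsto (fun R : ℕ => trunc R x) atTop (𝓝 x) := by
  refine tendsto_const_nhds.congr' ?_
  obtain ⟨R₀, hR₀⟩ := exists_nat_ge |x|
  filter_upwards [eventually_ge_atTop R₀] with R hR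
  have h1 : |x| ≤ R := hR₀.trans (by exact_mod_cast hR)
  rw [abs_le] at h1
  unfold trunc
  rw [min_eq_left h1.2, max_eq_right h1.1]

theorem continuous_trunc_height (R : ℕ) (z : Site d) :
    Continuous (fun g : Height d => trunc R (g z : ℝ)) := by
  refine continuous_of_local {z} ?_
  intro g g' h
  rw [h z (Finset.mem_singleton_self z)]

theorem continuous_abs_trunc_height (R : ℕ) (z : Site d) :
    Continuous (fun g : Height d => |trunc R (g z : ℝ)|) :=
  (continuous_trunc_height R z).abs

/-- The limit integrates the heights. -/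
theorem integrable_height_limit {f : Height d} (hf : IsAdd f) {q : ℕ} (hq : 0 < q) {V : ℝ}
    (hV0 : 0 ≤ V) (hV : ∀ n i, mh q n f i 0 ≤ V * (i * (dl q n : ℝ))) {μ : Measure (Height d)}
    [IsProbabilityMeasure μ]
    (hlim : ∀ Φ : Height d → ℝ, Continuous Φ → ∀ C : ℝ, (∀ g, |Φ g| ≤ C) →
        Tendsto (fun n => ∫ g, Φ g ∂(avg d q n f)) (hyperfilter ℕ) (𝓝 (∫ g, Φ g ∂μ)))
    (z : Site d) : Integrable (fun g : Height d => (g z : ℝ)) μ := by
  obtain ⟨C, hC, hb⟩ := integral_abs_avg_le hf hq hV0 hV z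
  have h1 : ∀ R : ℕ, ∫ g, |trunc R (g z : ℝ)| ∂μ ≤ C := by
    intro R
    have h2 := hlim (fun g => |trunc R (g z : ℝ)|) (continuous_abs_trunc_height R z) R
      (fun g => by rw [abs_abs]; exact trunc_abs_le R _)
    refine le_of_tendsto h2 (Filter.Eventually.of_forall fun n => ?_)
    have h3 : ∫⁻ g, ENNReal.ofReal |trunc R (g z : ℝ)| ∂(avg d q n f) ≤ ENNReal.ofReal C :=
      (lintegral_mono fun g => ENNReal.ofReal_le_ofReal (trunc_abs_le_abs R _)).trans (hb n)
    rw [← ofReal_integral_eq_lintegral_ofReal (integrable_of_bdd_cont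
      (continuous_abs_trunc_height R z) (C := R) (fun g => by
        rw [abs_abs]; exact trunc_abs_le R _))
      (Filter.Eventually.of_forall fun g => abs_nonneg _)] at h3
    exact (ENNReal.ofReal_le_ofReal_iff hC).1 h3
  refine ⟨(measurable_height_real z).aestronglyMeasurable, ?_⟩
  rw [hasFiniteIntegral_iff_norm]
  have h4 : ∫⁻ g, ENNReal.ofReal ‖(g z : ℝ)‖ ∂μ ≤
      liminf (fun R : ℕ => ∫⁻ g, ENNReal.ofReal |trunc R (g z : ℝ)| ∂μ) atTop := by
    have h5 : ∀ g : Height d, ENNReal.ofReal ‖(g z : ℝ)‖ =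
        liminf (fun R : ℕ => ENNReal.ofReal |trunc R (g z : ℝ)|) atTop := by
      intro g
      have h6 : Tendsto (fun R : ℕ => ENNReal.ofReal |trunc R (g z : ℝ)|) atTop
          (𝓝 (ENNReal.ofReal |(g z : ℝ)|)) :=
        ENNReal.tendsto_ofReal (tendsto_trunc (g z : ℝ)).abs
      rw [h6.liminf_eq, Real.norm_eq_abs]
    simp_rw [h5]
    exact lintegral_liminf_le fun R =>
      (continuous_abs_trunc_height R z).measurable.ennreal_ofReal
  refine h4.trans_lt ?_
  have h7 : liminf (fun R : ℕ => ∫⁻ g, ENNReal.ofReal |trunc R (g z : ℝ)| ∂μ) atTop ≤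
      ENNReal.ofReal C := by
    refine liminf_le_of_frequently_le' (Filter.Frequently.of_forall fun R => ?_)
    rw [← ofReal_integral_eq_lintegral_ofReal (integrable_of_bdd_cont
      (continuous_abs_trunc_height R z) (C := R) (fun g => by
        rw [abs_abs]; exact trunc_abs_le R _))
      (Filter.Eventually.of_forall fun g => abs_nonneg _)]
    exact ENNReal.ofReal_le_ofReal (h1 R)
  exact h7.trans_lt ENNReal.ofReal_lt_top

/-- The flat limit has mean zero. -/
theorem integral_height_flat {q : ℕ} (hq : 0 < q) {V : ℝ}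
    (hV0 : 0 ≤ V) (hV : ∀ n i, mh q n (fun _ : Site d => 0) i 0 ≤ V * (i * (dl q n : ℝ)))
    {μ : Measure (Height d)} [IsProbabilityMeasure μ]
    (hlim : ∀ Φ : Height d → ℝ, Continuous Φ → ∀ C : ℝ, (∀ g, |Φ g| ≤ C) →
        Tendsto (fun n => ∫ g, Φ g ∂(avg d q n (fun _ => 0))) (hyperfilter ℕ)
          (𝓝 (∫ g, Φ g ∂μ)))
    (z : Site d) : ∫ g, (g z : ℝ) ∂μ = 0 := by
  have hint := integrable_height_limit isAdd_flat hq hV0 hV hlim z
  have h1 : ∀ R : ℕ, ∫ g, trunc R (g z : ℝ) ∂μ = 0 := by
    intro R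
    have h2 := hlim (fun g => trunc R (g z : ℝ)) (continuous_trunc_height R z) R
      (fun g => trunc_abs_le R _)
    refine tendsto_nhds_unique h2 ?_
    refine tendsto_const_nhds.congr fun n => ?_
    rw [integral_avg (continuous_trunc_height R z).measurable (fun i =>
      integrable_of_bdd_cont ((continuous_trunc_height R z).comp continuous_seen) (C := R)
      (fun h => trunc_abs_le R _))]
    rw [Finset.sum_eq_zero, mul_zero]
    intro i _
    have h3 : ∀ h : Height d, ((seen h z : ℤ) : ℝ) = (h z : ℝ) - h 0 := by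
      intro h
      simp [seen]
    simp_rw [h3]
    have hmt : Measurable (fun h : Height d => trunc R ((h z : ℝ) - h 0)) := by
      have := ((continuous_trunc_height R z).comp continuous_seen).measurable
      convert this using 2 with h
      exact (h3 h).symm ▸ rfl
    have hsym := lawK_map_sym (isSym_reflect z) (List.replicate i (dl q n)) (fun _ => 0)
    have hmr : Measurable (fun (h : Height d) (y : Site d) => h (Equiv.subLeft z y)) := by
      fun_prop
    have h4 : ∫ h, trunc R ((h z : ℝ) - h 0) ∂(LL d q n i (fun _ => 0)) =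
        ∫ h, trunc R ((h z : ℝ) - h 0)
          ∂((LL d q n i (fun _ => 0)).map (fun h y => h (Equiv.subLeft z y))) := by
      unfold LL
      rw [hsym]
    rw [integral_map hmr.aemeasurable hmt.aestronglyMeasurable] at h4
    have h5 : ∀ h : Height d, trunc R ((h (Equiv.subLeft z z) : ℝ) - h (Equiv.subLeft z 0)) =
        -trunc R ((h z : ℝ) - h 0) := by
      intro h
      rw [← trunc_neg]
      simp
    simp_rw [h5] at h4
    rw [integral_neg] at h4
    linarith
  have h6 : Tendsto (fun R : ℕ => ∫ g, trunc R (g z : ℝ) ∂μ) atTop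
      (𝓝 (∫ g, (g z : ℝ) ∂μ)) := by
    refine tendsto_integral_of_dominated_convergence (fun g => |(g z : ℝ)|)
      (fun R => (continuous_trunc_height R z).measurable.aestronglyMeasurable) hint.abs
      (fun R => Filter.Eventually.of_forall fun g => by
        rw [Real.norm_eq_abs]
        exact trunc_abs_le_abs R _)
      (Filter.Eventually.of_forall fun g => tendsto_trunc _)
  simp_rw [h1] at h6
  exact tendsto_nhds_unique h6 tendsto_const_nhds

/-! ### The comparison functional -/

/-- The linear functional `w`. -/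
noncomputable def lin (w : Site d →₀ ℝ) (g : Height d) : ℝ := w.sum fun z a => a * (g z : ℝ)

theorem lin_seen {w : Site d →₀ ℝ} (hw1 : (w.sum fun _ a => a) = 1) (g : Height d) :
    lin w (seen g) = lin w g - g 0 := by
  unfold lin seen
  have h1 : ∀ z a, a * (((g z - g 0 : ℤ)) : ℝ) = a * (g z : ℝ) - a * (g 0 : ℝ) := by
    intro z a
    push_cast
    ring
  simp_rw [h1]
  rw [Finsupp.sum_sub, Finsupp.sum, Finsupp.sum, ← Finset.sum_mul]
  unfold Finsupp.sum at hw1
  rw [hw1, one_mul]

theorem measurable_lin (w : Site d →₀ ℝ) : Measurable (lin w : Height d → ℝ) := by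
  unfold lin Finsupp.sum
  exact Finset.measurable_sum _ fun z _ => (measurable_height_real z).const_mul _

theorem integrable_lin {μ : Measure (Height d)}
    (h : ∀ z : Site d, Integrable (fun g : Height d => (g z : ℝ)) μ) (w : Site d →₀ ℝ) :
    Integrable (lin w) μ := by
  unfold lin Finsupp.sum
  exact integrable_finsetSum _ fun z _ => (h z).const_mul _

theorem integral_lin {μ : Measure (Height d)}
    (h : ∀ z : Site d, Integrable (fun g : Height d => (g z : ℝ)) μ) (w : Site d →₀ ℝ) :
    ∫ g, lin w g ∂μ = w.sum fun z a => a * ∫ g, (g z : ℝ) ∂μ := by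
  unfold lin Finsupp.sum
  rw [integral_finsetSum _ fun z _ => (h z).const_mul _]
  exact Finset.sum_congr rfl fun z _ => integral_const_mul _ _

open Classical in
/-- The truncated comparison functional. -/
noncomputable def psi (A : ℝ) (w w' : Site d →₀ ℝ) (R : ℕ) (g : Height d) : ℝ :=
  if ∀ z ∈ w.support ∪ w'.support, |(g z : ℝ)| ≤ R then A + lin w g - lin w' g else 0

theorem continuous_psi (A : ℝ) (w w' : Site d →₀ ℝ) (R : ℕ) :
    Continuous (psi A w w' R : Height d → ℝ) := by
  classical
  refine continuous_of_local (w.support ∪ w'.support) ?_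
  intro g g' h
  have h1 : lin w g = lin w g' := by
    unfold lin Finsupp.sum
    exact Finset.sum_congr rfl fun z hz => by simp only [h z (Finset.mem_union_left _ hz)]
  have h2 : lin w' g = lin w' g' := by
    unfold lin Finsupp.sum
    exact Finset.sum_congr rfl fun z hz => by simp only [h z (Finset.mem_union_right _ hz)]
  have h3 : (∀ z ∈ w.support ∪ w'.support, |(g z : ℝ)| ≤ R) ↔
      ∀ z ∈ w.support ∪ w'.support, |(g' z : ℝ)| ≤ R := by
    constructor
    · intro h4 z hz
      rw [← h z hz]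
      exact h4 z hz
    · intro h4 z hz
      rw [h z hz]
      exact h4 z hz
  unfold psi
  by_cases h4 : ∀ z ∈ w.support ∪ w'.support, |(g z : ℝ)| ≤ R
  · rw [if_pos h4, if_pos (h3.1 h4), h1, h2]
  · rw [if_neg h4, if_neg (fun h5 => h4 (h3.2 h5))]

theorem abs_lin_le {w : Site d →₀ ℝ} (hw : ∀ z, 0 ≤ w z) (hw1 : (w.sum fun _ a => a) = 1)
    {g : Height d} {C : ℝ} (h : ∀ z ∈ w.support, |(g z : ℝ)| ≤ C) : |lin w g| ≤ C := by
  unfold lin Finsupp.sum
  unfold Finsupp.sum at hw1
  refine (Finset.abs_sum_le_sum_abs _ _).trans ?_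
  calc ∑ z ∈ w.support, |w z * (g z : ℝ)| ≤ ∑ z ∈ w.support, w z * C := by
        refine Finset.sum_le_sum fun z hz => ?_
        rw [abs_mul, abs_of_nonneg (hw z)]
        exact mul_le_mul_of_nonneg_left (h z hz) (hw z)
    _ = C := by rw [← Finset.sum_mul, hw1, one_mul]

theorem psi_abs_le {A : ℝ} {w w' : Site d →₀ ℝ} (hw : ∀ z, 0 ≤ w z) (hw' : ∀ z, 0 ≤ w' z)
    (hw1 : (w.sum fun _ a => a) = 1) (hw1' : (w'.sum fun _ a => a) = 1) (R : ℕ)
    (g : Height d) : |psi A w w' R g| ≤ |A| + R + R := by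
  have hR : (0 : ℝ) ≤ R := Nat.cast_nonneg R
  unfold psi
  split_ifs with h
  · have h1 := abs_lin_le hw hw1 (g := g) (C := R)
      (fun z hz => h z (Finset.mem_union_left _ hz))
    have h2 := abs_lin_le hw' hw1' (g := g) (C := R)
      (fun z hz => h z (Finset.mem_union_right _ hz))
    have h3 := abs_sub (A + lin w g) (lin w' g)
    have h4 := abs_add_le A (lin w g)
    linarith
  · rw [abs_zero]
    positivity

theorem psi_abs_le' (A : ℝ) (w w' : Site d →₀ ℝ) (R : ℕ) (g : Height d) :
    |psi A w w' R g| ≤ |A| + |lin w g| + |lin w' g| := by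
  unfold psi
  split_ifs with h
  · have h3 := abs_sub (A + lin w g) (lin w' g)
    have h4 := abs_add_le A (lin w g)
    linarith
  · rw [abs_zero]
    positivity

theorem tendsto_psi (A : ℝ) (w w' : Site d →₀ ℝ) (g : Height d) :
    Tendsto (fun R : ℕ => psi A w w' R g) atTop (𝓝 (A + lin w g - lin w' g)) := by
  refine tendsto_const_nhds.congr' ?_
  obtain ⟨R₀, hR₀⟩ := exists_nat_ge (∑ z ∈ w.support ∪ w'.support, |(g z : ℝ)|)
  filter_upwards [eventually_ge_atTop R₀] with R hR
  unfold psi
  rw [if_pos]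
  intro z hz
  have h1 : |(g z : ℝ)| ≤ ∑ z ∈ w.support ∪ w'.support, |(g z : ℝ)| :=
    Finset.single_le_sum (f := fun z => |(g z : ℝ)|) (fun z _ => abs_nonneg _) hz
  exact h1.trans (hR₀.trans (by exact_mod_cast hR))

end Pool.MP4bb68c
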