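import Mathlib
import Pool.Agent.Work.MP_4bb68c_pr.Defs
import Pool.Agent.Work.MP_4bb68c_pr.Run
import Pool.Agent.Work.MP_4bb68c_pr.Chain
import Pool.Agent.Work.MP_4bb68c_pr.Avg
import Pool.Agent.Work.MP_4bb68c_pr.Tight
import Pool.Agent.Work.MP_4bb68c_pr.Stat
import Pool.Agent.Work.MP_4bb68c_pr.Limit

/-!
# The mean slope of the limits
-/

open MeasureTheory ProbabilityTheory Filter Topology
open scoped NNReal ENNReal

namespace Pool.MP4bb68c

variable {d : ℕ}

/-- `μ` is a limit of the time averages of the chain started from `f`. -/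
def IsLim (q : ℕ) (f : Height d) (μ : Measure (Height d)) : Prop :=
  ∀ Φ : Height d → ℝ, Continuous Φ → ∀ C : ℝ, (∀ g, |Φ g| ≤ C) →
    Tendsto (fun n => ∫ g, Φ g ∂(avg d q n f)) (hyperfilter ℕ) (𝓝 (∫ g, Φ g ∂μ))

/-- Two probability measures with the same integrals of indicators of cylinders agree. -/
theorem ext_of_ind {μ ν : Measure (Height d)} [IsProbabilityMeasure μ] [IsProbabilityMeasure ν]
    (h : ∀ B c, ∫ g, ind B c g ∂μ = ∫ g, ind B c g ∂ν) : μ = ν := by
  refine ext_of_generate_finite (cyls d) generateFrom_cyls isPiSystem_cyls ?_ (by simp)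
  rintro _ ⟨B, c, rfl⟩
  have h1 := h B c
  rw [integral_ind, integral_ind] at h1
  rwa [measureReal_def, measureReal_def,
    ENNReal.toReal_eq_toReal_iff' (measure_ne_top _ _) (measure_ne_top _ _)] at h1

/-- Invariance passes to the limit. -/
theorem IsLim.map_eq {q : ℕ} {f : Height d} {μ : Measure (Height d)} [IsProbabilityMeasure μ]
    (hμ : IsLim q f μ) {T : Height d → Height d} (hT : Continuous T)
    (hinv : ∀ n, (avg d q n f).map T = avg d q n f) : μ.map T = μ := by
  have : IsProbabilityMeasure (μ.map T) := Measure.isProbabilityMeasure_map hT.aemeasurable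
  refine ext_of_ind fun B c => ?_
  have hm : Measurable (ind B c) := (continuous_ind B c).measurable
  rw [integral_map hT.aemeasurable hm.aestronglyMeasurable]
  have h1 := hμ (fun g => ind B c (T g)) ((continuous_ind B c).comp hT) 1
    (fun g => ind_abs_le B c _)
  have h2 := hμ (ind B c) (continuous_ind B c) 1 (ind_abs_le B c)
  refine tendsto_nhds_unique h1 (h2.congr fun n => ?_)
  conv_lhs => rw [← hinv n]
  rw [integral_map hT.aemeasurable hm.aestronglyMeasurable]

theorem avg_map_of_map {q n : ℕ} {f : Height d} {T : Height d → Height d} (hT : Continuous T)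
    (h : ∀ i, ((LL d q n i f).map seen).map T = (LL d q n i f).map seen) :
    (avg d q n f).map T = avg d q n f := by
  unfold avg
  rw [Measure.map_smul]
  congr 1
  rw [Measure.map_finset_sum (hf := hT.aemeasurable)]
  exact Finset.sum_congr rfl fun i _ => h i

/-- The heights seen from `y`. -/
def recenter (y : Site d) (g : Height d) : Height d := fun x => g (x + y) - g y

theorem continuous_recenter (y : Site d) : Continuous (recenter y : Height d → Height d) := by
  unfold recenter
  fun_prop

theorem avg_map_recenter {f : Height d} (hf : IsAdd f) (q n : ℕ) (y : Site d) :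
    (avg d q n f).map (recenter y) = avg d q n f := by
  refine avg_map_of_map (continuous_recenter y) fun i => ?_
  have hm1 : Measurable (fun (h : Height d) (x : Site d) => h (Equiv.addRight y x)) := by
    fun_prop
  have hm2 : Measurable (fun (h : Height d) (x : Site d) => h x + f y) := by
    rw [measurable_pi_iff]
    intro x
    exact (Measurable.of_discrete (f := fun n : ℤ => n + f y)).comp
      (measurable_pi_apply (X := fun _ : Site d => ℤ) x)
  have h1 := lawK_map_sym (isSym_translate y) (List.replicate i (dl q n)) f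
  have h2 : (fun x => f (Equiv.addRight y x)) = fun x => f x + f y := by
    ext x
    exact hf x y
  rw [h2, ← lawK_map_add_const] at h1
  unfold LL
  rw [Measure.map_map (continuous_recenter y).measurable measurable_seen]
  have e1 : recenter y ∘ seen = seen ∘ (fun (h : Height d) (x : Site d) =>
      h (Equiv.addRight y x)) := by
    ext h x
    simp [recenter, seen]
  have e2 : (seen : Height d → Height d) = seen ∘ (fun (h : Height d) (x : Site d) =>
      h x + f y) := by
    ext h x
    simp [seen]
  rw [e1, ← Measure.map_map measurable_seen hm1, h1, Measure.map_map measurable_seen hm2, ← e2]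

/-- The reflection of the coordinate `i`. -/
def flip (i : Fin d) : Site d ≃ Site d where
  toFun x := Function.update x i (-x i)
  invFun x := Function.update x i (-x i)
  left_inv x := by simp
  right_inv x := by simp

theorem isSym_of_nb {τ : Site d ≃ Site d} {σ : Fin d × Bool → Fin d × Bool}
    (hσ : Function.Surjective σ) (h : ∀ x a, τ (nb x a) = nb (τ x) (σ a)) : IsSym τ := by
  intro g x
  apply le_antisymm
  · rw [newHeight_le_iff]
    refine ⟨succ_le_newHeight g _, fun a => ?_⟩
    rw [h]
    exact nb_le_newHeight g _ _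
  · rw [newHeight_le_iff]
    refine ⟨succ_le_newHeight (fun y => g (τ y)) x, fun a => ?_⟩
    obtain ⟨b, rfl⟩ := hσ a
    have := nb_le_newHeight (fun y => g (τ y)) x b
    simp only [h] at this
    exact this

theorem flip_nb (i : Fin d) (x : Site d) (a : Fin d × Bool) :
    flip i (nb x a) = nb (flip i x) (if a.1 = i then (a.1, !a.2) else a) := by
  obtain ⟨j, b⟩ := a
  ext k
  change Function.update (nb x (j, b)) i (-(nb x (j, b)) i) k =
    nb (Function.update x i (-x i)) (if j = i then (j, !b) else (j, b)) k
  by_cases hji : j = i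
  · subst hji
    rw [if_pos rfl]
    by_cases hk : k = j
    · subst hk
      simp only [Function.update_self, nb, Pi.add_apply, Pi.single_eq_same]
      cases b <;> simp [add_comm]
    · rw [Function.update_of_ne hk]
      simp only [nb, Pi.add_apply, Pi.single_eq_of_ne hk, Function.update_of_ne hk]
  · rw [if_neg hji]
    by_cases hk : k = i
    · subst hk
      simp only [Function.update_self, nb, Pi.add_apply, Pi.single_eq_of_ne (Ne.symm hji),
        add_zero]
    · rw [Function.update_of_ne hk]
      simp only [nb, Pi.add_apply, Function.update_of_ne hk]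

theorem isSym_flip (i : Fin d) : IsSym (flip i) := by
  refine isSym_of_nb (σ := fun a => if a.1 = i then (a.1, !a.2) else a) ?_ (flip_nb i)
  rintro ⟨j, b⟩
  by_cases hji : j = i
  · exact ⟨(j, !b), by simp [hji]⟩
  · exact ⟨(j, b), by simp [hji]⟩

theorem avg_map_flip {f : Height d} {i : Fin d} (hf : ∀ x, f (flip i x) = f x) (q n : ℕ) :
    (avg d q n f).map (fun g x => g (flip i x)) = avg d q n f := by
  have hc : Continuous (fun (g : Height d) (x : Site d) => g (flip i x)) := by fun_prop
  refine avg_map_of_map hc fun j => ?_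
  have h1 := lawK_map_sym (isSym_flip i) (List.replicate j (dl q n)) f
  have h2 : (fun x => f (flip i x)) = f := by
    ext x
    exact hf x
  rw [h2] at h1
  unfold LL
  rw [Measure.map_map hc.measurable measurable_seen]
  have e1 : (fun (g : Height d) (x : Site d) => g (flip i x)) ∘ seen =
      seen ∘ (fun (g : Height d) (x : Site d) => g (flip i x)) := by
    ext h x
    have h0 : flip i (0 : Site d) = 0 := by
      ext k
      change Function.update (0 : Site d) i (-(0 : Site d) i) k = 0
      by_cases hk : k = i
      · subst hk; simp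
      · rw [Function.update_of_ne hk]; rfl
    simp [seen, h0]
  rw [e1, ← Measure.map_map measurable_seen hc.measurable, h1]

/-! ### The mean slope -/

/-- The mean height. -/
noncomputable def mean (μ : Measure (Height d)) (x : Site d) : ℝ := ∫ g, (g x : ℝ) ∂μ

/-- A measure with recentering invariance and integrable heights has linear mean. -/
theorem mean_add {μ : Measure (Height d)} (hinv : ∀ y, μ.map (recenter y) = μ)
    (hint : ∀ z : Site d, Integrable (fun g : Height d => (g z : ℝ)) μ) (x y : Site d) :
    mean μ (x + y) = mean μ x + mean μ y := by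
  have h1 : mean μ x = ∫ g, (((g (x + y) - g y : ℤ)) : ℝ) ∂μ := by
    unfold mean
    conv_lhs => rw [← hinv y]
    rw [integral_map (continuous_recenter y).aemeasurable
      (measurable_height_real x).aestronglyMeasurable]
    rfl
  rw [h1]
  push_cast
  rw [integral_sub (hint _) (hint _)]
  unfold mean
  ring

theorem mean_eq_sum {μ : Measure (Height d)} (hinv : ∀ y, μ.map (recenter y) = μ)
    (hint : ∀ z : Site d, Integrable (fun g : Height d => (g z : ℝ)) μ) (x : Site d) :
    mean μ x = ∑ i, mean μ (Pi.single i 1) * x i := by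
  let m : Site d →+ ℝ := AddMonoidHom.mk' (mean μ) (mean_add hinv hint)
  have h1 : mean μ x = m x := rfl
  have h2 : x = ∑ i, x i • (Pi.single i (1 : ℤ) : Site d) := by
    ext k
    simp [Finset.sum_apply, Pi.single_apply]
  rw [h1]
  conv_lhs => rw [h2]
  rw [map_sum]
  refine Finset.sum_congr rfl fun i _ => ?_
  rw [map_zsmul, zsmul_eq_mul, mul_comm]
  rfl

/-- The growth inequality for a limit started from an additive function. -/
theorem growth_ineq {f : Height d} (hfa : IsAdd f) {q : ℕ} (hq : 0 < q) {V : ℝ} (hV0 : 0 ≤ V)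
    (hV : ∀ n i, mh q n f i 0 ≤ V * (i * (dl q n : ℝ)))
    (c₀ : ℕ) (A : ℝ) (w w' : Site d →₀ ℝ) (hw : ∀ z, 0 ≤ w z) (hw' : ∀ z, 0 ≤ w' z)
    (hw1 : (w.sum fun _ a => a) = 1) (hw1' : (w'.sum fun _ a => a) = 1)
    (hA : ∀ (n : ℕ) (f : Height d), A + (w.sum fun z a => a * (f z : ℝ)) ≤
      ∫ h, (h 0 : ℝ) ∂(lawK d (List.replicate (c₀ * 2 ^ n) (dl q n)) f))
    (hA' : ∀ (n : ℕ) (f : Height d), (w'.sum fun z a => a * (f z : ℝ)) ≤
      ∫ h, (h 0 : ℝ) ∂(lawK d (List.replicate (c₀ * 2 ^ n) (dl q n)) f))
    {μ : Measure (Height d)} [IsProbabilityMeasure μ] (hlim' : IsLim q f μ) :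
    A + (w.sum fun z a => a * mean μ z) - (w'.sum fun z a => a * mean μ z) ≤
      V * (c₀ / q) - w'.sum fun z a => a * (f z : ℝ) := by
  classical
  have hint := integrable_height_limit hfa hq hV0 hV hlim'
  set B : ℝ := w'.sum fun z a => a * (f z : ℝ) with hB
  -- limit of the truncated functionals
  have h1 : Tendsto (fun R : ℕ => ∫ g, psi A w w' R g ∂μ) atTop
      (𝓝 (A + (w.sum fun z a => a * mean μ z) - (w'.sum fun z a => a * mean μ z))) := by
    have h2 : Tendsto (fun R : ℕ => ∫ g, psi A w w' R g ∂μ) atTop
        (𝓝 (∫ g, (A + lin w g - lin w' g) ∂μ)) := by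
      refine tendsto_integral_of_dominated_convergence (fun g => |A| + |lin w g| + |lin w' g|)
        (fun R => (continuous_psi A w w' R).measurable.aestronglyMeasurable)
        (((integrable_const _).add (integrable_lin hint w).abs).add (integrable_lin hint w').abs)
        (fun R => Filter.Eventually.of_forall fun g => by
          rw [Real.norm_eq_abs]
          exact psi_abs_le' A w w' R g)
        (Filter.Eventually.of_forall fun g => tendsto_psi A w w' g)
    have h3 : ∫ g, (A + lin w g - lin w' g) ∂μ =
        A + (w.sum fun z a => a * mean μ z) - (w'.sum fun z a => a * mean μ z) := by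
      have ia : Integrable (fun g : Height d => A + lin w g) μ :=
        (integrable_const _).add (integrable_lin hint w)
      rw [integral_sub ia (integrable_lin hint w'),
        integral_add (integrable_const _) (integrable_lin hint w),
        integral_lin hint, integral_lin hint, integral_const, probReal_univ, one_smul]
      rfl
    rwa [h3] at h2
  -- the upper bound for the truncated functionals
  have h4 : ∀ R : ℕ, ∫ g, psi A w w' R g ∂μ ≤ V * (c₀ / q) - B := by
    intro R
    have l1 := hlim' (psi A w w' R) (continuous_psi A w w' R) _ (psi_abs_le hw hw' hw1 hw1' R)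
    have l2 : Tendsto (fun n : ℕ => V * (c₀ / q) * (1 + c₀ * (1 / 2) ^ n) - B) atTop
        (𝓝 (V * (c₀ / q) * (1 + c₀ * 0) - B)) := by
      have := tendsto_pow_atTop_nhds_zero_of_lt_one (r := (1 / 2 : ℝ)) (by norm_num)
        (by norm_num)
      exact (((this.const_mul (c₀ : ℝ)).const_add 1).const_mul _).sub_const B
    rw [mul_zero, add_zero, mul_one] at l2
    refine le_of_tendsto_of_tendsto l1 (l2.mono_left Nat.hyperfilter_le_atTop)
      (Filter.Eventually.of_forall fun n => ?_)
    have hN : (0 : ℝ) < NN n := by exact_mod_cast NN_pos n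
    have hk : ((c₀ * 2 ^ n : ℕ) : ℝ) * (dl q n : ℝ) = c₀ / q := by
      unfold dl
      have : (q : ℝ) ≠ 0 := by exact_mod_cast hq.ne'
      push_cast
      field_simp
    have hkN : (((c₀ * 2 ^ n : ℕ) : ℝ)) / NN n = c₀ * (1 / 2) ^ n := by
      unfold NN
      push_cast
      have : (4 : ℝ) ^ n = 2 ^ n * 2 ^ n := by
        rw [← mul_pow]
        norm_num
      rw [this, one_div, inv_pow]
      field_simp
    have hpsi_int : ∀ i, Integrable (fun h : Height d => psi A w w' R (seen h))
        (LL d q n i f) := fun i =>
      integrable_of_bdd_cont ((continuous_psi A w w' R).comp continuous_seen)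
        (fun h => psi_abs_le hw hw' hw1 hw1' R _)
    have hlin_int : ∀ i (v : Site d →₀ ℝ), Integrable (lin v : Height d → ℝ)
        (LL d q n i f) := fun i v => integrable_lin (fun z => integrable_height _ _ _) v
    change ∫ g, psi A w w' R g ∂(avg d q n f) ≤ _
    rw [integral_avg (continuous_psi A w w' R).measurable hpsi_int]
    -- pointwise inequality
    have hpt : ∀ g : Height d, psi A w w' R (seen g) + (lin w' g - g 0) ≤
        ∫ h, (h 0 : ℝ) ∂(LL d q n (c₀ * 2 ^ n) g) - g 0 := by
      intro g
      unfold psi
      split_ifs with h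
      · rw [lin_seen hw1, lin_seen hw1']
        have := hA n g
        unfold LL lin
        linarith
      · have := hA' n g
        unfold LL lin
        linarith
    have hstep : ∀ i, ∫ h, psi A w w' R (seen h) ∂(LL d q n i f) ≤
        (mh q n f (i + c₀ * 2 ^ n) 0 - mh q n f i 0) - B := by
      intro i
      have e1 : ∫ g, (psi A w w' R (seen g) + (lin w' g - g 0)) ∂(LL d q n i f) ≤
          mh q n f (i + c₀ * 2 ^ n) 0 - mh q n f i 0 := by
        rw [mh_sub_eq]
        exact integral_mono ((hpsi_int i).add ((hlin_int i w').sub (integrable_height _ _ _)))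
          ((integrable_integral_height _ _ _ _ _ _).sub (integrable_height _ _ _)) hpt
      have e2 : ∫ g, (psi A w w' R (seen g) + (lin w' g - g 0)) ∂(LL d q n i f) =
          ∫ h, psi A w w' R (seen h) ∂(LL d q n i f) +
            (∫ g, lin w' g ∂(LL d q n i f) - ∫ g, (g 0 : ℝ) ∂(LL d q n i f)) := by
        have ib : Integrable (fun g : Height d => lin w' g - (g 0 : ℝ)) (LL d q n i f) :=
          (hlin_int i w').sub (integrable_height _ _ _)
        rw [integral_add (hpsi_int i) ib, integral_sub (hlin_int i w') (integrable_height _ _ _)]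
      have e3 : ∫ g, lin w' g ∂(LL d q n i f) - ∫ g, (g 0 : ℝ) ∂(LL d q n i f) = B := by
        rw [integral_lin (fun z => integrable_height _ _ _)]
        have e4 : ∀ z, ∫ g, (g z : ℝ) ∂(LL d q n i f) =
            (f z : ℝ) + ∫ g, (g 0 : ℝ) ∂(LL d q n i f) := fun z =>
          mh_translate hfa q n i z
        have e5 : (w'.sum fun z a => a * ∫ g, (g z : ℝ) ∂(LL d q n i f)) =
            B + ∫ g, (g 0 : ℝ) ∂(LL d q n i f) := by
          have e6 : ∀ z a, a * ∫ g, (g z : ℝ) ∂(LL d q n i f) =
              a * (f z : ℝ) + a * ∫ g, (g 0 : ℝ) ∂(LL d q n i f) := by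
            intro z a
            rw [e4 z]
            ring
          have e7 : (w'.sum fun z a => a * ∫ g, (g z : ℝ) ∂(LL d q n i f)) =
              w'.sum fun z a => a * (f z : ℝ) + a * ∫ g, (g 0 : ℝ) ∂(LL d q n i f) :=
            Finsupp.sum_congr (fun z _ => e6 z (w' z))
          rw [e7, Finsupp.sum_add]
          congr 1
          unfold Finsupp.sum at hw1' ⊢
          rw [← Finset.sum_mul, hw1', one_mul]
        rw [e5]
        ring
      linarith
    have hinc := avg_increment_le (a := fun i => mh q n f i 0) hV0
      (NNReal.coe_nonneg (dl q n))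
      (fun i => by
        have := le_mh q n f i 0
        rwa [hfa.zero, Int.cast_zero] at this) (hV n) (NN_pos n) (c₀ * 2 ^ n)
    rw [hk, hkN] at hinc
    calc (NN n : ℝ)⁻¹ * ∑ i ∈ Finset.range (NN n), ∫ h, psi A w w' R (seen h) ∂(LL d q n i f)
        ≤ (NN n : ℝ)⁻¹ * ∑ i ∈ Finset.range (NN n),
          ((mh q n f (i + c₀ * 2 ^ n) 0 - mh q n f i 0) - B) :=
          mul_le_mul_of_nonneg_left (Finset.sum_le_sum fun i _ => hstep i) (by positivity)
      _ = (NN n : ℝ)⁻¹ * ∑ i ∈ Finset.range (NN n),
          (mh q n f (i + c₀ * 2 ^ n) 0 - mh q n f i 0) - B := by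
          rw [Finset.sum_sub_distrib, Finset.sum_const, Finset.card_range, nsmul_eq_mul, mul_sub]
          congr 1
          field_simp
      _ ≤ c₀ / q * V * (1 + c₀ * (1 / 2) ^ n) - B := by linarith
      _ = V * (c₀ / q) * (1 + c₀ * (1 / 2) ^ n) - B := by ring
  exact le_of_tendsto h1 (Filter.Eventually.of_forall h4)

end Pool.MP4bb68c
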