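import Mathlib
import Pool.Agent.Work.MP_4bb68c_pr.Defs
import Pool.Agent.Work.MP_4bb68c_pr.Run
import Pool.Agent.Work.MP_4bb68c_pr.Chain
import Pool.Agent.Work.MP_4bb68c_pr.Avg
import Pool.Agent.Work.MP_4bb68c_pr.Tight
import Pool.Agent.Work.MP_4bb68c_pr.Stat
import Pool.Agent.Work.MP_4bb68c_pr.Limit
import Pool.Agent.Work.MP_4bb68c_pr.Slope

/-!
# Stationary laws with prescribed mean slope
-/

open MeasureTheory ProbabilityTheory Filter Topology
open scoped NNReal ENNReal

namespace Pool.MP4bb68c

variable {d : ℕ}

/-- `μ` is a stationary probability measure whose increments are translation invariant, whose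
heights are integrable and whose mean slope is `v`. -/
structure HasSlope (μ : Measure (Height d)) (v : Fin d → ℝ) : Prop where
  prob : IsProbabilityMeasure μ
  stat : IsStationary μ
  inv : ∀ y, μ.map (recenter y) = μ
  int : ∀ x : Site d, Integrable (fun g : Height d => (g x : ℝ)) μ
  mean : ∀ x : Site d, ∫ g, (g x : ℝ) ∂μ = ∑ i, v i * x i

theorem measurable_recenter (y : Site d) : Measurable (recenter y : Height d → Height d) :=
  (continuous_recenter y).measurable

/-! ### Convexity -/

theorem HasSlope.convex {μ μ' : Measure (Height d)} {v v' : Fin d → ℝ} (h : HasSlope μ v)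
    (h' : HasSlope μ' v') {a b : ℝ} (ha : 0 ≤ a) (hb : 0 ≤ b) (hab : a + b = 1) :
    HasSlope (ENNReal.ofReal a • μ + ENNReal.ofReal b • μ') (a • v + b • v') := by
  have := h.prob
  have := h'.prob
  have hsum : ENNReal.ofReal a + ENNReal.ofReal b = 1 := by
    rw [← ENNReal.ofReal_add ha hb, hab, ENNReal.ofReal_one]
  have i1 : ∀ x : Site d, Integrable (fun g : Height d => (g x : ℝ)) (ENNReal.ofReal a • μ) :=
    fun x => (h.int x).smul_measure ENNReal.ofReal_ne_top
  have i2 : ∀ x : Site d, Integrable (fun g : Height d => (g x : ℝ)) (ENNReal.ofReal b • μ') :=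
    fun x => (h'.int x).smul_measure ENNReal.ofReal_ne_top
  refine ⟨⟨?_⟩, ?_, ?_, fun x => (i1 x).add_measure (i2 x), ?_⟩
  · simp [hsum]
  · intro Ω _ P _ upd hclk H hH t ht A hA
    rw [lintegral_add_measure, lintegral_smul_measure, lintegral_smul_measure,
      h.stat Ω P upd hclk H hH t ht A hA, h'.stat Ω P upd hclk H hH t ht A hA]
    rfl
  · intro y
    rw [Measure.map_add _ _ (measurable_recenter y), Measure.map_smul, Measure.map_smul, h.inv,
      h'.inv]
  · intro x
    rw [integral_add_measure (i1 x) (i2 x), integral_smul_measure, integral_smul_measure,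
      h.mean, h'.mean, ENNReal.toReal_ofReal ha, ENNReal.toReal_ofReal hb, smul_eq_mul,
      smul_eq_mul, Finset.mul_sum, Finset.mul_sum, ← Finset.sum_add_distrib]
    refine Finset.sum_congr rfl fun i _ => ?_
    simp only [Pi.add_apply, Pi.smul_apply, smul_eq_mul]
    ring

theorem convex_slopes : Convex ℝ {v : Fin d → ℝ | ∃ μ : Measure (Height d), HasSlope μ v} := by
  rintro v ⟨μ, h⟩ v' ⟨μ', h'⟩ a b ha hb hab
  exact ⟨_, h.convex h' ha hb hab⟩

/-! ### From limits to slopes -/

theorem hasSlope_of_isLim {f : Height d} (hf : IsAdd f) {q : ℕ} (hq : 0 < q) {V : ℝ}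
    (hV0 : 0 ≤ V) (hV : ∀ n i, mh q n f i 0 ≤ V * (i * (dl q n : ℝ))) {μ : Measure (Height d)}
    [IsProbabilityMeasure μ] (hμ : IsLim q f μ) :
    HasSlope μ (fun i => mean μ (Pi.single i 1)) := by
  have hint := integrable_height_limit hf hq hV0 hV hμ
  have hinv : ∀ y, μ.map (recenter y) = μ := fun y =>
    hμ.map_eq (continuous_recenter y) (fun n => avg_map_recenter hf q n y)
  exact ⟨inferInstance, isStationary_of_tendsto hq hμ, hinv, hint,
    fun x => mean_eq_sum hinv hint x⟩

/-- The reflection of the heights. -/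
def reflectH (g : Height d) : Height d := fun x => g (-x)

theorem continuous_reflectH : Continuous (reflectH : Height d → Height d) := by
  unfold reflectH
  fun_prop

theorem lawK_map_reflectH (l : List ℝ≥0) (f : Height d) :
    (lawK d l f).map reflectH = lawK d l (reflectH f) := by
  have h := lawK_map_sym (isSym_reflect (0 : Site d)) l f
  have e : ∀ g : Height d, (fun y => g (Equiv.subLeft (0 : Site d) y)) = reflectH g := by
    intro g
    ext y
    simp [reflectH]
  have e2 : (fun (h : Height d) (y : Site d) => h (Equiv.subLeft (0 : Site d) y)) = reflectH := by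
    ext g y
    simp [reflectH]
  rw [e f, e2] at h
  exact h

theorem avg_reflectH (q n : ℕ) (f : Height d) :
    avg d q n (reflectH f) = (avg d q n f).map reflectH := by
  unfold avg
  rw [Measure.map_smul]
  congr 1
  rw [Measure.map_finset_sum (hf := continuous_reflectH.aemeasurable)]
  refine Finset.sum_congr rfl fun i _ => ?_
  unfold LL
  rw [← lawK_map_reflectH, Measure.map_map measurable_seen continuous_reflectH.measurable,
    Measure.map_map continuous_reflectH.measurable measurable_seen]
  congr 1

theorem IsLim.reflect {q : ℕ} {f : Height d} {μ : Measure (Height d)} (hμ : IsLim q f μ) :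
    IsLim q (reflectH f) (μ.map reflectH) := by
  intro Φ hΦ C hC
  rw [integral_map continuous_reflectH.aemeasurable hΦ.measurable.aestronglyMeasurable]
  refine (hμ (fun g => Φ (reflectH g)) (hΦ.comp continuous_reflectH) C
    (fun g => hC _)).congr fun n => ?_
  rw [avg_reflectH, integral_map continuous_reflectH.aemeasurable
    hΦ.measurable.aestronglyMeasurable]

theorem mh_reflectH (q n : ℕ) (f : Height d) (i : ℕ) :
    mh q n (reflectH f) i 0 = mh q n f i 0 := by
  unfold mh LL
  rw [← lawK_map_reflectH, integral_map continuous_reflectH.aemeasurable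
    (measurable_height_real 0).aestronglyMeasurable]
  simp [reflectH]

theorem isAdd_reflectH {f : Height d} (hf : IsAdd f) : IsAdd (reflectH f) := by
  intro x y
  simp only [reflectH, neg_add]
  exact hf _ _

theorem mean_neg {μ : Measure (Height d)} {v : Fin d → ℝ} (h : HasSlope μ v) (x : Site d) :
    mean μ (-x) = -mean μ x := by
  unfold mean
  rw [h.mean, h.mean, ← Finset.sum_neg_distrib]
  refine Finset.sum_congr rfl fun i _ => ?_
  rw [Pi.neg_apply]
  push_cast
  ring

/-! ### The slopes -/

/-- The stationary laws with all small slopes. -/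
theorem exists_hasSlope {q : ℕ} (hq : 0 < q) (V s : ℝ) (hs : 0 < s)
    (hV : ∀ (i₀ : Fin d) (f : Height d), (f = (fun _ => 0) ∨ f = fun x => x i₀) →
      ∀ (n k : ℕ) (x : Site d),
      ∫ h, (h x : ℝ) ∂(lawK d (List.replicate k (dl q n)) f) ≤ f x + V * (k * (dl q n : ℝ)))
    (c₀ : ℕ) (hbd : ∀ i₀ : Fin d, ∃ (A B : ℝ) (w w' : Site d →₀ ℝ),
      (∀ z, 0 ≤ w z) ∧ (∀ z, 0 ≤ w' z) ∧ (w.sum fun _ a => a) = 1 ∧ (w'.sum fun _ a => a) = 1 ∧
      (w.sum fun z a => a * (z i₀ : ℝ)) = 0 ∧ (w'.sum fun z a => a * (z i₀ : ℝ)) = B ∧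
      (∀ (n : ℕ) (f : Height d), A + (w.sum fun z a => a * (f z : ℝ)) ≤
        ∫ h, (h 0 : ℝ) ∂(lawK d (List.replicate (c₀ * 2 ^ n) (dl q n)) f)) ∧
      (∀ (n : ℕ) (f : Height d), (w'.sum fun z a => a * (f z : ℝ)) ≤
        ∫ h, (h 0 : ℝ) ∂(lawK d (List.replicate (c₀ * 2 ^ n) (dl q n)) f)) ∧
      0 < B ∧ V * (c₀ / q) + s * B ≤ A + B)
    (hd : 0 < d) (v : Fin d → ℝ) (hv : ∑ i, |v i| ≤ s) :
    ∃ μ : Measure (Height d), HasSlope μ v := by
  classical
  have hVf : ∀ n i, mh q n (fun _ : Site d => 0) i 0 ≤ V * (i * (dl q n : ℝ)) := by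
    intro n i
    have := hV ⟨0, hd⟩ (fun _ => 0) (Or.inl rfl) n i 0
    rwa [Int.cast_zero, zero_add] at this
  have hVt : ∀ i₀ : Fin d, ∀ n i, mh q n (fun x : Site d => x i₀) i 0 ≤
      V * (i * (dl q n : ℝ)) := by
    intro i₀ n i
    have := hV i₀ (fun x => x i₀) (Or.inr rfl) n i 0
    have h0 : ((0 : Site d) i₀ : ℤ) = 0 := rfl
    simp only [h0] at this
    rwa [Int.cast_zero, zero_add] at this
  have hV0 : 0 ≤ V := by
    have h1 := hVf 0 1
    have h2 := le_mh q 0 (fun _ : Site d => 0) 1 0
    rw [Int.cast_zero] at h2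
    have h3 := dl_pos hq 0
    have h4 : 0 ≤ V * (((1 : ℕ) : ℝ) * (dl q 0 : ℝ)) := h2.trans h1
    rw [Nat.cast_one, one_mul] at h4
    exact nonneg_of_mul_nonneg_left h4 h3
  -- the flat one
  have hzero : (0 : Fin d → ℝ) ∈ {v : Fin d → ℝ | ∃ μ : Measure (Height d), HasSlope μ v} := by
    obtain ⟨μ, hμp, hμ⟩ := exists_limit isAdd_flat hq hV0 hVf
    have h1 := hasSlope_of_isLim isAdd_flat hq hV0 hVf hμ
    refine ⟨μ, ?_⟩
    convert h1 using 1
    ext i
    exact (integral_height_flat hq hV0 hVf hμ (Pi.single i 1)).symm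
  -- the tilted ones
  have htilt : ∀ i₀ : Fin d, ∃ r : ℝ, s ≤ r ∧
      (Pi.single i₀ r : Fin d → ℝ) ∈ {v : Fin d → ℝ | ∃ μ : Measure (Height d), HasSlope μ v} ∧
      (Pi.single i₀ (-r) : Fin d → ℝ) ∈
        {v : Fin d → ℝ | ∃ μ : Measure (Height d), HasSlope μ v} := by
    intro i₀
    obtain ⟨A, B, w, w', hw, hw', hw1, hw1', hw0, hwB, hA, hA', hB0, hlt⟩ := hbd i₀
    obtain ⟨μ, hμp, hμ⟩ := exists_limit (isAdd_tilt i₀) hq hV0 (hVt i₀)
    have h1 := hasSlope_of_isLim (isAdd_tilt i₀) hq hV0 (hVt i₀) hμ
    have hne : ∀ i, i ≠ i₀ → mean μ (Pi.single i 1) = 0 := by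
      intro i hi
      have hc : Continuous (fun (g : Height d) (x : Site d) => g (flip i x)) := by fun_prop
      have h2 : μ.map (fun (g : Height d) (x : Site d) => g (flip i x)) = μ := by
        refine IsLim.map_eq hμ hc (fun n => avg_map_flip ?_ q n)
        intro x
        change Function.update x i (-x i) i₀ = x i₀
        rw [Function.update_of_ne (Ne.symm hi)]
      have h3 : mean μ (Pi.single i 1) = mean μ (-Pi.single i 1) := by
        unfold mean
        conv_lhs => rw [← h2]
        rw [integral_map hc.aemeasurable (measurable_height_real _).aestronglyMeasurable]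
        have h4 : flip i (Pi.single i 1 : Site d) = -Pi.single i 1 := by
          ext k
          change Function.update (Pi.single i 1 : Site d) i (-(Pi.single i 1 : Site d) i) k = _
          by_cases hk : k = i
          · subst hk; simp
          · rw [Function.update_of_ne hk]; simp [Pi.single_eq_of_ne hk]
        change ∫ g, (g (flip i (Pi.single i 1 : Site d)) : ℝ) ∂μ = _
        rw [h4]
      rw [mean_neg h1] at h3
      linarith
    set r : ℝ := mean μ (Pi.single i₀ 1) with hr
    have hslope : (fun i => mean μ (Pi.single i 1)) = (Pi.single i₀ r : Fin d → ℝ) := by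
      ext i
      by_cases hi : i = i₀
      · subst hi
        rw [Pi.single_eq_same]
      · rw [Pi.single_eq_of_ne hi, hne i hi]
    have h1' : HasSlope μ (Pi.single i₀ r : Fin d → ℝ) := hslope ▸ h1
    have hmean : ∀ z : Site d, mean μ z = r * z i₀ := by
      intro z
      have h2 := h1'.mean z
      change ∫ g, (g z : ℝ) ∂μ = r * z i₀
      rw [h2, Finset.sum_eq_single i₀]
      · rw [Pi.single_eq_same]
      · intro i _ hi
        rw [Pi.single_eq_of_ne hi, zero_mul]
      · intro h
        exact absurd (Finset.mem_univ _) h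
    have hg := growth_ineq (isAdd_tilt i₀) hq hV0 (hVt i₀) c₀ A w w' hw hw' hw1 hw1' hA hA' hμ
    have e1 : (w.sum fun z a => a * mean μ z) = 0 := by
      have : (w.sum fun z a => a * mean μ z) = r * (w.sum fun z a => a * (z i₀ : ℝ)) := by
        unfold Finsupp.sum
        rw [Finset.mul_sum]
        refine Finset.sum_congr rfl fun z _ => ?_
        simp only [hmean]
        ring
      rw [this, hw0, mul_zero]
    have e2 : (w'.sum fun z a => a * mean μ z) = r * B := by
      rw [← hwB]
      unfold Finsupp.sum
      rw [Finset.mul_sum]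
      refine Finset.sum_congr rfl fun z _ => ?_
      simp only [hmean]
      ring
    rw [e1, e2, hwB] at hg
    have hsr : s ≤ r := by
      have h5 : s * B ≤ r * B := by linarith
      exact le_of_mul_le_mul_right h5 hB0
    refine ⟨r, hsr, ⟨μ, h1'⟩, ?_⟩
    have hμ' : IsProbabilityMeasure (μ.map reflectH) :=
      Measure.isProbabilityMeasure_map continuous_reflectH.aemeasurable
    have h6 := hasSlope_of_isLim (isAdd_reflectH (isAdd_tilt i₀)) hq hV0
      (fun n i => by rw [mh_reflectH]; exact hVt i₀ n i) (IsLim.reflect hμ)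
    refine ⟨μ.map reflectH, ?_⟩
    convert h6 using 1
    ext i
    have h7 : mean (μ.map reflectH) (Pi.single i 1) = mean μ (-Pi.single i 1) := by
      unfold mean
      rw [integral_map continuous_reflectH.aemeasurable
        (measurable_height_real _).aestronglyMeasurable]
      rfl
    rw [h7, mean_neg h1]
    by_cases hi : i = i₀
    · subst hi
      rw [Pi.single_eq_same]
    · rw [Pi.single_eq_of_ne hi, hne i hi, neg_zero]
  -- scaling towards zero
  have hpm : ∀ (i₀ : Fin d) (b : ℝ), |b| ≤ s → (Pi.single i₀ b : Fin d → ℝ) ∈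
      {v : Fin d → ℝ | ∃ μ : Measure (Height d), HasSlope μ v} := by
    intro i₀ b hb
    obtain ⟨r, hr, h1, h2⟩ := htilt i₀
    have hr0 : 0 < r := hs.trans_le hr
    have habs := abs_nonneg b
    have hle : |b| / r ≤ 1 := by
      rw [div_le_one hr0]
      linarith
    rcases le_total 0 b with hb0 | hb0
    · have h3 := convex_slopes h1 hzero (a := |b| / r) (b := 1 - |b| / r)
        (by positivity) (by linarith) (by ring)
      convert h3 using 1
      ext i
      rw [abs_of_nonneg hb0]
      by_cases hi : i = i₀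
      · subst hi
        simp only [Pi.single_eq_same, Pi.add_apply, Pi.smul_apply, smul_eq_mul, Pi.zero_apply]
        field_simp
        ring
      · simp [Pi.single_eq_of_ne hi]
    · have h3 := convex_slopes h2 hzero (a := |b| / r) (b := 1 - |b| / r)
        (by positivity) (by linarith) (by ring)
      convert h3 using 1
      ext i
      rw [abs_of_nonpos hb0]
      by_cases hi : i = i₀
      · subst hi
        simp only [Pi.single_eq_same, Pi.add_apply, Pi.smul_apply, smul_eq_mul, Pi.zero_apply]
        field_simp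
        ring
      · simp [Pi.single_eq_of_ne hi]
  -- the general slope
  have hsum : v = ∑ o : Option (Fin d),
      (match o with
        | none => 1 - (∑ i, |v i|) / s
        | some i => |v i| / s) •
      (match o with
        | none => (0 : Fin d → ℝ)
        | some i => Pi.single i (if 0 ≤ v i then s else -s)) := by
    rw [Fintype.sum_option]
    simp only [smul_zero, zero_add]
    ext k
    rw [Finset.sum_apply, Finset.sum_eq_single k]
    · simp only [Pi.smul_apply, Pi.single_eq_same, smul_eq_mul]
      split_ifs with h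
      · rw [abs_of_nonneg h]
        field_simp
      · rw [abs_of_neg (not_le.1 h)]
        field_simp
    · intro i _ hi
      simp [Pi.single_eq_of_ne (Ne.symm hi)]
    · intro h
      exact absurd (Finset.mem_univ _) h
  have hmem := convex_slopes (d := d) |>.sum_mem (t := (Finset.univ : Finset (Option (Fin d))))
    (w := fun o => match o with
        | none => 1 - (∑ i, |v i|) / s
        | some i => |v i| / s)
    (z := fun o => match o with
        | none => (0 : Fin d → ℝ)
        | some i => Pi.single i (if 0 ≤ v i then s else -s)) ?_ ?_ ?_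
  · rw [← hsum] at hmem
    exact hmem
  · rintro (_ | i) _
    · simp only
      rw [sub_nonneg, div_le_one hs]
      exact hv
    · simp only
      positivity
  · rw [Fintype.sum_option]
    simp only
    rw [← Finset.sum_div]
    ring
  · rintro (_ | i) _
    · exact hzero
    · refine hpm i _ ?_
      split_ifs
      · rw [abs_of_pos hs]
      · rw [abs_neg, abs_of_pos hs]

end Pool.MP4bb68c
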