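import Mathlib
import Pool.Agent.Work.MP_4bb68c_pr.Defs

/-!
# Backward populations: definitions

`ebin p S F` is the expectation of `F A` for the random subset `A` of `S` which contains every
element of `S` independently with probability `p`.

A slot is a pair `(mark, c) : Bool × ℕ`; its length is `c / q`. In a slot every site is updated
with probability `pr q c = 1 - exp (-(c / q))`. If `A` is the set of updated sites of the population
`S`, the next population is `A + v` (mark slot) or `S` together with the neighbours of the points of
`A` in the directions `≠ i₀` (grow slot).

`fail q i₀ v θ l S` is the probability that the population started from `S` has fewer than `θ`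
points after the slots of `l` (the head of `l` is used first).
-/

namespace Pool.MP4bb68c

variable {d : ℕ}

/-- Expectation over the `p`-random subset of `S`. -/
noncomputable def ebin (p : ℝ) (S : Finset (Site d)) (F : Finset (Site d) → ℝ) : ℝ :=
  ∑ A ∈ S.powerset, p ^ A.card * (1 - p) ^ (S \ A).card * F A

/-- The growth directions. -/
def gdirs (i₀ : Fin d) : Finset (Fin d × Bool) := Finset.univ.filter fun a => a.1 ≠ i₀

/-- `S` together with the neighbours of the points of `A` in the growth directions. -/
def grow (i₀ : Fin d) (S A : Finset (Site d)) : Finset (Site d) :=
  S ∪ A.biUnion fun z => (gdirs i₀).image (nb z)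

/-- The next population. -/
def next (i₀ : Fin d) (v : Site d) (mark : Bool) (S A : Finset (Site d)) : Finset (Site d) :=
  if mark then A.image (fun z => z + v) else grow i₀ S A

/-- The probability of an update in a slot of length `c / q`. -/
noncomputable def pr (q c : ℕ) : ℝ := 1 - Real.exp (-((c : ℝ) / q))

open Classical in
/-- The probability that the population has fewer than `θ` points in the end. -/
noncomputable def fail (q : ℕ) (i₀ : Fin d) (v : Site d) (θ : ℝ) :
    List (Bool × ℕ) → Finset (Site d) → ℝ
  | [], S => if (S.card : ℝ) < θ then 1 else 0
  | s :: l, S => ebin (pr q s.2) S (fun A => fail q i₀ v θ l (next i₀ v s.1 S A))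

/-- The number of mark slots. -/
def marks (l : List (Bool × ℕ)) : ℕ := (l.filter fun s => s.1).length

/-- The total number of units. -/
def units (l : List (Bool × ℕ)) : ℕ := (l.map fun s => s.2).sum

/-- One cycle: a mark slot and `K` grow slots of one unit each. -/
def cyc (K : ℕ) : List (Bool × ℕ) := (true, 1) :: List.replicate K (false, 1)

/-- `M` cycles. -/
def cycles (K : ℕ) : ℕ → List (Bool × ℕ)
  | 0 => []
  | M + 1 => cyc K ++ cycles K M

/-- The whole schedule: nine long grow slots of length `m`, and `M` cycles; the unit is
`1 / (4 * m)`. -/
def sched (m K M : ℕ) : List (Bool × ℕ) := List.replicate 9 (false, 4 * m * m) ++ cycles K M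

/-- The number of grow slots in a cycle. -/
noncomputable def Kof (m : ℕ) : ℕ := ⌈Real.log (10 * m) / Real.log (6 / 5)⌉₊

end Pool.MP4bb68c
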