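import Mathlib
import Pool.Agent.Work.MP_4bb68c_pr.Defs
import Pool.Agent.Work.MP_4bb68c_pr.Pop

/-!
# Module G: numerical asymptotics
-/

namespace Pool.MP4bb68c

theorem Kof_le {m : ℕ} (hm : 1 ≤ m) : (Kof m : ℝ) ≤ 6 * (Real.log m + 9) + 1 := by
  have hm' : (1 : ℝ) ≤ m := by exact_mod_cast hm
  have hlog : (1 / 6 : ℝ) ≤ Real.log (6 / 5) := by
    have := Real.one_sub_inv_le_log_of_pos (show (0 : ℝ) < 6 / 5 by norm_num)
    norm_num at this ⊢
    linarith
  have hL : 0 ≤ Real.log m := Real.log_nonneg hm'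
  have h10 : Real.log (10 * m) = Real.log 10 + Real.log m :=
    Real.log_mul (by norm_num) (by positivity)
  have h10' : Real.log 10 ≤ 9 := by
    have := Real.log_le_sub_one_of_pos (show (0 : ℝ) < 10 by norm_num)
    linarith
  have h10'' : 0 ≤ Real.log 10 := Real.log_nonneg (by norm_num)
  unfold Kof
  have h1 : 0 ≤ Real.log (10 * m) / Real.log (6 / 5) := by
    rw [h10]
    positivity
  have h2 := (Nat.ceil_lt_add_one h1).le
  refine h2.trans ?_
  have h3 : Real.log (10 * m) / Real.log (6 / 5) ≤ Real.log (10 * m) / (1 / 6) := by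
    apply div_le_div_of_nonneg_left _ (by norm_num) hlog
    rw [h10]
    positivity
  rw [h10] at h3 ⊢
  linarith

theorem numeric : ∃ m₀ : ℕ, ∀ d m : ℕ, m = 2 * (d - 1) → m₀ ≤ m → ∃ lam : ℝ, 0 < lam ∧
    (2 * Real.exp lam + 2 * d) / lam *
      ((36 * m ^ 2 + m ^ 3 * (Kof m + 1) : ℝ) / (4 * m)) < 175 / 100 * m ^ 3 := by
  refine ⟨⌈Real.exp 1000⌉₊, fun d m hdm hm => ?_⟩
  have hm1 : Real.exp 1000 ≤ m := (Nat.le_ceil _).trans (by exact_mod_cast hm)
  have hm0 : (0 : ℝ) < m := (Real.exp_pos _).trans_le hm1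
  have hL : 1000 ≤ Real.log m := by
    rw [← Real.log_exp 1000]
    exact Real.log_le_log (Real.exp_pos _) hm1
  have hmL : Real.exp (Real.log m) = m := Real.exp_log hm0
  have hmn : 1 ≤ m := by
    rcases Nat.eq_zero_or_pos m with h | h
    · rw [h] at hm0
      simp at hm0
    · exact h
  have hK := Kof_le hmn
  set L := Real.log m with hLdef
  have hm1001 : (1001 : ℝ) ≤ m := by
    have := Real.add_one_le_exp L
    linarith
  have hd : (2 : ℝ) * d = m + 2 := by
    have h1 : 2 * d = m + 2 := by omega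
    exact_mod_cast h1
  have hlam : Real.exp (9 / 10 * L) ≤ m / 101 := by
    rw [le_div_iff₀ (by norm_num)]
    have h1 : (101 : ℝ) ≤ Real.exp (1 / 10 * L) := by
      have := Real.add_one_le_exp (1 / 10 * L)
      linarith
    calc Real.exp (9 / 10 * L) * 101 ≤ Real.exp (9 / 10 * L) * Real.exp (1 / 10 * L) :=
          mul_le_mul_of_nonneg_left h1 (Real.exp_pos _).le
      _ = Real.exp L := by
          rw [← Real.exp_add]
          congr 1
          ring
      _ = m := hmL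
  refine ⟨9 / 10 * L, by linarith, ?_⟩
  have hL0 : 0 < L := by linarith
  have ha : 2 * Real.exp (9 / 10 * L) + 2 * d ≤ 103 / 100 * m := by
    rw [hd]
    linarith
  have hb : (36 * (m : ℝ) ^ 2 + m ^ 3 * (Kof m + 1)) ≤ m ^ 3 * (61 / 10 * L) := by
    have h1 : (36 : ℝ) * m ^ 2 ≤ m ^ 3 := by
      have : (0 : ℝ) ≤ m ^ 2 := by positivity
      nlinarith
    have h2 : (m : ℝ) ^ 3 * (Kof m + 2) ≤ m ^ 3 * (61 / 10 * L) :=
      mul_le_mul_of_nonneg_left (by linarith) (by positivity)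
    linarith
  have hfin : (2 * Real.exp (9 / 10 * L) + 2 * d) / (9 / 10 * L) *
        ((36 * (m : ℝ) ^ 2 + (m : ℝ) ^ 3 * (Kof m + 1)) / (4 * m))
      ≤ (103 / 100 * m) / (9 / 10 * L) * (((m : ℝ) ^ 3 * (61 / 10 * L)) / (4 * m)) := by
    refine mul_le_mul ?_ ?_ (by positivity) (by positivity)
    · exact div_le_div_of_nonneg_right ha (by positivity)
    · exact div_le_div_of_nonneg_right hb (by positivity)
  have heq : (103 / 100 * m) / (9 / 10 * L) * (((m : ℝ) ^ 3 * (61 / 10 * L)) / (4 * m)) =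
      (103 * 61 / 3600) * (m : ℝ) ^ 3 := by
    field_simp
    ring
  have hlt : (103 * 61 / 3600) * (m : ℝ) ^ 3 < 175 / 100 * (m : ℝ) ^ 3 := by
    have : (0 : ℝ) < (m : ℝ) ^ 3 := by positivity
    nlinarith
  rw [heq] at hfin
  exact hfin.trans_lt hlt

end Pool.MP4bb68c
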