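import Mathlib
import Pool.Agent.Work.MP_4bb68c_pr.Defs

namespace Pool.MP4bb68c

variable {d : ℕ}

/-- Entropy inequality. -/
theorem iso_num {a b : ℝ} (ha : 0 < a) (hab : a ≤ b) :
    a * Real.logb 2 a + b * Real.logb 2 b + 2 * a ≤ (a + b) * Real.logb 2 (a + b) := by
  have hb : 0 < b := ha.trans_le hab
  have h1 : a + b = a * (1 + b / a) := by field_simp
  have h2 : a + b = b * (1 + a / b) := by field_simp; ring
  have e1 : Real.logb 2 (a + b) = Real.logb 2 a + Real.logb 2 (1 + b / a) := by
    rw [h1, Real.logb_mul ha.ne' (by positivity)]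
  have e2 : Real.logb 2 (a + b) = Real.logb 2 b + Real.logb 2 (1 + a / b) := by
    rw [h2, Real.logb_mul hb.ne' (by positivity)]
  have h22 : Real.logb 2 2 = 1 := Real.logb_self_eq_one (by norm_num)
  have e3 : 1 ≤ Real.logb 2 (1 + b / a) := by
    rw [← h22]
    apply Real.logb_le_logb_of_le (by norm_num) (by norm_num)
    have : 1 ≤ b / a := (one_le_div ha).2 hab
    linarith
  have e4 : a ≤ b * Real.logb 2 (1 + a / b) := by
    have h3 : (2 : ℝ) ≤ (1 + a / b) ^ (b / a) := by
      have h4 := one_add_mul_self_le_rpow_one_add (s := a / b) (p := b / a)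
        (by have : 0 < a / b := by positivity
            linarith) ((one_le_div ha).2 hab)
      have h5 : b / a * (a / b) = 1 := by field_simp
      rw [h5] at h4
      linarith
    have h6 : 1 ≤ (b / a) * Real.logb 2 (1 + a / b) := by
      rw [← Real.logb_rpow_eq_mul_logb_of_pos (by positivity)]
      have h9 := Real.logb_le_logb_of_le (b := 2) (by norm_num) (by norm_num) h3
      rw [h22] at h9
      exact h9
    have h7 : a * 1 ≤ a * ((b / a) * Real.logb 2 (1 + a / b)) :=
      mul_le_mul_of_nonneg_left h6 ha.le
    have h8 : a * ((b / a) * Real.logb 2 (1 + a / b)) = b * Real.logb 2 (1 + a / b) := by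
      field_simp
    linarith
  have e5 : (a + b) * Real.logb 2 (a + b) =
      a * (Real.logb 2 a + Real.logb 2 (1 + b / a)) +
        b * (Real.logb 2 b + Real.logb 2 (1 + a / b)) := by
    rw [← e1, ← e2]
    ring
  rw [e5]
  nlinarith

/-- Symmetric form of the entropy inequality. -/
theorem iso_num' {a b : ℝ} (ha : 0 < a) (hb : 0 < b) :
    a * Real.logb 2 a + b * Real.logb 2 b + 2 * min a b ≤ (a + b) * Real.logb 2 (a + b) := by
  rcases le_total a b with h | h
  · rw [min_eq_left h]
    exact iso_num ha h
  · rw [min_eq_right h]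
    have := iso_num hb h
    rw [add_comm b a] at this
    linarith

theorem nb_apply_self (z : Site d) (i : Fin d) (s : Bool) :
    nb z (i, s) i = z i + (if s then 1 else -1) := by
  simp [nb]

theorem nb_apply_ne (z : Site d) {i j : Fin d} (h : j ≠ i) (s : Bool) :
    nb z (i, s) j = z j := by
  simp [nb, h]

theorem nb_ne_self (z : Site d) (a : Fin d × Bool) : nb z a ≠ z := by
  obtain ⟨i, s⟩ := a
  intro h
  have := congrFun h i
  rw [nb_apply_self] at this
  cases s <;> simp at this

theorem nb_right_inj (a : Fin d × Bool) {z w : Site d} (h : nb z a = nb w a) : z = w := by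
  unfold nb at h
  exact add_right_cancel h

/-- The ordered pairs (point of `S`, direction) whose neighbour is in `T`. -/
def isoE (S T : Finset (Site d)) : Finset (Site d × (Fin d × Bool)) :=
  (S ×ˢ (Finset.univ : Finset (Fin d × Bool))).filter fun p => nb p.1 p.2 ∈ T

theorem mem_isoE {S T : Finset (Site d)} {p : Site d × (Fin d × Bool)} :
    p ∈ isoE S T ↔ p.1 ∈ S ∧ nb p.1 p.2 ∈ T := by
  simp [isoE]

theorem isoE_card_le_of_dir {S T : Finset (Site d)} (a : Fin d × Bool)
    (h : ∀ p ∈ isoE S T, p.2 = a) : (isoE S T).card ≤ min S.card T.card := by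
  apply le_min
  · apply Finset.card_le_card_of_injOn (fun p => p.1)
    · intro p hp
      exact (mem_isoE.1 hp).1
    · intro p hp q hq hpq
      have h1 := h p hp
      have h2 := h q hq
      exact Prod.ext hpq (h1.trans h2.symm)
  · apply Finset.card_le_card_of_injOn (fun p => nb p.1 p.2)
    · intro p hp
      exact (mem_isoE.1 hp).2
    · intro p hp q hq hpq
      have h1 := h p hp
      have h2 := h q hq
      have h3 : nb p.1 p.2 = nb q.1 q.2 := hpq
      rw [h1, h2] at h3
      exact Prod.ext (nb_right_inj a h3) (h1.trans h2.symm)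

theorem isoE_self_card_le (n : ℕ) : ∀ S : Finset (Site d), S.card = n →
    ((isoE S S).card : ℝ) ≤ S.card * Real.logb 2 S.card := by
  induction n using Nat.strong_induction_on with
  | _ n ih =>
    intro S hS
    rcases Nat.lt_or_ge n 2 with hn | hn
    · have h0 : isoE S S = ∅ := by
        rw [Finset.eq_empty_iff_forall_notMem]
        intro p hp
        rw [mem_isoE] at hp
        have h1 : S.card ≤ 1 := by omega
        rw [Finset.card_le_one] at h1
        exact nb_ne_self _ _ (h1 _ hp.2 _ hp.1)
      rw [h0, Finset.card_empty, Nat.cast_zero]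
      apply mul_nonneg (Nat.cast_nonneg _)
      rcases Nat.eq_zero_or_pos S.card with h1 | h1
      · rw [h1]; simp
      · exact Real.logb_nonneg (by norm_num) (by exact_mod_cast h1)
    · obtain ⟨x, hx, y, hy, hxy⟩ := Finset.one_lt_card.1 (by omega : 1 < S.card)
      have hex : ∃ i, x i ≠ y i := by
        by_contra hcon
        push Not at hcon
        exact hxy (funext hcon)
      obtain ⟨i, hi⟩ := hex
      -- choose the threshold
      have hc : ∃ c : ℤ, (S.filter fun z => z i ≤ c).Nonempty ∧
          (S.filter fun z => ¬ z i ≤ c).Nonempty := by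
        rcases lt_or_gt_of_ne hi with h | h
        · exact ⟨x i, ⟨x, by simp [hx]⟩, ⟨y, by simp [hy, h]⟩⟩
        · exact ⟨y i, ⟨y, by simp [hy]⟩, ⟨x, by simp [hx, h]⟩⟩
      obtain ⟨c, hc1, hc2⟩ := hc
      set S1 := S.filter fun z => z i ≤ c with hS1
      set S2 := S.filter fun z => ¬ z i ≤ c with hS2
      have hcard : S1.card + S2.card = S.card :=
        Finset.card_filter_add_card_filter_not (s := S) (fun z => z i ≤ c)
      have p1 := hc1.card_pos
      have p2 := hc2.card_pos
      have i1 := ih S1.card (by omega) S1 rfl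
      have i2 := ih S2.card (by omega) S2 rfl
      have hsub : isoE S S ⊆ (isoE S1 S1 ∪ isoE S2 S2) ∪ (isoE S1 S2 ∪ isoE S2 S1) := by
        intro p hp
        rw [mem_isoE] at hp
        simp only [Finset.mem_union, mem_isoE, hS1, hS2, Finset.mem_filter]
        tauto
      have c12 : (isoE S1 S2).card ≤ min S1.card S2.card := by
        apply isoE_card_le_of_dir (i, true)
        intro p hp
        rw [mem_isoE] at hp
        simp only [hS1, hS2, Finset.mem_filter, not_le] at hp
        obtain ⟨z, ⟨j, s⟩⟩ := p
        have hp1 := hp.1.2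
        have hp2 := hp.2.2
        simp only at hp1 hp2
        by_cases hj : j = i
        · subst hj
          rw [nb_apply_self] at hp2
          cases s
          · simp at hp2; omega
          · rfl
        · rw [nb_apply_ne z (Ne.symm hj)] at hp2
          omega
      have c21 : (isoE S2 S1).card ≤ min S2.card S1.card := by
        apply isoE_card_le_of_dir (i, false)
        intro p hp
        rw [mem_isoE] at hp
        simp only [hS1, hS2, Finset.mem_filter, not_le] at hp
        obtain ⟨z, ⟨j, s⟩⟩ := p
        have hp1 := hp.1.2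
        have hp2 := hp.2.2
        simp only at hp1 hp2
        by_cases hj : j = i
        · subst hj
          rw [nb_apply_self] at hp2
          cases s
          · rfl
          · simp at hp2; omega
        · rw [nb_apply_ne z (Ne.symm hj)] at hp2
          omega
      have ctot : (isoE S S).card ≤ (isoE S1 S1).card + (isoE S2 S2).card +
          2 * min S1.card S2.card := by
        have h1 := Finset.card_le_card hsub
        have h2 := Finset.card_union_le (isoE S1 S1 ∪ isoE S2 S2) (isoE S1 S2 ∪ isoE S2 S1)
        have h3 := Finset.card_union_le (isoE S1 S1) (isoE S2 S2)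
        have h4 := Finset.card_union_le (isoE S1 S2) (isoE S2 S1)
        rw [min_comm] at c21
        omega
      have ctot' : ((isoE S S).card : ℝ) ≤ (isoE S1 S1).card + (isoE S2 S2).card +
          2 * min (S1.card : ℝ) (S2.card : ℝ) := by
        have : (((isoE S S).card : ℕ) : ℝ) ≤ (((isoE S1 S1).card + (isoE S2 S2).card +
          2 * min S1.card S2.card : ℕ) : ℝ) := by exact_mod_cast ctot
        push_cast at this
        exact this
      have hnum := iso_num' (a := (S1.card : ℝ)) (b := (S2.card : ℝ)) (by exact_mod_cast p1)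
        (by exact_mod_cast p2)
      have hcR : (S.card : ℝ) = S1.card + S2.card := by
        rw [← hcard]; push_cast; rfl
      rw [hcR]
      linarith

theorem iso (S : Finset (Site d)) :
    ((((S ×ˢ (Finset.univ : Finset (Fin d × Bool))).filter
      fun p => nb p.1 p.2 ∈ S).card : ℕ) : ℝ) ≤ S.card * Real.logb 2 S.card :=
  isoE_self_card_le S.card S rfl

end Pool.MP4bb68c
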