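import Mathlib
import Pool.Agent.Work.MP_4bb68c_pr.Defs
import Pool.Agent.Work.MP_4bb68c_pr.Pop
import Pool.Agent.Work.MP_4bb68c_pr.Iso

/-!
# Module E2: one grow slot, one mark slot
-/

open Finset

namespace Pool.MP4bb68c

variable {d : ℕ}

/-! ### The expectation over a random subset -/

theorem ebin_mono {p : ℝ} (h0 : 0 ≤ p) (h1 : p ≤ 1) {S : Finset (Site d)}
    {F G : Finset (Site d) → ℝ} (h : ∀ A, A ⊆ S → F A ≤ G A) : ebin p S F ≤ ebin p S G := by
  unfold ebin
  refine sum_le_sum fun A hA => ?_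
  exact mul_le_mul_of_nonneg_left (h A (mem_powerset.1 hA))
    (mul_nonneg (pow_nonneg h0 _) (pow_nonneg (by linarith) _))

theorem ebin_congr {p : ℝ} {S : Finset (Site d)} {F G : Finset (Site d) → ℝ}
    (h : ∀ A, A ⊆ S → F A = G A) : ebin p S F = ebin p S G := by
  unfold ebin
  refine sum_congr rfl fun A hA => ?_
  rw [h A (mem_powerset.1 hA)]

theorem ebin_add (p : ℝ) (S : Finset (Site d)) (F G : Finset (Site d) → ℝ) :
    ebin p S (fun A => F A + G A) = ebin p S F + ebin p S G := by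
  unfold ebin
  rw [← sum_add_distrib]
  exact sum_congr rfl fun A _ => by ring

theorem ebin_const_mul (p : ℝ) (S : Finset (Site d)) (c : ℝ) (F : Finset (Site d) → ℝ) :
    ebin p S (fun A => c * F A) = c * ebin p S F := by
  unfold ebin
  rw [mul_sum]
  exact sum_congr rfl fun A _ => by ring

theorem ebin_sum {ι : Type*} (p : ℝ) (S : Finset (Site d)) (s : Finset ι)
    (F : ι → Finset (Site d) → ℝ) :
    ebin p S (fun A => ∑ i ∈ s, F i A) = ∑ i ∈ s, ebin p S (F i) := by
  unfold ebin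
  rw [sum_comm]
  exact sum_congr rfl fun A _ => by rw [mul_sum]

theorem ebin_miss (p : ℝ) (S B : Finset (Site d)) (hB : B ⊆ S) :
    ebin p S (fun A => if Disjoint A B then 1 else 0) = (1 - p) ^ B.card := by
  have h := prod_add (fun i : Site d => if i ∈ B then 0 else p) (fun _ => 1 - p) S
  have h1 : ∏ i ∈ S, ((if i ∈ B then 0 else p) + (1 - p)) = (1 - p) ^ B.card := by
    rw [← prod_sdiff hB]
    have h2 : ∏ i ∈ S \ B, ((if i ∈ B then 0 else p) + (1 - p)) = 1 := by
      refine prod_eq_one fun i hi => ?_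
      rw [if_neg (mem_sdiff.1 hi).2]
      ring
    have h3 : ∏ i ∈ B, ((if i ∈ B then 0 else p) + (1 - p)) = (1 - p) ^ B.card := by
      rw [← prod_const]
      refine prod_congr rfl fun i hi => ?_
      rw [if_pos hi]
      ring
    rw [h2, h3, one_mul]
  rw [← h1, h]
  unfold ebin
  refine sum_congr rfl fun A _ => ?_
  rw [prod_const]
  show p ^ #A * (1 - p) ^ #(S \ A) * (if Disjoint A B then 1 else 0) = _
  by_cases hd : Disjoint A B
  · rw [if_pos hd, mul_one]
    congr 1
    rw [← prod_const]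
    refine prod_congr rfl fun i hi => ?_
    rw [if_neg (disjoint_left.1 hd hi)]
  · rw [if_neg hd, mul_zero]
    obtain ⟨i, hi, hi'⟩ := not_disjoint_iff.1 hd
    have hz : (∏ i ∈ A, if i ∈ B then 0 else p) = 0 := prod_eq_zero hi (if_pos hi')
    rw [hz, zero_mul]

theorem ebin_one (p : ℝ) (S : Finset (Site d)) : ebin p S (fun _ => 1) = 1 := by
  have h := ebin_miss p S ∅ (empty_subset S)
  rw [card_empty, pow_zero] at h
  refine Eq.trans (ebin_congr fun A _ => ?_) h
  rw [if_pos (disjoint_empty_right A)]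

/-- The indicator of a hit. -/
def hit (B A : Finset (Site d)) : ℝ := if Disjoint A B then 0 else 1

theorem hit_eq (B A : Finset (Site d)) : hit B A = 1 + (-1) * (if Disjoint A B then 1 else 0) := by
  unfold hit
  split_ifs <;> norm_num

theorem ebin_hit (p : ℝ) (S B : Finset (Site d)) (hB : B ⊆ S) :
    ebin p S (hit B) = 1 - (1 - p) ^ B.card := by
  rw [ebin_congr (G := fun A => 1 + (-1) * (if Disjoint A B then 1 else 0))
    fun A _ => hit_eq B A, ebin_add, ebin_const_mul, ebin_one, ebin_miss p S B hB]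
  ring

theorem hit_mul (B B' A : Finset (Site d)) : hit B A * hit B' A =
    (hit B A + hit B' A) + (-1) * hit (B ∪ B') A := by
  unfold hit
  by_cases h : Disjoint A B <;> by_cases h' : Disjoint A B' <;>
    simp [h, h', disjoint_union_right]

theorem ebin_hit_mul (p : ℝ) (S B B' : Finset (Site d)) (hB : B ⊆ S) (hB' : B' ⊆ S)
    (hd : Disjoint B B') :
    ebin p S (fun A => hit B A * hit B' A) = ebin p S (hit B) * ebin p S (hit B') := by
  rw [ebin_congr (G := fun A => (hit B A + hit B' A) + (-1) * hit (B ∪ B') A)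
    fun A _ => hit_mul B B' A, ebin_add, ebin_const_mul, ebin_add, ebin_hit p S B hB,
    ebin_hit p S B' hB', ebin_hit p S (B ∪ B') (union_subset hB hB'), card_union_of_disjoint hd]
  ring

theorem hit_nonneg (B A : Finset (Site d)) : 0 ≤ hit B A := by
  unfold hit
  split_ifs <;> norm_num

theorem hit_le_one (B A : Finset (Site d)) : hit B A ≤ 1 := by
  unfold hit
  split_ifs <;> norm_num

/-- Chebyshev's inequality for sums of hits. -/
theorem cheb {p : ℝ} (h0 : 0 ≤ p) (h1 : p ≤ 1) (S : Finset (Site d)) {ι : Type*} [DecidableEq ι]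
    (Y : Finset ι) (B : ι → Finset (Site d)) (hB : ∀ y ∈ Y, B y ⊆ S) (Δ : ℝ)
    (hΔ : ∀ y ∈ Y, (((Y.filter fun y' => ¬ Disjoint (B y) (B y')).card : ℕ) : ℝ) ≤ Δ)
    (c : ℝ) (hc : 0 < c) (hE : 0 < ∑ y ∈ Y, ebin p S (hit (B y)))
    (P : Finset (Site d) → Prop) [DecidablePred P]
    (hP : ∀ A, A ⊆ S → P A →
      ∑ y ∈ Y, hit (B y) A ≤ (1 - c) * ∑ y ∈ Y, ebin p S (hit (B y))) :
    ebin p S (fun A => if P A then 1 else 0) ≤ Δ / (c ^ 2 * ∑ y ∈ Y, ebin p S (hit (B y))) := by
  set E := ∑ y ∈ Y, ebin p S (hit (B y)) with hEdef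
  have hvar : ebin p S (fun A => (∑ y ∈ Y, hit (B y) A - E) ^ 2) ≤ Δ * E := by
    have e1 : ebin p S (fun A => (∑ y ∈ Y, hit (B y) A - E) ^ 2) =
        ∑ y ∈ Y, ∑ y' ∈ Y, (ebin p S (fun A => hit (B y) A * hit (B y') A) -
          ebin p S (hit (B y)) * ebin p S (hit (B y'))) := by
      have e2 : ∀ A, (∑ y ∈ Y, hit (B y) A - E) ^ 2 =
          (∑ y ∈ Y, ∑ y' ∈ Y, hit (B y) A * hit (B y') A) +
          ((-2 * E) * ∑ y ∈ Y, hit (B y) A + E ^ 2 * 1) := by
        intro A
        rw [← sum_mul_sum]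
        ring
      rw [ebin_congr fun A _ => e2 A, ebin_add, ebin_add, ebin_const_mul, ebin_const_mul,
        ebin_one, ebin_sum, ebin_sum, ← hEdef]
      simp only [sum_sub_distrib, ebin_sum]
      rw [← sum_mul_sum, ← hEdef]
      ring
    rw [e1]
    calc ∑ y ∈ Y, ∑ y' ∈ Y, (ebin p S (fun A => hit (B y) A * hit (B y') A) -
          ebin p S (hit (B y)) * ebin p S (hit (B y')))
        ≤ ∑ y ∈ Y, ∑ y' ∈ Y, (if ¬ Disjoint (B y) (B y') then ebin p S (hit (B y)) else 0) := by
          refine sum_le_sum fun y hy => sum_le_sum fun y' hy' => ?_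
          by_cases hd : Disjoint (B y) (B y')
          · rw [if_neg (not_not.2 hd), ebin_hit_mul p S _ _ (hB y hy) (hB y' hy') hd, sub_self]
          · rw [if_pos hd]
            have a1 : ebin p S (fun A => hit (B y) A * hit (B y') A) ≤ ebin p S (hit (B y)) :=
              ebin_mono h0 h1 fun A _ => mul_le_of_le_one_right (hit_nonneg _ _) (hit_le_one _ _)
            have a2 : ∀ z, 0 ≤ ebin p S (hit (B z)) := by
              intro z
              have : ebin p S (fun _ => 0) ≤ ebin p S (hit (B z)) :=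
                ebin_mono h0 h1 fun A _ => hit_nonneg _ _
              have h00 : ebin p S (fun _ => 0) = 0 := by
                unfold ebin
                simp
              linarith
            have a3 := mul_nonneg (a2 y) (a2 y')
            linarith
      _ = ∑ y ∈ Y, (((Y.filter fun y' => ¬ Disjoint (B y) (B y')).card : ℕ) : ℝ) *
            ebin p S (hit (B y)) := by
          refine sum_congr rfl fun y _ => ?_
          rw [← sum_filter, sum_const, nsmul_eq_mul]
      _ ≤ ∑ y ∈ Y, Δ * ebin p S (hit (B y)) := by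
          refine sum_le_sum fun y hy => mul_le_mul_of_nonneg_right (hΔ y hy) ?_
          rw [ebin_hit p S _ (hB y hy)]
          have : (1 - p) ^ (B y).card ≤ 1 := pow_le_one₀ (by linarith) (by linarith)
          linarith
      _ = Δ * E := by rw [← mul_sum]
  have hcE : 0 < c * E := mul_pos hc hE
  have hmarkov : (c * E) ^ 2 * ebin p S (fun A => if P A then 1 else 0) ≤
      ebin p S (fun A => (∑ y ∈ Y, hit (B y) A - E) ^ 2) := by
    rw [← ebin_const_mul]
    refine ebin_mono h0 h1 fun A hA => ?_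
    by_cases hPA : P A
    · rw [if_pos hPA, mul_one]
      have a1 := hP A hA hPA
      have a2 : c * E ≤ E - ∑ y ∈ Y, hit (B y) A := by linarith
      nlinarith
    · rw [if_neg hPA, mul_zero]
      positivity
  rw [le_div_iff₀ (by positivity)]
  have h3 := hmarkov.trans hvar
  have h4 : E * (ebin p S (fun A => if P A then 1 else 0) * (c ^ 2 * E)) ≤ E * Δ := by
    nlinarith
  exact le_of_mul_le_mul_left h4 hE

/-! ### The update probability -/

theorem pr_eq (m : ℕ) : 1 - pr (4 * m) 1 = Real.exp (-(1 / (4 * m))) := by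
  unfold pr
  push_cast
  ring

theorem exp_neg_le {x : ℝ} (hx : 0 ≤ x) : Real.exp (-x) ≤ 1 - x + x ^ 2 / 2 := by
  have h := Real.quadratic_le_exp_of_nonneg hx
  have h1 : Real.exp (-x) * Real.exp x = 1 := by rw [← Real.exp_add]; simp
  have h2 : 0 < Real.exp (-x) := Real.exp_pos _
  have h3 : Real.exp (-x) * (1 + x + x ^ 2 / 2) ≤ 1 :=
    (mul_le_mul_of_nonneg_left h h2.le).trans h1.le
  have h4 : (1 : ℝ) ≤ (1 - x + x ^ 2 / 2) * (1 + x + x ^ 2 / 2) := by
    have : (0 : ℝ) ≤ x ^ 4 := by positivity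
    nlinarith
  have h5 : 0 < 1 + x + x ^ 2 / 2 := by positivity
  exact le_of_mul_le_mul_right (h3.trans h4) h5

theorem hit_prob {m k : ℕ} (hm1 : 1 ≤ m) (hk : k ≤ m) :
    7 * (k : ℝ) / (32 * m) ≤ 1 - (1 - pr (4 * m) 1) ^ k := by
  have hm : (0 : ℝ) < m := by exact_mod_cast hm1
  have hk' : (k : ℝ) ≤ m := by exact_mod_cast hk
  rw [pr_eq, ← Real.exp_nat_mul]
  have h1 : (k : ℝ) * -(1 / (4 * m)) = -(k / (4 * m)) := by ring
  rw [h1]
  have h2 := exp_neg_le (x := (k : ℝ) / (4 * m)) (by positivity)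
  have h3 : (k : ℝ) / (4 * m) ≤ 1 / 4 := by
    rw [div_le_div_iff₀ (by positivity) (by norm_num)]
    linarith
  have h4 : 7 * (k : ℝ) / (32 * m) = 7 / 8 * ((k : ℝ) / (4 * m)) := by
    field_simp
    ring
  have h5 : (0 : ℝ) ≤ (k : ℝ) / (4 * m) := by positivity
  rw [h4]
  nlinarith

theorem pr_nonneg (q c : ℕ) : 0 ≤ pr q c := by
  unfold pr
  have : Real.exp (-((c : ℝ) / q)) ≤ 1 := Real.exp_le_one_iff.2 (by
    have : (0 : ℝ) ≤ (c : ℝ) / q := by positivity
    linarith)
  linarith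

theorem pr_le_one (q c : ℕ) : pr q c ≤ 1 := by
  unfold pr
  linarith [Real.exp_pos (-((c : ℝ) / q))]

open Classical in
theorem mark_fail {m : ℕ} (hm1 : 1 ≤ m) (T : Finset (Site d)) (hT : T.Nonempty) :
    ebin (pr (4 * m) 1) T (fun A => if (A.card : ℝ) < T.card / (10 * m) then 1 else 0)
      ≤ 20 * m / T.card := by
  have hm : (0 : ℝ) < m := by exact_mod_cast hm1
  have hTc : (0 : ℝ) < T.card := by exact_mod_cast hT.card_pos
  have hE1 : (T.card : ℝ) * (7 / (32 * m)) ≤
      ∑ y ∈ T, ebin (pr (4 * m) 1) T (hit ({y} : Finset (Site d))) := by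
    rw [← nsmul_eq_mul, ← sum_const]
    refine sum_le_sum fun y hy => ?_
    rw [ebin_hit _ _ _ (singleton_subset_iff.2 hy), card_singleton]
    have := hit_prob (k := 1) hm1 hm1
    push_cast at this
    linarith
  have hE0 : (0 : ℝ) < (T.card : ℝ) * (7 / (32 * m)) := by positivity
  have hsum : ∀ A, A ⊆ T → ∑ y ∈ T, hit ({y} : Finset (Site d)) A = A.card := by
    intro A hA
    have h1 : ∀ y ∈ T, hit ({y} : Finset (Site d)) A = if y ∈ A then 1 else 0 := by
      intro y _
      unfold hit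
      by_cases h : y ∈ A
      · rw [if_neg (by simpa using h), if_pos h]
      · rw [if_pos (by simpa using h), if_neg h]
    rw [sum_congr rfl h1, ← sum_filter, sum_const, nsmul_eq_mul, mul_one]
    congr 2
    ext y
    simp only [mem_filter]
    exact ⟨fun h => h.2, fun h => ⟨hA h, h⟩⟩
  have h := cheb (pr_nonneg (4 * m) 1) (pr_le_one (4 * m) 1) T T
    (fun y => ({y} : Finset (Site d))) (fun y hy => singleton_subset_iff.2 hy) 1 ?_ (1 / 2)
    (by norm_num) (lt_of_lt_of_le hE0 hE1) (fun A => (A.card : ℝ) < T.card / (10 * m)) ?_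
  · refine h.trans ?_
    set E := ∑ y ∈ T, ebin (pr (4 * m) 1) T (hit ({y} : Finset (Site d))) with hE
    have hEpos : 0 < E := lt_of_lt_of_le hE0 hE1
    rw [div_le_div_iff₀ (by positivity) hTc]
    have : (T.card : ℝ) ≤ E * (32 * m / 7) := by
      have h2 := mul_le_mul_of_nonneg_right hE1 (show (0 : ℝ) ≤ 32 * m / 7 by positivity)
      have h3 : (T.card : ℝ) * (7 / (32 * m)) * (32 * m / 7) = T.card := by
        field_simp
      linarith
    nlinarith [mul_pos hEpos hm]
  · intro y _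
    have : (T.filter fun y' => ¬ Disjoint ({y} : Finset (Site d)) {y'}) ⊆ {y} := by
      intro y' hy'
      have h2 := (mem_filter.1 hy').2
      rw [disjoint_singleton, not_not] at h2
      rw [h2]
      exact mem_singleton_self _
    have h2 := card_le_card this
    rw [card_singleton] at h2
    exact_mod_cast h2
  · intro A hA hlt
    rw [hsum A hA]
    have h4 : (T.card : ℝ) / (10 * m) ≤ 1 / 2 * ((T.card : ℝ) * (7 / (32 * m))) := by
      rw [div_le_iff₀ (by positivity)]
      have : 1 / 2 * ((T.card : ℝ) * (7 / (32 * m))) * (10 * m) = (T.card : ℝ) * (70 / 64) := by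
        field_simp
        norm_num
      rw [this]
      linarith
    linarith

/-! ### The grow slot -/

theorem card_gdirs (i₀ : Fin d) : (gdirs i₀).card = 2 * (d - 1) := by
  have h : gdirs i₀ = (univ.erase i₀) ×ˢ (univ : Finset Bool) := by
    ext a
    simp [gdirs]
  rw [h, card_product, card_erase_of_mem (mem_univ _), card_univ, card_univ, Fintype.card_fin,
    Fintype.card_bool]
  ring

theorem nb_injective (z : Site d) : Function.Injective (nb z) := by
  rintro ⟨i, b⟩ ⟨j, c⟩ h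
  unfold nb at h
  have h1 := add_left_cancel h
  have h2 : ∀ b : Bool, (if b then (1 : ℤ) else -1) ≠ 0 := by
    intro b
    cases b <;> norm_num
  simp only at h1
  have hij : i = j := by
    by_contra hij
    have h3 := congrFun h1 i
    rw [Pi.single_eq_same, Pi.single_eq_of_ne hij] at h3
    exact h2 b h3
  subst hij
  have h3 := congrFun h1 i
  rw [Pi.single_eq_same, Pi.single_eq_same] at h3
  have : b = c := by
    cases b <;> cases c <;> simp_all
  rw [this]

/-- The points of `T` with neighbour `y` in a growth direction. -/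
def src (i₀ : Fin d) (T : Finset (Site d)) (y : Site d) : Finset (Site d) :=
  T.filter fun z => ∃ a ∈ gdirs i₀, nb z a = y

/-- The outer boundary of `T` in the growth directions. -/
def outer (i₀ : Fin d) (T : Finset (Site d)) : Finset (Site d) :=
  (T.biUnion fun z => (gdirs i₀).image (nb z)) \ T

theorem mem_outer {i₀ : Fin d} {T : Finset (Site d)} {y : Site d} :
    y ∈ outer i₀ T ↔ (∃ z ∈ T, ∃ a ∈ gdirs i₀, nb z a = y) ∧ y ∉ T := by
  simp only [outer, mem_sdiff, mem_biUnion, mem_image]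

theorem card_src_le (i₀ : Fin d) (T : Finset (Site d)) (y : Site d) :
    (src i₀ T y).card ≤ 2 * (d - 1) := by
  rw [← card_gdirs i₀]
  have h : src i₀ T y ⊆ (gdirs i₀).image
      (fun a => y - Pi.single a.1 (if a.2 then (1 : ℤ) else -1)) := by
    intro z hz
    obtain ⟨a, ha, hza⟩ := (mem_filter.1 hz).2
    refine mem_image.2 ⟨a, ha, ?_⟩
    rw [← hza, nb, add_sub_cancel_right]
  exact (card_le_card h).trans card_image_le

theorem card_conflict_le (i₀ : Fin d) (T : Finset (Site d)) (y : Site d) :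
    ((outer i₀ T).filter fun y' => ¬ Disjoint (src i₀ T y) (src i₀ T y')).card ≤
      (2 * (d - 1)) * (2 * (d - 1)) := by
  have h : ((outer i₀ T).filter fun y' => ¬ Disjoint (src i₀ T y) (src i₀ T y')) ⊆
      (src i₀ T y).biUnion fun z => (gdirs i₀).image (nb z) := by
    intro y' hy'
    obtain ⟨z, hz, hz'⟩ := not_disjoint_iff.1 (mem_filter.1 hy').2
    obtain ⟨a, ha, hza⟩ := (mem_filter.1 hz').2
    exact mem_biUnion.2 ⟨z, hz, mem_image.2 ⟨a, ha, hza⟩⟩
  refine (card_le_card h).trans (card_biUnion_le.trans ?_)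
  calc ∑ z ∈ src i₀ T y, ((gdirs i₀).image (nb z)).card ≤ ∑ _z ∈ src i₀ T y, 2 * (d - 1) := by
        refine sum_le_sum fun z _ => ?_
        rw [← card_gdirs i₀]
        exact card_image_le
    _ = (src i₀ T y).card * (2 * (d - 1)) := by rw [sum_const, smul_eq_mul]
    _ ≤ (2 * (d - 1)) * (2 * (d - 1)) := Nat.mul_le_mul_right _ (card_src_le i₀ T y)

theorem card_grow (i₀ : Fin d) (T A : Finset (Site d)) (hA : A ⊆ T) :
    ((grow i₀ T A).card : ℝ) = T.card + ∑ y ∈ outer i₀ T, hit (src i₀ T y) A := by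
  have h : grow i₀ T A = T ∪ (outer i₀ T).filter fun y => ¬ Disjoint A (src i₀ T y) := by
    ext y
    simp only [grow, mem_union, mem_biUnion, mem_image, mem_filter]
    constructor
    · rintro (h | ⟨z, hz, a, ha, hza⟩)
      · exact Or.inl h
      · by_cases hy : y ∈ T
        · exact Or.inl hy
        · refine Or.inr ⟨mem_outer.2 ⟨⟨z, hA hz, a, ha, hza⟩, hy⟩, ?_⟩
          exact not_disjoint_iff.2 ⟨z, hz, mem_filter.2 ⟨hA hz, a, ha, hza⟩⟩
    · rintro (h | ⟨_, h⟩)
      · exact Or.inl h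
      · obtain ⟨z, hz, hz'⟩ := not_disjoint_iff.1 h
        obtain ⟨a, ha, hza⟩ := (mem_filter.1 hz').2
        exact Or.inr ⟨z, hz, a, ha, hza⟩
  have hd : Disjoint T ((outer i₀ T).filter fun y => ¬ Disjoint A (src i₀ T y)) := by
    rw [disjoint_left]
    intro y hy hy'
    exact (mem_outer.1 (mem_filter.1 hy').1).2 hy
  rw [h, card_union_of_disjoint hd, Nat.cast_add]
  congr 1
  have h1 : ∀ y ∈ outer i₀ T, hit (src i₀ T y) A =
      if ¬ Disjoint A (src i₀ T y) then 1 else 0 := by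
    intro y _
    unfold hit
    by_cases hh : Disjoint A (src i₀ T y)
    · rw [if_pos hh, if_neg (not_not.2 hh)]
    · rw [if_neg hh, if_pos hh]
  rw [sum_congr rfl h1, ← sum_filter, sum_const, nsmul_eq_mul, mul_one]

theorem sum_card_src (i₀ : Fin d) (T : Finset (Site d)) :
    ((T ×ˢ gdirs i₀).filter fun q => nb q.1 q.2 ∉ T).card ≤
      ∑ y ∈ outer i₀ T, (src i₀ T y).card := by
  rw [card_eq_sum_card_fiberwise (t := outer i₀ T) (f := fun q => nb q.1 q.2)]
  · refine sum_le_sum fun y _ => ?_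
    refine card_le_card_of_injOn Prod.fst ?_ ?_
    · rintro ⟨z, a⟩ hq
      have h1 := mem_filter.1 (mem_coe.1 hq)
      have h2 := mem_product.1 (mem_filter.1 h1.1).1
      exact mem_coe.2 (mem_filter.2 ⟨h2.1, a, h2.2, h1.2⟩)
    · rintro ⟨z, a⟩ hq ⟨z', a'⟩ hq' hzz
      have h1 := (mem_filter.1 (mem_coe.1 hq)).2
      have h2 := (mem_filter.1 (mem_coe.1 hq')).2
      simp only at hzz h1 h2
      subst hzz
      rw [nb_injective z (h1.trans h2.symm)]
  · rintro ⟨z, a⟩ hq
    have h1 := mem_filter.1 (mem_coe.1 hq)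
    have h2 := mem_product.1 h1.1
    exact mem_coe.2 (mem_outer.2 ⟨⟨z, h2.1, a, h2.2, rfl⟩, h1.2⟩)

theorem sum_card_src_ge (i₀ : Fin d) {m : ℕ} (hm : m = 2 * (d - 1))
    (T : Finset (Site d)) (hlog : Real.logb 2 T.card ≤ m / 50) :
    49 / 50 * (m : ℝ) * T.card ≤ ∑ y ∈ outer i₀ T, ((src i₀ T y).card : ℝ) := by
  have h1 : ((T ×ˢ gdirs i₀).filter fun q => nb q.1 q.2 ∈ T).card +
      ((T ×ˢ gdirs i₀).filter fun q => ¬ nb q.1 q.2 ∈ T).card = T.card * m := by
    rw [card_filter_add_card_filter_not, card_product, card_gdirs, hm]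
  have h2 : ((((T ×ˢ gdirs i₀).filter fun q => nb q.1 q.2 ∈ T).card : ℕ) : ℝ) ≤
      T.card * Real.logb 2 T.card := by
    refine le_trans ?_ (iso T)
    have : ((T ×ˢ gdirs i₀).filter fun q => nb q.1 q.2 ∈ T) ⊆
        (T ×ˢ (univ : Finset (Fin d × Bool))).filter fun q => nb q.1 q.2 ∈ T := by
      intro q hq
      have h1 := mem_filter.1 hq
      exact mem_filter.2 ⟨mem_product.2 ⟨(mem_product.1 h1.1).1, mem_univ _⟩, h1.2⟩
    exact_mod_cast card_le_card this
  have h3 := sum_card_src i₀ T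
  have h3' : ((((T ×ˢ gdirs i₀).filter fun q => ¬ nb q.1 q.2 ∈ T).card : ℕ) : ℝ) ≤
      ∑ y ∈ outer i₀ T, ((src i₀ T y).card : ℝ) := by exact_mod_cast h3
  have h1' : ((((T ×ˢ gdirs i₀).filter fun q => nb q.1 q.2 ∈ T).card : ℕ) : ℝ) +
      ((((T ×ˢ gdirs i₀).filter fun q => ¬ nb q.1 q.2 ∈ T).card : ℕ) : ℝ) = T.card * m := by
    exact_mod_cast h1
  have h4 : (T.card : ℝ) * Real.logb 2 T.card ≤ T.card * (m / 50) :=
    mul_le_mul_of_nonneg_left hlog (Nat.cast_nonneg _)
  linarith

open Classical in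
theorem grow_fail (i₀ : Fin d) {m : ℕ} (hm : m = 2 * (d - 1)) (hm1 : 1 ≤ m)
    (T : Finset (Site d)) (hT : T.Nonempty) (hlog : Real.logb 2 T.card ≤ m / 50) :
    ebin (pr (4 * m) 1) T (fun A => if ((grow i₀ T A).card : ℝ) < 6 / 5 * T.card then 1 else 0)
      ≤ 2000 * m ^ 2 / T.card := by
  have hmp : (0 : ℝ) < m := by exact_mod_cast hm1
  have hTc : (0 : ℝ) < T.card := by exact_mod_cast hT.card_pos
  have hsrc : ∀ y ∈ outer i₀ T, src i₀ T y ⊆ T := fun y _ => filter_subset _ _
  set E := ∑ y ∈ outer i₀ T, ebin (pr (4 * m) 1) T (hit (src i₀ T y)) with hE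
  have hE1 : 343 / 1600 * (T.card : ℝ) ≤ E := by
    have h1 := sum_card_src_ge i₀ hm T hlog
    calc 343 / 1600 * (T.card : ℝ) = (7 / (32 * m)) * (49 / 50 * (m : ℝ) * T.card) := by
          field_simp
          ring
      _ ≤ (7 / (32 * m)) * ∑ y ∈ outer i₀ T, ((src i₀ T y).card : ℝ) :=
          mul_le_mul_of_nonneg_left h1 (by positivity)
      _ = ∑ y ∈ outer i₀ T, (7 / (32 * m)) * ((src i₀ T y).card : ℝ) := by rw [mul_sum]
      _ ≤ E := by
          refine sum_le_sum fun y hy => ?_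
          rw [ebin_hit _ _ _ (hsrc y hy)]
          have h2 := hit_prob (k := (src i₀ T y).card) hm1 (by rw [hm]; exact card_src_le i₀ T y)
          rw [div_mul_eq_mul_div]
          exact h2
  have hEpos : 0 < E := by nlinarith
  have h := cheb (pr_nonneg (4 * m) 1) (pr_le_one (4 * m) 1) T (outer i₀ T)
    (fun y => src i₀ T y) hsrc ((m : ℝ) ^ 2) ?_ (23 / 343) (by norm_num) hEpos
    (fun A => ((grow i₀ T A).card : ℝ) < 6 / 5 * T.card) ?_
  · refine h.trans ?_
    rw [div_le_div_iff₀ (by positivity) hTc]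
    have h5 : (T.card : ℝ) ≤ 2000 * ((23 / 343) ^ 2 * E) := by nlinarith
    have h6 := mul_le_mul_of_nonneg_left h5 (show (0 : ℝ) ≤ m ^ 2 by positivity)
    linarith
  · intro y _
    have := card_conflict_le i₀ T y
    rw [← hm] at this
    have h7 : (((outer i₀ T).filter fun y' => ¬ Disjoint (src i₀ T y) (src i₀ T y')).card : ℝ) ≤
      ((m * m : ℕ) : ℝ) := by exact_mod_cast this
    rw [Nat.cast_mul, ← sq] at h7
    exact h7
  · intro A hA hlt
    rw [card_grow i₀ T A hA] at hlt
    have : (∑ y ∈ outer i₀ T, hit (src i₀ T y) A) ≤ 1 / 5 * T.card := by linarith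
    refine this.trans ?_
    rw [← hE]
    nlinarith

end Pool.MP4bb68c
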