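import Mathlib
import Pool.Agent.Work.MP_4bb68c_pr.Defs
import Pool.Agent.Work.MP_4bb68c_pr.Pop
import Pool.Agent.Work.MP_4bb68c_pr.Grow

/-! The population survives the whole schedule with high probability. -/

namespace Pool.MP4bb68c

variable {d : ℕ}

/-! ### The expectation over a random subset -/

theorem pb_pr_nonneg (q c : ℕ) : 0 ≤ pr q c := by
  unfold pr
  have : Real.exp (-((c : ℝ) / q)) ≤ 1 := by
    rw [Real.exp_le_one_iff]
    have : (0 : ℝ) ≤ (c : ℝ) / q := by positivity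
    linarith
  linarith

theorem pb_pr_le_one (q c : ℕ) : pr q c ≤ 1 := by
  unfold pr
  have := Real.exp_pos (-((c : ℝ) / q))
  linarith

theorem pb_ebin_const (p : ℝ) (S : Finset (Site d)) (c : ℝ) : ebin p S (fun _ => c) = c := by
  unfold ebin
  rw [← Finset.sum_mul]
  have h : ∑ A ∈ S.powerset, p ^ A.card * (1 - p) ^ (S \ A).card = 1 := by
    have h1 := Finset.sum_pow_mul_eq_add_pow p (1 - p) S
    have h2 : p + (1 - p) = 1 := by ring
    rw [h2, one_pow] at h1
    refine Eq.trans (Finset.sum_congr rfl fun A hA => ?_) h1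
    rw [Finset.card_sdiff_of_subset (Finset.mem_powerset.mp hA)]
  rw [h, one_mul]

theorem pb_ebin_mono {p : ℝ} (hp : 0 ≤ p) (hp1 : p ≤ 1) (S : Finset (Site d))
    {F G : Finset (Site d) → ℝ} (h : ∀ A ⊆ S, F A ≤ G A) : ebin p S F ≤ ebin p S G := by
  unfold ebin
  refine Finset.sum_le_sum fun A hA => ?_
  have h1 : 0 ≤ 1 - p := by linarith
  exact mul_le_mul_of_nonneg_left (h A (Finset.mem_powerset.mp hA)) (by positivity)

theorem pb_ebin_add (p : ℝ) (S : Finset (Site d)) (F G : Finset (Site d) → ℝ) :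
    ebin p S (fun A => F A + G A) = ebin p S F + ebin p S G := by
  unfold ebin
  rw [← Finset.sum_add_distrib]
  refine Finset.sum_congr rfl fun A _ => ?_
  ring

theorem pb_ebin_insert (p : ℝ) (S : Finset (Site d)) (x : Site d) (hx : x ∉ S)
    (F : Finset (Site d) → ℝ) :
    ebin p (insert x S) F = p * ebin p S (fun A => F (insert x A)) + (1 - p) * ebin p S F := by
  unfold ebin
  rw [Finset.sum_powerset_insert hx, Finset.mul_sum, Finset.mul_sum, add_comm]
  congr 1
  · refine Finset.sum_congr rfl fun A hA => ?_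
    have hA' := Finset.mem_powerset.mp hA
    have hxA : x ∉ A := fun h => hx (hA' h)
    rw [Finset.card_insert_of_notMem hxA, Finset.insert_sdiff_insert,
      Finset.sdiff_insert_of_notMem hx]
    ring
  · refine Finset.sum_congr rfl fun A hA => ?_
    have hA' := Finset.mem_powerset.mp hA
    have hxA : x ∉ A := fun h => hx (hA' h)
    have h2 : (insert x S) \ A = insert x (S \ A) := Finset.insert_sdiff_of_notMem S hxA
    rw [h2, Finset.card_insert_of_notMem (by simp [hx])]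
    ring

theorem pb_ebin_coupling (p : ℝ) {S S' : Finset (Site d)} (h : S ⊆ S')
    (G : Finset (Site d) → ℝ) : ebin p S' (fun A => G (A ∩ S)) = ebin p S G := by
  have key : ∀ R : Finset (Site d), Disjoint R S →
      ebin p (R ∪ S) (fun A => G (A ∩ S)) = ebin p S G := by
    intro R
    induction R using Finset.induction_on with
    | empty =>
      intro _
      rw [Finset.empty_union]
      unfold ebin
      refine Finset.sum_congr rfl fun A hA => ?_
      simp only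
      rw [Finset.inter_eq_left.mpr (Finset.mem_powerset.mp hA)]
    | insert x R hx ih =>
      intro hd
      rw [Finset.disjoint_insert_left] at hd
      rw [Finset.insert_union, pb_ebin_insert p _ x (by simp [hx, hd.1])]
      have h1 : ∀ A : Finset (Site d), insert x A ∩ S = A ∩ S := fun A =>
        Finset.insert_inter_of_notMem hd.1
      simp_rw [h1, ih hd.2]
      ring
  have h2 := key (S' \ S) Finset.sdiff_disjoint
  rwa [Finset.sdiff_union_of_subset h] at h2

/-! ### Basic properties of `fail` -/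

theorem pb_fail_nonneg (q : ℕ) (i₀ : Fin d) (v : Site d) (θ : ℝ) (l : List (Bool × ℕ))
    (S : Finset (Site d)) : 0 ≤ fail q i₀ v θ l S := by
  induction l generalizing S with
  | nil => unfold fail; split_ifs <;> norm_num
  | cons s l ih =>
    unfold fail
    have := pb_ebin_mono (pb_pr_nonneg q s.2) (pb_pr_le_one q s.2) S
      (F := fun _ => 0) (G := fun A => fail q i₀ v θ l (next i₀ v s.1 S A)) (fun A _ => ih _)
    rwa [pb_ebin_const] at this

theorem pb_fail_le_one (q : ℕ) (i₀ : Fin d) (v : Site d) (θ : ℝ) (l : List (Bool × ℕ))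
    (S : Finset (Site d)) : fail q i₀ v θ l S ≤ 1 := by
  induction l generalizing S with
  | nil => unfold fail; split_ifs <;> norm_num
  | cons s l ih =>
    unfold fail
    have := pb_ebin_mono (pb_pr_nonneg q s.2) (pb_pr_le_one q s.2) S
      (F := fun A => fail q i₀ v θ l (next i₀ v s.1 S A)) (G := fun _ => 1) (fun A _ => ih _)
    rwa [pb_ebin_const] at this

theorem pb_next_mono (i₀ : Fin d) (v : Site d) (b : Bool) {S S' A A' : Finset (Site d)}
    (hS : S ⊆ S') (hA : A ⊆ A') : next i₀ v b S A ⊆ next i₀ v b S' A' := by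
  unfold next grow
  split_ifs
  · exact Finset.image_subset_image hA
  · exact Finset.union_subset_union hS (Finset.biUnion_subset_biUnion_of_subset_left _ hA)

theorem pb_fail_antitone (q : ℕ) (i₀ : Fin d) (v : Site d) (θ : ℝ) (l : List (Bool × ℕ))
    {S S' : Finset (Site d)} (h : S ⊆ S') : fail q i₀ v θ l S' ≤ fail q i₀ v θ l S := by
  induction l generalizing S S' with
  | nil =>
    unfold fail
    have h1 : (S.card : ℝ) ≤ S'.card := by exact_mod_cast Finset.card_le_card h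
    by_cases h2 : (S'.card : ℝ) < θ
    · rw [if_pos h2, if_pos (by linarith)]
    · rw [if_neg h2]
      split_ifs <;> norm_num
  | cons s l ih =>
    unfold fail
    rw [← pb_ebin_coupling (pr q s.2) h (fun A => fail q i₀ v θ l (next i₀ v s.1 S A))]
    apply pb_ebin_mono (pb_pr_nonneg q s.2) (pb_pr_le_one q s.2)
    intro A _
    exact ih (pb_next_mono i₀ v s.1 h Finset.inter_subset_left)

theorem pb_fail_mono_theta (q : ℕ) (i₀ : Fin d) (v : Site d) {θ θ' : ℝ} (hθ : θ ≤ θ')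
    (l : List (Bool × ℕ)) (S : Finset (Site d)) :
    fail q i₀ v θ l S ≤ fail q i₀ v θ' l S := by
  induction l generalizing S with
  | nil =>
    unfold fail
    by_cases h2 : (S.card : ℝ) < θ
    · rw [if_pos h2, if_pos (by linarith)]
    · rw [if_neg h2]
      split_ifs <;> norm_num
  | cons s l ih =>
    unfold fail
    apply pb_ebin_mono (pb_pr_nonneg q s.2) (pb_pr_le_one q s.2)
    intro A _
    exact ih _

theorem pb_fail_append (q : ℕ) (i₀ : Fin d) (v : Site d) {θ θ' β : ℝ} (hβ : 0 ≤ β)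
    (l₁ l₂ : List (Bool × ℕ)) (h : ∀ T : Finset (Site d), θ ≤ T.card → fail q i₀ v θ' l₂ T ≤ β)
    (S : Finset (Site d)) :
    fail q i₀ v θ' (l₁ ++ l₂) S ≤ fail q i₀ v θ l₁ S + β := by
  induction l₁ generalizing S with
  | nil =>
    rw [List.nil_append]
    by_cases h2 : (S.card : ℝ) < θ
    · have h3 : fail q i₀ v θ [] S = 1 := by unfold fail; rw [if_pos h2]
      rw [h3]
      have := pb_fail_le_one q i₀ v θ' l₂ S
      linarith
    · have := h S (not_lt.mp h2)
      have := pb_fail_nonneg q i₀ v θ [] S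
      linarith
  | cons s l ih =>
    rw [List.cons_append]
    have e1 : fail q i₀ v θ' (s :: (l ++ l₂)) S
        = ebin (pr q s.2) S (fun A => fail q i₀ v θ' (l ++ l₂) (next i₀ v s.1 S A)) := by
      rw [fail]
    have e2 : fail q i₀ v θ (s :: l) S + β
        = ebin (pr q s.2) S (fun A => fail q i₀ v θ l (next i₀ v s.1 S A) + β) := by
      rw [pb_ebin_add, pb_ebin_const, fail]
    rw [e1, e2]
    apply pb_ebin_mono (pb_pr_nonneg q s.2) (pb_pr_le_one q s.2)
    intro A _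
    exact ih _

/-! ### Single slots -/

theorem pb_fail_grow (i₀ : Fin d) (v : Site d) {m : ℕ} (hm : m = 2 * (d - 1)) (hm1 : 1 ≤ m)
    {x : ℝ} (hx : 0 < x) (hlog : Real.logb 2 (x + 1) ≤ m / 50)
    (S : Finset (Site d)) (hS : x ≤ S.card) :
    fail (4 * m) i₀ v (6 / 5 * x) [(false, 1)] S ≤ 2000 * m ^ 2 / x := by
  have hb : ⌈x⌉₊ ≤ S.card := Nat.ceil_le.mpr hS
  have hb0 : 0 < ⌈x⌉₊ := Nat.ceil_pos.mpr hx
  obtain ⟨T, hTS, hT⟩ := Finset.exists_subset_card_eq hb
  have hxb : x ≤ (T.card : ℝ) := by rw [hT]; exact Nat.le_ceil x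
  have hbx : (T.card : ℝ) ≤ x + 1 := by rw [hT]; exact (Nat.ceil_lt_add_one hx.le).le
  have hTne : T.Nonempty := Finset.card_pos.mp (by rw [hT]; exact hb0)
  have hT0 : (0 : ℝ) < T.card := by linarith
  have h1 : fail (4 * m) i₀ v (6 / 5 * x) [(false, 1)] S
      ≤ fail (4 * m) i₀ v (6 / 5 * T.card) [(false, 1)] T :=
    (pb_fail_antitone _ i₀ v _ _ hTS).trans (pb_fail_mono_theta _ i₀ v (by linarith) _ _)
  have h2 : fail (4 * m) i₀ v (6 / 5 * T.card) [(false, 1)] T ≤ 2000 * m ^ 2 / T.card := by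
    have h3 := grow_fail i₀ hm hm1 T hTne (by
      refine le_trans ?_ hlog
      exact Real.logb_le_logb_of_le (by norm_num) hT0 hbx)
    simp only [fail, next] at h3 ⊢
    exact h3
  refine h1.trans (h2.trans ?_)
  exact div_le_div_of_nonneg_left (by positivity) hx hxb

theorem pb_fail_mark (i₀ : Fin d) (v : Site d) {m : ℕ} (hm1 : 1 ≤ m)
    {N : ℕ} (hN : 0 < N) (S : Finset (Site d)) (hS : (N : ℝ) ≤ S.card) :
    fail (4 * m) i₀ v ((N : ℝ) / (10 * m)) [(true, 1)] S ≤ 20 * m / N := by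
  have hb : N ≤ S.card := by exact_mod_cast hS
  obtain ⟨T, hTS, hT⟩ := Finset.exists_subset_card_eq hb
  have hTne : T.Nonempty := Finset.card_pos.mp (by rw [hT]; exact hN)
  refine (pb_fail_antitone _ i₀ v _ _ hTS).trans ?_
  have h3 := mark_fail (m := m) hm1 T hTne
  rw [hT] at h3
  have h4 : ∀ A : Finset (Site d), (A.image (fun z => z + v)).card = A.card := fun A =>
    Finset.card_image_of_injective _ (add_left_injective v)
  simp only [fail, next, if_true, h4] at h3 ⊢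
  exact h3

/-- Several grow slots. -/
theorem pb_fail_grows (i₀ : Fin d) (v : Site d) {m : ℕ} (hm : m = 2 * (d - 1)) (hm1 : 1 ≤ m)
    {θ₀ B : ℝ} (hθ : 0 < θ₀) (hlog : Real.logb 2 (B + 1) ≤ m / 50) (j : ℕ) :
    ∀ x : ℝ, θ₀ ≤ x → x * (6 / 5) ^ j ≤ B → ∀ S : Finset (Site d), x ≤ S.card →
      fail (4 * m) i₀ v (x * (6 / 5) ^ j) (List.replicate j (false, 1)) S
        ≤ j * (2000 * m ^ 2 / θ₀) := by
  induction j with
  | zero =>
    intro x hx _ S hS
    simp only [pow_zero, mul_one, List.replicate_zero, fail, Nat.cast_zero, zero_mul]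
    rw [if_neg (not_lt.mpr hS)]
  | succ j ih =>
    intro x hx hxB S hS
    have hx0 : 0 < x := hθ.trans_le hx
    have e : (List.replicate (j + 1) ((false, 1) : Bool × ℕ))
        = [(false, 1)] ++ List.replicate j (false, 1) := by
      rw [List.replicate_succ]; rfl
    have e2 : x * (6 / 5 : ℝ) ^ (j + 1) = (6 / 5 * x) * (6 / 5) ^ j := by ring
    rw [e, e2]
    rw [e2] at hxB
    have hε : (0 : ℝ) ≤ j * (2000 * m ^ 2 / θ₀) := by positivity
    have h1 := pb_fail_append (4 * m) i₀ v (θ := 6 / 5 * x) (θ' := (6 / 5 * x) * (6 / 5) ^ j) hε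
      [(false, 1)] (List.replicate j (false, 1))
      (fun T hT => ih (6 / 5 * x) (by linarith) hxB T hT) S
    have hxB' : x ≤ B := by
      have h2 : (1 : ℝ) ≤ (6 / 5) ^ j := one_le_pow₀ (by norm_num)
      nlinarith
    have h3 := pb_fail_grow i₀ v hm hm1 hx0 (by
      refine le_trans ?_ hlog
      exact Real.logb_le_logb_of_le (by norm_num) (by linarith) (by linarith)) S hS
    have h4 : 2000 * (m : ℝ) ^ 2 / x ≤ 2000 * m ^ 2 / θ₀ :=
      div_le_div_of_nonneg_left (by positivity) hθ hx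
    push_cast
    linarith

/-- One cycle. -/
theorem pb_fail_cyc (i₀ : Fin d) (v : Site d) {m : ℕ} (hm : m = 2 * (d - 1)) (hm1 : 1 ≤ m)
    {N : ℕ} (hN : 0 < N) (K : ℕ) (hK1 : (10 * m : ℝ) ≤ (6 / 5) ^ K) (hK2 : (6 / 5 : ℝ) ^ K ≤ 12 * m)
    (hlog : Real.logb 2 (2 * N + 1) ≤ m / 50)
    (S : Finset (Site d)) (hS : (N : ℝ) ≤ S.card) :
    fail (4 * m) i₀ v N (cyc K) S ≤ 20 * m / N + K * (20000 * m ^ 3 / N) := by
  have hN0 : (0 : ℝ) < N := by exact_mod_cast hN
  have hm0 : (0 : ℝ) < m := by exact_mod_cast hm1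
  set θ₀ : ℝ := N / (10 * m) with hθ₀
  have hθ0 : 0 < θ₀ := by positivity
  have h1 : ∀ T : Finset (Site d), θ₀ ≤ T.card →
      fail (4 * m) i₀ v N (List.replicate K (false, 1)) T ≤ K * (20000 * m ^ 3 / N) := by
    intro T hT
    have h2 := pb_fail_grows i₀ v hm hm1 (B := 2 * N) hθ0 hlog K θ₀ le_rfl (by
      have : θ₀ * (6 / 5 : ℝ) ^ K ≤ θ₀ * (12 * m) := by gcongr
      have e : θ₀ * (12 * m) = 12 / 10 * N := by rw [hθ₀]; field_simp
      linarith) T hT
    have h3 : (N : ℝ) ≤ θ₀ * (6 / 5) ^ K := by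
      have : θ₀ * (10 * m) ≤ θ₀ * (6 / 5 : ℝ) ^ K := by gcongr
      have e : θ₀ * (10 * m) = N := by rw [hθ₀]; field_simp
      linarith
    refine (pb_fail_mono_theta _ i₀ v h3 _ _).trans (h2.trans (le_of_eq ?_))
    rw [hθ₀]
    field_simp
    ring
  have e : cyc K = [(true, 1)] ++ List.replicate K (false, 1) := rfl
  rw [e]
  have h4 := pb_fail_append (4 * m) i₀ v (θ := θ₀) (θ' := N)
    (β := K * (20000 * m ^ 3 / N)) (by positivity) [(true, 1)] _ h1 S
  have h5 := pb_fail_mark i₀ v hm1 hN S hS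
  rw [← hθ₀] at h5
  linarith

/-- Many cycles. -/
theorem pb_fail_cycles (i₀ : Fin d) (v : Site d) {m : ℕ} (hm : m = 2 * (d - 1)) (hm1 : 1 ≤ m)
    {N : ℕ} (hN : 0 < N) (K : ℕ) (hK1 : (10 * m : ℝ) ≤ (6 / 5) ^ K) (hK2 : (6 / 5 : ℝ) ^ K ≤ 12 * m)
    (hlog : Real.logb 2 (2 * N + 1) ≤ m / 50) (M : ℕ) :
    ∀ (S : Finset (Site d)), (N : ℝ) ≤ S.card →
      fail (4 * m) i₀ v 1 (cycles K M) S ≤ M * (20 * m / N + K * (20000 * m ^ 3 / N)) := by
  induction M with
  | zero =>
    intro S hS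
    simp only [cycles, fail, Nat.cast_zero, zero_mul]
    rw [if_neg]
    rw [not_lt]
    refine le_trans ?_ hS
    exact_mod_cast hN
  | succ M ih =>
    intro S hS
    rw [cycles]
    have h1 := pb_fail_append (4 * m) i₀ v (θ := N) (θ' := 1)
      (β := M * (20 * m / N + K * (20000 * m ^ 3 / N))) (by positivity) (cyc K) (cycles K M) ih S
    have h2 := pb_fail_cyc i₀ v hm hm1 hN K hK1 hK2 hlog S hS
    push_cast
    linarith

/-! ### Startup -/

/-- The deterministic sets. -/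
def pbT (i₀ : Fin d) : ℕ → Finset (Site d)
  | 0 => {0}
  | j + 1 => grow i₀ (pbT i₀ j) (pbT i₀ j)

theorem pb_card_gdirs (i₀ : Fin d) : (gdirs i₀).card = 2 * (d - 1) := by
  unfold gdirs
  have : (Finset.univ.filter fun a : Fin d × Bool => a.1 ≠ i₀)
      = (Finset.univ.erase i₀) ×ˢ (Finset.univ : Finset Bool) := by
    ext a
    simp
  rw [this, Finset.card_product, Finset.card_erase_of_mem (Finset.mem_univ _)]
  simp
  ring

theorem pb_card_grow_le (i₀ : Fin d) (S A : Finset (Site d)) (hA : A ⊆ S) :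
    (grow i₀ S A).card ≤ S.card * (1 + 2 * (d - 1)) := by
  unfold grow
  have h1 : (A.biUnion fun z => (gdirs i₀).image (nb z)).card ≤ A.card * (2 * (d - 1)) := by
    refine Finset.card_biUnion_le_card_mul _ _ _ fun z _ => ?_
    exact Finset.card_image_le.trans (pb_card_gdirs i₀).le
  have h2 := Finset.card_le_card hA
  have h3 := Finset.card_union_le S (A.biUnion fun z => (gdirs i₀).image (nb z))
  have h4 : A.card * (2 * (d - 1)) ≤ S.card * (2 * (d - 1)) := Nat.mul_le_mul_right _ h2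
  rw [mul_add, mul_one]
  omega

theorem pb_card_T_le (i₀ : Fin d) (j : ℕ) : (pbT i₀ j).card ≤ (1 + 2 * (d - 1)) ^ j := by
  induction j with
  | zero => simp [pbT]
  | succ j ih =>
    rw [pbT, pow_succ]
    exact (pb_card_grow_le i₀ _ _ (Finset.Subset.refl _)).trans (Nat.mul_le_mul_right _ ih)

/-- The indicator of a set of directions, as a site. -/
def pbI (I : Finset (Fin d)) : Site d := fun i => if i ∈ I then 1 else 0

theorem pbI_injective : Function.Injective (pbI (d := d)) := by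
  intro I J h
  ext i
  have := congrFun h i
  unfold pbI at this
  by_cases h1 : i ∈ I <;> by_cases h2 : i ∈ J <;> simp_all

theorem pbI_mem (i₀ : Fin d) (j : ℕ) : ∀ I : Finset (Fin d), i₀ ∉ I → I.card = j →
    pbI I ∈ pbT i₀ j := by
  induction j with
  | zero =>
    intro I _ hI
    rw [Finset.card_eq_zero] at hI
    subst hI
    rw [pbT, Finset.mem_singleton]
    ext i
    simp [pbI]
  | succ j ih =>
    intro I hI hc
    obtain ⟨a, J, haJ, rfl, hJ⟩ := Finset.card_eq_succ.mp hc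
    have h0 : i₀ ∉ J := fun h => hI (Finset.mem_insert_of_mem h)
    have ha : a ≠ i₀ := fun h => hI (h ▸ Finset.mem_insert_self a J)
    have h1 := ih J h0 hJ
    rw [pbT, grow, Finset.mem_union, Finset.mem_biUnion]
    right
    refine ⟨pbI J, h1, ?_⟩
    rw [Finset.mem_image]
    refine ⟨(a, true), by simp [gdirs, ha], ?_⟩
    ext i
    unfold nb pbI
    by_cases h2 : i = a
    · subst h2; simp [haJ]
    · simp [h2]

theorem pb_le_card_T (i₀ : Fin d) (j : ℕ) : (d - 1).choose j ≤ (pbT i₀ j).card := by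
  have h1 : ((Finset.univ.erase i₀).powersetCard j).image pbI ⊆ pbT i₀ j := by
    intro x hx
    rw [Finset.mem_image] at hx
    obtain ⟨I, hI, rfl⟩ := hx
    rw [Finset.mem_powersetCard] at hI
    exact pbI_mem i₀ j I (fun h => Finset.notMem_erase i₀ _ (hI.1 h)) hI.2
  have h2 := Finset.card_le_card h1
  rw [Finset.card_image_of_injective _ pbI_injective, Finset.card_powersetCard,
    Finset.card_erase_of_mem (Finset.mem_univ _)] at h2
  simpa using h2

theorem pb_ebin_le_top {p : ℝ} (hp : 0 ≤ p) (hp1 : p ≤ 1) (S : Finset (Site d))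
    {F : Finset (Site d) → ℝ} (hF : ∀ A, F A ≤ 1) (hF0 : 0 ≤ F S) :
    ebin p S F ≤ S.card * (1 - p) + F S := by
  -- compare with the function which equals `F S` at `S` and `1` elsewhere
  have h1 : ebin p S F ≤ ebin p S (fun A => 1 + (if A = S then F S - 1 else 0)) := by
    apply pb_ebin_mono hp hp1
    intro A _
    by_cases h : A = S
    · rw [if_pos h, h]; linarith
    · rw [if_neg h]; linarith [hF A]
  have h2 : ebin p S (fun A => if A = S then F S - 1 else 0) = p ^ S.card * (F S - 1) := by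
    unfold ebin
    rw [Finset.sum_eq_single S]
    · simp
    · intro A _ hne
      simp only
      rw [if_neg hne, mul_zero]
    · intro h
      exact absurd (Finset.mem_powerset_self S) h
  rw [pb_ebin_add, pb_ebin_const, h2] at h1
  have h3 : 1 + (S.card : ℝ) * (p - 1) ≤ p ^ S.card := by
    have := one_add_mul_le_pow (a := p - 1) (by linarith) S.card
    rwa [add_sub_cancel] at this
  have h4 : p ^ S.card ≤ 1 := pow_le_one₀ hp hp1
  have h5 := hF S
  nlinarith

theorem pb_startup (q c : ℕ) (i₀ : Fin d) (v : Site d) (θ : ℝ) (n : ℕ) :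
    ∀ j : ℕ, θ ≤ (pbT i₀ (j + n)).card → ∀ R : ℝ, (∀ i < j + n, ((pbT i₀ i).card : ℝ) ≤ R) →
      fail q i₀ v θ (List.replicate n (false, c)) (pbT i₀ j) ≤ n * (R * (1 - pr q c)) := by
  induction n with
  | zero =>
    intro j hθ R _
    rw [add_zero] at hθ
    simp only [List.replicate_zero, fail, Nat.cast_zero, zero_mul]
    rw [if_neg (not_lt.mpr hθ)]
  | succ n ih =>
    intro j hθ R hR
    rw [List.replicate_succ, fail]
    have hp := pb_pr_nonneg q c
    have hp1 := pb_pr_le_one q c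
    have h1 := pb_ebin_le_top hp hp1 (pbT i₀ j)
      (F := fun A => fail q i₀ v θ (List.replicate n (false, c)) (next i₀ v false (pbT i₀ j) A))
      (fun A => pb_fail_le_one _ _ _ _ _ _) (pb_fail_nonneg _ _ _ _ _ _)
    have h2 : next i₀ v false (pbT i₀ j) (pbT i₀ j) = pbT i₀ (j + 1) := by
      rw [pbT]; simp [next]
    simp only [h2] at h1
    have e : j + 1 + n = j + (n + 1) := by ring
    have h3 := ih (j + 1) (by rw [e]; exact hθ) R (by rw [e]; exact hR)
    have h4 : ((pbT i₀ j).card : ℝ) * (1 - pr q c) ≤ R * (1 - pr q c) := by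
      have := hR j (by omega)
      have : 0 ≤ 1 - pr q c := by linarith
      gcongr
    push_cast
    linarith

/-! ### Numerical bounds -/

theorem pb_log_six_fifths : (1 : ℝ) / 6 ≤ Real.log (6 / 5) := by
  have := Real.one_sub_inv_le_log_of_pos (x := (6 / 5 : ℝ)) (by norm_num)
  norm_num at this ⊢
  exact this

theorem pb_Kof (m : ℕ) (hm : 1 ≤ m) :
    (10 * m : ℝ) ≤ (6 / 5) ^ Kof m ∧ (6 / 5 : ℝ) ^ Kof m ≤ 12 * m ∧ (Kof m : ℝ) ≤ 61 * m := by
  have hm0 : (1 : ℝ) ≤ m := by exact_mod_cast hm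
  have hl := pb_log_six_fifths
  have hl0 : 0 < Real.log (6 / 5) := by linarith
  have hlm : 0 ≤ Real.log (10 * m) := Real.log_nonneg (by linarith)
  have h1 : Real.log (10 * m) / Real.log (6 / 5) ≤ (Kof m : ℝ) := Nat.le_ceil _
  have h2 : (Kof m : ℝ) < Real.log (10 * m) / Real.log (6 / 5) + 1 :=
    Nat.ceil_lt_add_one (by positivity)
  have e : ∀ n : ℕ, (6 / 5 : ℝ) ^ n = Real.exp (n * Real.log (6 / 5)) := by
    intro n
    rw [Real.exp_nat_mul, Real.exp_log (by norm_num)]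
  refine ⟨?_, ?_, ?_⟩
  · rw [e]
    rw [div_le_iff₀ hl0] at h1
    calc (10 * m : ℝ) = Real.exp (Real.log (10 * m)) := (Real.exp_log (by linarith)).symm
      _ ≤ _ := Real.exp_le_exp.mpr h1
  · rw [e]
    have h3 : (Kof m : ℝ) * Real.log (6 / 5) ≤ Real.log (10 * m) + Real.log (6 / 5) := by
      have h4 : ((Kof m : ℝ) - 1) < Real.log (10 * m) / Real.log (6 / 5) := by linarith
      rw [lt_div_iff₀ hl0] at h4
      linarith
    refine (Real.exp_le_exp.mpr h3).trans (le_of_eq ?_)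
    rw [Real.exp_add, Real.exp_log (by linarith), Real.exp_log (by norm_num)]
    ring
  · have h3 : Real.log (10 * m) ≤ 10 * m := by
      have := Real.log_le_sub_one_of_pos (x := (10 * m : ℝ)) (by linarith)
      linarith
    have h4 : Real.log (10 * m) / Real.log (6 / 5) ≤ 60 * m := by
      rw [div_le_iff₀ hl0]
      nlinarith
    linarith

theorem pb_logb_le {m : ℕ} (hm : 10 ^ 12 ≤ m) :
    Real.logb 2 (2 * ((m ^ 8 : ℕ) : ℝ) + 1) ≤ m / 50 := by
  have hm0 : (10 : ℝ) ^ 12 ≤ m := by exact_mod_cast hm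
  have hm1 : (0 : ℝ) < m := by linarith
  set s := Real.sqrt m with hs
  have hs2 : s ^ 2 = m := Real.sq_sqrt hm1.le
  have hs6 : (10 : ℝ) ^ 6 ≤ s := by
    rw [hs]
    apply Real.le_sqrt_of_sq_le
    have e6 : ((10 : ℝ) ^ 6) ^ 2 = 10 ^ 12 := by norm_num
    rw [e6]
    exact hm0
  have hs0 : 0 < s := by linarith
  have h1 : Real.log m ≤ 2 * s := by
    rw [← hs2, Real.log_pow]
    have := Real.log_le_sub_one_of_pos hs0
    push_cast
    linarith
  have h2 : (10 : ℝ) ^ 6 * s ≤ m := by rw [← hs2]; nlinarith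
  have h3 : 2 * ((m ^ 8 : ℕ) : ℝ) + 1 ≤ (m : ℝ) ^ 9 := by
    push_cast
    have h4 : (1 : ℝ) ≤ (m : ℝ) ^ 8 := one_le_pow₀ (by linarith)
    have h5 : (m : ℝ) ^ 9 = m * (m : ℝ) ^ 8 := by ring
    nlinarith
  have h6 : Real.logb 2 (2 * ((m ^ 8 : ℕ) : ℝ) + 1) ≤ Real.logb 2 ((m : ℝ) ^ 9) :=
    Real.logb_le_logb_of_le (by norm_num) (by positivity) h3
  have h7 : Real.logb 2 ((m : ℝ) ^ 9) = 9 * Real.log m / Real.log 2 := by
    rw [Real.logb, Real.log_pow]
    push_cast
    ring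
  have hl2 := Real.log_two_gt_d9
  have hl2' : 0 < Real.log 2 := by linarith
  rw [h7] at h6
  refine h6.trans ?_
  rw [div_le_iff₀ hl2']
  nlinarith

theorem pb_choose_ge {d m : ℕ} (hdm : m = 2 * (d - 1)) (hm : 10 ^ 12 ≤ m) :
    ((m ^ 8 : ℕ) : ℝ) ≤ ((d - 1).choose 9 : ℕ) := by
  have hm0 : (10 : ℝ) ^ 12 ≤ m := by exact_mod_cast hm
  have h1 := Nat.pow_le_choose (α := ℝ) 9 (d - 1)
  have h2 : (m : ℝ) / 3 ≤ ((d - 1 + 1 - 9 : ℕ) : ℝ) := by
    have h3 : m ≤ 3 * (d - 1 + 1 - 9) := by omega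
    have h4 : (m : ℝ) ≤ 3 * ((d - 1 + 1 - 9 : ℕ) : ℝ) := by exact_mod_cast h3
    linarith
  have h3 : ((m : ℝ) / 3) ^ 9 ≤ ((d - 1 + 1 - 9 : ℕ) : ℝ) ^ 9 := by gcongr
  have h4 : ((m : ℝ) / 3) ^ 9 ≤ (Nat.factorial 9 : ℝ) * ((d - 1).choose 9 : ℕ) := by
    refine h3.trans ?_
    rw [div_le_iff₀ (by positivity), mul_comm] at h1
    exact_mod_cast h1
  have h5 : (Nat.factorial 9 : ℝ) = 362880 := by
    norm_num [Nat.factorial]
  rw [h5] at h4
  push_cast
  have h6 : ((m : ℝ) / 3) ^ 9 = m * (m : ℝ) ^ 8 / 19683 := by ring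
  rw [h6] at h4
  have h7 : (0 : ℝ) < (m : ℝ) ^ 8 := by positivity
  have h8 : (10 : ℝ) ^ 12 * (m : ℝ) ^ 8 ≤ m * (m : ℝ) ^ 8 := by gcongr
  rw [div_le_iff₀ (by norm_num)] at h4
  nlinarith

theorem pb_exp_bound {m : ℕ} (hm : 10 ^ 12 ≤ m) :
    9 * (((1 + m : ℕ) : ℝ) ^ 8 * Real.exp (-(m : ℝ))) ≤ 1 / 1000 := by
  have hm0 : (10 : ℝ) ^ 12 ≤ m := by exact_mod_cast hm
  have hm1 : (0 : ℝ) < m := by linarith
  have h1 := Real.pow_div_factorial_le_exp (m : ℝ) hm1.le 9
  have h5 : (Nat.factorial 9 : ℝ) = 362880 := by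
    norm_num [Nat.factorial]
  rw [h5, div_le_iff₀ (by norm_num)] at h1
  have h2 : ((1 + m : ℕ) : ℝ) ^ 8 ≤ (2 * m) ^ 8 := by
    push_cast
    gcongr
    linarith
  have h3 : (2 * (m : ℝ)) ^ 8 = 256 * (m : ℝ) ^ 8 := by ring
  rw [h3] at h2
  rw [Real.exp_neg]
  have he := Real.exp_pos (m : ℝ)
  have h4 : 9 * (((1 + m : ℕ) : ℝ) ^ 8 * (Real.exp (m : ℝ))⁻¹)
      = (9 * ((1 + m : ℕ) : ℝ) ^ 8) / Real.exp (m : ℝ) := by
    rw [div_eq_mul_inv]; ring
  rw [h4, div_le_iff₀ he]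
  have h6 : (m : ℝ) ^ 9 = m * (m : ℝ) ^ 8 := by ring
  rw [h6] at h1
  have h7 : (0 : ℝ) < (m : ℝ) ^ 8 := by positivity
  have h8 : (10 : ℝ) ^ 12 * (m : ℝ) ^ 8 ≤ m * (m : ℝ) ^ 8 := by gcongr
  nlinarith

theorem pop_bound : ∃ m₀ : ℕ, ∀ (d : ℕ) (i₀ : Fin d) (v : Site d), m₀ ≤ 2 * (d - 1) →
    fail (4 * (2 * (d - 1))) i₀ v 1
      (sched (2 * (d - 1)) (Kof (2 * (d - 1))) ((2 * (d - 1)) ^ 3)) {0} ≤ 1 / 100 := by
  refine ⟨10 ^ 12, fun d i₀ v hm => ?_⟩
  obtain ⟨m, hdm⟩ : ∃ m, m = 2 * (d - 1) := ⟨_, rfl⟩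
  rw [← hdm] at hm ⊢
  have hm1 : 1 ≤ m := le_trans (by norm_num) hm
  have hm0 : (10 : ℝ) ^ 12 ≤ m := by exact_mod_cast hm
  have hmp : (0 : ℝ) < m := by linarith
  obtain ⟨hK1, hK2, hK3⟩ := pb_Kof m hm1
  set K := Kof m with hK
  set N : ℕ := m ^ 8 with hN
  have hNp : 0 < N := by rw [hN]; positivity
  have hcyc := pb_fail_cycles i₀ v hdm hm1 hNp K hK1 hK2 (pb_logb_le hm) (m ^ 3)
  have h1 := pb_fail_append (4 * m) i₀ v (θ := N) (θ' := 1) (by positivity)
    (List.replicate 9 (false, 4 * m * m)) (cycles K (m ^ 3)) hcyc {0}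
  have h2 := pb_startup (4 * m) (4 * m * m) i₀ v N 9 0 (by
      have := pb_le_card_T i₀ (0 + 9)
      refine (pb_choose_ge hdm hm).trans ?_
      exact_mod_cast this) (((1 + m : ℕ) : ℝ) ^ 8) (by
      intro i hi
      have h3 := pb_card_T_le i₀ i
      rw [← hdm] at h3
      have h4 : (1 + m) ^ i ≤ (1 + m) ^ 8 := Nat.pow_le_pow_right (by omega) (by omega)
      exact_mod_cast h3.trans h4)
  have h3 : 1 - pr (4 * m) (4 * m * m) = Real.exp (-(m : ℝ)) := by
    unfold pr
    have : ((4 * m * m : ℕ) : ℝ) / ((4 * m : ℕ) : ℝ) = m := by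
      push_cast
      field_simp
    rw [this]; ring
  rw [h3] at h2
  have h4 := pb_exp_bound hm
  have h5 : (pbT i₀ 0) = {0} := rfl
  rw [h5] at h2
  have h6 : ((m ^ 3 : ℕ) : ℝ) * (20 * m / (N : ℝ) + K * (20000 * m ^ 3 / (N : ℝ))) ≤ 1 / 1000 := by
    have e : ((m ^ 3 : ℕ) : ℝ) * (20 * m / (N : ℝ) + K * (20000 * m ^ 3 / (N : ℝ)))
        = 20 / (m : ℝ) ^ 4 + K * 20000 / (m : ℝ) ^ 2 := by
      rw [hN]
      push_cast
      field_simp
    rw [e]
    have h7 : 20 / (m : ℝ) ^ 4 ≤ 1 / 2000 := by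
      rw [div_le_div_iff₀ (by positivity) (by norm_num)]
      have : (10 ^ 12 : ℝ) ^ 4 ≤ (m : ℝ) ^ 4 := by gcongr
      nlinarith
    have h8 : (K : ℝ) * 20000 / (m : ℝ) ^ 2 ≤ 1 / 2000 := by
      rw [div_le_div_iff₀ (by positivity) (by norm_num)]
      nlinarith
    linarith
  have h8 : ((9 : ℕ) : ℝ) = 9 := by norm_num
  rw [h8] at h2
  unfold sched
  linarith

end Pool.MP4bb68c
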