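import Mathlib
import Pool.Agent.Work.MP_4bb68c_pr.Defs
import Pool.Agent.Work.MP_4bb68c_pr.Run

/-!
# First moment bound for the synchronous chain
-/

open MeasureTheory ProbabilityTheory Filter Topology
open scoped NNReal ENNReal

namespace Pool.MP4bb68c

variable {d : ℕ}

theorem measurable_exp_height (lam : ℝ) (x : Site d) :
    Measurable (fun h : Height d => Real.exp (lam * h x)) :=
  Real.measurable_exp.comp ((measurable_height_real x).const_mul lam)

theorem monotone_exp_height {lam : ℝ} (hlam : 0 < lam) (x : Site d) :
    Monotone (fun h : Height d => Real.exp (lam * h x)) := fun _ _ H =>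
  Real.exp_le_exp.2 (mul_le_mul_of_nonneg_left (monotone_height_real x H) hlam.le)

theorem exp_newHeight_le (lam : ℝ) (h : Height d) (x : Site d) :
    Real.exp (lam * newHeight h x) ≤
      Real.exp lam * Real.exp (lam * h x) +
        ∑ a : Fin d × Bool, Real.exp (lam * h (nb x a)) := by
  have hS : 0 ≤ ∑ a : Fin d × Bool, Real.exp (lam * h (nb x a)) :=
    Finset.sum_nonneg fun a _ => (Real.exp_pos _).le
  obtain ⟨b, -, hb⟩ := Finset.exists_mem_eq_sup' (s := Finset.univ)
    ⟨none, Finset.mem_univ _⟩ (cand h x)
  change newHeight h x = cand h x b at hb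
  rw [hb]
  cases b with
  | none =>
    have : Real.exp (lam * (cand h x none : ℤ)) = Real.exp lam * Real.exp (lam * h x) := by
      rw [← Real.exp_add]
      congr 1
      simp only [cand]
      push_cast
      ring
    rw [this]
    linarith
  | some a =>
    have h1 : Real.exp (lam * (cand h x (some a) : ℤ)) ≤
        ∑ a : Fin d × Bool, Real.exp (lam * h (nb x a)) :=
      Finset.single_le_sum (f := fun a : Fin d × Bool => Real.exp (lam * h (nb x a)))
        (fun a _ => (Real.exp_pos _).le) (Finset.mem_univ a)
    have h2 : 0 ≤ Real.exp lam * Real.exp (lam * h x) := by positivity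
    linarith

theorem exp_moment_le {lam : ℝ} (hlam : 0 < lam) (f : Height d) {G : ℝ}
    (hG0 : 0 ≤ G)
    (hG : ∀ x, Real.exp lam * Real.exp (lam * f x) +
        ∑ a : Fin d × Bool, Real.exp (lam * f (nb x a)) ≤ G * Real.exp (lam * f x))
    (δ : ℝ≥0) (k : ℕ) (x : Site d) :
    ∫ h, Real.exp (lam * h x) ∂(lawK d (List.replicate k δ) f) ≤
      Real.exp (G * (k * (δ : ℝ))) * Real.exp (lam * f x) := by
  induction k generalizing x with
  | zero =>
    rw [List.replicate_zero, lawK_nil, integral_dirac]
    simp
  | succ k ih =>
    have hi : ∀ y, Integrable (fun h : Height d => Real.exp (lam * h y))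
        (lawK d (List.replicate k δ) f) := fun y =>
      integrable_lawK_of_mono (measurable_exp_height lam y) (monotone_exp_height hlam y) _ _
    set p : ℝ := 1 - Real.exp (-δ) with hp
    have hp0 : 0 ≤ p := by
      rw [hp, sub_nonneg]
      exact Real.exp_le_one_iff.2 (neg_nonpos.2 δ.2)
    have hpδ : p ≤ δ := by
      have := Real.add_one_le_exp (-(δ : ℝ))
      rw [hp]
      linarith
    have hp1 : 0 ≤ 1 - p := by
      rw [hp]
      have := Real.exp_pos (-(δ : ℝ))
      linarith
    set E : ℝ := Real.exp (G * (k * (δ : ℝ))) with hE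
    have hE0 : 0 ≤ E := (Real.exp_pos _).le
    rw [List.replicate_succ, integral_lawK_cons (measurable_exp_height lam x) _ _ _
      (integrable_lawK_of_mono (measurable_exp_height lam x) (monotone_exp_height hlam x) _ _)]
    have hstep : ∀ h : Height d, ∫ ξ, Real.exp (lam * slotStep ξ h x) ∂(siteLaw d δ) ≤
        (1 - p) * Real.exp (lam * h x) + p * (Real.exp lam * Real.exp (lam * h x) +
          ∑ a : Fin d × Bool, Real.exp (lam * h (nb x a))) := by
      intro h
      have e1 : ∀ ξ : Site d → Bool, Real.exp (lam * slotStep ξ h x) =
          if ξ x = true then Real.exp (lam * newHeight h x) else Real.exp (lam * h x) := by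
        intro ξ
        unfold slotStep
        split_ifs <;> rfl
      simp_rw [e1]
      rw [integral_siteLaw_ite, ← hp]
      have e2 : Real.exp (-(δ : ℝ)) = 1 - p := by rw [hp]; ring
      rw [e2]
      have := mul_le_mul_of_nonneg_left (exp_newHeight_le lam h x) hp0
      linarith
    have hs : Integrable (fun h : Height d => ∑ a : Fin d × Bool, Real.exp (lam * h (nb x a)))
        (lawK d (List.replicate k δ) f) := integrable_finsetSum _ fun a _ => hi _
    have ha : Integrable (fun h : Height d => Real.exp lam * Real.exp (lam * h x))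
        (lawK d (List.replicate k δ) f) := (hi x).const_mul _
    have hb : Integrable (fun h : Height d => (1 - p) * Real.exp (lam * h x))
        (lawK d (List.replicate k δ) f) := (hi x).const_mul _
    have hc : Integrable (fun h : Height d => p * (Real.exp lam * Real.exp (lam * h x) +
          ∑ a : Fin d × Bool, Real.exp (lam * h (nb x a))))
        (lawK d (List.replicate k δ) f) := (ha.add hs).const_mul _
    have hint1 : Integrable (fun h : Height d => ∫ ξ, Real.exp (lam * slotStep ξ h x)
        ∂(siteLaw d δ)) (lawK d (List.replicate k δ) f) :=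
      integrable_lawK_of_mono
        (measurable_integral_siteLaw (measurable_exp_height lam x) δ)
        (monotone_integral_siteLaw (measurable_exp_height lam x) (monotone_exp_height hlam x) δ)
        _ _
    have h1 := integral_mono hint1 (hb.add hc) hstep
    refine h1.trans ?_
    have h2 : ∫ h, ((fun h : Height d => (1 - p) * Real.exp (lam * h x)) +
        (fun h : Height d => p * (Real.exp lam * Real.exp (lam * h x) +
          ∑ a : Fin d × Bool, Real.exp (lam * h (nb x a))))) h ∂(lawK d (List.replicate k δ) f) =
        (1 - p) * ∫ h, Real.exp (lam * h x) ∂(lawK d (List.replicate k δ) f) +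
        p * (Real.exp lam * ∫ h, Real.exp (lam * h x) ∂(lawK d (List.replicate k δ) f) +
          ∑ a : Fin d × Bool, ∫ h, Real.exp (lam * h (nb x a))
            ∂(lawK d (List.replicate k δ) f)) := by
      rw [integral_add' hb hc, integral_const_mul, integral_const_mul, integral_add ha hs,
        integral_const_mul, integral_finsetSum _ (fun a _ => hi _)]
    rw [h2]
    have h3 : Real.exp lam * ∫ h, Real.exp (lam * h x) ∂(lawK d (List.replicate k δ) f) +
          ∑ a : Fin d × Bool, ∫ h, Real.exp (lam * h (nb x a))
            ∂(lawK d (List.replicate k δ) f) ≤ E * (G * Real.exp (lam * f x)) := by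
      calc Real.exp lam * ∫ h, Real.exp (lam * h x) ∂(lawK d (List.replicate k δ) f) +
          ∑ a : Fin d × Bool, ∫ h, Real.exp (lam * h (nb x a)) ∂(lawK d (List.replicate k δ) f)
          ≤ Real.exp lam * (E * Real.exp (lam * f x)) +
            ∑ a : Fin d × Bool, E * Real.exp (lam * f (nb x a)) :=
            add_le_add (mul_le_mul_of_nonneg_left (ih x) (Real.exp_pos _).le)
              (Finset.sum_le_sum fun a _ => ih _)
        _ = E * (Real.exp lam * Real.exp (lam * f x) +
            ∑ a : Fin d × Bool, Real.exp (lam * f (nb x a))) := by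
            rw [← Finset.mul_sum]
            ring
        _ ≤ _ := mul_le_mul_of_nonneg_left (hG x) hE0
    have hfx : 0 < Real.exp (lam * f x) := Real.exp_pos _
    have h4 : (1 - p) * ∫ h, Real.exp (lam * h x) ∂(lawK d (List.replicate k δ) f) ≤
        (1 - p) * (E * Real.exp (lam * f x)) := mul_le_mul_of_nonneg_left (ih x) hp1
    have h5 := mul_le_mul_of_nonneg_left h3 hp0
    have h6 : (1 - p) + p * G ≤ Real.exp (G * δ) := by
      have := Real.add_one_le_exp (G * (δ : ℝ))
      have h7 : p * G ≤ δ * G := mul_le_mul_of_nonneg_right hpδ hG0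
      linarith
    have h8 : (Real.exp (G * δ) * E) * Real.exp (lam * f x) =
        Real.exp (G * (((k + 1 : ℕ) : ℝ) * (δ : ℝ))) * Real.exp (lam * f x) := by
      rw [hE, ← Real.exp_add]
      congr 2
      push_cast
      ring
    have h9 : ((1 - p) + p * G) * (E * Real.exp (lam * f x)) ≤
        Real.exp (G * δ) * (E * Real.exp (lam * f x)) :=
      mul_le_mul_of_nonneg_right h6 (mul_nonneg hE0 hfx.le)
    calc _ ≤ (1 - p) * (E * Real.exp (lam * f x)) + p * (E * (G * Real.exp (lam * f x))) :=
          add_le_add h4 h5
      _ = ((1 - p) + p * G) * (E * Real.exp (lam * f x)) := by ring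
      _ ≤ Real.exp (G * δ) * (E * Real.exp (lam * f x)) := h9
      _ = _ := by rw [← h8]; ring

/-- The first moment bound for the flat and the tilted initial condition. -/
theorem mean_le (i₀ : Fin d) {lam : ℝ} (hlam : 0 < lam) (f : Height d)
    (hf : f = (fun _ => 0) ∨ f = fun x => x i₀) (δ : ℝ≥0) (k : ℕ) (x : Site d) :
    ∫ h, (h x : ℝ) ∂(lawK d (List.replicate k δ) f) ≤
      f x + (2 * Real.exp lam + 2 * d) / lam * (k * (δ : ℝ)) := by
  set G : ℝ := 2 * Real.exp lam + 2 * d with hG
  have hG0 : 0 ≤ G := by positivity
  have hnb : ∀ (x : Site d) (a : Fin d × Bool),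
      Real.exp (lam * f (nb x a)) ≤ (if a = (i₀, true) then Real.exp lam else 1) *
        Real.exp (lam * f x) := by
    intro x a
    rcases hf with rfl | rfl
    · simp only [Int.cast_zero, mul_zero, Real.exp_zero, mul_one]
      split_ifs
      · exact Real.one_le_exp hlam.le
      · exact le_rfl
    · obtain ⟨i, b⟩ := a
      by_cases hi : i = i₀
      · subst hi
        cases b with
        | true =>
          simp only [if_true]
          rw [← Real.exp_add]
          apply le_of_eq
          congr 1
          simp only [nb, Pi.add_apply, Pi.single_eq_same, if_true]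
          push_cast
          ring
        | false =>
          have : ((i, false) : Fin d × Bool) ≠ (i, true) := by simp
          rw [if_neg this, one_mul]
          apply Real.exp_le_exp.2
          apply mul_le_mul_of_nonneg_left _ hlam.le
          simp only [nb, Pi.add_apply, Pi.single_eq_same, Bool.false_eq_true, if_false]
          push_cast
          linarith
      · have : ((i, b) : Fin d × Bool) ≠ (i₀, true) := by
          intro h
          exact hi (Prod.ext_iff.1 h).1
        rw [if_neg this, one_mul]
        apply le_of_eq
        congr 2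
        simp only [nb, Pi.add_apply, Pi.single_eq_of_ne (Ne.symm hi), add_zero]
  have hGx : ∀ x, Real.exp lam * Real.exp (lam * f x) +
      ∑ a : Fin d × Bool, Real.exp (lam * f (nb x a)) ≤ G * Real.exp (lam * f x) := by
    intro x
    have h1 : ∑ a : Fin d × Bool, Real.exp (lam * f (nb x a)) ≤
        (∑ a : Fin d × Bool, (if a = (i₀, true) then Real.exp lam else 1)) *
          Real.exp (lam * f x) := by
      rw [Finset.sum_mul]
      exact Finset.sum_le_sum fun a _ => hnb x a
    have h2 : (∑ a : Fin d × Bool, (if a = (i₀, true) then Real.exp lam else (1 : ℝ))) ≤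
        Real.exp lam + 2 * d := by
      have h3 : ∀ a : Fin d × Bool, (if a = (i₀, true) then Real.exp lam else (1 : ℝ)) ≤
          (if a = (i₀, true) then Real.exp lam else (0 : ℝ)) + 1 := by
        intro a
        split_ifs <;> linarith
      refine (Finset.sum_le_sum fun a _ => h3 a).trans ?_
      rw [Finset.sum_add_distrib]
      simp
      linarith
    have h4 := mul_le_mul_of_nonneg_right h2 (Real.exp_pos (lam * f x)).le
    rw [hG]
    nlinarith
  have hE := exp_moment_le hlam f hG0 hGx δ k x
  set s : ℝ := G * (k * (δ : ℝ)) + lam * f x with hs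
  rw [← Real.exp_add, ← hs] at hE
  have hi := integrable_height (List.replicate k δ) f x
  have hie : Integrable (fun h : Height d => Real.exp (lam * h x))
        (lawK d (List.replicate k δ) f) :=
      integrable_lawK_of_mono (measurable_exp_height lam x) (monotone_exp_height hlam x) _ _
  have h1 : ∫ h, lam * (h x : ℝ) ∂(lawK d (List.replicate k δ) f) ≤
      ∫ h, (Real.exp (-s) * Real.exp (lam * h x) + (s - 1))
        ∂(lawK d (List.replicate k δ) f) := by
    refine integral_mono (hi.const_mul _) ((hie.const_mul _).add (integrable_const _)) ?_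
    intro h
    have := Real.add_one_le_exp (lam * h x - s)
    simp only
    rw [← Real.exp_add]
    have e : -s + lam * h x = lam * h x - s := by ring
    rw [e]
    linarith
  rw [integral_const_mul, integral_add (hie.const_mul _) (integrable_const _),
    integral_const_mul, integral_const, probReal_univ, one_smul] at h1
  have h2 : Real.exp (-s) * ∫ h, Real.exp (lam * h x) ∂(lawK d (List.replicate k δ) f) ≤ 1 := by
    have := mul_le_mul_of_nonneg_left hE (Real.exp_pos (-s)).le
    rwa [← Real.exp_add, neg_add_cancel, Real.exp_zero] at this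
  have h3 : lam * ∫ h, (h x : ℝ) ∂(lawK d (List.replicate k δ) f) ≤ s := by linarith
  have h4 : ∫ h, (h x : ℝ) ∂(lawK d (List.replicate k δ) f) ≤ s / lam := by
    rw [le_div_iff₀ hlam, mul_comm]
    exact h3
  refine h4.trans (le_of_eq ?_)
  rw [hs]
  field_simp
  ring

end Pool.MP4bb68c
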