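import Mathlib
import Pool.Agent.Work.MP_4bb68c_pr.Defs
import Pool.Agent.Work.MP_4bb68c_pr.Run
import Pool.Agent.Work.MP_4bb68c_pr.Pop
import Pool.Agent.Work.MP_4bb68c_pr.Chain
import Pool.Agent.Work.MP_4bb68c_pr.Grow

/-!
# From populations to lower bounds

The backward population turns into lower bounds of the expected height by convex combinations of
the initial heights.
-/

open MeasureTheory ProbabilityTheory Filter Topology
open scoped NNReal ENNReal

namespace Pool.MP4bb68c

variable {d : ℕ}

theorem measurableSet_filter_eq (S A : Finset (Site d)) :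
    MeasurableSet {ξ : Site d → Bool | S.filter (fun z => ξ z = true) = A} := by
  have hset : {ξ : Site d → Bool | S.filter (fun z => ξ z = true) = A} =
      ⋂ z : Site d, {ξ : Site d → Bool | (z ∈ S ∧ ξ z = true) ↔ z ∈ A} := by
    ext ξ
    simp only [Set.mem_ofPred_eq, Set.mem_iInter, Finset.ext_iff, Finset.mem_filter]
  rw [hset]
  refine MeasurableSet.iInter fun z => ?_
  have h3 : MeasurableSet {ξ : Site d → Bool | ξ z = true} :=
    measurableSet_eq_fun (by fun_prop) measurable_const
  by_cases hz : z ∈ S <;> by_cases hA : z ∈ A <;> simp only [hz, hA, true_and, false_and, iff_true,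
    iff_false, iff_self]
  · exact h3
  · exact h3.compl
  · simp
  · simp

theorem siteLaw_filter (ℓ : ℝ≥0) (S A : Finset (Site d)) (hA : A ⊆ S) :
    (siteLaw d ℓ).real {ξ | S.filter (fun z => ξ z = true) = A} =
      (1 - Real.exp (-ℓ)) ^ A.card * (1 - (1 - Real.exp (-ℓ))) ^ (S \ A).card := by
  have hset : {ξ : Site d → Bool | S.filter (fun z => ξ z = true) = A} =
      Set.pi (S : Set (Site d)) (fun z => if z ∈ A then {true} else {false}) := by
    ext ξ
    simp only [Set.mem_ofPred_eq, Set.mem_pi, Finset.mem_coe]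
    constructor
    · intro h z hz
      by_cases hzA : z ∈ A
      · rw [if_pos hzA]
        rw [← h, Finset.mem_filter] at hzA
        exact hzA.2
      · rw [if_neg hzA]
        rw [← h, Finset.mem_filter] at hzA
        by_contra hne
        apply hzA
        refine ⟨hz, ?_⟩
        simpa using hne
    · intro h
      ext z
      rw [Finset.mem_filter]
      constructor
      · rintro ⟨hz, h1⟩
        by_contra hzA
        have := h z hz
        rw [if_neg hzA, Set.mem_singleton_iff, h1] at this
        exact absurd this (by simp)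
      · intro hzA
        have := h z (hA hzA)
        rw [if_pos hzA] at this
        exact ⟨hA hzA, this⟩
  rw [hset, measureReal_def, siteLaw, Measure.infinitePi_pi _ (fun i _ => MeasurableSet.of_discrete),
    ENNReal.toReal_prod]
  have h1 : ∀ z ∈ S, ((slotLaw ℓ) (if z ∈ A then {true} else {false})).toReal =
      if z ∈ A then 1 - Real.exp (-ℓ) else 1 - (1 - Real.exp (-ℓ)) := by
    intro z _
    split_ifs
    · exact slotLaw_real_true ℓ
    · have := slotLaw_real_false ℓ
      rw [measureReal_def] at this
      rw [this]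
      ring
  rw [Finset.prod_congr rfl h1, Finset.prod_ite, Finset.prod_const, Finset.prod_const]
  congr 2
  · congr 1
    ext z
    rw [Finset.mem_filter]
    exact ⟨fun h => h.2, fun h => ⟨hA h, h⟩⟩
  · congr 1
    ext z
    rw [Finset.mem_filter, Finset.mem_sdiff]

theorem eq_sum_indicator (S : Finset (Site d)) (F : Finset (Site d) → ℝ) (ξ : Site d → Bool) :
    F (S.filter (fun z => ξ z = true)) = ∑ A ∈ S.powerset,
      ({ξ : Site d → Bool | S.filter (fun z => ξ z = true) = A}.indicator (fun _ => F A)) ξ := by
  rw [Finset.sum_eq_single (S.filter (fun z => ξ z = true))]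
  · simp [Set.indicator]
  · intro A _ hne
    rw [Set.indicator_of_notMem]
    intro h
    exact hne (by simpa using h.symm)
  · intro h
    exact absurd (Finset.mem_powerset.2 (Finset.filter_subset _ _)) h

theorem integrable_filter (ℓ : ℝ≥0) (S : Finset (Site d)) (F : Finset (Site d) → ℝ) :
    Integrable (fun ξ => F (S.filter (fun z => ξ z = true))) (siteLaw d ℓ) := by
  simp_rw [eq_sum_indicator S F]
  refine integrable_finsetSum _ fun A _ => ?_
  exact (integrable_const (F A)).indicator (measurableSet_filter_eq S A)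

theorem integral_filter (ℓ : ℝ≥0) (S : Finset (Site d)) (F : Finset (Site d) → ℝ) :
    ∫ ξ, F (S.filter (fun z => ξ z = true)) ∂(siteLaw d ℓ) = ebin (1 - Real.exp (-ℓ)) S F := by
  simp_rw [eq_sum_indicator S F]
  rw [integral_finsetSum _ fun A _ =>
    (integrable_const (F A)).indicator (measurableSet_filter_eq S A)]
  unfold ebin
  refine Finset.sum_congr rfl fun A hA => ?_
  rw [integral_indicator_const _ (measurableSet_filter_eq S A),
    siteLaw_filter ℓ S A (Finset.mem_powerset.1 hA), smul_eq_mul]

theorem monotone_integral_lawK {Φ : Height d → ℝ} (hm : Measurable Φ) (hmono : Monotone Φ)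
    (l : List ℝ≥0) : Monotone (fun h => ∫ g, Φ g ∂(lawK d l h)) := by
  induction l generalizing Φ with
  | nil =>
    simp_rw [lawK_nil, integral_dirac]
    exact hmono
  | cons ℓ l ih =>
    have : (fun f => ∫ h, Φ h ∂(lawK d (ℓ :: l) f)) =
        fun f => ∫ h, (∫ ξ, Φ (slotStep ξ h) ∂(siteLaw d ℓ)) ∂(lawK d l f) := by
      ext f
      exact integral_lawK_cons hm ℓ l f (integrable_lawK_of_mono hm hmono _ _)
    rw [this]
    exact ih (measurable_integral_siteLaw hm ℓ) (monotone_integral_siteLaw hm hmono ℓ)

/-- The value functional of the population `S` with `k` gains so far. -/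
noncomputable def val (S : Finset (Site d)) (k : ℕ) (h : Height d) : ℝ :=
  (insert none (S.image some)).sup' (Finset.insert_nonempty _ _)
    (fun o : Option (Site d) => match o with
      | none => (h 0 : ℝ)
      | some z => (k : ℝ) + h z)

theorem zero_le_val (S : Finset (Site d)) (k : ℕ) (h : Height d) : (h 0 : ℝ) ≤ val S k h :=
  Finset.le_sup' (fun o : Option (Site d) => match o with
      | none => (h 0 : ℝ)
      | some z => (k : ℝ) + h z) (Finset.mem_insert_self none _)

theorem mem_le_val {S : Finset (Site d)} {z : Site d} (hz : z ∈ S) (k : ℕ) (h : Height d) :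
    (k : ℝ) + h z ≤ val S k h :=
  Finset.le_sup' (fun o : Option (Site d) => match o with
      | none => (h 0 : ℝ)
      | some z => (k : ℝ) + h z) (Finset.mem_insert_of_mem (Finset.mem_image_of_mem some hz))

theorem val_le_iff {S : Finset (Site d)} {k : ℕ} {h : Height d} {c : ℝ} :
    val S k h ≤ c ↔ (h 0 : ℝ) ≤ c ∧ ∀ z ∈ S, (k : ℝ) + h z ≤ c := by
  unfold val
  rw [Finset.sup'_le_iff]
  constructor
  · intro H
    refine ⟨H none (Finset.mem_insert_self _ _), fun z hz => ?_⟩
    exact H (some z) (Finset.mem_insert_of_mem (Finset.mem_image_of_mem some hz))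
  · rintro ⟨H1, H2⟩ o ho
    rw [Finset.mem_insert, Finset.mem_image] at ho
    rcases ho with rfl | ⟨z, hz, rfl⟩
    · exact H1
    · exact H2 z hz

theorem measurable_val (S : Finset (Site d)) (k : ℕ) : Measurable (val S k) := by
  unfold val
  have := Finset.measurable_sup' (s := (insert none (S.image some) : Finset (Option (Site d))))
    (Finset.insert_nonempty _ _) (f := fun o (h : Height d) => match o with
      | none => (h 0 : ℝ)
      | some z => (k : ℝ) + h z) (by
      intro o _
      cases o with
      | none => exact measurable_height_real 0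
      | some z => exact (measurable_height_real z).const_add _)
  convert this using 1
  ext h
  rw [Finset.sup'_apply]

theorem monotone_val (S : Finset (Site d)) (k : ℕ) : Monotone (val S k) := by
  intro h h' H
  rw [val_le_iff]
  constructor
  · exact (Int.cast_le.2 (H 0)).trans (zero_le_val S k h')
  · intro z hz
    have := (monotone_height_real z) H
    have h2 := mem_le_val hz k h'
    simp only at this
    linarith

theorem val_zero (h : Height d) : val {0} 0 h = h 0 := by
  apply le_antisymm
  · rw [val_le_iff]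
    refine ⟨le_rfl, fun z hz => ?_⟩
    rw [Finset.mem_singleton] at hz
    rw [hz]
    simp
  · exact zero_le_val _ _ _

theorem val_step {i₀ : Fin d} {v : Site d} {c : ℕ}
    (hcv : (c = 1 ∧ v = 0) ∨ (c = 0 ∧ v = Pi.single i₀ 1)) (b : Bool)
    (S : Finset (Site d)) (k : ℕ) (ξ : Site d → Bool) (h : Height d) :
    val (next i₀ v b S (S.filter (fun z => ξ z = true))) (k + c * (if b then 1 else 0)) h ≤
      val S k (slotStep ξ h) := by
  rw [val_le_iff]
  refine ⟨(Int.cast_le.2 (le_slotStep ξ h 0)).trans (zero_le_val _ _ _), fun z' hz' => ?_⟩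
  have key : ∃ z ∈ S, (c * (if b then 1 else 0) : ℕ) + h z' ≤ slotStep ξ h z := by
    cases b with
    | true =>
      simp only [next, if_true, Finset.mem_image, Finset.mem_filter] at hz'
      obtain ⟨z, ⟨hz, hξ⟩, rfl⟩ := hz'
      refine ⟨z, hz, ?_⟩
      rw [slotStep, if_pos hξ]
      rcases hcv with ⟨rfl, rfl⟩ | ⟨rfl, rfl⟩
      · have := succ_le_newHeight h z
        simp
        linarith
      · have := nb_le_newHeight h z (i₀, true)
        simp only [nb, if_true] at this
        simpa using this
    | false =>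
      simp only [next, grow, Finset.mem_union, Finset.mem_biUnion, Finset.mem_filter,
        Finset.mem_image, Bool.false_eq_true, if_false] at hz'
      rcases hz' with hz | ⟨z, ⟨hz, hξ⟩, a, _, rfl⟩
      · refine ⟨z', hz, ?_⟩
        simpa using le_slotStep ξ h z'
      · refine ⟨z, hz, ?_⟩
        rw [slotStep, if_pos hξ]
        simpa using nb_le_newHeight h z a
  obtain ⟨z, hz, hle⟩ := key
  have h1 := mem_le_val hz k (slotStep ξ h)
  have h2 : ((c * (if b then 1 else 0) : ℕ) : ℝ) + (h z' : ℝ) ≤ (slotStep ξ h z : ℝ) := by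
    exact_mod_cast hle
  push_cast at h2 ⊢
  linarith

theorem next_coord {i₀ : Fin d} {v : Site d} (b : Bool) {S A : Finset (Site d)} {κ : ℤ}
    (hA : A ⊆ S) (hS : ∀ z ∈ S, z i₀ = κ) :
    ∀ z ∈ next i₀ v b S A, z i₀ = κ + (if b then v i₀ else 0) := by
  intro z' hz'
  cases b with
  | true =>
    simp only [next, if_true, Finset.mem_image] at hz'
    obtain ⟨z, hz, rfl⟩ := hz'
    simp [hS z (hA hz)]
  | false =>
    simp only [next, grow, Finset.mem_union, Finset.mem_biUnion,
      Finset.mem_image, Bool.false_eq_true, if_false] at hz'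
    rcases hz' with hz | ⟨z, hz, a, ha, rfl⟩
    · simp [hS _ hz]
    · have ha' : a.1 ≠ i₀ := by simpa [gdirs] using ha
      simp [nb, hS _ (hA hz), ha'.symm]

/-- The linear functional of a finitely supported weight. -/
theorem sum_comb {ι : Type*} (T : Finset ι) (cf : ι → ℝ) (W : ι → (Site d →₀ ℝ))
    (g : Site d → ℝ) :
    ((∑ A ∈ T, cf A • W A).sum fun z a => a * g z) = ∑ A ∈ T, cf A * ((W A).sum fun z a => a * g z) := by
  rw [← Finsupp.sum_finsetSum_index]
  · refine Finset.sum_congr rfl fun A _ => ?_
    rw [Finsupp.sum_smul_index (fun z => zero_mul _), Finsupp.mul_sum]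
    refine Finset.sum_congr rfl fun z _ => ?_
    simp only
    ring
  · intro z
    exact zero_mul _
  · intro z a b
    exact add_mul _ _ _

theorem weights_aux (i₀ : Fin d) (v : Site d) (c : ℕ)
    (hcv : (c = 1 ∧ v = 0) ∨ (c = 0 ∧ v = Pi.single i₀ 1)) {q : ℕ} (hq : 0 < q)
    (l : List (Bool × ℕ)) : ∀ (S : Finset (Site d)) (k : ℕ) (κ : ℤ), (∀ z ∈ S, z i₀ = κ) →
    ∃ w : Site d →₀ ℝ, (∀ z, 0 ≤ w z) ∧ (w.sum fun _ a => a * (1 : ℝ)) = 1 ∧
      (w.sum fun z a => a * (z i₀ : ℝ)) = (κ + v i₀ * marks l) * (1 - fail q i₀ v 1 l S) ∧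
      ∀ (n : ℕ) (f : Height d),
        (k + c * marks l) * (1 - fail q i₀ v 1 l S) + (w.sum fun z a => a * (f z : ℝ)) ≤
          ∫ h, val S k h ∂(lawK d (List.replicate (units l * 2 ^ n) (dl q n)) f) := by
  induction l with
  | nil =>
    intro S k κ hS
    rcases S.eq_empty_or_nonempty with rfl | ⟨z, hz⟩
    · refine ⟨Finsupp.single 0 1, ?_, ?_, ?_, ?_⟩
      · intro z
        rw [Finsupp.single_apply]
        split_ifs <;> norm_num
      · simp
      · simp [fail]
      · intro n f
        have : units ([] : List (Bool × ℕ)) * 2 ^ n = 0 := by simp [units]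
        rw [this, List.replicate_zero, lawK_nil, integral_dirac]
        have h2 := zero_le_val (∅ : Finset (Site d)) k f
        simp [fail]
        exact h2
    · have hc : ¬ ((S.card : ℝ) < 1) := by
        have : 1 ≤ S.card := Finset.card_pos.2 ⟨z, hz⟩
        rw [not_lt]
        exact_mod_cast this
      refine ⟨Finsupp.single z 1, ?_, ?_, ?_, ?_⟩
      · intro z
        rw [Finsupp.single_apply]
        split_ifs <;> norm_num
      · simp
      · simp [fail, hc, marks, hS z hz]
      · intro n f
        have : units ([] : List (Bool × ℕ)) * 2 ^ n = 0 := by simp [units]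
        rw [this, List.replicate_zero, lawK_nil, integral_dirac]
        have h2 := mem_le_val hz k f
        simp [fail, hc, marks]
        exact h2
  | cons s l ih =>
    intro S k κ hS
    have hex : ∀ A : Finset (Site d), A ⊆ S → ∃ w : Site d →₀ ℝ, (∀ z, 0 ≤ w z) ∧
        (w.sum fun _ a => a * (1 : ℝ)) = 1 ∧
        (w.sum fun z a => a * (z i₀ : ℝ)) = ((κ + (if s.1 then v i₀ else 0) : ℤ) + v i₀ * marks l) *
          (1 - fail q i₀ v 1 l (next i₀ v s.1 S A)) ∧
        ∀ (n : ℕ) (f : Height d),
          ((k + c * (if s.1 then 1 else 0) : ℕ) + c * marks l) *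
            (1 - fail q i₀ v 1 l (next i₀ v s.1 S A)) + (w.sum fun z a => a * (f z : ℝ)) ≤
          ∫ h, val (next i₀ v s.1 S A) (k + c * (if s.1 then 1 else 0)) h
            ∂(lawK d (List.replicate (units l * 2 ^ n) (dl q n)) f) := fun A hA =>
      ih _ _ _ (next_coord s.1 hA hS)
    choose! W hW0 hW1 hW2 hW3 using hex
    set p : ℝ := pr q s.2 with hp
    have hp0 : 0 ≤ p := pr_nonneg q s.2
    have hp1 : p ≤ 1 := pr_le_one q s.2
    set cf : Finset (Site d) → ℝ := fun A => p ^ A.card * (1 - p) ^ (S \ A).card with hcf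
    have hcf0 : ∀ A, 0 ≤ cf A := fun A => mul_nonneg (pow_nonneg hp0 _)
      (pow_nonneg (by linarith) _)
    have hmarks : (marks (s :: l) : ℝ) = (if s.1 then 1 else 0) + marks l := by
      unfold marks
      cases hs : s.1 with
      | true => simp [hs]; ring
      | false => simp [hs]
    have hunits : units (s :: l) = s.2 + units l := by simp [units]
    have hone : ∑ A ∈ S.powerset, cf A = 1 := by
      have := ebin_one p S
      unfold ebin at this
      simpa using this
    have hfail : fail q i₀ v 1 (s :: l) S =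
        ∑ A ∈ S.powerset, cf A * fail q i₀ v 1 l (next i₀ v s.1 S A) := by
      rw [fail, ebin]
    have hlin : ∀ x : ℝ, x * (1 - fail q i₀ v 1 (s :: l) S) =
        ∑ A ∈ S.powerset, cf A * (x * (1 - fail q i₀ v 1 l (next i₀ v s.1 S A))) := by
      intro x
      have : ∀ A, cf A * (x * (1 - fail q i₀ v 1 l (next i₀ v s.1 S A))) =
          x * cf A - x * (cf A * fail q i₀ v 1 l (next i₀ v s.1 S A)) := by
        intro A
        ring
      simp_rw [this]
      rw [Finset.sum_sub_distrib, ← Finset.mul_sum, ← Finset.mul_sum, hone, ← hfail]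
      ring
    refine ⟨∑ A ∈ S.powerset, cf A • W A, ?_, ?_, ?_, ?_⟩
    · intro z
      rw [Finsupp.finsetSum_apply]
      refine Finset.sum_nonneg fun A hA => ?_
      rw [Finsupp.smul_apply, smul_eq_mul]
      exact mul_nonneg (hcf0 A) (hW0 A (Finset.mem_powerset.1 hA) z)
    · rw [sum_comb S.powerset cf W (fun _ => 1)]
      refine Eq.trans (Finset.sum_congr rfl fun A hA => ?_) hone
      rw [hW1 A (Finset.mem_powerset.1 hA), mul_one]
    · rw [sum_comb S.powerset cf W (fun z => (z i₀ : ℝ)), hlin]
      refine Finset.sum_congr rfl fun A hA => ?_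
      rw [hW2 A (Finset.mem_powerset.1 hA), hmarks]
      congr 2
      push_cast
      split_ifs <;> ring
    · intro n f
      rw [sum_comb S.powerset cf W (fun z => (f z : ℝ)), hlin, ← Finset.sum_add_distrib]
      have hrep : List.replicate (units (s :: l) * 2 ^ n) (dl q n) =
          List.replicate (s.2 * 2 ^ n) (dl q n) ++ List.replicate (units l * 2 ^ n) (dl q n) := by
        rw [hunits, Nat.add_mul, List.replicate_add]
      set δ := dl q n with hδ
      set L := lawK d (List.replicate (units l * 2 ^ n) δ) f with hL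
      have hℓ : (((s.2 * 2 ^ n : ℕ) * δ : ℝ≥0) : ℝ) = (s.2 : ℝ) / q := by
        rw [hδ, dl]
        have : (0 : ℝ) < q := Nat.cast_pos.2 hq
        push_cast
        field_simp
      have hpe : 1 - Real.exp (-(((s.2 * 2 ^ n : ℕ) * δ : ℝ≥0) : ℝ)) = p := by
        rw [hℓ, hp, pr]
      rw [hrep, integral_lawK_append _ _ _
        (integrable_lawK_of_mono (measurable_val S k) (monotone_val S k) _ _)]
      have step1 : ∀ h : Height d, ∑ A ∈ S.powerset, cf A *
          val (next i₀ v s.1 S A) (k + c * (if s.1 then 1 else 0)) h ≤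
          ∫ g, val S k g ∂(lawK d (List.replicate (s.2 * 2 ^ n) δ) h) := by
        intro h
        refine le_trans ?_ (integral_lawK_replicate_ge (measurable_val S k) (monotone_val S k) δ
          (s.2 * 2 ^ n) h)
        have e1 := integral_filter ((s.2 * 2 ^ n : ℕ) * δ) S
          (fun A => val (next i₀ v s.1 S A) (k + c * (if s.1 then 1 else 0)) h)
        rw [hpe] at e1
        have e2 : ebin p S (fun A => val (next i₀ v s.1 S A)
            (k + c * (if s.1 then 1 else 0)) h) = ∑ A ∈ S.powerset, cf A *
          val (next i₀ v s.1 S A) (k + c * (if s.1 then 1 else 0)) h := rfl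
        rw [← e2, ← e1]
        exact integral_mono (integrable_filter _ S (fun A => val (next i₀ v s.1 S A)
            (k + c * (if s.1 then 1 else 0)) h))
          (integrable_siteLaw_of_mono (measurable_val S k) (monotone_val S k) _ h)
          (fun ξ => val_step hcv s.1 S k ξ h)
      have hint : ∀ A, Integrable (fun h => cf A *
          val (next i₀ v s.1 S A) (k + c * (if s.1 then 1 else 0)) h) L := fun A =>
        (integrable_lawK_of_mono (measurable_val _ _) (monotone_val _ _) _ _).const_mul _
      have step2 := integral_mono (integrable_finsetSum S.powerset fun A _ => hint A)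
        (integrable_lawK_of_mono (measurable_integral_lawK (measurable_val S k)
          (List.replicate (s.2 * 2 ^ n) δ)) (monotone_integral_lawK (measurable_val S k)
            (monotone_val S k) _) (List.replicate (units l * 2 ^ n) δ) f) step1
      refine le_trans ?_ step2
      rw [integral_finsetSum _ fun A _ => hint A]
      refine Finset.sum_le_sum fun A hA => ?_
      rw [integral_const_mul]
      have h3 := hW3 A (Finset.mem_powerset.1 hA) n f
      rw [← mul_add]
      refine mul_le_mul_of_nonneg_left ?_ (hcf0 A)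
      refine le_trans (le_of_eq ?_) h3
      rw [hmarks]
      congr 2
      push_cast
      ring

theorem weights (i₀ : Fin d) (v : Site d) (c : ℕ)
    (hcv : (c = 1 ∧ v = 0) ∨ (c = 0 ∧ v = Pi.single i₀ 1)) {q : ℕ} (hq : 0 < q)
    (l : List (Bool × ℕ)) :
    ∃ w : Site d →₀ ℝ, (∀ z, 0 ≤ w z) ∧ (w.sum fun _ a => a) = 1 ∧
      (w.sum fun z a => a * (z i₀ : ℝ)) = v i₀ * marks l * (1 - fail q i₀ v 1 l {0}) ∧
      ∀ (n : ℕ) (f : Height d),
        c * marks l * (1 - fail q i₀ v 1 l {0}) + (w.sum fun z a => a * (f z : ℝ)) ≤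
          ∫ h, (h 0 : ℝ) ∂(lawK d (List.replicate (units l * 2 ^ n) (dl q n)) f) := by
  obtain ⟨w, h0, h1, h2, h3⟩ := weights_aux i₀ v c hcv hq l {0} 0 0 (by
    intro z hz
    rw [Finset.mem_singleton] at hz
    rw [hz]
    rfl)
  refine ⟨w, h0, ?_, ?_, ?_⟩
  · simpa using h1
  · rw [h2]
    simp
  · intro n f
    have := h3 n f
    simp_rw [val_zero] at this
    simpa using this

end Pool.MP4bb68c
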